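import Pool.Agent.Lib.H77S.Defs

/-! H77S, A1: sums over a set with an action of a `p`-group, in characteristic `p`. -/

open scoped BigOperators

noncomputable section

namespace Pool.Agent.Lib.H77S

/-- Only the fixed points count. `Q` acts on the subtype of the non-fixed points; an orbit of a non-fixed point has length divisible by `p`
(the orbits of a finite `p`-group have `p`-power length: `IsPGroup`, or `MulAction.card_orbit_dvd_card` / orbit-stabiliser and `IsPGroup.card_orbit`), `F` is constant on it, so its sum is `0` in `k`.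
(Alternatively: induction on the number of non-fixed points, removing an orbit.) -/
theorem sum_fixed {p : ℕ} [Fact p.Prime] {k : Type} [Field k] [CharP k p] {P : Type} [CommGroup P] [Finite P] (hP : ∀ x : P, ∃ a : ℕ, x ^ (p ^ a) = 1)
    {B : Type} [Fintype B] [MulAction P B] (Q : Subgroup P) (F : B → k) (hF : ∀ x ∈ Q, ∀ β, F (x • β) = F β) (h0 : ∀ β, Fixd Q β → F β = 0) :
    ∑ β, F β = 0 := by
  classical
  have hpg : IsPGroup p Q := by
    intro x
    obtain ⟨a, ha⟩ := hP x.1
    exact ⟨a, Subtype.ext (by simpa using ha)⟩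
  refine Finset.sum_cancels_of_partition_cancels (MulAction.orbitRel Q B) ?_
  intro x _
  have hconst : ∀ a ∈ Finset.univ.filter (fun a => (MulAction.orbitRel Q B) a x), F a = F x := by
    intro a ha
    have h := (Finset.mem_filter.1 ha).2
    rw [MulAction.orbitRel_apply] at h
    obtain ⟨q, hq⟩ := h
    have h2 : F ((q : P) • x) = F x := hF q.1 q.2 x
    rw [← h2]
    exact congrArg F hq.symm
  rw [Finset.sum_congr rfl hconst, Finset.sum_const]
  obtain ⟨n, hn⟩ := hpg.card_orbit x
  have hcard : (Finset.univ.filter (fun a => (MulAction.orbitRel Q B) a x)).card = p ^ n := by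
    rw [← hn, Nat.card_eq_card_toFinset (MulAction.orbit Q x)]
    congr 1
    ext a
    rw [Finset.mem_filter, Set.mem_toFinset, MulAction.orbitRel_apply]
    exact ⟨fun h => h.2, fun h => ⟨Finset.mem_univ _, h⟩⟩
  rw [hcard, nsmul_eq_mul]
  rcases Nat.eq_zero_or_pos n with h | h
  · have hfix : Fixd Q x := by
      intro q hq
      rw [h, pow_zero] at hn
      have hs : Subsingleton (MulAction.orbit Q x) := (Nat.card_eq_one_iff_unique.1 hn).1
      have h1 : (⟨q • x, ⟨(⟨q, hq⟩ : Q), rfl⟩⟩ : MulAction.orbit Q x) =
          ⟨x, MulAction.mem_orbit_self x⟩ := Subsingleton.elim _ _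
      exact congrArg Subtype.val h1
    rw [h0 x hfix, mul_zero]
  · have : ((p ^ n : ℕ) : k) = 0 := by
      rw [Nat.cast_pow, CharP.cast_eq_zero, zero_pow (Nat.pos_iff_ne_zero.1 h)]
    rw [this, zero_mul]

end Pool.Agent.Lib.H77S
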