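import Pool.Agent.Lib.H77S.Defs

/-! H77S, A9: frames for duals, tensor products, summands, twists. -/

open scoped BigOperators Kronecker

noncomputable section

namespace Pool.Agent.Lib.H77S

variable {k : Type} [Field k] {P : Type} [CommGroup P]
variable {ι κ : Type} [Fintype ι] [DecidableEq ι] [Fintype κ] [DecidableEq κ] {u : P →* Matrix ι ι k} {v : P →* Matrix κ κ k}

private theorem A9_single (f : Matrix ι ι k →ₗ[k] k) (φ : Matrix ι ι k) :
    f φ = ∑ i, ∑ j, φ i j * f (Matrix.single i j 1) := by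
  conv_lhs => rw [Matrix.matrix_eq_sum_single φ]
  rw [map_sum]
  refine Finset.sum_congr rfl fun i _ => ?_
  rw [map_sum]
  refine Finset.sum_congr rfl fun j _ => ?_
  have h : Matrix.single i j (φ i j) = φ i j • Matrix.single i j (1 : k) := by
    rw [Matrix.smul_single, smul_eq_mul, mul_one]
  rw [h, map_smul, smul_eq_mul]

/-- The product of two linear functionals. -/
private def A9_kc (f : Matrix ι ι k →ₗ[k] k) (g : Matrix κ κ k →ₗ[k] k) :
    Matrix (ι × κ) (ι × κ) k →ₗ[k] k where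
  toFun Φ := ∑ i, ∑ j, ∑ i', ∑ j', Φ (i, i') (j, j') *
    (f (Matrix.single i j 1) * g (Matrix.single i' j' 1))
  map_add' Φ Ψ := by
    simp only [Matrix.add_apply, add_mul, Finset.sum_add_distrib]
  map_smul' c Φ := by
    simp only [Matrix.smul_apply, smul_eq_mul, Finset.mul_sum, mul_assoc, RingHom.id_apply]

private theorem A9_kc_kron (f : Matrix ι ι k →ₗ[k] k) (g : Matrix κ κ k →ₗ[k] k)
    (φ : Matrix ι ι k) (ψ : Matrix κ κ k) : A9_kc f g (φ ⊗ₖ ψ) = f φ * g ψ := by
  rw [A9_single f φ, A9_single g ψ]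
  show ∑ i, ∑ j, ∑ i', ∑ j', (φ ⊗ₖ ψ) (i, i') (j, j') *
    (f (Matrix.single i j 1) * g (Matrix.single i' j' 1)) = _
  rw [Finset.sum_mul]
  refine Finset.sum_congr rfl fun i _ => ?_
  rw [Finset.sum_mul]
  refine Finset.sum_congr rfl fun j _ => ?_
  rw [Finset.mul_sum]
  refine Finset.sum_congr rfl fun i' _ => ?_
  rw [Finset.mul_sum]
  refine Finset.sum_congr rfl fun j' _ => ?_
  rw [Matrix.kroneckerMap_apply]
  ring

private theorem A9_ext {M : Type*} [AddCommGroup M] [Module k M]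
    (L L' : Matrix (ι × κ) (ι × κ) k →ₗ[k] M)
    (h : ∀ (φ : Matrix ι ι k) (ψ : Matrix κ κ k), L (φ ⊗ₖ ψ) = L' (φ ⊗ₖ ψ))
    (Φ : Matrix (ι × κ) (ι × κ) k) : L Φ = L' Φ := by
  have h1 : ∀ (p q : ι × κ) (a : k), Matrix.single p q a =
      a • (Matrix.single p.1 q.1 (1 : k) ⊗ₖ Matrix.single p.2 q.2 (1 : k)) := by
    intro p q a
    ext r s
    rw [Matrix.smul_apply, Matrix.kroneckerMap_apply, Matrix.single_apply, Matrix.single_apply,
      Matrix.single_apply, smul_eq_mul]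
    by_cases hp : p = r
    · by_cases hq : q = s
      · subst hp
        subst hq
        simp
      · rw [if_neg (fun hh => hq hh.2)]
        rcases not_and_or.1 (fun hh : q.1 = s.1 ∧ q.2 = s.2 => hq (Prod.ext hh.1 hh.2)) with h2 | h2
        · rw [if_neg (fun hh => h2 hh.2), zero_mul, mul_zero]
        · rw [if_neg (c := p.2 = r.2 ∧ q.2 = s.2) (fun hh => h2 hh.2), mul_zero, mul_zero]
    · rw [if_neg (fun hh => hp hh.1)]
      rcases not_and_or.1 (fun hh : p.1 = r.1 ∧ p.2 = r.2 => hp (Prod.ext hh.1 hh.2)) with h2 | h2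
      · rw [if_neg (fun hh => h2 hh.1), zero_mul, mul_zero]
      · rw [if_neg (c := p.2 = r.2 ∧ q.2 = s.2) (fun hh => h2 hh.1), mul_zero, mul_zero]
  rw [Matrix.matrix_eq_sum_single Φ, map_sum, map_sum]
  refine Finset.sum_congr rfl fun p _ => ?_
  rw [map_sum, map_sum]
  refine Finset.sum_congr rfl fun q _ => ?_
  rw [h1, map_smul, map_smul, h]

private theorem A9_inv (w : P →* Matrix ι ι k) (x : P) : w x * w x⁻¹ = 1 := by
  rw [← map_mul, mul_inv_cancel, map_one]

private theorem A9_inv' (w : P →* Matrix ι ι k) (x : P) : w x⁻¹ * w x = 1 := by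
  rw [← map_mul, inv_mul_cancel, map_one]

/-- Product frame: index set `B × B'`, `a (β, β') = a β ⊗ₖ a' β'`, `c (β, β') Φ = ∑ i j i' j', Φ (i,i') (j,j') * c β (E_{ij}) * c' β' (E_{i'j'})`, that is the linear map with `c (β, β') (φ ⊗ₖ ψ) = c β φ * c' β' ψ` (the matrices `E_{ij} ⊗ₖ E_{i'j'}` are a basis; all identities need only be checked on `φ ⊗ₖ ψ`). -/
theorem frame_kron {B B' : Type} [Fintype B] [MulAction P B] [Fintype B'] [MulAction P B'] (F : Frame u B) (F' : Frame v B') :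
    ∃ G : Frame (kr u v) (B × B'), (∀ β β', G.a (β, β') = F.a β ⊗ₖ F'.a β') ∧ ∀ β β' φ ψ, G.c (β, β') (φ ⊗ₖ ψ) = F.c β φ * F'.c β' ψ := by
  refine ⟨{ a := fun b => F.a b.1 ⊗ₖ F'.a b.2
            c := fun b => A9_kc (F.c b.1) (F'.c b.2)
            ha := ?_
            hc := ?_
            sum := ?_ }, fun _ _ => rfl, fun β β' φ ψ => A9_kc_kron _ _ _ _⟩
  · rintro x ⟨β, β'⟩
    show (u x ⊗ₖ v x) * (F.a β ⊗ₖ F'.a β') = (F.a (x • β) ⊗ₖ F'.a (x • β')) * (u x ⊗ₖ v x)
    rw [← Matrix.mul_kronecker_mul, ← Matrix.mul_kronecker_mul, F.ha, F'.ha]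
  · rintro x ⟨β, β'⟩ Φ Ψ hΦ
    have hΨ : Ψ = kr u v x * Φ * kr u v x⁻¹ := by
      rw [hΦ, mul_assoc, A9_inv, mul_one]
    rw [hΨ]
    show A9_kc (F.c (x • β)) (F'.c (x • β')) (kr u v x * Φ * kr u v x⁻¹) =
      A9_kc (F.c β) (F'.c β') Φ
    have h := A9_ext ((A9_kc (F.c (x • β)) (F'.c (x • β'))).comp
      ((LinearMap.mulRight k (kr u v x⁻¹)).comp (LinearMap.mulLeft k (kr u v x))))
      (A9_kc (F.c β) (F'.c β')) ?_ Φ
    · exact h
    · intro φ ψ
      show A9_kc (F.c (x • β)) (F'.c (x • β')) ((u x ⊗ₖ v x) * (φ ⊗ₖ ψ) * (u x⁻¹ ⊗ₖ v x⁻¹)) =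
        A9_kc (F.c β) (F'.c β') (φ ⊗ₖ ψ)
      rw [← Matrix.mul_kronecker_mul, ← Matrix.mul_kronecker_mul, A9_kc_kron, A9_kc_kron,
        F.hc x β φ (u x * φ * u x⁻¹) (by rw [mul_assoc _ _ (u x), A9_inv', mul_one]),
        F'.hc x β' ψ (v x * ψ * v x⁻¹) (by rw [mul_assoc _ _ (v x), A9_inv', mul_one])]
  · intro Φ
    have h := A9_ext (∑ b : B × B', (A9_kc (F.c b.1) (F'.c b.2)).smulRight (F.a b.1 ⊗ₖ F'.a b.2))
      LinearMap.id ?_ Φ
    · rw [LinearMap.sum_apply] at h
      exact h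
    · intro φ ψ
      rw [LinearMap.sum_apply, LinearMap.id_apply]
      have h1 : ∀ b : B × B', (A9_kc (F.c b.1) (F'.c b.2)).smulRight (F.a b.1 ⊗ₖ F'.a b.2)
          (φ ⊗ₖ ψ) = (F.c b.1 φ • F.a b.1) ⊗ₖ (F'.c b.2 ψ • F'.a b.2) := by
        intro b
        rw [LinearMap.smulRight_apply, A9_kc_kron, Matrix.smul_kronecker, Matrix.kronecker_smul,
          smul_smul]
      rw [Finset.sum_congr rfl fun b _ => h1 b]
      conv_rhs => rw [← F.sum φ, ← F'.sum ψ]
      ext p q
      rw [Matrix.sum_apply, Matrix.kroneckerMap_apply, Matrix.sum_apply, Matrix.sum_apply,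
        Finset.sum_mul_sum, Fintype.sum_prod_type]
      rfl

/-- Frame of the dual: `a β` transposed, `c β` of the transposed matrix (use `hc` with `x⁻¹`: `du u x = (u x⁻¹)ᵀ`). -/
theorem framed_dual (h : Framed u) : Framed (du u) := by
  obtain ⟨B, _, _, ⟨F⟩⟩ := h
  refine ⟨B, inferInstance, inferInstance, ⟨{
    a := fun β => (F.a β).transpose
    c := fun β => (F.c β).comp (Matrix.transposeLinearEquiv ι ι k k).toLinearMap
    ha := ?_
    hc := ?_
    sum := ?_ }⟩⟩
  · intro x β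
    show (u x⁻¹).transpose * (F.a β).transpose = (F.a (x • β)).transpose * (u x⁻¹).transpose
    rw [← Matrix.transpose_mul, ← Matrix.transpose_mul, F.ha x⁻¹ (x • β), inv_smul_smul]
  · intro x β φ ψ hφ
    have h1 : (u x⁻¹).transpose * φ = ψ * (u x⁻¹).transpose := hφ
    show F.c (x • β) ψ.transpose = F.c β φ.transpose
    have h2 : u x⁻¹ * ψ.transpose = φ.transpose * u x⁻¹ := by
      have h3 := congrArg Matrix.transpose h1
      rw [Matrix.transpose_mul, Matrix.transpose_mul, Matrix.transpose_transpose] at h3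
      exact h3.symm
    have h4 := F.hc x⁻¹ (x • β) _ _ h2
    rw [inv_smul_smul] at h4
    exact h4.symm
  · intro φ
    show ∑ β, F.c β φ.transpose • (F.a β).transpose = φ
    have h1 := congrArg Matrix.transpose (F.sum φ.transpose)
    rw [Matrix.transpose_sum, Matrix.transpose_transpose] at h1
    rw [← h1]
    refine Finset.sum_congr rfl fun β _ => ?_
    rw [Matrix.transpose_smul, h1]

/-- Frame of a direct summand: `j * i = 1`, `a' β = j * a β * i`, `c' β ψ = c β (i * ψ * j)`. -/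
theorem framed_sub (h : Framed u) {i : Matrix ι κ k} {j : Matrix κ ι k} (hji : j * i = 1) (hi : ∀ x, u x * i = i * v x) (hj : ∀ x, j * u x = v x * j) : Framed v := by
  obtain ⟨B, _, _, ⟨F⟩⟩ := h
  refine ⟨B, inferInstance, inferInstance, ⟨{
    a := fun β => j * F.a β * i
    c := fun β => {
      toFun := fun ψ => F.c β (i * ψ * j)
      map_add' := fun ψ ψ' => by rw [Matrix.mul_add, Matrix.add_mul, map_add]
      map_smul' := fun c ψ => by
        rw [Matrix.mul_smul, Matrix.smul_mul, map_smul, RingHom.id_apply] }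
    ha := ?_
    hc := ?_
    sum := ?_ }⟩⟩
  · intro x β
    show v x * (j * F.a β * i) = j * F.a (x • β) * i * v x
    calc v x * (j * F.a β * i) = (v x * j) * F.a β * i := by simp only [Matrix.mul_assoc]
      _ = j * (u x * F.a β) * i := by rw [← hj]; simp only [Matrix.mul_assoc]
      _ = j * F.a (x • β) * (u x * i) := by rw [F.ha]; simp only [Matrix.mul_assoc]
      _ = j * F.a (x • β) * i * v x := by rw [hi]; simp only [Matrix.mul_assoc]
  · intro x β φ ψ hφ
    show F.c (x • β) (i * ψ * j) = F.c β (i * φ * j)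
    refine F.hc x β (i * φ * j) (i * ψ * j) ?_
    calc u x * (i * φ * j) = (u x * i) * φ * j := by simp only [Matrix.mul_assoc]
      _ = i * (v x * φ) * j := by rw [hi]; simp only [Matrix.mul_assoc]
      _ = i * ψ * (v x * j) := by rw [hφ]; simp only [Matrix.mul_assoc]
      _ = i * ψ * j * u x := by rw [← hj]; simp only [Matrix.mul_assoc]
  · intro φ
    show ∑ β, F.c β (i * φ * j) • (j * F.a β * i) = φ
    have h1 : j * (∑ β, F.c β (i * φ * j) • F.a β) * i = φ := by
      rw [F.sum]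
      calc j * (i * φ * j) * i = (j * i) * φ * (j * i) := by simp only [Matrix.mul_assoc]
        _ = φ := by rw [hji, Matrix.one_mul, Matrix.mul_one]
    conv_rhs => rw [← h1]
    rw [Matrix.mul_sum, Matrix.sum_mul]
    refine Finset.sum_congr rfl fun β _ => ?_
    rw [Matrix.mul_smul, Matrix.smul_mul]

/-- Frame of a twist: the same `a`, `c`, action of `x` on `B` replaced by that of `f⁻¹ x` (`MulAction.compHom`). -/
theorem framed_tws (h : Framed u) (f : MulAut P) : Framed (tws u f) := by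
  obtain ⟨B, hB, hA, ⟨F⟩⟩ := h
  exact ⟨B, hB, MulAction.compHom B (f⁻¹ : MulAut P).toMonoidHom, ⟨@Frame.mk k _ P _ ι _ _
    (tws u f) B hB (MulAction.compHom B (f⁻¹ : MulAut P).toMonoidHom) F.a F.c
    (fun x β => F.ha ((f⁻¹ : MulAut P) x) β) (fun x β φ ψ hφ => F.hc ((f⁻¹ : MulAut P) x) β φ ψ hφ)
    F.sum⟩⟩

end Pool.Agent.Lib.H77S
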