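import Pool.Agent.Lib.H77S.A7
import Pool.Agent.Lib.H77S.A9

/-! H77S, A10: slashes of tensor products and duals. -/

open scoped BigOperators Kronecker

noncomputable section

namespace Pool.Agent.Lib.H77S

variable {p : ℕ} [Fact p.Prime] {k : Type} [Field k] [CharP k p] {P : Type} [CommGroup P] [Finite P]
variable {ι κ ι' κ' : Type} [Fintype ι] [DecidableEq ι] [Fintype κ] [DecidableEq κ] [Fintype ι'] [DecidableEq ι'] [Fintype κ'] [DecidableEq κ']
variable {u : P →* Matrix ι ι k} {v : P →* Matrix κ κ k} {u' : P →* Matrix ι' ι' k} {v' : P →* Matrix κ' κ' k} {Q : Subgroup P}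
variable {b : Matrix ι ι k →ₗ[k] Matrix ι' ι' k} {c : Matrix κ κ k →ₗ[k] Matrix κ' κ' k}

private theorem a10_cent_kron {φ : Matrix ι ι k} {ψ : Matrix κ κ k} (h : Cent u Q φ) (h' : Cent v Q ψ) :
    Cent (kr u v) Q (φ ⊗ₖ ψ) := fun x hx => by
  show (u x ⊗ₖ v x) * (φ ⊗ₖ ψ) = (φ ⊗ₖ ψ) * (u x ⊗ₖ v x)
  rw [← Matrix.mul_kronecker_mul, ← Matrix.mul_kronecker_mul, h x hx, h' x hx]

private theorem a10_cent_add {φ ψ : Matrix ι ι k} (h : Cent u Q φ) (h' : Cent u Q ψ) :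
    Cent u Q (φ + ψ) := fun x hx => by
  rw [mul_add, add_mul, h x hx, h' x hx]

private theorem a10_cent_smul {φ : Matrix ι ι k} (r : k) (h : Cent u Q φ) :
    Cent u Q (r • φ) := fun x hx => by
  rw [mul_smul_comm, smul_mul_assoc, h x hx]

private theorem a10_cent_zero : Cent u Q (0 : Matrix ι ι k) := fun x _ => by
  rw [mul_zero, zero_mul]

private theorem a10_cent_one : Cent u Q (1 : Matrix ι ι k) := fun x _ => by
  rw [mul_one, one_mul]

private theorem a10_cent_sum {J : Type*} (s : Finset J) {f : J → Matrix ι ι k}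
    (h : ∀ j ∈ s, Cent u Q (f j)) : Cent u Q (∑ j ∈ s, f j) := fun x hx => by
  rw [Finset.mul_sum, Finset.sum_mul]
  exact Finset.sum_congr rfl fun j hj => h j hj x hx

/-- The value of `b` at the reduction. -/
private theorem a10_red (hP : ∀ x : P, ∃ a : ℕ, x ^ (p ^ a) = 1) (hn : (Fintype.card ι : k) ≠ 0)
    (hs : IsSlash u Q u' b) {B : Type} [Fintype B] [MulAction P B] [DecidableEq B] (F : Frame u B)
    [DecidablePred (Fixd (B := B) Q)] {φ : Matrix ι ι k} (h : Cent u Q φ) :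
    b φ = ∑ β, if Fixd Q β then F.c β φ • b (F.a β) else 0 := by
  have h1 := F.in_red hP h
  have h2 := (hs.ker hP hn F h1.1).2 h1
  rw [map_sub, sub_eq_zero] at h2
  rw [h2, map_sum]
  refine Finset.sum_congr rfl fun β _ => ?_
  split_ifs
  · rw [map_smul]
  · rw [map_zero]

/-- Tensor product. Frames `F`, `F'`, product frame `G` (`frame_kron`). Define `d Φ = ∑_{β, β' fixed} G.c (β, β') Φ • (b (a β) ⊗ₖ c (a' β'))` (linear in `Φ`). (i) `d Φ = 0` for `G.In Q Φ`. (ii) `d (φ ⊗ₖ ψ) = b φ ⊗ₖ c ψ` for `φ ∈ Cent u Q`, `ψ ∈ Cent v Q` (`Frame.in_red` and `IsSlash.ker` for `u` and for `v`).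
(iii) multiplicative on `Cent (kr u v) Q`: modulo the ideal (`Frame.in_mul`, `Frame.in_red`) every element is a combination of `a β ⊗ₖ a' β'`, `β`, `β'` fixed; then (ii) and bilinearity. (iv) traces: `trace (φ ⊗ₖ ψ) = trace φ * trace ψ` (`Matrix.trace_kronecker`), `Frame.in_tr`. (v) `surj`: matrices `X ⊗ₖ Y` span. (vi) `act`: (ii) for `u x`, `v x`. -/
theorem slash_kron (hP : ∀ x : P, ∃ a : ℕ, x ^ (p ^ a) = 1) (hn : (Fintype.card ι : k) ≠ 0) (hm : (Fintype.card κ : k) ≠ 0) (hF : Framed u) (hG : Framed v)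
    (hs : IsSlash u Q u' b) (ht : IsSlash v Q v' c) : ∃ d : Matrix (ι × κ) (ι × κ) k →ₗ[k] Matrix (ι' × κ') (ι' × κ') k, IsSlash (kr u v) Q (kr u' v') d := by
  classical
  obtain ⟨B, fB, mB, ⟨F⟩⟩ := hF
  obtain ⟨B', fB', mB', ⟨F'⟩⟩ := hG
  obtain ⟨G, hGa, hGc⟩ := frame_kron F F'
  have hfix : ∀ β β', Fixd Q ((β, β') : B × B') ↔ Fixd Q β ∧ Fixd Q β' := by
    intro β β'
    constructor
    · intro h
      exact ⟨fun x hx => congrArg Prod.fst (h x hx), fun x hx => congrArg Prod.snd (h x hx)⟩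
    · rintro ⟨h1, h2⟩ x hx
      exact Prod.ext (h1 x hx) (h2 x hx)
  let d : Matrix (ι × κ) (ι × κ) k →ₗ[k] Matrix (ι' × κ') (ι' × κ') k :=
    ∑ q : B × B', if Fixd Q q then (G.c q).smulRight (b (F.a q.1) ⊗ₖ c (F'.a q.2)) else 0
  have hd : ∀ Φ, d Φ = ∑ q : B × B', if Fixd Q q then G.c q Φ • (b (F.a q.1) ⊗ₖ c (F'.a q.2)) else 0 := by
    intro Φ
    rw [LinearMap.sum_apply]
    refine Finset.sum_congr rfl fun q _ => ?_
    split_ifs
    · rfl
    · rfl
  -- (i)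
  have h1 : ∀ Φ, G.In Q Φ → d Φ = 0 := by
    intro Φ hΦ
    rw [hd]
    refine Finset.sum_eq_zero fun q _ => ?_
    split_ifs with hq
    · rw [hΦ.2 q hq, zero_smul]
    · rfl
  -- (ii)
  have h2 : ∀ φ ψ, Cent u Q φ → Cent v Q ψ → d (φ ⊗ₖ ψ) = b φ ⊗ₖ c ψ := by
    intro φ ψ hφ hψ
    rw [hd, a10_red hP hn hs F hφ, a10_red hP hm ht F' hψ, Fintype.sum_prod_type]
    have e1 : ∀ (X : Matrix ι' ι' k) (Y : B' → Matrix κ' κ' k),
        X ⊗ₖ (∑ β', Y β') = ∑ β', X ⊗ₖ Y β' := by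
      intro X Y
      ext ⟨i, i'⟩ ⟨j, j'⟩
      simp only [Matrix.kroneckerMap_apply, Matrix.sum_apply, Finset.mul_sum]
    have e2 : ∀ (X : B → Matrix ι' ι' k) (Y : Matrix κ' κ' k),
        (∑ β, X β) ⊗ₖ Y = ∑ β, X β ⊗ₖ Y := by
      intro X Y
      ext ⟨i, i'⟩ ⟨j, j'⟩
      simp only [Matrix.kroneckerMap_apply, Matrix.sum_apply, Finset.sum_mul]
    rw [e2]
    refine Finset.sum_congr rfl fun β _ => ?_
    rw [e1]
    refine Finset.sum_congr rfl fun β' _ => ?_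
    rw [hfix]
    by_cases hβ : Fixd Q β
    · by_cases hβ' : Fixd Q β'
      · rw [if_pos ⟨hβ, hβ'⟩, if_pos hβ, if_pos hβ', hGc, Matrix.smul_kronecker, Matrix.kronecker_smul,
          smul_smul]
      · rw [if_neg (fun h => hβ' h.2), if_neg hβ', Matrix.kronecker_zero]
    · rw [if_neg (fun h => hβ h.1), if_neg hβ, Matrix.zero_kronecker]
  -- the span
  let S : Submodule k (Matrix (ι × κ) (ι × κ) k) :=
    Submodule.span k {Φ | ∃ φ ψ, Cent u Q φ ∧ Cent v Q ψ ∧ Φ = φ ⊗ₖ ψ}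
  have hSc : ∀ Φ ∈ S, Cent (kr u v) Q Φ := by
    intro Φ hΦ
    induction hΦ using Submodule.span_induction with
    | mem x hx =>
      obtain ⟨φ, ψ, hφ, hψ, rfl⟩ := hx
      exact a10_cent_kron hφ hψ
    | zero => exact a10_cent_zero
    | add x y _ _ hx hy => exact a10_cent_add hx hy
    | smul r x _ hx => exact a10_cent_smul r hx
  have hred : ∀ Φ, Cent (kr u v) Q Φ → ∃ Φ' ∈ S, G.In Q (Φ - Φ') := by
    intro Φ hΦ
    refine ⟨_, ?_, G.in_red hP hΦ⟩
    refine Submodule.sum_mem _ fun q _ => ?_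
    split_ifs with hq
    · refine Submodule.smul_mem _ _ (Submodule.subset_span ?_)
      obtain ⟨β, β'⟩ := q
      rw [hfix] at hq
      exact ⟨F.a β, F'.a β', F.cent_a hq.1, F'.cent_a hq.2, hGa β β'⟩
    · exact Submodule.zero_mem _
  have hdred : ∀ Φ Φ', G.In Q (Φ - Φ') → d Φ = d Φ' := by
    intro Φ Φ' h
    have h3 := h1 _ h
    rwa [map_sub, sub_eq_zero] at h3
  have hmulS : ∀ Φ ∈ S, ∀ Ψ ∈ S, d (Φ * Ψ) = d Φ * d Ψ := by
    intro Φ hΦ Ψ hΨ
    induction hΦ using Submodule.span_induction with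
    | mem x hx =>
      obtain ⟨φ, ψ, hφ, hψ, rfl⟩ := hx
      induction hΨ using Submodule.span_induction with
      | mem y hy =>
        obtain ⟨φ', ψ', hφ', hψ', rfl⟩ := hy
        rw [← Matrix.mul_kronecker_mul, h2 _ _ (cent_mul hφ hφ') (cent_mul hψ hψ'), h2 _ _ hφ hψ,
          h2 _ _ hφ' hψ', hs.mul _ _ hφ hφ', ht.mul _ _ hψ hψ', Matrix.mul_kronecker_mul]
      | zero => rw [mul_zero, map_zero, mul_zero]
      | add y z _ _ hy hz => rw [mul_add, map_add, map_add, mul_add, hy, hz]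
      | smul r y _ hy => rw [mul_smul_comm, map_smul, map_smul, mul_smul_comm, hy]
    | zero => rw [zero_mul, map_zero, zero_mul]
    | add y z _ _ hy hz => rw [add_mul, map_add, map_add, add_mul, hy, hz]
    | smul r y _ hy => rw [smul_mul_assoc, map_smul, map_smul, smul_mul_assoc, hy]
  refine ⟨d, ?_, ?_, ?_, ?_, ?_⟩
  · have h3 := h2 1 1 a10_cent_one a10_cent_one
    rw [Matrix.one_kronecker_one, hs.one, ht.one, Matrix.one_kronecker_one] at h3
    exact h3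
  · intro Φ Ψ hΦ hΨ
    obtain ⟨Φ', hΦ'S, hΦ'⟩ := hred Φ hΦ
    obtain ⟨Ψ', hΨ'S, hΨ'⟩ := hred Ψ hΨ
    rw [hdred _ _ hΦ', hdred _ _ hΨ', ← hmulS Φ' hΦ'S Ψ' hΨ'S]
    have e1 : G.In Q (1 * (Φ - Φ') * Ψ) := G.in_mul hP hΦ' a10_cent_one hΨ
    have e2 : G.In Q (Φ' * (Ψ - Ψ') * 1) := G.in_mul hP hΨ' (hSc Φ' hΦ'S) a10_cent_one
    have e3 : Φ * Ψ = Φ' * Ψ' + (1 * (Φ - Φ') * Ψ + Φ' * (Ψ - Ψ') * 1) := by
      noncomm_ring
    rw [e3, map_add, map_add, h1 _ e1, h1 _ e2, add_zero, add_zero]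
  · intro Ψ
    choose φ hφc hφ using fun q : ι' × ι' => hs.surj (Matrix.single q.1 q.2 (1 : k))
    choose ψ hψc hψ using fun q : κ' × κ' => ht.surj (Matrix.single q.1 q.2 (1 : k))
    refine ⟨∑ i : ι' × κ', ∑ j : ι' × κ', Ψ i j • (φ (i.1, j.1) ⊗ₖ ψ (i.2, j.2)), ?_, ?_⟩
    · refine a10_cent_sum _ fun i _ => a10_cent_sum _ fun j _ => a10_cent_smul _ ?_
      exact a10_cent_kron (hφc _) (hψc _)
    · rw [map_sum]
      conv_rhs => rw [Matrix.matrix_eq_sum_single Ψ]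
      refine Finset.sum_congr rfl fun i _ => ?_
      rw [map_sum]
      refine Finset.sum_congr rfl fun j _ => ?_
      rw [map_smul, h2 _ _ (hφc _) (hψc _), hφ, hψ, Matrix.single_kronecker_single, Matrix.smul_single,
        mul_one, smul_eq_mul, mul_one]
  · obtain ⟨e, he, hetr⟩ := hs.tr
    obtain ⟨e', he', hetr'⟩ := ht.tr
    refine ⟨e * e', mul_ne_zero he he', fun Φ hΦ => ?_⟩
    obtain ⟨Φ', hΦ'S, hΦ'⟩ := hred Φ hΦ
    have e1 : Matrix.trace ((Φ - Φ') * 1) = 0 := G.in_tr hP hΦ' a10_cent_one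
    rw [mul_one, Matrix.trace_sub, sub_eq_zero] at e1
    rw [hdred _ _ hΦ', e1]
    clear e1 hΦ'
    induction hΦ'S using Submodule.span_induction with
    | mem x hx =>
      obtain ⟨φ, ψ, hφ, hψ, rfl⟩ := hx
      rw [h2 _ _ hφ hψ, Matrix.trace_kronecker, Matrix.trace_kronecker, hetr φ hφ, hetr' ψ hψ]
      ring
    | zero => simp
    | add y z _ _ hy hz => rw [Matrix.trace_add, map_add, Matrix.trace_add, hy, hz, mul_add]
    | smul r y _ hy =>
      rw [Matrix.trace_smul, map_smul, Matrix.trace_smul, hy, smul_eq_mul, smul_eq_mul]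
      ring
  · intro x
    show d (u x ⊗ₖ v x) = u' x ⊗ₖ v' x
    rw [h2 _ _ (cent_u u Q x) (cent_u v Q x), hs.act, ht.act]

/-- Dual: `φ ↦ (b φᵀ)ᵀ`. `Cent (du u) Q φ` is `Cent u Q φᵀ`. -/
theorem slash_dual (hs : IsSlash u Q u' b) : ∃ d : Matrix ι ι k →ₗ[k] Matrix ι' ι' k, IsSlash (du u) Q (du u') d := by
  have hcent : ∀ φ, Cent (du u) Q φ ↔ Cent u Q φ.transpose := by
    intro φ
    constructor
    · intro h x hx
      have h1 : (u x⁻¹⁻¹).transpose * φ = φ * (u x⁻¹⁻¹).transpose := h x⁻¹ (Q.inv_mem hx)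
      rw [inv_inv] at h1
      have h2 := congrArg Matrix.transpose h1
      rw [Matrix.transpose_mul, Matrix.transpose_mul, Matrix.transpose_transpose] at h2
      exact h2.symm
    · intro h x hx
      show (u x⁻¹).transpose * φ = φ * (u x⁻¹).transpose
      have h1 := h x⁻¹ (Q.inv_mem hx)
      have h2 := congrArg Matrix.transpose h1
      rw [Matrix.transpose_mul, Matrix.transpose_mul, Matrix.transpose_transpose] at h2
      exact h2.symm
  let d : Matrix ι ι k →ₗ[k] Matrix ι' ι' k :=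
    { toFun := fun φ => (b φ.transpose).transpose
      map_add' := fun φ ψ => by rw [Matrix.transpose_add, map_add, Matrix.transpose_add]
      map_smul' := fun r φ => by
        rw [Matrix.transpose_smul, map_smul, Matrix.transpose_smul, RingHom.id_apply] }
  have hd : ∀ φ, d φ = (b φ.transpose).transpose := fun _ => rfl
  refine ⟨d, ?_, ?_, ?_, ?_, ?_⟩
  · rw [hd, Matrix.transpose_one, hs.one, Matrix.transpose_one]
  · intro φ ψ hφ hψ
    rw [hd, hd, hd, Matrix.transpose_mul, hs.mul _ _ ((hcent ψ).1 hψ) ((hcent φ).1 hφ),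
      Matrix.transpose_mul]
  · intro ψ
    obtain ⟨φ, hφ, h⟩ := hs.surj ψ.transpose
    refine ⟨φ.transpose, ?_, ?_⟩
    · rw [hcent, Matrix.transpose_transpose]
      exact hφ
    · rw [hd, Matrix.transpose_transpose, h, Matrix.transpose_transpose]
  · obtain ⟨e, he, h⟩ := hs.tr
    refine ⟨e, he, fun φ hφ => ?_⟩
    rw [hd, Matrix.trace_transpose, ← h _ ((hcent φ).1 hφ), Matrix.trace_transpose]
  · intro x
    rw [hd]
    show (b ((u x⁻¹).transpose).transpose).transpose = (u' x⁻¹).transpose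
    rw [Matrix.transpose_transpose, hs.act]

end Pool.Agent.Lib.H77S
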