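import Pool.Agent.Lib.H77S.A8

/-! H77S, A11: `Good` and `OneAt` read on the slash. -/

open scoped BigOperators

noncomputable section

namespace Pool.Agent.Lib.H77S

variable {p : ℕ} [Fact p.Prime] {k : Type} [Field k] [CharP k p] {P : Type} [CommGroup P] [Finite P]
variable {ι κ : Type} [Fintype ι] [DecidableEq ι] [Fintype κ] [DecidableEq κ] {u : P →* Matrix ι ι k} {u' : P →* Matrix κ κ k}
variable {Q R : Subgroup P} {b : Matrix ι ι k →ₗ[k] Matrix κ κ k}

omit [Fintype ι] [DecidableEq ι] [Fact p.Prime] [CharP k p] in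
/-- The trace form is nondegenerate. -/
private theorem a11_ext {A B : Matrix κ κ k} (h : ∀ Y : Matrix κ κ k, Matrix.trace (A * Y) = Matrix.trace (B * Y)) : A = B := by
  ext i j
  have h1 := h (Matrix.single j i 1)
  rw [Matrix.trace_mul_single, Matrix.trace_mul_single] at h1
  simpa using h1

omit [Fact p.Prime] [CharP k p] [Finite P] in
/-- Lifting with the trace. -/
private theorem a11_tr (hs : IsSlash u R u' b) : ∃ e : k, e ≠ 0 ∧ (Fintype.card ι : k) = e * (Fintype.card κ : k) ∧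
    ∀ φ, Cent u R φ → Matrix.trace φ = e * Matrix.trace (b φ) := by
  obtain ⟨e, he, h⟩ := hs.tr
  refine ⟨e, he, ?_, h⟩
  have h1 := h 1 (fun x _ => by rw [mul_one, one_mul])
  rw [hs.one, Matrix.trace_one, Matrix.trace_one] at h1
  exact h1

/-- `Good` in terms of the slash. `→`: `J = b j` commutes with `P` (`IsSlash.cent`), `trace J ≠ 0`, and for every matrix `X` there is `c` with `trace (J * X * J * Y) = c * trace (J * Y)` for all `Y` (`tr`, `surj`, `mul`), so `J * X * J = c • J`: hence `J` has rank one, `J = Matrix.vecMulVec v l` with `l ⬝ᵥ v ≠ 0`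
(choose an entry `J a b ≠ 0`, `X = E_{ba}`-type matrices give `J i a * J b j = c(..) J i j`). `J` commutes with `u' x`: `u' x v = χ v`, `l u' x = χ l` for a scalar `χ` with `χ ^ (p ^ a) = 1`, so `χ = 1`. Rescale `v`.
`←`: the rank one matrix `v l` commutes with `P`; lift it to `j ∈ Cent u ⊤` (`IsSlash.lift` with `R ≤ ⊤`); `b (j * φ * j) = (l ⬝ᵥ b φ v) • b j`, use `tr`. -/
theorem good_iff (hP : ∀ x : P, ∃ a : ℕ, x ^ (p ^ a) = 1) (hn : (Fintype.card ι : k) ≠ 0) (hF : Framed u) (hs : IsSlash u R u' b) : Good u R ↔ HasTriv u' := by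
  obtain ⟨e, he, hcard, htr⟩ := a11_tr hs
  constructor
  · rintro ⟨j, hj, hjt, hj2⟩
    have hjR : Cent u R j := fun x _ => hj x (Subgroup.mem_top x)
    have hJ : Cent u' ⊤ (b j) := hs.cent le_top hj
    have hJt : Matrix.trace (b j) ≠ 0 := by
      intro h0
      apply hjt
      rw [htr j hjR, h0, mul_zero]
    have hc : ∀ X : Matrix κ κ k, ∃ c : k, b j * X * b j = c • b j := by
      intro X
      obtain ⟨φ, hφ, rfl⟩ := hs.surj X
      obtain ⟨c, hc⟩ := hj2 φ hφ
      refine ⟨c, a11_ext fun Y => ?_⟩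
      obtain ⟨ψ, hψ, rfl⟩ := hs.surj Y
      have h1 := hc ψ hψ
      rw [htr _ (cent_mul (cent_mul (cent_mul hjR hφ) hjR) hψ), htr _ (cent_mul hjR hψ),
        hs.mul _ _ (cent_mul (cent_mul hjR hφ) hjR) hψ, hs.mul _ _ (cent_mul hjR hφ) hjR,
        hs.mul _ _ hjR hφ, hs.mul _ _ hjR hψ] at h1
      have h2 : e * Matrix.trace (b j * b φ * b j * b ψ) = e * (c * Matrix.trace (b j * b ψ)) := by
        rw [h1]; ring
      rw [mul_left_cancel₀ he h2, Matrix.smul_mul, Matrix.trace_smul, smul_eq_mul]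
    generalize b j = J at hJ hJt hc
    have hne : ∃ i0 j0, J i0 j0 ≠ 0 := by
      by_contra hall
      push Not at hall
      apply hJt
      rw [Matrix.trace]
      exact Finset.sum_eq_zero fun i _ => hall i i
    obtain ⟨i0, j0, hne⟩ := hne
    obtain ⟨c, hc0⟩ := hc (Matrix.single j0 i0 1)
    have hent : ∀ i l, J i j0 * J i0 l = c * J i l := by
      intro i l
      have h1 := congrFun (congrFun hc0 i) l
      rw [Matrix.smul_apply, smul_eq_mul] at h1
      rw [← h1, Matrix.mul_apply]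
      rw [Finset.sum_eq_single i0]
      · rw [Matrix.mul_apply, Finset.sum_eq_single j0]
        · simp
        · intro q _ hq
          rw [Matrix.single_apply_of_row_ne (Ne.symm hq), mul_zero]
        · intro h; exact absurd (Finset.mem_univ _) h
      · intro q _ hq
        rw [Matrix.mul_apply, Finset.sum_eq_zero, zero_mul]
        intro r _
        rw [Matrix.single_apply_of_col_ne _ _ (Ne.symm hq), mul_zero]
      · intro h; exact absurd (Finset.mem_univ _) h
    have hc1 : c ≠ 0 := by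
      intro h0
      have h1 := hent i0 j0
      rw [h0, zero_mul] at h1
      exact hne (mul_self_eq_zero.1 h1)
    set v : κ → k := fun i => J i j0 with hv
    set l : κ → k := fun i => c⁻¹ * J i0 i with hl
    have hJv : J = Matrix.vecMulVec v l := by
      ext i q
      rw [Matrix.vecMulVec_apply, hv, hl]
      show J i q = J i j0 * (c⁻¹ * J i0 q)
      have h1 := hent i q
      have h2 : J i j0 * (c⁻¹ * J i0 q) = c⁻¹ * (J i j0 * J i0 q) := by ring
      rw [h2, h1, ← mul_assoc, inv_mul_cancel₀ hc1, one_mul]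
    have htl : l ⬝ᵥ v = Matrix.trace J := by
      rw [hJv, Matrix.trace_vecMulVec, dotProduct_comm]
    have ht0 : l ⬝ᵥ v ≠ 0 := by rw [htl]; exact hJt
    have hcomm : ∀ x, Matrix.vecMulVec ((u' x).mulVec v) l = Matrix.vecMulVec v (Matrix.vecMul l (u' x)) := by
      intro x
      have h1 := hJ x (Subgroup.mem_top x)
      rw [hJv, Matrix.mul_vecMulVec, Matrix.vecMulVec_mul] at h1
      exact h1
    set t : k := l ⬝ᵥ v with htd
    have hχ : ∀ x, (u' x).mulVec v = (t⁻¹ * (Matrix.vecMul l (u' x) ⬝ᵥ v)) • v := by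
      intro x
      have h1 := congrArg (fun A => Matrix.mulVec A v) (hcomm x)
      simp only [Matrix.vecMulVec_mulVec] at h1
      have h2 : t • (u' x).mulVec v = (Matrix.vecMul l (u' x) ⬝ᵥ v) • v := by
        simpa [htd] using h1
      calc (u' x).mulVec v = t⁻¹ • (t • (u' x).mulVec v) := by
            rw [smul_smul, inv_mul_cancel₀ ht0, one_smul]
        _ = _ := by rw [h2, smul_smul]
    have hχl : ∀ x, Matrix.vecMul l (u' x) = (t⁻¹ * (Matrix.vecMul l (u' x) ⬝ᵥ v)) • l := by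
      intro x
      have h1 := congrArg (fun A => Matrix.vecMul l A) (hcomm x)
      simp only [Matrix.vecMul_vecMulVec] at h1
      have h3 : l ⬝ᵥ (u' x).mulVec v = Matrix.vecMul l (u' x) ⬝ᵥ v := Matrix.dotProduct_mulVec _ _ _
      have h2 : (Matrix.vecMul l (u' x) ⬝ᵥ v) • l = t • Matrix.vecMul l (u' x) := by
        rw [← h3]
        simpa [htd] using h1
      calc Matrix.vecMul l (u' x) = t⁻¹ • (t • Matrix.vecMul l (u' x)) := by
            rw [smul_smul, inv_mul_cancel₀ ht0, one_smul]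
        _ = _ := by rw [← h2, smul_smul]
    have hv0 : ∃ q, v q ≠ 0 := ⟨i0, hne⟩
    have hone : ∀ x, t⁻¹ * (Matrix.vecMul l (u' x) ⬝ᵥ v) = 1 := by
      intro x
      obtain ⟨a, ha⟩ := hP x
      set χ : k := t⁻¹ * (Matrix.vecMul l (u' x) ⬝ᵥ v) with hχd
      have hpow : ∀ m : ℕ, (u' (x ^ m)).mulVec v = χ ^ m • v := by
        intro m
        induction m with
        | zero => simp
        | succ m ih =>
          rw [pow_succ, map_mul, ← Matrix.mulVec_mulVec, hχ x, Matrix.mulVec_smul, ih, smul_smul,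
            ← hχd, pow_succ, mul_comm]
      have h1 := hpow (p ^ a)
      rw [ha, map_one, Matrix.one_mulVec] at h1
      obtain ⟨q, hq⟩ := hv0
      have h2 := congrFun h1 q
      rw [Pi.smul_apply, smul_eq_mul] at h2
      have h3 : χ ^ (p ^ a) = 1 := by
        have h4 : (χ ^ (p ^ a) - 1) * v q = 0 := by rw [sub_mul, one_mul, ← h2, sub_self]
        rcases mul_eq_zero.1 h4 with h5 | h5
        · exact sub_eq_zero.1 h5
        · exact absurd h5 hq
      have h6 : (χ - 1) ^ (p ^ a) = 0 := by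
        rw [sub_pow_char_pow, h3, one_pow, sub_self]
      exact sub_eq_zero.1 (pow_eq_zero_iff (pow_ne_zero a (Fact.out : p.Prime).ne_zero) |>.1 h6)
    refine ⟨v, t⁻¹ • l, fun x => ?_, fun x => ?_, ?_⟩
    · rw [hχ x, hone x, one_smul]
    · rw [Matrix.smul_vecMul, hχl x, hone x, one_smul]
    · rw [smul_dotProduct, smul_eq_mul]
      exact inv_mul_cancel₀ ht0
  · rintro ⟨v, l, hv, hl, hlv⟩
    have hJ : Cent u' ⊤ (Matrix.vecMulVec v l) := by
      intro x _
      rw [Matrix.mul_vecMulVec, Matrix.vecMulVec_mul, hv, hl]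
    obtain ⟨j, hj, hbj⟩ := hs.lift hP hn hF le_top hJ
    have hjR : Cent u R j := fun x _ => hj x (Subgroup.mem_top x)
    refine ⟨j, hj, ?_, fun φ hφ => ⟨l ⬝ᵥ (b φ).mulVec v, fun ψ hψ => ?_⟩⟩
    · rw [htr j hjR, hbj, Matrix.trace_vecMulVec, dotProduct_comm, hlv, mul_one]
      exact he
    · rw [htr _ (cent_mul (cent_mul (cent_mul hjR hφ) hjR) hψ), htr _ (cent_mul hjR hψ),
        hs.mul _ _ (cent_mul (cent_mul hjR hφ) hjR) hψ, hs.mul _ _ (cent_mul hjR hφ) hjR,
        hs.mul _ _ hjR hφ, hs.mul _ _ hjR hψ, hbj]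
      have h1 : Matrix.vecMulVec v l * b φ * Matrix.vecMulVec v l =
          (l ⬝ᵥ (b φ).mulVec v) • Matrix.vecMulVec v l := by
        rw [Matrix.vecMulVec_mul, Matrix.vecMulVec_mul_vecMulVec, ← Matrix.dotProduct_mulVec]
        ext i q
        simp only [Matrix.vecMulVec_apply, Matrix.smul_apply, Pi.smul_apply, smul_eq_mul]
        try ring
      rw [h1, Matrix.smul_mul, Matrix.trace_smul, smul_eq_mul]
      ring

/-- `OneAt` in terms of the slash. With `tr φ = e * tr (b φ)`, `n = e * card κ`: `OneAt` says `trace (X * Y) * card κ = trace X * trace Y` for all matrices `X`, `Y` of size `κ` (`card κ ≠ 0` in `k`); `X = Y` a rank one idempotent and `X`, `Y` orthogonal rank one idempotents show that `κ` has one element. -/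
theorem oneAt_iff (hn : (Fintype.card ι : k) ≠ 0) (hs : IsSlash u Q u' b) : OneAt u Q ↔ Fintype.card κ = 1 := by
  obtain ⟨e, he, hcard, htr⟩ := a11_tr hs
  have hk : (Fintype.card κ : k) ≠ 0 := by
    intro h0
    apply hn
    rw [hcard, h0, mul_zero]
  constructor
  · intro h
    have hkey : ∀ X Y : Matrix κ κ k, Matrix.trace (X * Y) * (Fintype.card κ : k) = Matrix.trace X * Matrix.trace Y := by
      intro X Y
      obtain ⟨φ, hφ, rfl⟩ := hs.surj X
      obtain ⟨ψ, hψ, rfl⟩ := hs.surj Y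
      have h1 := h φ ψ hφ hψ
      rw [htr _ (cent_mul hφ hψ), htr _ hφ, htr _ hψ, hs.mul _ _ hφ hψ, hcard] at h1
      have h2 : (e * e) * (Matrix.trace (b φ * b ψ) * (Fintype.card κ : k)) =
          (e * e) * (Matrix.trace (b φ) * Matrix.trace (b ψ)) := by
        calc (e * e) * (Matrix.trace (b φ * b ψ) * (Fintype.card κ : k))
            = e * Matrix.trace (b φ * b ψ) * (e * (Fintype.card κ : k)) := by ring
          _ = e * Matrix.trace (b φ) * (e * Matrix.trace (b ψ)) := h1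
          _ = _ := by ring
      exact mul_left_cancel₀ (mul_ne_zero he he) h2
    have hpos : 0 < Fintype.card κ := by
      rcases Nat.eq_zero_or_pos (Fintype.card κ) with h0 | h0
      · rw [h0] at hk
        simp at hk
      · exact h0
    rw [Fintype.card_eq_one_iff]
    obtain ⟨i0⟩ := Fintype.card_pos_iff.1 hpos
    refine ⟨i0, fun i => ?_⟩
    by_contra hne
    have h1 := hkey (Matrix.single i i 1) (Matrix.single i0 i0 1)
    rw [Matrix.single_mul_single_of_ne _ _ _ _ hne, Matrix.trace_zero, zero_mul,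
      Matrix.trace_single_eq_same, Matrix.trace_single_eq_same, one_mul] at h1
    exact zero_ne_one h1
  · intro h1
    rw [Fintype.card_eq_one_iff] at h1
    obtain ⟨i0, hi⟩ := h1
    have huniv : (Finset.univ : Finset κ) = {i0} := by
      ext i
      simp [hi i]
    have hT : ∀ X : Matrix κ κ k, Matrix.trace X = X i0 i0 := by
      intro X
      rw [Matrix.trace, huniv, Finset.sum_singleton]
      rfl
    have hc1 : (Fintype.card κ : k) = 1 := by
      rw [Fintype.card_eq_one_iff.2 ⟨i0, hi⟩, Nat.cast_one]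
    intro φ ψ hφ hψ
    rw [htr _ (cent_mul hφ hψ), htr _ hφ, htr _ hψ, hs.mul _ _ hφ hψ, hcard, hc1, hT, hT, hT,
      Matrix.mul_apply, huniv, Finset.sum_singleton]
    ring

/-- `Good` goes up: with `R ≤ R'`, the slash at `R'` is the slash of the slash at `R`. Direct proof: the same `j` works (`Cent u R' φ → Cent u R φ`). -/
theorem good_mono (hRR : Q ≤ R) (h : Good u Q) : Good u R := by
  obtain ⟨j, hj, hjt, hj2⟩ := h
  refine ⟨j, hj, hjt, fun φ hφ => ?_⟩
  obtain ⟨c, hc⟩ := hj2 φ (fun x hx => hφ x (hRR hx))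
  exact ⟨c, fun ψ hψ => hc ψ (fun x hx => hψ x (hRR hx))⟩

/-- `OneAt` goes up (trivial). -/
theorem oneAt_mono (hRR : Q ≤ R) (h : OneAt u Q) : OneAt u R := by
  exact fun φ ψ hφ hψ => h φ ψ (fun x hx => hφ x (hRR hx)) (fun x hx => hψ x (hRR hx))

/-- `OneAt` passes to slashes: elements of `Cent u' R` lift to `Cent u (Q ⊔ R)` (`IsSlash.cent_sup`, `IsSlash.lift`), `tr`. -/
theorem oneAt_slash (hP : ∀ x : P, ∃ a : ℕ, x ^ (p ^ a) = 1) (hn : (Fintype.card ι : k) ≠ 0) (hF : Framed u) (hs : IsSlash u Q u' b) (h : OneAt u R) : OneAt u' R := by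
  obtain ⟨e, he, hcard, htr⟩ := a11_tr hs
  intro φ' ψ' hφ' hψ'
  obtain ⟨φ, hφ, rfl⟩ := hs.lift hP hn hF le_sup_left (hs.cent_sup hP hφ')
  obtain ⟨ψ, hψ, rfl⟩ := hs.lift hP hn hF le_sup_left (hs.cent_sup hP hψ')
  have q1 : Cent u Q φ := fun x hx => hφ x ((le_sup_left : Q ≤ Q ⊔ R) hx)
  have q2 : Cent u Q ψ := fun x hx => hψ x ((le_sup_left : Q ≤ Q ⊔ R) hx)
  have r1 : Cent u R φ := fun x hx => hφ x ((le_sup_right : R ≤ Q ⊔ R) hx)
  have r2 : Cent u R ψ := fun x hx => hψ x ((le_sup_right : R ≤ Q ⊔ R) hx)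
  have h1 := h φ ψ r1 r2
  rw [htr _ (cent_mul q1 q2), htr _ q1, htr _ q2, hs.mul _ _ q1 q2, hcard] at h1
  have h2 : (e * e) * (Matrix.trace (b φ * b ψ) * (Fintype.card κ : k)) =
      (e * e) * (Matrix.trace (b φ) * Matrix.trace (b ψ)) := by
    calc (e * e) * (Matrix.trace (b φ * b ψ) * (Fintype.card κ : k))
        = e * Matrix.trace (b φ * b ψ) * (e * (Fintype.card κ : k)) := by ring
      _ = e * Matrix.trace (b φ) * (e * Matrix.trace (b ψ)) := h1
      _ = _ := by ring
  exact mul_left_cancel₀ (mul_ne_zero he he) h2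

/-- `Good` at `Q ⊔ R` passes to the slash at `Q`: with `j' = b j`, and lifts of `φ`, `ψ ∈ Cent u' R` to `Cent u (Q ⊔ R)`. -/
theorem good_slash (hP : ∀ x : P, ∃ a : ℕ, x ^ (p ^ a) = 1) (hn : (Fintype.card ι : k) ≠ 0) (hF : Framed u) (hs : IsSlash u Q u' b) (h : Good u (Q ⊔ R)) : Good u' R := by
  obtain ⟨e, he, hcard, htr⟩ := a11_tr hs
  obtain ⟨j, hj, hjt, hj2⟩ := h
  have qj : Cent u Q j := fun x _ => hj x (Subgroup.mem_top x)
  refine ⟨b j, hs.cent le_top hj, ?_, ?_⟩
  · intro h0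
    apply hjt
    rw [htr j qj, h0, mul_zero]
  · intro φ' hφ'
    obtain ⟨φ, hφ, rfl⟩ := hs.lift hP hn hF le_sup_left (hs.cent_sup hP hφ')
    have q1 : Cent u Q φ := fun x hx => hφ x ((le_sup_left : Q ≤ Q ⊔ R) hx)
    obtain ⟨c, hc⟩ := hj2 φ hφ
    refine ⟨c, fun ψ' hψ' => ?_⟩
    obtain ⟨ψ, hψ, rfl⟩ := hs.lift hP hn hF le_sup_left (hs.cent_sup hP hψ')
    have q2 : Cent u Q ψ := fun x hx => hψ x ((le_sup_left : Q ≤ Q ⊔ R) hx)
    have h1 := hc ψ hψ
    rw [htr _ (cent_mul (cent_mul (cent_mul qj q1) qj) q2), htr _ (cent_mul qj q2),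
      hs.mul _ _ (cent_mul (cent_mul qj q1) qj) q2, hs.mul _ _ (cent_mul qj q1) qj,
      hs.mul _ _ qj q1, hs.mul _ _ qj q2] at h1
    have h2 : e * Matrix.trace (b j * b φ * b j * b ψ) = e * (c * Matrix.trace (b j * b ψ)) := by
      rw [h1]; ring
    exact mul_left_cancel₀ he h2

end Pool.Agent.Lib.H77S
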