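import Pool.Agent.Lib.H77S.A1

/-! H77S, A2: the ideal `In` of a frame. -/

open scoped BigOperators

noncomputable section

namespace Pool.Agent.Lib.H77S

variable {p : ℕ} [Fact p.Prime] {k : Type} [Field k] [CharP k p] {P : Type} [CommGroup P] [Finite P]
variable {ι : Type} [Fintype ι] [DecidableEq ι] {u : P →* Matrix ι ι k} {B : Type} [Fintype B] [MulAction P B]

/-- `u x` commutes with every `u y`. -/
theorem cent_u (u : P →* Matrix ι ι k) (Q : Subgroup P) (x : P) : Cent u Q (u x) := fun y _ => by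
  rw [← map_mul, ← map_mul, mul_comm]

/-- Product of two elements of `Cent`. -/
theorem cent_mul {Q : Subgroup P} {φ ψ : Matrix ι ι k} (h : Cent u Q φ) (h' : Cent u Q ψ) : Cent u Q (φ * ψ) := fun x hx => by
  rw [← mul_assoc, h x hx, mul_assoc, h' x hx, mul_assoc]

/-- `hc` with `ψ = φ`. -/
theorem Frame.c_smul (F : Frame u B) {Q : Subgroup P} {φ : Matrix ι ι k} (h : Cent u Q φ) {x : P} (hx : x ∈ Q) (β : B) : F.c (x • β) φ = F.c β φ :=
  F.hc x β φ φ (h x hx)

/-- `a β` commutes with `Q` if `β` is fixed by `Q`. -/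
theorem Frame.cent_a (F : Frame u B) {Q : Subgroup P} {β : B} (h : Fixd Q β) : Cent u Q (F.a β) := fun x hx => by
  rw [F.ha, h x hx]

/-- If `t` is `Q`-invariant then `∑ t β • a β` commutes with `Q` (`ha`, reindex by `x • ·`). -/
theorem Frame.cent_sum (F : Frame u B) {Q : Subgroup P} (t : B → k) (ht : ∀ x ∈ Q, ∀ β, t (x • β) = t β) : Cent u Q (∑ β, t β • F.a β) := by
  intro x hx
  rw [Finset.mul_sum, Finset.sum_mul,
    ← Equiv.sum_comp (MulAction.toPerm x) (fun β => (t β • F.a β) * u x)]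
  refine Finset.sum_congr rfl fun β _ => ?_
  show u x * (t β • F.a β) = (t (x • β) • F.a (x • β)) * u x
  rw [ht x hx, Matrix.mul_smul, F.ha, Matrix.smul_mul]

/-- The key computation: `t` is `Q`-invariant and `0` at the fixed points, `ψ`, `χ` commute with `Q`: the coefficient of `ψ * (∑ t β • a β) * χ` at a fixed point `γ` is `0`.
It is `∑ β, t β * c γ (ψ * a β * χ)`, the summand is a `Q`-invariant function of `β`: `ψ * a (x • β) * χ` is the conjugate of `ψ * a β * χ` by `u x`, use `hc` (with `x • γ = γ`); it is `0` at the fixed `β`; `sum_fixed`. -/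
theorem Frame.c_sum (hP : ∀ x : P, ∃ a : ℕ, x ^ (p ^ a) = 1) (F : Frame u B) {Q : Subgroup P} (t : B → k) (ht : ∀ x ∈ Q, ∀ β, t (x • β) = t β) (h0 : ∀ β, Fixd Q β → t β = 0)
    {ψ χ : Matrix ι ι k} (hψ : Cent u Q ψ) (hχ : Cent u Q χ) {γ : B} (hγ : Fixd Q γ) : F.c γ (ψ * (∑ β, t β • F.a β) * χ) = 0 := by
  have h1 : F.c γ (ψ * (∑ β, t β • F.a β) * χ) = ∑ β, t β * F.c γ (ψ * F.a β * χ) := by
    rw [Finset.mul_sum, Finset.sum_mul, map_sum]
    refine Finset.sum_congr rfl fun β _ => ?_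
    rw [Matrix.mul_smul, Matrix.smul_mul, map_smul, smul_eq_mul]
  rw [h1]
  refine sum_fixed hP Q _ (fun x hx β => ?_) (fun β hβ => ?_)
  · have h2 : F.c (x • γ) (ψ * F.a (x • β) * χ) = F.c γ (ψ * F.a β * χ) := by
      refine F.hc x γ _ _ ?_
      calc u x * (ψ * F.a β * χ) = (u x * ψ) * F.a β * χ := by simp only [mul_assoc]
        _ = ψ * (u x * F.a β) * χ := by rw [hψ x hx]; simp only [mul_assoc]
        _ = ψ * F.a (x • β) * (u x * χ) := by rw [F.ha]; simp only [mul_assoc]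
        _ = ψ * F.a (x • β) * χ * u x := by rw [hχ x hx]; simp only [mul_assoc]
    rw [hγ x hx] at h2
    rw [ht x hx, h2]
  · rw [h0 β hβ, zero_mul]

/-- The same for the trace: `trace (a (x • β) * ψ) = trace (a β * ψ)` for `x ∈ Q` (`a (x • β) = u x * a β * u x⁻¹`). -/
theorem Frame.tr_sum (hP : ∀ x : P, ∃ a : ℕ, x ^ (p ^ a) = 1) (F : Frame u B) {Q : Subgroup P} (t : B → k) (ht : ∀ x ∈ Q, ∀ β, t (x • β) = t β) (h0 : ∀ β, Fixd Q β → t β = 0)
    {ψ : Matrix ι ι k} (hψ : Cent u Q ψ) : Matrix.trace ((∑ β, t β • F.a β) * ψ) = 0 := by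
  have h1 : Matrix.trace ((∑ β, t β • F.a β) * ψ) = ∑ β, t β * Matrix.trace (F.a β * ψ) := by
    rw [Finset.sum_mul, Matrix.trace_sum]
    refine Finset.sum_congr rfl fun β _ => ?_
    rw [Matrix.smul_mul, Matrix.trace_smul, smul_eq_mul]
  rw [h1]
  refine sum_fixed hP Q _ (fun x hx β => ?_) (fun β hβ => ?_)
  · have h3 : u x * u x⁻¹ = 1 := by rw [← map_mul, mul_inv_cancel, map_one]
    have h4 : u x⁻¹ * u x = 1 := by rw [← map_mul, inv_mul_cancel, map_one]
    have h5 : F.a (x • β) = u x * F.a β * u x⁻¹ := by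
      rw [F.ha, mul_assoc, h3, mul_one]
    have h2 : Matrix.trace (F.a (x • β) * ψ) = Matrix.trace (F.a β * ψ) := by
      calc Matrix.trace (F.a (x • β) * ψ) = Matrix.trace (u x * (F.a β * u x⁻¹ * ψ)) := by
            rw [h5]; simp only [mul_assoc]
        _ = Matrix.trace (F.a β * u x⁻¹ * ψ * u x) := Matrix.trace_mul_comm _ _
        _ = Matrix.trace (F.a β * (u x⁻¹ * u x) * ψ) := by
            rw [mul_assoc _ ψ, ← hψ x hx]; simp only [mul_assoc]
        _ = Matrix.trace (F.a β * ψ) := by rw [h4, mul_one]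
    rw [ht x hx, h2]
  · rw [h0 β hβ, zero_mul]

/-- `In` is a two-sided ideal (for `φ ∈ In`: `φ = ∑ c β φ • a β`, `c_smul`, `c_sum`). -/
theorem Frame.in_mul (hP : ∀ x : P, ∃ a : ℕ, x ^ (p ^ a) = 1) (F : Frame u B) {Q : Subgroup P} {φ ψ χ : Matrix ι ι k} (h : F.In Q φ) (hψ : Cent u Q ψ) (hχ : Cent u Q χ) :
    F.In Q (ψ * φ * χ) := by
  refine ⟨cent_mul (cent_mul hψ h.1) hχ, fun γ hγ => ?_⟩
  have h1 := F.c_sum hP (fun β => F.c β φ) (fun x hx β => F.c_smul h.1 hx β) h.2 hψ hχ hγ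
  rwa [F.sum φ] at h1

/-- The trace form vanishes on `In`. -/
theorem Frame.in_tr (hP : ∀ x : P, ∃ a : ℕ, x ^ (p ^ a) = 1) (F : Frame u B) {Q : Subgroup P} {φ ψ : Matrix ι ι k} (h : F.In Q φ) (hψ : Cent u Q ψ) : Matrix.trace (φ * ψ) = 0 := by
  have h1 := F.tr_sum hP (fun β => F.c β φ) (fun x hx β => F.c_smul h.1 hx β) h.2 hψ
  rwa [F.sum φ] at h1

/-- Reduction to the fixed points: `φ - ∑_{β fixed} c β φ • a β ∈ In` (it is `∑ t β • a β` with `t β = c β φ` off the fixed points and `0` at them; `c_sum` with `ψ = χ = 1`). -/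
theorem Frame.in_red [DecidableEq B] (hP : ∀ x : P, ∃ a : ℕ, x ^ (p ^ a) = 1) (F : Frame u B) {Q : Subgroup P} [DecidablePred (Fixd (B := B) Q)] {φ : Matrix ι ι k} (h : Cent u Q φ) :
    F.In Q (φ - ∑ β, if Fixd Q β then F.c β φ • F.a β else 0) := by
  have hfx : ∀ x ∈ Q, ∀ β : B, Fixd Q (x • β) ↔ Fixd Q β := by
    intro x hx β
    constructor
    · intro hb
      have h1 : x • β = β := by
        have h2 := hb x hx
        exact MulAction.injective x h2
      rwa [h1] at hb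
    · intro hb
      rw [hb x hx]
      exact hb
  have ht : ∀ x ∈ Q, ∀ β : B, (if Fixd Q (x • β) then (0 : k) else F.c (x • β) φ) =
      if Fixd Q β then 0 else F.c β φ := by
    intro x hx β
    by_cases hb : Fixd Q β
    · rw [if_pos hb, if_pos ((hfx x hx β).2 hb)]
    · rw [if_neg hb, if_neg (fun h' => hb ((hfx x hx β).1 h')), F.c_smul h hx]
  have h1 : φ - ∑ β, (if Fixd Q β then F.c β φ • F.a β else 0) =
      ∑ β, (if Fixd Q β then (0 : k) else F.c β φ) • F.a β := by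
    rw [sub_eq_iff_eq_add, ← Finset.sum_add_distrib]
    refine (F.sum φ).symm.trans (Finset.sum_congr rfl fun β _ => ?_)
    by_cases hb : Fixd Q β
    · rw [if_pos hb, if_pos hb, zero_smul, zero_add]
    · rw [if_neg hb, if_neg hb, add_zero]
  rw [h1]
  refine ⟨F.cent_sum (fun β => if Fixd Q β then (0 : k) else F.c β φ) ht, fun γ hγ => ?_⟩
  have h2 := F.c_sum hP (fun β => if Fixd Q β then (0 : k) else F.c β φ) ht
    (fun β hβ => if_pos hβ) (Q := Q) (ψ := 1) (χ := 1)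
    (fun x _ => by rw [mul_one, one_mul]) (fun x _ => by rw [mul_one, one_mul]) hγ
  rwa [one_mul, mul_one] at h2

end Pool.Agent.Lib.H77S
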