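import Pool.Agent.Lib.H77S.A2

/-! H77S, A3: the quotient of `Cent u Q` by `In` is simple. -/

open scoped BigOperators

noncomputable section

namespace Pool.Agent.Lib.H77S

variable {p : ℕ} [Fact p.Prime] {k : Type} [Field k] [CharP k p] {P : Type} [CommGroup P] [Finite P]
variable {ι : Type} [Fintype ι] [DecidableEq ι] {u : P →* Matrix ι ι k} {B : Type} [Fintype B] [MulAction P B]

private theorem A3_sum4 {α β γ δ M : Type} [Fintype α] [Fintype β] [Fintype γ] [Fintype δ] [AddCommMonoid M]
    (F : α → β → γ → δ → M) :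
    ∑ l, ∑ i, ∑ a, ∑ b, F l i a b = ∑ a, ∑ b, ∑ l, ∑ i, F l i a b := by
  have h1 : ∑ x : α × β, ∑ y : γ × δ, F x.1 x.2 y.1 y.2 =
      ∑ y : γ × δ, ∑ x : α × β, F x.1 x.2 y.1 y.2 := Finset.sum_comm
  simpa only [Fintype.sum_prod_type] using h1

private theorem A3_entry {k : Type} [Field k] {ι : Type} [Fintype ι] [DecidableEq ι] (g h : Matrix ι ι k)
    (l i a b : ι) : (g * Matrix.single l i (1 : k) * h : Matrix ι ι k) a b = g a l * h i b := by
  have e : ∀ j, (g * Matrix.single l i (1 : k) : Matrix ι ι k) a j = if i = j then g a l else 0 := by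
    intro j
    rw [Matrix.mul_apply]
    simp only [Matrix.single_apply]
    by_cases hij : i = j
    · simp [hij]
    · simp [hij]
  rw [Matrix.mul_apply]
  simp only [e]
  simp

private theorem A3_entry2 {k : Type} [Field k] {ι : Type} [Fintype ι] [DecidableEq ι] (X : Matrix ι ι k)
    (l i a b : ι) : (Matrix.single l i (1 : k) * X * Matrix.single i l (1 : k) : Matrix ι ι k) a b =
      if l = a ∧ l = b then X i i else 0 := by
  have h1 := A3_entry (Matrix.single l i (1 : k) * X) 1 i l a b
  have h2 := A3_entry (1 : Matrix ι ι k) X l i a i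
  rw [mul_one] at h1
  rw [one_mul] at h2
  rw [h1, h2, Matrix.one_apply, Matrix.one_apply]
  by_cases h3 : l = a
  · by_cases h4 : l = b
    · rw [if_pos h3.symm, if_pos h4, if_pos ⟨h3, h4⟩, one_mul, mul_one]
    · rw [if_neg h4, mul_zero, if_neg]
      rintro ⟨-, h5⟩
      exact h4 h5
  · rw [if_neg (fun h : a = l => h3 h.symm), zero_mul, zero_mul, if_neg]
    rintro ⟨h5, -⟩
    exact h3 h5

omit [DecidableEq ι] in
private theorem A3_expand [DecidableEq ι] (X : Matrix ι ι k) :
    X = ∑ a, ∑ b, X a b • Matrix.single a b (1 : k) := by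
  have h := Matrix.matrix_eq_sum_single X
  simpa only [Matrix.smul_single, smul_eq_mul, mul_one] using h

/-- The Casimir element `∑ E_{li} ⊗ E_{il}` is invariant under `g ⊗ g`: for bilinear `Φ`, `h = g⁻¹`. Expand `g * E_{li} * h = ∑ a b, g a l * h i b • E_{ab}`, then the sum over `i` and over `l` gives `h * g = 1` and `h * g = 1`. -/
theorem casimir (Φ : Matrix ι ι k →ₗ[k] Matrix ι ι k →ₗ[k] k) {g h : Matrix ι ι k} (h1 : g * h = 1) (h2 : h * g = 1) :
    ∑ l, ∑ i, Φ (g * Matrix.single l i 1 * h) (g * Matrix.single i l 1 * h) = ∑ l, ∑ i, Φ (Matrix.single l i 1) (Matrix.single i l 1) := by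
  have e1 : ∀ l i, g * Matrix.single l i 1 * h = ∑ a, ∑ b, (g a l * h i b) • Matrix.single a b (1 : k) := by
    intro l i
    have h3 := A3_expand (g * Matrix.single l i 1 * h)
    simp only [A3_entry] at h3
    exact h3
  have e2 : ∀ a b, ∑ l, ∑ i, (g a l * h i b) • (g * Matrix.single i l 1 * h) = Matrix.single b a (1 : k) := by
    intro a b
    ext c d
    simp only [Matrix.sum_apply, Matrix.smul_apply, A3_entry, smul_eq_mul]
    have h3 : ∑ l, ∑ i, g a l * h i b * (g c i * h l d) = (g * h) a d * (g * h) c b := by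
      rw [Matrix.mul_apply, Matrix.mul_apply, Finset.sum_mul_sum]
      refine Finset.sum_congr rfl fun l _ => Finset.sum_congr rfl fun i _ => ?_
      ring
    rw [h3, h1, Matrix.one_apply, Matrix.one_apply, Matrix.single_apply]
    by_cases hc : b = c
    · by_cases hd : a = d
      · simp [hc, hd]
      · simp [hc, hd]
    · have hc' : ¬ c = b := fun h => hc h.symm
      simp [hc, hc']
  calc ∑ l, ∑ i, Φ (g * Matrix.single l i 1 * h) (g * Matrix.single i l 1 * h)
      = ∑ l, ∑ i, ∑ a, ∑ b, (g a l * h i b) • Φ (Matrix.single a b 1) (g * Matrix.single i l 1 * h) := by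
        refine Finset.sum_congr rfl fun l _ => Finset.sum_congr rfl fun i _ => ?_
        rw [e1 l i]
        simp only [map_sum, LinearMap.sum_apply, map_smul, LinearMap.smul_apply]
    _ = ∑ a, ∑ b, ∑ l, ∑ i, (g a l * h i b) • Φ (Matrix.single a b 1) (g * Matrix.single i l 1 * h) :=
        A3_sum4 _
    _ = ∑ a, ∑ b, Φ (Matrix.single a b 1) (Matrix.single b a 1) := by
        refine Finset.sum_congr rfl fun a _ => Finset.sum_congr rfl fun b _ => ?_
        rw [← e2 a b]
        simp only [map_sum, map_smul]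

/-- `φ ∈ Cent u Q` not in the ideal `In`: the two-sided ideal of `Cent u Q` generated by `φ` contains `1` modulo `In`.
Proof. Take `β₀` fixed with `c β₀ φ ≠ 0`. There is a matrix `f` with `c β₀ ψ = trace (f * ψ)` for all `ψ`; it commutes with `Q` (`hc` and nondegeneracy of the trace form). Then `(c β₀ ψ) • 1 = ∑ l i, (E_{li} * f) * ψ * E_{il}` for every `ψ`
(`E_{li} * X * E_{il} = X i i • E_{ll}`). Expand `E_{li} * f` and `E_{il}` by the frame: `(c β₀ ψ) • 1 = ∑ β β', t β β' • (a β * ψ * a β')`, `t β β' = ∑ l i, c β (E_{li} * f) * c β' (E_{il})`.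
`t (x • β) (x • β') = t β β'` for `x ∈ Q`: by `casimir` with `g = u x`, `h = u x⁻¹`, `Φ X Y = c (x • β) (X * f) * c (x • β') Y`, `f` commutes with `u x`, and `hc`.
Put `χ = ∑_{β, β' fixed} t β β' • (a β * φ * a β')` and `δ = (c β₀ φ) • 1 - χ = ∑_{(β,β') not both fixed} t β β' • (a β * φ * a β')`. For fixed `γ` the function `(β, β') ↦ t β β' * c γ (a β * φ * a β')` on `B × B` (product action) is `Q`-invariant, so `sum_fixed` for `B × B` gives `c γ δ = 0`;
`δ` commutes with `Q`. Hence `F.In Q δ`; divide by `c β₀ φ`; index set `B × B` (with coefficient 0 for the pairs that are not fixed) : `x (β, β') = (t β β' / c β₀ φ) • a β` or `0`, `y (β, β') = a β'` or `0`. -/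
theorem Frame.simple (hP : ∀ x : P, ∃ a : ℕ, x ^ (p ^ a) = 1) (F : Frame u B) {Q : Subgroup P} {φ : Matrix ι ι k} (h : Cent u Q φ) (hn : ¬ F.In Q φ) :
    ∃ (J : Type) (_ : Fintype J) (x y : J → Matrix ι ι k), (∀ j, Cent u Q (x j)) ∧ (∀ j, Cent u Q (y j)) ∧ F.In Q ((∑ j, x j * φ * y j) - 1) := by
  classical
  obtain ⟨β₀, hβ₀, hc₀⟩ : ∃ β₀, Fixd Q β₀ ∧ F.c β₀ φ ≠ 0 := by
    by_contra hcon
    push Not at hcon
    exact hn ⟨h, hcon⟩
  have hinv : ∀ x : P, u x * u x⁻¹ = 1 := fun x => by rw [← map_mul, mul_inv_cancel, map_one]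
  have hinv' : ∀ x : P, u x⁻¹ * u x = 1 := fun x => by rw [← map_mul, inv_mul_cancel, map_one]
  -- the coefficient of a conjugate
  have hconj : ∀ (x : P) (β : B) (X : Matrix ι ι k), F.c (x • β) (u x * X * u x⁻¹) = F.c β X := by
    intro x β X
    refine F.hc x β X _ ?_
    rw [mul_assoc, hinv', mul_one]
  -- the matrix of the functional `c β₀`
  set f : Matrix ι ι k := Matrix.of fun i j => F.c β₀ (Matrix.single j i 1) with hf
  have htr : ∀ ψ, Matrix.trace (f * ψ) = F.c β₀ ψ := by
    intro ψ
    conv_rhs => rw [A3_expand ψ]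
    simp only [map_sum, map_smul, Matrix.trace, Matrix.diag_apply, Matrix.mul_apply, smul_eq_mul]
    rw [Finset.sum_comm]
    refine Finset.sum_congr rfl fun i _ => Finset.sum_congr rfl fun j _ => ?_
    rw [hf, Matrix.of_apply, mul_comm]
  have hfc : ∀ x ∈ Q, u x * f = f * u x := by
    intro x hx
    have h1 : u x⁻¹ * f * u x = f := by
      rw [Matrix.ext_iff_trace_mul_right]
      intro X
      have h2 : Matrix.trace (u x⁻¹ * f * u x * X) = Matrix.trace (f * (u x * X * u x⁻¹)) := by
        rw [mul_assoc, mul_assoc, Matrix.trace_mul_comm]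
        simp only [mul_assoc]
      rw [h2, htr, htr]
      have h3 := hconj x β₀ X
      rw [hβ₀ x hx] at h3
      exact h3
    calc u x * f = u x * (u x⁻¹ * f * u x) := by rw [h1]
      _ = (u x * u x⁻¹) * f * u x := by simp only [mul_assoc]
      _ = f * u x := by rw [hinv, one_mul]
  have hfc' : ∀ x ∈ Q, u x⁻¹ * f = f * u x⁻¹ := fun x hx => hfc x⁻¹ (Q.inv_mem hx)
  -- the coefficients `t`
  set t : B → B → k := fun β β' => ∑ l, ∑ i, F.c β (Matrix.single l i 1 * f) * F.c β' (Matrix.single i l 1) with ht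
  have htinv : ∀ x ∈ Q, ∀ β β', t (x • β) (x • β') = t β β' := by
    intro x hx β β'
    set Φ : Matrix ι ι k →ₗ[k] Matrix ι ι k →ₗ[k] k :=
      LinearMap.mk₂ k (fun X Y => F.c (x • β) (X * f) * F.c (x • β') Y)
        (fun X X' Y => by rw [add_mul, map_add, add_mul])
        (fun c X Y => by rw [Matrix.smul_mul, map_smul, smul_eq_mul, smul_eq_mul, mul_assoc])
        (fun X Y Y' => by rw [map_add, mul_add])
        (fun c X Y => by rw [map_smul, smul_eq_mul, smul_eq_mul]; ring) with hΦ
    have h3 := casimir Φ (hinv x) (hinv' x)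
    have h4 : ∀ X Y, Φ X Y = F.c (x • β) (X * f) * F.c (x • β') Y := fun X Y => rfl
    simp only [h4] at h3
    rw [ht]
    simp only
    rw [← h3]
    refine Finset.sum_congr rfl fun l _ => Finset.sum_congr rfl fun i _ => ?_
    have h5 : u x * Matrix.single l i 1 * u x⁻¹ * f = u x * (Matrix.single l i 1 * f) * u x⁻¹ := by
      simp only [mul_assoc]
      rw [hfc' x hx]
    rw [h5, hconj, hconj]
  -- the expansion
  have hexp : ∀ ψ : Matrix ι ι k, F.c β₀ ψ • (1 : Matrix ι ι k) = ∑ β, ∑ β', t β β' • (F.a β * ψ * F.a β') := by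
    intro ψ
    have h3 : F.c β₀ ψ • (1 : Matrix ι ι k) =
        ∑ l, ∑ i, (Matrix.single l i 1 * f) * ψ * Matrix.single i l 1 := by
      ext a b
      simp only [Matrix.sum_apply, Matrix.smul_apply, smul_eq_mul]
      have h4 : ∀ l i, (Matrix.single l i (1 : k) * f * ψ * Matrix.single i l (1 : k) : Matrix ι ι k) a b =
          if l = a ∧ l = b then (f * ψ) i i else 0 := by
        intro l i
        rw [mul_assoc (Matrix.single l i (1 : k)) f ψ]
        exact A3_entry2 (f * ψ) l i a b
      simp only [h4]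
      rw [← htr ψ, Matrix.trace, Matrix.one_apply]
      simp only [Matrix.diag_apply]
      by_cases hab : a = b
      · subst hab
        rw [if_pos rfl, mul_one]
        have h6 : ∑ l, ∑ i, (if l = a ∧ l = a then (f * ψ) i i else 0) = ∑ i, (f * ψ) i i := by
          rw [Finset.sum_eq_single a]
          · simp
          · intro l _ hl
            simp [hl]
          · intro ha
            exact absurd (Finset.mem_univ a) ha
        exact h6.symm
      · rw [if_neg hab, mul_zero]
        symm
        refine Finset.sum_eq_zero fun l _ => Finset.sum_eq_zero fun i _ => ?_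
        rw [if_neg]
        rintro ⟨rfl, rfl⟩
        exact hab rfl
    rw [h3]
    have h4 : ∀ l i, (Matrix.single l i 1 * f) * ψ * Matrix.single i l 1 =
        ∑ β, ∑ β', (F.c β (Matrix.single l i 1 * f) * F.c β' (Matrix.single i l 1)) • (F.a β * ψ * F.a β') := by
      intro l i
      conv_lhs => rw [← F.sum (Matrix.single l i 1 * f), ← F.sum (Matrix.single i l 1)]
      simp only [Finset.sum_mul, Finset.mul_sum, Matrix.smul_mul, Matrix.mul_smul, smul_smul]
      rw [Finset.sum_comm]
      refine Finset.sum_congr rfl fun β _ => Finset.sum_congr rfl fun β' _ => ?_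
      rw [mul_comm]
    simp only [h4]
    rw [A3_sum4]
    refine Finset.sum_congr rfl fun β _ => Finset.sum_congr rfl fun β' _ => ?_
    rw [ht]
    simp only [Finset.sum_smul]
  set c₀ : k := F.c β₀ φ with hc₀'
  -- the fixed part
  set X : B × B → Matrix ι ι k := fun j => if Fixd Q j.1 ∧ Fixd Q j.2 then (t j.1 j.2 / c₀) • F.a j.1 else 0 with hX
  set Y : B × B → Matrix ι ι k := fun j => if Fixd Q j.1 ∧ Fixd Q j.2 then F.a j.2 else 0 with hY
  have hX1 : ∀ j, Cent u Q (X j) := by
    intro j
    by_cases hj : Fixd Q j.1 ∧ Fixd Q j.2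
    · rw [hX]
      simp only [if_pos hj]
      intro x hx
      rw [Matrix.mul_smul, Matrix.smul_mul, F.cent_a hj.1 x hx]
    · rw [hX]
      simp only [if_neg hj]
      intro x _
      rw [mul_zero, zero_mul]
  have hY1 : ∀ j, Cent u Q (Y j) := by
    intro j
    by_cases hj : Fixd Q j.1 ∧ Fixd Q j.2
    · rw [hY]
      simp only [if_pos hj]
      exact F.cent_a hj.2
    · rw [hY]
      simp only [if_neg hj]
      intro x _
      rw [mul_zero, zero_mul]
  refine ⟨B × B, inferInstance, X, Y, hX1, hY1, ?_, ?_⟩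
  · intro x hx
    rw [mul_sub, sub_mul, mul_one, one_mul, Finset.mul_sum, Finset.sum_mul]
    congr 1
    refine Finset.sum_congr rfl fun j _ => ?_
    exact cent_mul (cent_mul (hX1 j) h) (hY1 j) x hx
  · intro γ hγ
    -- the non-fixed part has coefficient zero
    set G : B × B → k := fun j => if Fixd Q j.1 ∧ Fixd Q j.2 then 0 else t j.1 j.2 * F.c γ (F.a j.1 * φ * F.a j.2) with hG
    have hG0 : ∑ j, G j = 0 := by
      refine sum_fixed hP Q G ?_ ?_
      · intro x hx j
        have h3 : (Fixd Q (x • j).1 ∧ Fixd Q (x • j).2) ↔ (Fixd Q j.1 ∧ Fixd Q j.2) := by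
          have h4 : ∀ β : B, Fixd Q (x • β) ↔ Fixd Q β := by
            intro β
            constructor
            · intro h5
              have h6 := h5 x⁻¹ (Q.inv_mem hx)
              rw [inv_smul_smul] at h6
              rw [← h6] at h5
              exact h5
            · intro h5
              rw [h5 x hx]
              exact h5
          exact and_congr (h4 _) (h4 _)
        rw [hG]
        simp only
        by_cases hj : Fixd Q j.1 ∧ Fixd Q j.2
        · rw [if_pos hj, if_pos (h3.2 hj)]
        · rw [if_neg hj, if_neg (fun h5 => hj (h3.1 h5))]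
          have h4 : t (x • j).1 (x • j).2 = t j.1 j.2 := htinv x hx j.1 j.2
          rw [h4]
          congr 1
          have h5 : F.c (x • γ) (F.a (x • j).1 * φ * F.a (x • j).2) = F.c γ (F.a j.1 * φ * F.a j.2) := by
            refine F.hc x γ _ _ ?_
            have h6 : (x • j).1 = x • j.1 := rfl
            have h7 : (x • j).2 = x • j.2 := rfl
            rw [h6, h7]
            calc u x * (F.a j.1 * φ * F.a j.2) = (u x * F.a j.1) * φ * F.a j.2 := by simp only [mul_assoc]
              _ = F.a (x • j.1) * (u x * φ) * F.a j.2 := by rw [F.ha]; simp only [mul_assoc]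
              _ = F.a (x • j.1) * φ * (u x * F.a j.2) := by rw [h x hx]; simp only [mul_assoc]
              _ = F.a (x • j.1) * φ * F.a (x • j.2) * u x := by rw [F.ha]; simp only [mul_assoc]
          rw [hγ x hx] at h5
          exact h5
      · intro j hj
        rw [hG]
        simp only
        rw [if_pos]
        constructor
        · intro x hx
          exact congrArg Prod.fst (hj x hx)
        · intro x hx
          exact congrArg Prod.snd (hj x hx)
    have h3 : F.c γ (c₀ • (1 : Matrix ι ι k)) = ∑ j : B × B, t j.1 j.2 * F.c γ (F.a j.1 * φ * F.a j.2) := by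
      rw [hc₀', hexp φ]
      simp only [map_sum, map_smul, smul_eq_mul]
      rw [Fintype.sum_prod_type]
    have h4 : c₀ * F.c γ (∑ j, X j * φ * Y j) = ∑ j : B × B, (t j.1 j.2 * F.c γ (F.a j.1 * φ * F.a j.2) - G j) := by
      rw [map_sum, Finset.mul_sum]
      refine Finset.sum_congr rfl fun j _ => ?_
      rw [hX, hY, hG]
      simp only
      by_cases hj : Fixd Q j.1 ∧ Fixd Q j.2
      · simp only [if_pos hj, Matrix.smul_mul, map_smul, smul_eq_mul, sub_zero]
        rw [← mul_assoc, mul_div_cancel₀ _ hc₀]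
      · simp only [if_neg hj, zero_mul, map_zero, mul_zero, sub_self]
    rw [Finset.sum_sub_distrib, hG0, sub_zero, ← h3, map_smul, smul_eq_mul] at h4
    have h5 := mul_left_cancel₀ hc₀ h4
    rw [map_sub, h5, sub_self]

end Pool.Agent.Lib.H77S
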