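import Pool.Agent.Lib.H77S.Defs

/-! H77S, A4: a simple quotient of a finite-dimensional algebra of matrices is a matrix algebra (pure algebra). -/

open scoped BigOperators

noncomputable section

namespace Pool.Agent.Lib.H77S

/-- `A` a finite-dimensional algebra over an algebraically closed field, `I` a set of elements which is a proper two-sided ideal such that every `a ∉ I` generates everything modulo `I`.
Then there is an algebra homomorphism of `A` onto a matrix algebra with kernel `I`. Proof: `TwoSidedIdeal` of `I`, the quotient ring `A ⧸ I` (`RingCon.Quotient`, or `Ideal.Quotient` of the two-sided ideal) is a simple ring (`IsSimpleRing`: nontrivial since `1 ∉ I`; every nonzero two-sided ideal contains `1`)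
and `IsSimpleRing.exists_algEquiv_matrix_of_isAlgClosed`. -/
theorem wedd {k : Type} [Field k] [IsAlgClosed k] {A : Type} [Ring A] [Algebra k A] [FiniteDimensional k A] (I : A → Prop)
    (h0 : I 0) (hadd : ∀ a b, I a → I b → I (a + b)) (hmul : ∀ a b c, I b → I (a * b * c)) (h1 : ¬ I 1)
    (hs : ∀ a, ¬ I a → ∃ (J : Type) (_ : Fintype J) (x y : J → A), I ((∑ j, x j * a * y j) - 1)) :
    ∃ (m : ℕ) (b : A →ₐ[k] Matrix (Fin m) (Fin m) k), Function.Surjective b ∧ ∀ a, b a = 0 ↔ I a := by
  let T : Ideal A :=
    { carrier := {a | I a}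
      add_mem' := fun {a b} ha hb => hadd a b ha hb
      zero_mem' := h0
      smul_mem' := fun c x hx => by
        have := hmul c x 1 hx
        rw [mul_one] at this
        exact this }
  have hT : ∀ a, a ∈ T ↔ I a := fun a => Iff.rfl
  have hTt : T.IsTwoSided := ⟨fun {a} b ha => by
    have := hmul 1 a b ha
    rw [one_mul] at this
    exact this⟩
  have hmk : ∀ a, (Ideal.Quotient.mk T a = 0) ↔ I a := fun a => by
    rw [Ideal.Quotient.eq_zero_iff_mem]
    exact hT a
  have hnt : Nontrivial (A ⧸ T) := by
    refine ⟨⟨Ideal.Quotient.mk T 1, 0, fun h => h1 ((hmk 1).1 h)⟩⟩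
  have hsim : IsSimpleRing (A ⧸ T) := by
    refine ⟨⟨fun J => ?_⟩⟩
    by_cases hJ : ∀ x ∈ J, x = 0
    · left
      rw [eq_bot_iff]
      intro x hx
      rw [hJ x hx]
      exact zero_mem _
    · right
      push Not at hJ
      obtain ⟨x, hx, hx0⟩ := hJ
      obtain ⟨a, rfl⟩ := Ideal.Quotient.mk_surjective x
      have ha : ¬ I a := fun h => hx0 ((hmk a).2 h)
      obtain ⟨S, _, u, v, huv⟩ := hs a ha
      have h2 := (hmk _).2 huv
      rw [map_sub, map_one, sub_eq_zero] at h2
      rw [← TwoSidedIdeal.one_mem_iff, ← h2, map_sum]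
      refine sum_mem fun j _ => ?_
      rw [map_mul, map_mul]
      exact J.mul_mem_right _ _ (J.mul_mem_left _ _ hx)
  obtain ⟨m, _, ⟨e⟩⟩ := IsSimpleRing.exists_algEquiv_matrix_of_isAlgClosed k (A ⧸ T)
  refine ⟨m, (e : (A ⧸ T) →ₐ[k] Matrix (Fin m) (Fin m) k).comp (Ideal.Quotient.mkₐ k T), ?_, ?_⟩
  · exact e.surjective.comp (Ideal.Quotient.mkₐ_surjective k T)
  · intro a
    rw [← hmk a]
    constructor
    · intro h
      exact e.injective (by rw [map_zero]; exact h)
    · intro h
      change e (Ideal.Quotient.mk T a) = 0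
      rw [h, map_zero]

/-- A linear functional on matrices with `t (X * Y) = t (Y * X)` is a multiple of the trace. -/
theorem trace_unique {k : Type} [Field k] {m : ℕ} (t : Matrix (Fin m) (Fin m) k →ₗ[k] k) (ht : ∀ X Y, t (X * Y) = t (Y * X)) :
    ∃ e : k, ∀ X, t X = e * Matrix.trace X := by
  classical
  rcases m with _ | m
  · refine ⟨0, fun X => ?_⟩
    have : X = 0 := Subsingleton.elim _ _
    rw [this, map_zero, zero_mul]
  · refine ⟨t (Matrix.single 0 0 1), fun X => ?_⟩
    have hoff : ∀ i j : Fin (m + 1), i ≠ j → ∀ c : k, t (Matrix.single i j c) = 0 := by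
      intro i j hij c
      have h1 : (Matrix.single i j c : Matrix (Fin (m + 1)) (Fin (m + 1)) k) =
          Matrix.single i i 1 * Matrix.single i j c := by
        rw [Matrix.single_mul_single_same, one_mul]
      rw [h1, ht, Matrix.single_mul_single_of_ne _ _ _ _ (fun h => hij h.symm), map_zero]
    have hdiag : ∀ i : Fin (m + 1), ∀ c : k, t (Matrix.single i i c) = c * t (Matrix.single 0 0 1) := by
      intro i c
      have h1 : (Matrix.single i i c : Matrix (Fin (m + 1)) (Fin (m + 1)) k) =
          Matrix.single i 0 c * Matrix.single 0 i 1 := by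
        rw [Matrix.single_mul_single_same, mul_one]
      have h2 : (Matrix.single 0 0 c : Matrix (Fin (m + 1)) (Fin (m + 1)) k) =
          c • Matrix.single 0 0 1 := by
        rw [Matrix.smul_single, smul_eq_mul, mul_one]
      rw [h1, ht, Matrix.single_mul_single_same, one_mul, h2, map_smul, smul_eq_mul]
    have h3 : t X = ∑ i, ∑ j, t (Matrix.single i j (X i j)) := by
      conv_lhs => rw [Matrix.matrix_eq_sum_single X]
      simp only [map_sum]
    rw [h3, Matrix.trace, Finset.mul_sum]
    refine Finset.sum_congr rfl fun i _ => ?_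
    rw [Finset.sum_eq_single i, hdiag, Matrix.diag_apply, mul_comm]
    · intro j _ hj
      exact hoff i j hj.symm _
    · intro h
      exact absurd (Finset.mem_univ _) h

end Pool.Agent.Lib.H77S
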