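import Pool.Agent.Lib.H77S.A3
import Pool.Agent.Lib.H77S.A4

/-! H77S, A5: existence of slashes. -/

open scoped BigOperators

noncomputable section

namespace Pool.Agent.Lib.H77S

variable {p : ℕ} [Fact p.Prime] {k : Type} [Field k] [IsAlgClosed k] [CharP k p] {P : Type} [CommGroup P] [Finite P]
variable {ι : Type} [Fintype ι] [DecidableEq ι] {u : P →* Matrix ι ι k}

/-- Existence. `A` = the subalgebra of the matrices commuting with `u x`, `x ∈ Q` (e.g. `Subalgebra.centralizer k (u '' Q)`), `I a = F.In Q a` for a frame `F`; `wedd` applies by `Frame.in_mul`, `Frame.simple`; `1 ∉ In` because `trace 1 ≠ 0` and `Frame.in_tr`.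
The homomorphism `b₀ : A → Matrix` extends to a linear map `b` on all matrices (`LinearMap.exists_extend`, `Submodule` of the subalgebra). The trace on `A` vanishes on the kernel (`Frame.in_tr`), so it factors through `b₀` (surjective) : `trace φ = t (b φ)`,
`t (X * Y) = t (Y * X)`, `trace_unique`; `e ≠ 0` since `trace 1 ≠ 0`. `u' x = b (u x)` is a homomorphism of monoids because `u x ∈ A`. -/
theorem exists_slash (hP : ∀ x : P, ∃ a : ℕ, x ^ (p ^ a) = 1) (hF : Framed u) (hn : (Fintype.card ι : k) ≠ 0) (Q : Subgroup P) :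
    ∃ (m : ℕ) (u' : P →* Matrix (Fin m) (Fin m) k) (b : Matrix ι ι k →ₗ[k] Matrix (Fin m) (Fin m) k), IsSlash u Q u' b := by
  classical
  obtain ⟨B, _, _, ⟨F⟩⟩ := hF
  let A : Subalgebra k (Matrix ι ι k) := Subalgebra.centralizer k (u '' (Q : Set P))
  have hA : ∀ z : Matrix ι ι k, z ∈ A ↔ Cent u Q z := by
    intro z
    rw [Subalgebra.mem_centralizer_iff]
    constructor
    · intro h x hx
      exact h (u x) ⟨x, hx, rfl⟩
    · rintro h _ ⟨x, hx, rfl⟩
      exact h x hx
  obtain ⟨m, b0, hsurj, hker⟩ := wedd (k := k) (A := A) (fun a => F.In Q (a : Matrix ι ι k)) (by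
      refine ⟨fun x _ => ?_, fun β _ => ?_⟩
      · rw [ZeroMemClass.coe_zero, mul_zero, zero_mul]
      · rw [ZeroMemClass.coe_zero, map_zero]) (by
      intro a b ha hb
      refine ⟨fun x hx => ?_, fun β hβ => ?_⟩
      · rw [AddMemClass.coe_add, mul_add, add_mul, ha.1 x hx, hb.1 x hx]
      · rw [AddMemClass.coe_add, map_add, ha.2 β hβ, hb.2 β hβ, add_zero]) (by
      intro a b c hb
      exact F.in_mul hP hb ((hA _).1 a.2) ((hA _).1 c.2)) (by
      intro h
      have h1 := F.in_tr hP h (ψ := 1) (fun x _ => by rw [mul_one, one_mul])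
      rw [OneMemClass.coe_one, mul_one, Matrix.trace_one] at h1
      exact hn h1) (by
      intro a ha
      obtain ⟨J, hJ, x, y, hx, hy, h⟩ := F.simple hP ((hA _).1 a.2) ha
      refine ⟨J, hJ, fun j => ⟨x j, (hA _).2 (hx j)⟩, fun j => ⟨y j, (hA _).2 (hy j)⟩, ?_⟩
      have e : (((∑ j, (⟨x j, (hA _).2 (hx j)⟩ : A) * a * (⟨y j, (hA _).2 (hy j)⟩ : A)) - 1 : A) :
          Matrix ι ι k) = (∑ j, x j * (a : Matrix ι ι k) * y j) - 1 := by
        rw [AddSubgroupClass.coe_sub, OneMemClass.coe_one, AddSubmonoidClass.coe_finsetSum]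
        rfl
      show F.In Q (((∑ j, (⟨x j, (hA _).2 (hx j)⟩ : A) * a * (⟨y j, (hA _).2 (hy j)⟩ : A)) - 1 : A) :
          Matrix ι ι k)
      rw [e]
      exact h)
  obtain ⟨b, hb⟩ := LinearMap.exists_extend
    (b0.toLinearMap ∘ₗ (Subalgebra.toSubmoduleEquiv A).toLinearMap)
  have hb' : ∀ a : A, b (a : Matrix ι ι k) = b0 a := by
    intro a
    have h1 := LinearMap.congr_fun hb ⟨(a : Matrix ι ι k), a.2⟩
    exact h1
  have hsq : ∀ a : A, b0 a = 0 → Matrix.trace (a : Matrix ι ι k) = 0 := by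
    intro a ha
    have h1 := F.in_tr hP ((hker a).1 ha) (ψ := 1) (fun x _ => by rw [mul_one, one_mul])
    rwa [mul_one] at h1
  obtain ⟨g, hg⟩ := LinearMap.exists_rightInverse_of_surjective b0.toLinearMap
    (LinearMap.range_eq_top.2 hsurj)
  have hg' : ∀ X, b0 (g X) = X := fun X => LinearMap.congr_fun hg X
  let t : Matrix (Fin m) (Fin m) k →ₗ[k] k :=
    (Matrix.traceLinearMap ι k k) ∘ₗ (A.val.toLinearMap ∘ₗ g)
  have ht : ∀ X, t X = Matrix.trace (g X : Matrix ι ι k) := fun X => rfl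
  have htb : ∀ a : A, Matrix.trace (a : Matrix ι ι k) = t (b0 a) := by
    intro a
    rw [ht]
    have h1 := hsq (a - g (b0 a)) (by rw [map_sub, hg', sub_self])
    rw [AddSubgroupClass.coe_sub, Matrix.trace_sub] at h1
    exact sub_eq_zero.1 h1
  have htm : ∀ X Y, t (X * Y) = t (Y * X) := by
    intro X Y
    have h1 : ∀ X Y, t (X * Y) = Matrix.trace ((g X : Matrix ι ι k) * (g Y : Matrix ι ι k)) := by
      intro X Y
      have h2 := htb (g X * g Y)
      rw [map_mul, hg', hg'] at h2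
      rw [← h2]
      rfl
    rw [h1, h1, Matrix.trace_mul_comm]
  obtain ⟨e, he⟩ := trace_unique t htm
  have he0 : e ≠ 0 := by
    intro h
    have h1 := htb 1
    rw [he, h, zero_mul, OneMemClass.coe_one, Matrix.trace_one] at h1
    exact hn h1
  refine ⟨m, { toFun := fun x => b0 ⟨u x, (hA _).2 (cent_u u Q x)⟩
               map_one' := ?_
               map_mul' := ?_ }, b, ?_, ?_, ?_, ?_, ?_⟩
  · rw [← map_one b0]
    exact congrArg b0 (Subtype.ext (map_one u))
  · intro x y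
    rw [← map_mul b0]
    exact congrArg b0 (Subtype.ext (map_mul u x y))
  · have h1 := hb' 1
    rw [OneMemClass.coe_one] at h1
    rw [h1, map_one b0]
  · intro φ ψ hφ hψ
    have h1 := hb' (⟨φ, (hA _).2 hφ⟩ * ⟨ψ, (hA _).2 hψ⟩)
    rw [map_mul, ← hb', ← hb'] at h1
    exact h1
  · intro ψ
    obtain ⟨a, ha⟩ := hsurj ψ
    exact ⟨a, (hA _).1 a.2, by rw [hb', ha]⟩
  · refine ⟨e, he0, fun φ hφ => ?_⟩
    have h1 := htb ⟨φ, (hA _).2 hφ⟩
    rw [he, ← hb'] at h1
    exact h1
  · intro x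
    exact hb' ⟨u x, (hA _).2 (cent_u u Q x)⟩

end Pool.Agent.Lib.H77S
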