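import Pool.Agent.Lib.H77S.A3

/-! H77S, A6: kernel of a slash. -/

open scoped BigOperators

noncomputable section

namespace Pool.Agent.Lib.H77S

variable {p : ℕ} [Fact p.Prime] {k : Type} [Field k] [CharP k p] {P : Type} [CommGroup P] [Finite P]
variable {ι κ : Type} [Fintype ι] [DecidableEq ι] [Fintype κ] [DecidableEq κ] {u : P →* Matrix ι ι k} {u' : P →* Matrix κ κ k}
variable {Q : Subgroup P} {b : Matrix ι ι k →ₗ[k] Matrix κ κ k}

/-- For `φ ∈ Cent u Q`: `b φ = 0` if and only if `trace (φ * ψ) = 0` for all `ψ ∈ Cent u Q` (`tr`, `mul`, `surj`; the trace form of the matrix algebra is nondegenerate). -/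
theorem IsSlash.ker_tr (hs : IsSlash u Q u' b) {φ : Matrix ι ι k} (h : Cent u Q φ) : b φ = 0 ↔ ∀ ψ, Cent u Q ψ → Matrix.trace (φ * ψ) = 0 := by
  obtain ⟨e, he, htr⟩ := hs.tr
  constructor
  · intro h0 ψ hψ
    rw [htr _ (cent_mul h hψ), hs.mul _ _ h hψ, h0, zero_mul, Matrix.trace_zero, mul_zero]
  · intro h0
    have key : ∀ χ : Matrix κ κ k, Matrix.trace (b φ * χ) = 0 := by
      intro χ
      obtain ⟨ψ, hψ, rfl⟩ := hs.surj χ
      have h1 := h0 ψ hψ
      rw [htr _ (cent_mul h hψ), hs.mul _ _ h hψ] at h1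
      exact (mul_eq_zero.1 h1).resolve_left he
    ext i j
    have h2 := key (Matrix.single j i 1)
    rw [Matrix.trace_mul_single] at h2
    simpa using h2

/-- For `φ ∈ Cent u Q`: `b φ = 0` if and only if `φ` is in the ideal of the frame. `←`: `in_tr` and `ker_tr`. `→`: otherwise `Frame.simple`: `1 = ∑ x j * φ * y j + (element of In)`; take traces: `trace 1 = ∑ trace (φ * (y j * x j)) + 0 = 0` by `ker_tr` (and `in_tr` with `ψ = 1`), against `hn`. -/
theorem IsSlash.ker (hP : ∀ x : P, ∃ a : ℕ, x ^ (p ^ a) = 1) (hn : (Fintype.card ι : k) ≠ 0) (hs : IsSlash u Q u' b) {B : Type} [Fintype B] [MulAction P B] (F : Frame u B)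
    {φ : Matrix ι ι k} (h : Cent u Q φ) : b φ = 0 ↔ F.In Q φ := by
  constructor
  · intro h0
    by_contra hc
    obtain ⟨J, _, x, y, hx, hy, hI⟩ := F.simple hP h hc
    have h1 : Cent u Q (1 : Matrix ι ι k) := fun x _ => by rw [mul_one, one_mul]
    have h2 := F.in_tr hP hI h1
    rw [mul_one, Matrix.trace_sub, Matrix.trace_one, Matrix.trace_sum] at h2
    have h3 : ∀ j : J, Matrix.trace (x j * φ * y j) = 0 := by
      intro j
      rw [mul_assoc, Matrix.trace_mul_comm, mul_assoc]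
      exact (hs.ker_tr h).1 h0 _ (cent_mul (hy j) (hx j))
    rw [Finset.sum_eq_zero fun j _ => h3 j, zero_sub, neg_eq_zero] at h2
    exact hn h2
  · intro hI
    exact (hs.ker_tr h).2 fun ψ hψ => F.in_tr hP hI hψ

/-- `Q` acts trivially on its slash: `u' x = b (u x)` commutes with all `b φ`, that is with all matrices, so it is a scalar `c` (`Matrix.mem_center_iff` or similar), `c ^ (p ^ a) = 1` gives `c = 1` (characteristic `p`; if `κ` is empty everything is trivial). -/
theorem IsSlash.triv (hP : ∀ x : P, ∃ a : ℕ, x ^ (p ^ a) = 1) (hs : IsSlash u Q u' b) {x : P} (hx : x ∈ Q) : u' x = 1 := by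
  have hcomm : ∀ χ : Matrix κ κ k, Commute χ (u' x) := by
    intro χ
    obtain ⟨φ, hφ, rfl⟩ := hs.surj χ
    have hux := cent_u u Q x
    change b φ * u' x = u' x * b φ
    rw [← hs.act x, ← hs.mul _ _ hφ hux, ← hs.mul _ _ hux hφ, hφ x hx]
  rcases isEmpty_or_nonempty κ with hκ | hκ
  · exact Subsingleton.elim _ _
  obtain ⟨c, hc⟩ := Matrix.mem_range_scalar_of_commute_single (M := u' x) fun i j _ => (hcomm (Matrix.single i j 1))
  obtain ⟨a, ha⟩ := hP x
  have h1 : (u' x) ^ (p ^ a) = 1 := by rw [← map_pow, ha, map_one]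
  rw [← hc, ← map_pow, ← map_one (Matrix.scalar κ)] at h1
  have h2 : c ^ (p ^ a) = 1 := (Matrix.scalar_inj (n := κ)).1 h1
  have h3 : c = 1 := by
    have h4 : (c - 1) ^ (p ^ a) = 0 := by
      rw [sub_pow_char_pow, one_pow, h2, sub_self]
    exact sub_eq_zero.1 (pow_eq_zero_iff (pow_ne_zero a (Fact.out : p.Prime).ne_zero) |>.1 h4)
  rw [← hc, h3, map_one]

/-- The dimension of the slash is not `0` in `k` (`trace 1 = e * trace 1`). -/
theorem IsSlash.card_ne (hn : (Fintype.card ι : k) ≠ 0) (hs : IsSlash u Q u' b) : (Fintype.card κ : k) ≠ 0 := by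
  obtain ⟨e, _, htr⟩ := hs.tr
  have h1 := htr 1 fun x _ => by rw [mul_one, one_mul]
  rw [hs.one, Matrix.trace_one, Matrix.trace_one] at h1
  intro h0
  rw [h0, mul_zero] at h1
  exact hn h1

end Pool.Agent.Lib.H77S
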