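import Pool.Agent.Lib.H77S.A6

/-! H77S, A7: lifting of elements that commute with a larger group, a frame for the slash. -/

open scoped BigOperators

noncomputable section

namespace Pool.Agent.Lib.H77S

variable {p : ℕ} [Fact p.Prime] {k : Type} [Field k] [CharP k p] {P : Type} [CommGroup P] [Finite P]
variable {ι κ : Type} [Fintype ι] [DecidableEq ι] [Fintype κ] [DecidableEq κ] {u : P →* Matrix ι ι k} {u' : P →* Matrix κ κ k}
variable {Q : Subgroup P} {b : Matrix ι ι k →ₗ[k] Matrix κ κ k}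

omit [Finite P] in
private theorem A7_fixd {B : Type} [MulAction P B] (x : P) {β : B} (h : Fixd Q β) : Fixd Q (x • β) := by
  intro y hy
  rw [smul_smul, mul_comm, ← smul_smul, h y hy]

omit [Finite P] in
private theorem A7_fixd' {B : Type} [MulAction P B] (x : P) {β : B} (h : Fixd Q (x • β)) : Fixd Q β := by
  have := A7_fixd (Q := Q) x⁻¹ h
  rwa [inv_smul_smul] at this

omit [Finite P] in
private theorem A7_sub {φ ψ : Matrix ι ι k} (h : Cent u Q φ) (h' : Cent u Q ψ) : Cent u Q (φ - ψ) := by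
  intro x hx
  rw [mul_sub, sub_mul, h x hx, h' x hx]

private theorem A7_coef (hP : ∀ x : P, ∃ a : ℕ, x ^ (p ^ a) = 1) (hn : (Fintype.card ι : k) ≠ 0) (hs : IsSlash u Q u' b) {B : Type} [Fintype B] [MulAction P B] (F : Frame u B)
    {φ ψ : Matrix ι ι k} (h : Cent u Q φ) (h' : Cent u Q ψ) (hb : b φ = b ψ) {γ : B} (hγ : Fixd Q γ) : F.c γ φ = F.c γ ψ := by
  have h1 : b (φ - ψ) = 0 := by rw [map_sub, hb, sub_self]
  have h2 := (hs.ker hP hn F (A7_sub h h')).1 h1
  have h3 := h2.2 γ hγ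
  rw [map_sub] at h3
  exact sub_eq_zero.1 h3

private theorem A7_conj (hs : IsSlash u Q u' b) (x : P) {φ : Matrix ι ι k} (h : Cent u Q φ) {ψ : Matrix κ κ k} (hx : u' x * b φ = ψ * u' x) :
    Cent u Q (u x * φ * u x⁻¹) ∧ b (u x * φ * u x⁻¹) = ψ ∧ u x * φ = (u x * φ * u x⁻¹) * u x := by
  have hc1 : Cent u Q (u x * φ) := cent_mul (cent_u u Q x) h
  have hi : u' x * u' x⁻¹ = 1 := by rw [← map_mul, mul_inv_cancel, map_one]
  have hi' : u x⁻¹ * u x = 1 := by rw [← map_mul, inv_mul_cancel, map_one]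
  refine ⟨cent_mul hc1 (cent_u u Q x⁻¹), ?_, ?_⟩
  · rw [hs.mul _ _ hc1 (cent_u u Q x⁻¹), hs.mul _ _ (cent_u u Q x) h, hs.act, hs.act, hx, mul_assoc, hi, mul_one]
  · rw [mul_assoc (u x * φ), hi', mul_one]

/-- An element of the slash that commutes with `R ≥ Q` lifts to an element that commutes with `R`. Take `φ ∈ Cent u Q` with `b φ = ψ` and `φ' = ∑_{β fixed by Q} c β φ • a β` (`Frame.in_red`, `ker`: `b φ' = ψ`). For `x ∈ R`: `b (u x * φ * u x⁻¹ - φ) = 0`, so by `ker` the coefficients of `u x * φ * u x⁻¹`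
and `φ` at the fixed points of `Q` agree; with `hc`: `c (x • β) φ = c β φ` for `β` fixed by `Q` (`x • β` is again fixed by `Q`, `P` is commutative). So `φ'` commutes with `R` (`Frame.cent_sum` with `t β = if Fixd Q β then c β φ else 0`). -/
theorem IsSlash.lift (hP : ∀ x : P, ∃ a : ℕ, x ^ (p ^ a) = 1) (hn : (Fintype.card ι : k) ≠ 0) (hF : Framed u) (hs : IsSlash u Q u' b) {R : Subgroup P} (hQR : Q ≤ R)
    {ψ : Matrix κ κ k} (hψ : Cent u' R ψ) : ∃ φ, Cent u R φ ∧ b φ = ψ := by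
  classical
  obtain ⟨B, hB1, hB2, ⟨F⟩⟩ := hF
  obtain ⟨φ, hφ, hbφ⟩ := hs.surj ψ
  have hred := F.in_red hP hφ
  have hb0 : b (φ - ∑ β, if Fixd Q β then F.c β φ • F.a β else 0) = 0 := (hs.ker hP hn F hred.1).2 hred
  rw [map_sub, sub_eq_zero] at hb0
  refine ⟨∑ β, if Fixd Q β then F.c β φ • F.a β else 0, ?_, by rw [← hb0, hbφ]⟩
  have e : (∑ β, if Fixd Q β then F.c β φ • F.a β else 0) = ∑ β, (if Fixd Q β then F.c β φ else 0) • F.a β := by
    refine Finset.sum_congr rfl fun β _ => ?_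
    split_ifs <;> simp
  rw [e]
  refine F.cent_sum _ fun x hx β => ?_
  by_cases hβ : Fixd Q β
  · rw [if_pos hβ, if_pos (A7_fixd x hβ)]
    have hx' : u' x * b φ = b φ * u' x := by rw [hbφ]; exact hψ x hx
    obtain ⟨h1, h2, h3⟩ := A7_conj hs x hφ hx'
    rw [← F.hc x β φ _ h3]
    exact A7_coef hP hn hs F hφ h1 h2.symm (A7_fixd x hβ)
  · rw [if_neg hβ, if_neg fun h => hβ (A7_fixd' x h)]

/-- The slash has a frame: index set the fixed points of `Q` in `B` (a subtype, `P` acts on it since `P` is commutative), `a' β = b (a β)`, `c' β ψ = c β φ` for any `φ ∈ Cent u Q` with `b φ = ψ` (well defined and linear by `ker`; e.g. choose a linear section of `b` restricted to the submodule `Cent u Q`).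
`ha`: `u' x * b (a β) = b (u x * a β) = b (a (x • β) * u x)`. `hc`: if `u' x * φ' = ψ' * u' x` and `φ` lifts `φ'` then `u x * φ * u x⁻¹` lifts `ψ'`. `sum`: `Frame.in_red` and `ker`. -/
theorem IsSlash.framed (hP : ∀ x : P, ∃ a : ℕ, x ^ (p ^ a) = 1) (hn : (Fintype.card ι : k) ≠ 0) (hF : Framed u) (hs : IsSlash u Q u' b) : Framed u' := by
  classical
  obtain ⟨B, hB1, hB2, ⟨F⟩⟩ := hF
  let S : Submodule k (Matrix ι ι k) :=
    { carrier := {φ | Cent u Q φ}
      add_mem' := fun {φ ψ} h h' x hx => by rw [mul_add, add_mul, h x hx, h' x hx]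
      zero_mem' := fun x _ => by rw [mul_zero, zero_mul]
      smul_mem' := fun c φ h x hx => by rw [mul_smul_comm, smul_mul_assoc, h x hx] }
  have hsurj : LinearMap.range (b.comp S.subtype) = ⊤ := by
    rw [LinearMap.range_eq_top]
    intro ψ
    obtain ⟨φ, hφ, hb⟩ := hs.surj ψ
    exact ⟨⟨φ, hφ⟩, hb⟩
  obtain ⟨g, hg⟩ := LinearMap.exists_rightInverse_of_surjective (b.comp S.subtype) hsurj
  let σ : Matrix κ κ k →ₗ[k] Matrix ι ι k := S.subtype.comp g
  have hσ : ∀ ψ, Cent u Q (σ ψ) := fun ψ => (g ψ).2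
  have hbσ : ∀ ψ, b (σ ψ) = ψ := fun ψ => LinearMap.congr_fun hg ψ
  let act : MulAction P {β : B // Fixd Q β} :=
    { smul := fun x β => ⟨x • β.1, A7_fixd x β.2⟩
      one_smul := fun β => Subtype.ext (one_smul P β.1)
      mul_smul := fun x y β => Subtype.ext (mul_smul x y β.1) }
  refine ⟨{β : B // Fixd Q β}, inferInstance, act, ⟨⟨fun β => b (F.a β.1), fun β => (F.c β.1).comp σ, ?_, ?_, ?_⟩⟩⟩
  · intro x β
    show u' x * b (F.a β.1) = b (F.a (x • β.1)) * u' x
    rw [← hs.act, ← hs.mul _ _ (cent_u u Q x) (F.cent_a β.2), F.ha, hs.mul _ _ (F.cent_a (A7_fixd x β.2)) (cent_u u Q x)]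
  · intro x β φ ψ h
    show F.c (x • β.1) (σ ψ) = F.c β.1 (σ φ)
    have hx' : u' x * b (σ φ) = ψ * u' x := by rw [hbσ]; exact h
    obtain ⟨h1, h2, h3⟩ := A7_conj hs x (hσ φ) hx'
    rw [← F.hc x β.1 (σ φ) _ h3]
    exact A7_coef hP hn hs F (hσ ψ) h1 (by rw [h2, hbσ]) (A7_fixd x β.2)
  · intro φ
    show ∑ β : {β : B // Fixd Q β}, F.c β.1 (σ φ) • b (F.a β.1) = φ
    have hred := F.in_red hP (hσ φ)
    have hb0 : b (σ φ - ∑ β, if Fixd Q β then F.c β (σ φ) • F.a β else 0) = 0 := (hs.ker hP hn F hred.1).2 hred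
    rw [map_sub, sub_eq_zero, hbσ, map_sum] at hb0
    have e1 : ∀ β, b (if Fixd Q β then F.c β (σ φ) • F.a β else 0) = if Fixd Q β then F.c β (σ φ) • b (F.a β) else 0 := by
      intro β
      split_ifs
      · rw [map_smul]
      · rw [map_zero]
    simp_rw [e1] at hb0
    rw [← Finset.sum_filter] at hb0
    rw [Finset.sum_subtype (p := fun β : B => Fixd Q β) (Finset.univ.filter fun β => Fixd Q β)
      (fun β => ⟨fun h => (Finset.mem_filter.1 h).2, fun h => Finset.mem_filter.2 ⟨Finset.mem_univ _, h⟩⟩) (fun β => F.c β (σ φ) • b (F.a β))] at hb0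
    exact hb0.symm

end Pool.Agent.Lib.H77S
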