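import Pool.Agent.Lib.H77S.A7

/-! H77S, A8: slashes of slashes. -/

open scoped BigOperators

noncomputable section

namespace Pool.Agent.Lib.H77S

variable {p : ℕ} [Fact p.Prime] {k : Type} [Field k] [CharP k p] {P : Type} [CommGroup P] [Finite P]
variable {ι κ μ : Type} [Fintype ι] [DecidableEq ι] [Fintype κ] [DecidableEq κ] [Fintype μ] [DecidableEq μ] {u : P →* Matrix ι ι k} {u' : P →* Matrix κ κ k} {u'' : P →* Matrix μ μ k}
variable {Q R : Subgroup P} {b : Matrix ι ι k →ₗ[k] Matrix κ κ k} {b' : Matrix κ κ k →ₗ[k] Matrix μ μ k}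

/-- Elements commuting with `u (Q ⊔ R)` map to elements commuting with `u' (R)`; in particular `Cent u R' φ` for `R' ≥ Q` gives `Cent u' R' (b φ)` (`b (u x) = u' x`, `mul`, `cent_u`). -/
theorem IsSlash.cent (hs : IsSlash u Q u' b) (hQR : Q ≤ R) {φ : Matrix ι ι k} (h : Cent u R φ) : Cent u' R (b φ) := by
  have hQ : Cent u Q φ := fun y hy => h y (hQR hy)
  intro x hx
  rw [← hs.act x, ← hs.mul _ _ (cent_u u Q x) hQ, ← hs.mul _ _ hQ (cent_u u Q x), h x hx]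

/-- Commuting with `u' (R)` is the same as commuting with `u' (Q ⊔ R)` (`triv`, `Subgroup.mem_sup`). -/
theorem IsSlash.cent_sup (hP : ∀ x : P, ∃ a : ℕ, x ^ (p ^ a) = 1) (hs : IsSlash u Q u' b) {ψ : Matrix κ κ k} (h : Cent u' R ψ) : Cent u' (Q ⊔ R) ψ := by
  intro x hx
  obtain ⟨q, hq, r, hr, rfl⟩ := Subgroup.mem_sup.1 hx
  rw [map_mul, hs.triv hP hq, one_mul]
  exact h r hr

/-- The slash at `R` of the slash at `Q` is the slash of `u` at `Q ⊔ R`: `b' ∘ b`. `surj`: `IsSlash.lift` with `Q ≤ Q ⊔ R`. -/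
theorem IsSlash.trans (hP : ∀ x : P, ∃ a : ℕ, x ^ (p ^ a) = 1) (hn : (Fintype.card ι : k) ≠ 0) (hF : Framed u) (hs : IsSlash u Q u' b) (hs' : IsSlash u' R u'' b') :
    IsSlash u (Q ⊔ R) u'' (b'.comp b) := by
  have hQ : Q ≤ Q ⊔ R := le_sup_left
  have hR : R ≤ Q ⊔ R := le_sup_right
  have h1 : ∀ {φ : Matrix ι ι k}, Cent u (Q ⊔ R) φ → Cent u Q φ := fun h y hy => h y (hQ hy)
  have h2 : ∀ {φ : Matrix ι ι k}, Cent u (Q ⊔ R) φ → Cent u' R (b φ) := fun h y hy =>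
    hs.cent hQ h y (hR hy)
  refine ⟨?_, ?_, ?_, ?_, ?_⟩
  · rw [LinearMap.comp_apply, hs.one, hs'.one]
  · intro φ ψ hφ hψ
    rw [LinearMap.comp_apply, LinearMap.comp_apply, LinearMap.comp_apply,
      hs.mul φ ψ (h1 hφ) (h1 hψ), hs'.mul _ _ (h2 hφ) (h2 hψ)]
  · intro ψ
    obtain ⟨ψ', hψ', rfl⟩ := hs'.surj ψ
    obtain ⟨φ, hφ, rfl⟩ := hs.lift hP hn hF hQ (hs.cent_sup hP hψ')
    exact ⟨φ, hφ, rfl⟩
  · obtain ⟨e, he, h3⟩ := hs.tr
    obtain ⟨e', he', h4⟩ := hs'.tr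
    refine ⟨e * e', mul_ne_zero he he', fun φ hφ => ?_⟩
    rw [LinearMap.comp_apply, h3 φ (h1 hφ), h4 _ (h2 hφ), mul_assoc]
  · intro x
    rw [LinearMap.comp_apply, hs.act, hs'.act]

/-- Conjugation: if `g` is invertible, `g * u x = u (f x) * g`, then the slash of `u` at `Q.map f` is `x ↦ u' (f⁻¹ x)` with `b (g⁻¹ * φ * g)`. -/
theorem IsSlash.conj (hs : IsSlash u Q u' b) (f : MulAut P) (g : (Matrix ι ι k)ˣ) (hg : ∀ x, (g : Matrix ι ι k) * u x = u (f x) * g) :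
    IsSlash u (Q.map f.toMonoidHom) (tws u' f) (b.comp ((LinearMap.mulLeft k ((g⁻¹ : (Matrix ι ι k)ˣ) : Matrix ι ι k)).comp (LinearMap.mulRight k (g : Matrix ι ι k)))) := by
  have e1 : ((g⁻¹ : (Matrix ι ι k)ˣ) : Matrix ι ι k) * g = 1 := g.inv_mul
  have e2 : (g : Matrix ι ι k) * ((g⁻¹ : (Matrix ι ι k)ˣ) : Matrix ι ι k) = 1 := g.mul_inv
  have hg' : ∀ x, u x * ((g⁻¹ : (Matrix ι ι k)ˣ) : Matrix ι ι k) =
      ((g⁻¹ : (Matrix ι ι k)ˣ) : Matrix ι ι k) * u (f x) := by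
    intro x
    calc u x * ((g⁻¹ : (Matrix ι ι k)ˣ) : Matrix ι ι k)
        = (((g⁻¹ : (Matrix ι ι k)ˣ) : Matrix ι ι k) * g) * u x *
            ((g⁻¹ : (Matrix ι ι k)ˣ) : Matrix ι ι k) := by rw [e1, one_mul]
      _ = ((g⁻¹ : (Matrix ι ι k)ˣ) : Matrix ι ι k) * (g * u x) *
            ((g⁻¹ : (Matrix ι ι k)ˣ) : Matrix ι ι k) := by simp only [mul_assoc]
      _ = ((g⁻¹ : (Matrix ι ι k)ˣ) : Matrix ι ι k) * u (f x) *
            (g * ((g⁻¹ : (Matrix ι ι k)ˣ) : Matrix ι ι k)) := by rw [hg]; simp only [mul_assoc]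
      _ = ((g⁻¹ : (Matrix ι ι k)ˣ) : Matrix ι ι k) * u (f x) := by rw [e2, mul_one]
  have hb : ∀ φ, (b.comp ((LinearMap.mulLeft k ((g⁻¹ : (Matrix ι ι k)ˣ) : Matrix ι ι k)).comp
      (LinearMap.mulRight k (g : Matrix ι ι k)))) φ =
      b (((g⁻¹ : (Matrix ι ι k)ˣ) : Matrix ι ι k) * (φ * g)) := fun φ => rfl
  have hc : ∀ {φ : Matrix ι ι k}, Cent u (Q.map f.toMonoidHom) φ →
      Cent u Q (((g⁻¹ : (Matrix ι ι k)ˣ) : Matrix ι ι k) * (φ * g)) := by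
    intro φ h x hx
    have h1 : u (f x) * φ = φ * u (f x) := h (f x) (Subgroup.mem_map.2 ⟨x, hx, rfl⟩)
    calc u x * (((g⁻¹ : (Matrix ι ι k)ˣ) : Matrix ι ι k) * (φ * g))
        = (u x * ((g⁻¹ : (Matrix ι ι k)ˣ) : Matrix ι ι k)) * φ * g := by simp only [mul_assoc]
      _ = ((g⁻¹ : (Matrix ι ι k)ˣ) : Matrix ι ι k) * (u (f x) * φ) * g := by
          rw [hg']; simp only [mul_assoc]
      _ = ((g⁻¹ : (Matrix ι ι k)ˣ) : Matrix ι ι k) * φ * (u (f x) * g) := by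
          rw [h1]; simp only [mul_assoc]
      _ = ((g⁻¹ : (Matrix ι ι k)ˣ) : Matrix ι ι k) * (φ * g) * u x := by
          rw [← hg]; simp only [mul_assoc]
  refine ⟨?_, ?_, ?_, ?_, ?_⟩
  · rw [hb, one_mul, e1, hs.one]
  · intro φ ψ hφ hψ
    rw [hb, hb, hb, ← hs.mul _ _ (hc hφ) (hc hψ)]
    congr 1
    calc ((g⁻¹ : (Matrix ι ι k)ˣ) : Matrix ι ι k) * (φ * ψ * g)
        = ((g⁻¹ : (Matrix ι ι k)ˣ) : Matrix ι ι k) * (φ * (1 * (ψ * g))) := by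
          rw [one_mul, mul_assoc φ]
      _ = ((g⁻¹ : (Matrix ι ι k)ˣ) : Matrix ι ι k) * (φ * g) *
            (((g⁻¹ : (Matrix ι ι k)ˣ) : Matrix ι ι k) * (ψ * g)) := by
          rw [← e2]; simp only [mul_assoc]
  · intro ψ
    obtain ⟨φ, hφ, rfl⟩ := hs.surj ψ
    refine ⟨g * φ * ((g⁻¹ : (Matrix ι ι k)ˣ) : Matrix ι ι k), ?_, ?_⟩
    · intro y hy
      obtain ⟨x, hx, rfl⟩ := Subgroup.mem_map.1 hy
      have h1 : u x * φ = φ * u x := hφ x hx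
      show u (f x) * (g * φ * ((g⁻¹ : (Matrix ι ι k)ˣ) : Matrix ι ι k)) =
        g * φ * ((g⁻¹ : (Matrix ι ι k)ˣ) : Matrix ι ι k) * u (f x)
      calc u (f x) * (g * φ * ((g⁻¹ : (Matrix ι ι k)ˣ) : Matrix ι ι k))
          = (u (f x) * g) * φ * ((g⁻¹ : (Matrix ι ι k)ˣ) : Matrix ι ι k) := by
            simp only [mul_assoc]
        _ = g * (u x * φ) * ((g⁻¹ : (Matrix ι ι k)ˣ) : Matrix ι ι k) := by
            rw [← hg]; simp only [mul_assoc]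
        _ = g * φ * (u x * ((g⁻¹ : (Matrix ι ι k)ˣ) : Matrix ι ι k)) := by
            rw [h1]; simp only [mul_assoc]
        _ = g * φ * ((g⁻¹ : (Matrix ι ι k)ˣ) : Matrix ι ι k) * u (f x) := by
            rw [hg']; simp only [mul_assoc]
    · rw [hb]
      congr 1
      calc ((g⁻¹ : (Matrix ι ι k)ˣ) : Matrix ι ι k) *
            (g * φ * ((g⁻¹ : (Matrix ι ι k)ˣ) : Matrix ι ι k) * g)
          = (((g⁻¹ : (Matrix ι ι k)ˣ) : Matrix ι ι k) * g) * φ *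
              (((g⁻¹ : (Matrix ι ι k)ˣ) : Matrix ι ι k) * g) := by simp only [mul_assoc]
        _ = φ := by rw [e1, one_mul, mul_one]
  · obtain ⟨e, he, h3⟩ := hs.tr
    refine ⟨e, he, fun φ hφ => ?_⟩
    rw [hb, ← h3 _ (hc hφ), Matrix.trace_mul_comm, mul_assoc, e2, mul_one]
  · intro x
    have h1 : (g : Matrix ι ι k) * u (f⁻¹ x) = u x * g := by
      rw [hg, MulAut.apply_inv_self]
    have h2 : ((g⁻¹ : (Matrix ι ι k)ˣ) : Matrix ι ι k) * (u x * g) = u (f⁻¹ x) := by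
      rw [← h1, ← mul_assoc, e1, one_mul]
    rw [hb, h2, hs.act]
    rfl

/-- The slash at a group that acts trivially is the representation itself. -/
theorem isSlash_self (u : P →* Matrix ι ι k) {Q : Subgroup P} (h : ∀ x ∈ Q, u x = 1) : IsSlash u Q u LinearMap.id := by
  refine ⟨rfl, fun _ _ _ _ => rfl, fun ψ => ⟨ψ, fun x hx => ?_, rfl⟩, ⟨1, one_ne_zero, fun φ _ => ?_⟩,
    fun _ => rfl⟩
  · rw [h x hx, one_mul, mul_one]
  · rw [one_mul, LinearMap.id_apply]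

end Pool.Agent.Lib.H77S
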