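import Mathlib

/-! H77S, B0: Fitting idempotent (pure algebra). -/

open scoped BigOperators

noncomputable section

namespace Pool.Agent.Lib.H77S

/-- A power of `a` is divisible by the next power, within `k[a]`. -/
private theorem b0_exists {k : Type} [Field k] {A : Type} [Ring A] [Algebra k A]
    [FiniteDimensional k A] (a : A) :
    ∃ (n : ℕ) (c : A), c ∈ Algebra.adjoin k {a} ∧ a ^ (n + 1) * c = a ^ n := by
  let S := Algebra.adjoin k {a}
  have hc : ∀ x ∈ ({a} : Set A), ∀ y ∈ ({a} : Set A), x * y = y * x := by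
    intro x hx y hy
    rw [Set.mem_singleton_iff.1 hx, Set.mem_singleton_iff.1 hy]
  have : IsMulCommutative S := Algebra.isMulCommutative_adjoin k hc
  let : CommRing S := inferInstance
  have : IsArtinianRing S := IsArtinianRing.of_finite k S
  have ha : a ∈ S := Algebra.self_mem_adjoin_singleton k a
  obtain ⟨n, y, hy⟩ := IsArtinian.exists_pow_succ_smul_dvd (R := S) (M := S) ⟨a, ha⟩ 1
  refine ⟨n, (y : A), y.2, ?_⟩
  have h1 := congrArg (fun z : S => (z : A)) hy
  simpa using h1

/-- In a finite-dimensional algebra every element `a` has a power of the form idempotent times unit: there is an idempotent `e` in `k[a]` (so it commutes with everything that commutes with `a`, and it is fixed by every algebra automorphism that fixes `a`) such that `a * (1 - e)` is nilpotent and `a * b = e` for some `b ∈ k[a]` with `b * e = b`.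
(Fitting: `k[a]` is a finite-dimensional commutative algebra, `minpoly = X ^ m * g` with `g 0 ≠ 0`, Bezout.) -/
theorem fitting {k : Type} [Field k] {A : Type} [Ring A] [Algebra k A] [FiniteDimensional k A] (a : A) :
    ∃ e b : A, e ∈ Algebra.adjoin k {a} ∧ b ∈ Algebra.adjoin k {a} ∧ e * e = e ∧ IsNilpotent (a * (1 - e)) ∧ a * b = e ∧ b * a = e := by
  obtain ⟨n, c, hc, h⟩ := b0_exists (k := k) a
  have ha : a ∈ Algebra.adjoin k {a} := Algebra.self_mem_adjoin_singleton k a
  have hcom : ∀ x ∈ Algebra.adjoin k {a}, ∀ y ∈ Algebra.adjoin k {a}, Commute x y := by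
    intro x hx y hy
    have h1 : Commute a y := by
      refine Algebra.adjoin_induction (p := fun y _ => Commute a y) ?_ ?_ ?_ ?_ hy
      · intro z hz
        rw [Set.mem_singleton_iff.1 hz]
      · intro r
        exact (Algebra.commutes r a).symm
      · intro u v _ _ hu hv
        exact hu.add_right hv
      · intro u v _ _ hu hv
        exact hu.mul_right hv
    refine Algebra.adjoin_induction (p := fun x _ => Commute x y) ?_ ?_ ?_ ?_ hx
    · intro z hz
      rw [Set.mem_singleton_iff.1 hz]
      exact h1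
    · intro r
      exact Algebra.commutes r y
    · intro u v _ _ hu hv
      exact hu.add_left hv
    · intro u v _ _ hu hv
      exact hu.mul_left hv
  have hac : Commute a c := hcom a ha c hc
  -- `a ^ m = a ^ (m + j) * c ^ j` for `m ≥ n`
  have hstep : ∀ j : ℕ, a ^ (n + 1 + j) * c ^ j = a ^ (n + 1) := by
    intro j
    induction j with
    | zero => simp
    | succ j ih =>
      have h1 : a ^ (n + 1 + (j + 1)) * c ^ (j + 1) = a ^ (n + 1 + j) * c ^ j := by
        have h2 : a ^ (n + 1 + (j + 1)) = a ^ (1 + j) * a ^ (n + 1) := by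
          rw [← pow_add]; congr 1; omega
        have h3 : a ^ (n + 1 + j) = a ^ (1 + j) * a ^ n := by
          rw [← pow_add]; congr 1; omega
        rw [h2, h3, pow_succ' c j, mul_assoc, ← mul_assoc (a ^ (n + 1)) c, h, ← mul_assoc]
      rw [h1, ih]
  have h2 : a ^ (n + 1) * (a ^ (n + 1) * c ^ (n + 1)) = a ^ (n + 1) := by
    rw [← mul_assoc, ← pow_add, hstep]
  have hpc : Commute (a ^ (n + 1)) (c ^ (n + 1)) := hac.pow_pow _ _
  obtain ⟨e, he⟩ : ∃ e : A, e = a ^ (n + 1) * c ^ (n + 1) := ⟨_, rfl⟩
  have hee : e * e = e := by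
    rw [he]
    calc a ^ (n + 1) * c ^ (n + 1) * (a ^ (n + 1) * c ^ (n + 1))
        = a ^ (n + 1) * (c ^ (n + 1) * a ^ (n + 1)) * c ^ (n + 1) := by simp only [mul_assoc]
      _ = a ^ (n + 1) * (a ^ (n + 1) * c ^ (n + 1)) * c ^ (n + 1) := by rw [hpc.eq]
      _ = a ^ (n + 1) * c ^ (n + 1) := by rw [h2]
  have hea : e ∈ Algebra.adjoin k {a} := by
    rw [he]
    exact Subalgebra.mul_mem _ (Subalgebra.pow_mem _ ha _) (Subalgebra.pow_mem _ hc _)
  have hb : a ^ n * c ^ (n + 1) ∈ Algebra.adjoin k {a} :=
    Subalgebra.mul_mem _ (Subalgebra.pow_mem _ ha _) (Subalgebra.pow_mem _ hc _)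
  have hab : a * (a ^ n * c ^ (n + 1)) = e := by
    rw [he, ← mul_assoc, ← pow_succ']
  refine ⟨e, a ^ n * c ^ (n + 1), hea, hb, hee, ⟨n + 1, ?_⟩, hab, ?_⟩
  · have h3 : Commute a (1 - e) := (Commute.one_right a).sub_right (hcom a ha e hea)
    rw [h3.mul_pow]
    have h4 : (1 - e) ^ (n + 1) = 1 - e := by
      have h5 : IsIdempotentElem (1 - e) := IsIdempotentElem.one_sub hee
      exact h5.pow_succ_eq n
    rw [h4, mul_sub, mul_one, he, h2, sub_self]
  · rw [← (hcom a ha _ hb).eq, hab]

end Pool.Agent.Lib.H77S
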