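import Mathlib

/-! H77S, B1: two-sided ideals have a unit modulo the radical (pure algebra). -/

open scoped BigOperators

noncomputable section

namespace Pool.Agent.Lib.H77S

/-- A proper two-sided ideal `I` (closed under `+`, multiplication) of a finite-dimensional algebra that contains no idempotent-like element: more precisely, if `I` contains a non-nilpotent element, then modulo the Jacobson radical `I` has an identity element: there is `a ∈ I` such that `a * y - y` and `y * a - y` lie in the Jacobson radical for every `y ∈ I`, and `a` is not in the Jacobson radical.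
Proof. `A ⧸ rad A` is semisimple (Artinian), a two-sided ideal of a semisimple ring is generated by an idempotent on each side (`IsSemisimpleRing`: the ideal has a complement, so it is `A e`; likewise `e' A`; `e = e'`), or use `IsSemisimpleRing.exists_algEquiv_pi_matrix_divisionRing`. -/
theorem ideal_unit {k : Type} [Field k] {A : Type} [Ring A] [Algebra k A] [FiniteDimensional k A] (I : TwoSidedIdeal A) (h : ∃ y ∈ I, ¬ IsNilpotent y) :
    ∃ a ∈ I, ¬ IsNilpotent a ∧ ∀ y ∈ I, a * y - y ∈ Ring.jacobson A ∧ y * a - y ∈ Ring.jacobson A := by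
  have hart : IsArtinianRing A := isArtinian_of_tower k inferInstance
  have hsp : IsSemiprimaryRing A := inferInstance
  have hss : IsSemisimpleRing (A ⧸ Ring.jacobson A) := hsp.isSemisimpleRing
  let π : A →+* A ⧸ Ring.jacobson A := Ideal.Quotient.mk (Ring.jacobson A)
  have hπs : Function.Surjective π := Ideal.Quotient.mk_surjective
  have hπ0 : ∀ x, π x = 0 ↔ x ∈ Ring.jacobson A := fun x => Ideal.Quotient.eq_zero_iff_mem
  let J : Ideal (A ⧸ Ring.jacobson A) := Ideal.map π I.asIdeal
  have hJ : ∀ y, y ∈ J ↔ ∃ x, x ∈ I ∧ π x = y := by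
    intro y
    rw [Ideal.mem_map_iff_of_surjective π hπs]
    simp only [TwoSidedIdeal.mem_asIdeal]
  have hJr : ∀ y ∈ J, ∀ s, y * s ∈ J := by
    intro y hy s
    obtain ⟨x, hx, rfl⟩ := (hJ y).1 hy
    obtain ⟨t, rfl⟩ := hπs s
    exact (hJ _).2 ⟨x * t, I.mul_mem_right _ _ hx, map_mul π x t⟩
  obtain ⟨K, hK⟩ := exists_isCompl J
  have h1 : (1 : A ⧸ Ring.jacobson A) ∈ J ⊔ K := by
    rw [hK.sup_eq_top]
    exact Submodule.mem_top
  obtain ⟨e, he, f, hf, hef⟩ := Submodule.mem_sup.1 h1
  have hye : ∀ y ∈ J, y * e = y := by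
    intro y hy
    have e1 : y * e + y * f = y := by rw [← mul_add, hef, mul_one]
    have e2 : y * e ∈ J := J.mul_mem_left y he
    have e3 : y * f ∈ K := K.mul_mem_left y hf
    have e4 : y * f ∈ J := by
      have e5 : y * f = y - y * e := by rw [← e1]; abel_nf; simp [e1]
      rw [e5]
      exact J.sub_mem hy e2
    have e6 : y * f = 0 := by
      have := hK.disjoint.le_bot (show y * f ∈ J ⊓ K from ⟨e4, e3⟩)
      exact (Submodule.mem_bot _).1 this
    rw [e6, add_zero] at e1
    exact e1
  have hey : ∀ y ∈ J, e * y = y := by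
    intro y hy
    have hz : y - e * y ∈ J := J.sub_mem hy (J.mul_mem_left e hy)
    have hwz : ∀ w ∈ J, w * (y - e * y) = 0 := by
      intro w hw
      rw [mul_sub, ← mul_assoc, hye w hw, sub_self]
    have hmem : y - e * y ∈ Ring.jacobson (A ⧸ Ring.jacobson A) := by
      refine (Ideal.jacobson_bot (R := A ⧸ Ring.jacobson A)) ▸ Ideal.mem_jacobson_iff.2 fun s => ?_
      refine ⟨1 - s * (y - e * y), ?_⟩
      have e1 : s * (y - e * y) * (s * (y - e * y)) = 0 := by
        rw [mul_assoc, ← mul_assoc (y - e * y) s, hwz _ (hJr _ hz s), mul_zero]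
      have e2 : (1 - s * (y - e * y)) * s * (y - e * y) + (1 - s * (y - e * y)) - 1 = 0 := by
        rw [mul_assoc, sub_mul, one_mul, e1, sub_zero]
        abel
      rw [e2]
      exact Submodule.zero_mem _
    rw [Ring.jacobson_quotient_jacobson] at hmem
    have := (Submodule.mem_bot _).1 hmem
    exact (sub_eq_zero.1 this).symm
  obtain ⟨a, ha, hae⟩ := (hJ e).1 he
  refine ⟨a, ha, ?_, fun y hy => ⟨?_, ?_⟩⟩
  · intro hn
    obtain ⟨y, hy, hyn⟩ := h
    apply hyn
    have he2 : IsIdempotentElem e := hye e he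
    have hen : IsNilpotent e := by
      rw [← hae]
      exact hn.map π
    have he0 : e = 0 := by
      obtain ⟨n, hn⟩ := hen
      have h2 : e ^ (n + 1) = e := he2.pow_succ_eq n
      rw [← h2, pow_succ, hn, zero_mul]
    have hy0 : π y = 0 := by
      rw [← hye (π y) ((hJ _).2 ⟨y, hy, rfl⟩), he0, mul_zero]
    obtain ⟨n, hn⟩ := hsp.isNilpotent
    refine ⟨n, ?_⟩
    have h3 : y ^ n ∈ (Ring.jacobson A) ^ n := Ideal.pow_mem_pow ((hπ0 y).1 hy0) n
    rw [hn] at h3
    exact (Submodule.mem_bot _).1 h3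
  · rw [← hπ0, map_sub, map_mul, hae, hey _ ((hJ _).2 ⟨y, hy, rfl⟩), sub_self]
  · rw [← hπ0, map_sub, map_mul, hae, hye _ ((hJ _).2 ⟨y, hy, rfl⟩), sub_self]

end Pool.Agent.Lib.H77S
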