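import Pool.Agent.Lib.H77S.A11
import Pool.Agent.Lib.H77S.A5

/-! H77S, B2: the corner is one-dimensional at the good subgroups. -/

open scoped BigOperators

noncomputable section

namespace Pool.Agent.Lib.H77S

variable {p : ℕ} [Fact p.Prime] {k : Type} [Field k] [IsAlgClosed k] [CharP k p] {P : Type} [CommGroup P] [Finite P]
variable {ι κ : Type} [Fintype ι] [DecidableEq ι] [Fintype κ] [DecidableEq κ] {u : P →* Matrix ι ι k} {v : P →* Matrix κ κ k}

/-- `OneAt u ⊤`: the function `trace / dimension` is multiplicative on `Cent u ⊤`. Let `e ∈ Cent u ⊤` be an idempotent with `trace e = dimension` such that `e * a * e` is nilpotent for every `a ∈ Cent u ⊤` with `trace a = 0`. If `Good u R` then the corner `v = j * u * i` (`j * i = 1`, `i * j = e`) has `OneAt v R`.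
Proof. Slash `(u', b)` of `u` at `R` (`exists_slash`), `HasTriv u'` (`good_iff`), the rank one matrix `J = v₀ l₀` lifts to `y₀ ∈ Cent u ⊤` (`IsSlash.lift`), `trace y₀ ≠ 0`. Put `y = e * y₀ * e` : `trace y * n = trace e * trace (y₀ * e)` and so on, so `trace y ≠ 0`;
`y - (trace y / n) • e = e * (y₀ - ..) * e` is nilpotent, so `y` has an inverse in the corner: `y * y' = e` with `y' ∈ Cent u ⊤` (geometric series). So `b e = b y * b y' = b e * J * (..)` has rank at most one, it is an idempotent with nonzero trace: `b e = v₁ l₁` with `l₁ ⬝ᵥ v₁ = 1`.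
For `φ ∈ Cent v R` the matrix `i * φ * j` is in `Cent u R`, `b (i * φ * j) = b e * b (i φ j) * b e = s_φ • b e`, `trace φ = trace (i φ j) = e₀ * s_φ`, `trace (φ * ψ) = e₀ * s_φ * s_ψ`, `card κ = trace (j * i) = trace e = e₀` (`e₀` the factor of `IsSlash.tr`). -/
theorem oneAt_corner (hP : ∀ x : P, ∃ a : ℕ, x ^ (p ^ a) = 1) (hF : Framed u) (hn : (Fintype.card ι : k) ≠ 0) (h1 : OneAt u ⊤) {e : Matrix ι ι k} (he : Cent u ⊤ e) (hee : e * e = e)
    (hte : Matrix.trace e = (Fintype.card ι : k)) (hloc : ∀ a, Cent u ⊤ a → Matrix.trace a = 0 → IsNilpotent (e * a * e))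
    {i : Matrix ι κ k} {j : Matrix κ ι k} (hji : j * i = 1) (hij : i * j = e) (hv : ∀ x, v x = j * u x * i) {R : Subgroup P} (hR : Good u R) : OneAt v R := by
  classical
  obtain ⟨m, u', b, hs⟩ := exists_slash hP hF hn R
  obtain ⟨v0, l0, hv0, hl0, hlv0⟩ := (good_iff hP hn hF hs).1 hR
  obtain ⟨e0, he0, htr⟩ := hs.tr
  have hJ : Cent u' ⊤ (Matrix.vecMulVec v0 l0) := by
    intro x _
    rw [Matrix.mul_vecMulVec, Matrix.vecMulVec_mul, hv0, hl0]
  obtain ⟨y0, hy0, hby0⟩ := hs.lift hP hn hF le_top hJ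
  have down : ∀ {φ : Matrix ι ι k}, Cent u ⊤ φ → Cent u R φ := fun h x _ => h x (Subgroup.mem_top x)
  have hy0t : Matrix.trace y0 ≠ 0 := by
    rw [htr y0 (down hy0), hby0, Matrix.trace_vecMulVec, dotProduct_comm, hlv0, mul_one]
    exact he0
  set n : k := (Fintype.card ι : k) with hnd
  set c : k := Matrix.trace y0 / n with hcd
  have hc : c ≠ 0 := div_ne_zero hy0t hn
  have hcn : c * n = Matrix.trace y0 := div_mul_cancel₀ _ hn
  set a : Matrix ι ι k := y0 - c • 1 with had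
  have ha : Cent u ⊤ a := by
    intro x hx
    rw [had, mul_sub, sub_mul, hy0 x hx, mul_smul_comm, smul_mul_assoc, mul_one, one_mul]
  have hat : Matrix.trace a = 0 := by
    rw [had, Matrix.trace_sub, Matrix.trace_smul, Matrix.trace_one, smul_eq_mul, ← hnd, hcn, sub_self]
  set N : Matrix ι ι k := e * a * e with hNd
  have hNn : IsNilpotent N := hloc a ha hat
  have hN : Cent u ⊤ N := cent_mul (cent_mul he ha) he
  have heN : e * N = N := by rw [hNd, ← mul_assoc, ← mul_assoc, hee]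
  have hNe : N * e = N := by rw [hNd, mul_assoc, hee]
  have hyN : e * y0 * e = c • e + N := by
    rw [hNd, had, mul_sub, sub_mul, mul_smul_comm, smul_mul_assoc, mul_one, hee]
    abel
  have hwn : IsNilpotent (c⁻¹ • N) := hNn.smul _
  obtain ⟨w, hw⟩ := hwn.isUnit_one_add
  have hwe : e * (w : Matrix ι ι k) = w * e := by
    rw [hw, mul_add, add_mul, mul_smul_comm, smul_mul_assoc, heN, hNe, mul_one, one_mul]
  have hyw : e * y0 * e = c • (e * (w : Matrix ι ι k)) := by
    rw [hyN, hw, mul_add, mul_smul_comm, heN, mul_one, smul_add, smul_smul, mul_inv_cancel₀ hc, one_smul]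
  have hwc : Cent u ⊤ ((w⁻¹ : (Matrix ι ι k)ˣ) : Matrix ι ι k) := by
    intro x hx
    have h2 : (w : Matrix ι ι k) * u x = u x * w := by
      rw [hw, add_mul, mul_add, mul_smul_comm, smul_mul_assoc, hN x hx, one_mul, mul_one]
    calc u x * ((w⁻¹ : (Matrix ι ι k)ˣ) : Matrix ι ι k)
        = ((w⁻¹ : (Matrix ι ι k)ˣ) : Matrix ι ι k) * (w * u x) * ((w⁻¹ : (Matrix ι ι k)ˣ) : Matrix ι ι k) := by
          rw [← mul_assoc, Units.inv_mul, one_mul]
      _ = _ := by rw [h2, mul_assoc, mul_assoc, Units.mul_inv, mul_one]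
  have hyz : e * y0 * (e * (c⁻¹ • ((w⁻¹ : (Matrix ι ι k)ˣ) : Matrix ι ι k))) = e := by
    rw [← mul_assoc, hyw, mul_smul_comm, smul_mul_assoc, mul_assoc, Units.mul_inv, mul_one, smul_smul,
      inv_mul_cancel₀ hc, one_smul]
  have hz : Cent u ⊤ (e * (c⁻¹ • ((w⁻¹ : (Matrix ι ι k)ˣ) : Matrix ι ι k))) := by
    refine cent_mul he ?_
    intro x hx
    rw [mul_smul_comm, smul_mul_assoc, hwc x hx]
  have hbe : b e = Matrix.vecMulVec ((b e).mulVec v0)
      (Matrix.vecMul l0 (b (e * (c⁻¹ • ((w⁻¹ : (Matrix ι ι k)ˣ) : Matrix ι ι k))))) := by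
    have h2 := congrArg b hyz
    rw [hs.mul _ _ (down (cent_mul he hy0)) (down hz), hs.mul _ _ (down he) (down hy0), hby0,
      Matrix.mul_vecMulVec, Matrix.vecMulVec_mul] at h2
    exact h2.symm
  obtain ⟨v1, l1, hbe1⟩ : ∃ v1 l1 : Fin m → k, b e = Matrix.vecMulVec v1 l1 := ⟨_, _, hbe⟩
  have hsand : ∀ X : Matrix (Fin m) (Fin m) k, b e * X * b e = (l1 ⬝ᵥ X.mulVec v1) • b e := by
    intro X
    rw [hbe1, Matrix.vecMulVec_mul, Matrix.vecMulVec_mul_vecMulVec, ← Matrix.dotProduct_mulVec]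
    ext i q
    simp only [Matrix.vecMulVec_apply, Matrix.smul_apply, Pi.smul_apply, smul_eq_mul]
    try ring
  have hbee : b e * b e = b e := by
    rw [← hs.mul _ _ (down he) (down he), hee]
  have hte' : n = e0 * Matrix.trace (b e) := by rw [← hte, htr e (down he)]
  have hbt0 : Matrix.trace (b e) ≠ 0 := by
    intro h0
    apply hn
    rw [hte', h0, mul_zero]
  have hbt : Matrix.trace (b e) = 1 := by
    have h2 := hsand 1
    rw [mul_one, hbee, Matrix.one_mulVec] at h2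
    have h3 : Matrix.trace (b e) = l1 ⬝ᵥ v1 := by
      rw [hbe1, Matrix.trace_vecMulVec, dotProduct_comm]
    have h4 := congrArg Matrix.trace h2
    rw [Matrix.trace_smul, smul_eq_mul, ← h3] at h4
    exact mul_left_cancel₀ hbt0 (by rw [mul_one]; exact h4.symm)
  have hne : n = e0 := by rw [hte', hbt, mul_one]
  have hcor : ∀ Φ : Matrix ι ι k, Cent u R Φ → e * Φ = Φ → Φ * e = Φ → ∃ s : k, b Φ = s • b e := by
    intro Φ hΦ h2 h3
    refine ⟨l1 ⬝ᵥ (b Φ).mulVec v1, ?_⟩
    rw [← hsand, ← hs.mul _ _ (down he) hΦ, ← hs.mul _ _ (cent_mul (down he) hΦ) (down he), h2, h3]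
  have hei : e * i = i := by rw [← hij, Matrix.mul_assoc, hji, Matrix.mul_one]
  have hje : j * e = j := by rw [← hij, ← Matrix.mul_assoc, hji, Matrix.one_mul]
  have hui : ∀ x, u x * i = i * v x := by
    intro x
    rw [hv, ← Matrix.mul_assoc, ← Matrix.mul_assoc, hij, ← he x (Subgroup.mem_top x), Matrix.mul_assoc, hei]
  have hju : ∀ x, j * u x = v x * j := by
    intro x
    rw [hv, Matrix.mul_assoc, hij, Matrix.mul_assoc, he x (Subgroup.mem_top x), ← Matrix.mul_assoc, hje]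
  have hlift : ∀ φ : Matrix κ κ k, Cent v R φ → Cent u R (i * φ * j) ∧ e * (i * φ * j) = i * φ * j ∧
      (i * φ * j) * e = i * φ * j ∧ Matrix.trace (i * φ * j) = Matrix.trace φ := by
    intro φ hφ
    refine ⟨?_, ?_, ?_, ?_⟩
    · intro x hx
      calc u x * (i * φ * j) = (u x * i) * φ * j := by simp only [Matrix.mul_assoc]
        _ = i * (v x * φ) * j := by rw [hui]; simp only [Matrix.mul_assoc]
        _ = i * φ * (v x * j) := by rw [hφ x hx]; simp only [Matrix.mul_assoc]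
        _ = _ := by rw [← hju]; simp only [Matrix.mul_assoc]
    · rw [← Matrix.mul_assoc, ← Matrix.mul_assoc, hei]
    · rw [Matrix.mul_assoc, hje]
    · rw [Matrix.trace_mul_cycle, hji, Matrix.one_mul]
  have hcard : (Fintype.card κ : k) = n := by
    rw [← hte, ← hij, Matrix.trace_mul_comm, hji, Matrix.trace_one]
  intro φ ψ hφ hψ
  obtain ⟨a1, a2, a3, a4⟩ := hlift φ hφ
  obtain ⟨b1, b2, b3, b4⟩ := hlift ψ hψ
  obtain ⟨s, hs1⟩ := hcor _ a1 a2 a3
  obtain ⟨t, ht1⟩ := hcor _ b1 b2 b3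
  have hmul : i * (φ * ψ) * j = (i * φ * j) * (i * ψ * j) := by
    calc i * (φ * ψ) * j = i * φ * (j * i) * ψ * j := by rw [hji, Matrix.mul_one]; simp only [Matrix.mul_assoc]
      _ = _ := by simp only [Matrix.mul_assoc]
  have hpt : Matrix.trace (φ * ψ) = Matrix.trace ((i * φ * j) * (i * ψ * j)) := by
    rw [← hmul, Matrix.trace_mul_cycle, hji, Matrix.one_mul]
  rw [hpt, ← a4, ← b4, htr _ (cent_mul a1 b1), htr _ a1, htr _ b1, hs.mul _ _ a1 b1, hs1, ht1, hcard, hne,
    smul_mul_assoc, mul_smul_comm, hbee]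
  simp only [Matrix.trace_smul, smul_eq_mul, hbt]
  ring

end Pool.Agent.Lib.H77S
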