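import Pool.Agent.Lib.H77S.Defs

/-! H77S, B3: factorisation of an idempotent, corners of representations. -/

open scoped BigOperators Kronecker

noncomputable section

namespace Pool.Agent.Lib.H77S

variable {k : Type} [Field k] {P : Type} [CommGroup P]
variable {ι κ : Type} [Fintype ι] [DecidableEq ι] [Fintype κ] [DecidableEq κ] {u : P →* Matrix ι ι k}

/-- Every idempotent matrix is `i * j` with `j * i = 1` (basis of the range of `e`). -/
theorem idem_factor {e : Matrix ι ι k} (h : e * e = e) : ∃ (m : ℕ) (i : Matrix ι (Fin m) k) (j : Matrix (Fin m) ι k), j * i = 1 ∧ i * j = e := by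
  classical
  obtain ⟨f, hf⟩ : ∃ f : (ι → k) →ₗ[k] (ι → k), f = Matrix.toLin' e := ⟨_, rfl⟩
  have hff : f ∘ₗ f = f := by
    rw [hf, ← Matrix.toLin'_mul, h]
  have hfe : LinearMap.toMatrix' f = e := by
    rw [hf, LinearMap.toMatrix'_toLin']
  let b := Module.finBasis k (LinearMap.range f)
  let I : (Fin (Module.finrank k (LinearMap.range f)) → k) →ₗ[k] (ι → k) :=
    (LinearMap.range f).subtype ∘ₗ (b.equivFun.symm : _ →ₗ[k] _)
  let Jm : (ι → k) →ₗ[k] (Fin (Module.finrank k (LinearMap.range f)) → k) :=
    (b.equivFun : _ →ₗ[k] _) ∘ₗ f.rangeRestrict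
  refine ⟨Module.finrank k (LinearMap.range f), LinearMap.toMatrix' I, LinearMap.toMatrix' Jm, ?_, ?_⟩
  · rw [← LinearMap.toMatrix'_comp]
    have h1 : Jm ∘ₗ I = LinearMap.id := by
      apply LinearMap.ext
      intro w
      show b.equivFun (f.rangeRestrict ((b.equivFun.symm w : LinearMap.range f) : ι → k)) = w
      have h2 : f.rangeRestrict ((b.equivFun.symm w : LinearMap.range f) : ι → k) = b.equivFun.symm w := by
        apply Subtype.ext
        show f ((b.equivFun.symm w : LinearMap.range f) : ι → k) = _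
        obtain ⟨y, hy⟩ := (b.equivFun.symm w : LinearMap.range f).2
        rw [← hy]
        exact LinearMap.congr_fun hff y
      rw [h2, LinearEquiv.apply_symm_apply]
    rw [h1, LinearMap.toMatrix'_id]
  · rw [← LinearMap.toMatrix'_comp]
    have h1 : I ∘ₗ Jm = f := by
      apply LinearMap.ext
      intro w
      show ((b.equivFun.symm (b.equivFun (f.rangeRestrict w)) : LinearMap.range f) : ι → k) = f w
      rw [LinearEquiv.symm_apply_apply]
      rfl
    rw [h1, hfe]

omit [DecidableEq ι] in
private theorem b3_mul {e : Matrix ι ι k} {i : Matrix ι κ k} {j : Matrix κ ι k} (hji : j * i = 1) (hij : i * j = e)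
    (X Y : Matrix ι ι k) (hY : Y * e = e * Y) : (j * X * i) * (j * Y * i) = j * (X * Y) * i := by
  have hei : e * i = i := by rw [← hij, Matrix.mul_assoc, hji, Matrix.mul_one]
  calc (j * X * i) * (j * Y * i) = j * X * ((i * j) * Y) * i := by simp only [Matrix.mul_assoc]
    _ = j * X * (Y * e) * i := by rw [hij, hY]
    _ = j * (X * Y) * (e * i) := by simp only [Matrix.mul_assoc]
    _ = j * (X * Y) * i := by rw [hei]

/-- The corner of a representation and of a compatible projective representation that commute with `e`. `j * α g * i` is invertible with inverse `j * (α g)⁻¹ * i` (`α g` commutes with `e`, hence so does its inverse). -/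
theorem corner_rep {Γ : Type} [Group Γ] (act : Γ →* MulAut P) {e : Matrix ι ι k} (he : Cent u ⊤ e) {i : Matrix ι κ k} {j : Matrix κ ι k} (hji : j * i = 1) (hij : i * j = e)
    (α : Γ → (Matrix ι ι k)ˣ) (hα : IsProj α) (hc : Comp act u α) (hae : ∀ g, (α g : Matrix ι ι k) * e = e * α g) :
    ∃ (v : P →* Matrix κ κ k) (β : Γ → (Matrix κ κ k)ˣ), (∀ x, v x = j * u x * i) ∧ (∀ g, (β g : Matrix κ κ k) = j * (α g : Matrix ι ι k) * i) ∧ IsProj β ∧ Comp act v β := by
  have hue : ∀ x, u x * e = e * u x := fun x => he x (Subgroup.mem_top x)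
  have hai : ∀ g, (((α g)⁻¹ : (Matrix ι ι k)ˣ) : Matrix ι ι k) * e = e * (((α g)⁻¹ : (Matrix ι ι k)ˣ) : Matrix ι ι k) := by
    intro g
    have h1 : Commute e (α g : Matrix ι ι k) := (hae g).symm
    exact h1.units_inv_right.eq.symm
  have hone : j * (1 : Matrix ι ι k) * i = 1 := by rw [Matrix.mul_one, hji]
  refine ⟨{ toFun := fun x => j * u x * i
            map_one' := by rw [map_one, hone]
            map_mul' := fun x y => by rw [map_mul, b3_mul hji hij _ _ (hue y)] },
    fun g => { val := j * (α g : Matrix ι ι k) * i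
               inv := j * (((α g)⁻¹ : (Matrix ι ι k)ˣ) : Matrix ι ι k) * i
               val_inv := by rw [b3_mul hji hij _ _ (hai g), Units.mul_inv, hone]
               inv_val := by rw [b3_mul hji hij _ _ (hae g), Units.inv_mul, hone] },
    fun x => rfl, fun g => rfl, ?_, ?_⟩
  · intro g h
    obtain ⟨c, hc⟩ := hα g h
    refine ⟨c, ?_⟩
    show (j * (α g : Matrix ι ι k) * i) * (j * (α h : Matrix ι ι k) * i) =
      (c : k) • (j * (α (g * h) : Matrix ι ι k) * i)
    rw [b3_mul hji hij _ _ (hae h), hc, Matrix.mul_smul, Matrix.smul_mul]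
  · intro g x
    show (j * (α g : Matrix ι ι k) * i) * (j * u x * i) = (j * u (act g x) * i) * (j * (α g : Matrix ι ι k) * i)
    rw [b3_mul hji hij _ _ (hue x), b3_mul hji hij _ _ (hae g), hc g x]

end Pool.Agent.Lib.H77S
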