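import Pool.Agent.Lib.H77S.A6

/-! H77S, B4: the projective action on a slash (Skolem-Noether). -/

open scoped BigOperators

noncomputable section

namespace Pool.Agent.Lib.H77S

variable {p : ℕ} [Fact p.Prime] {k : Type} [Field k] [CharP k p] {P : Type} [CommGroup P] [Finite P]
variable {ι κ : Type} [Fintype ι] [DecidableEq ι] [Fintype κ] [DecidableEq κ] {u : P →* Matrix ι ι k} {u' : P →* Matrix κ κ k}
variable {Q : Subgroup P} {b : Matrix ι ι k →ₗ[k] Matrix κ κ k}

omit [CharP k p] [Finite P] [Fact p.Prime] in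
private theorem b4_sn (f : Matrix κ κ k ≃ₐ[k] Matrix κ κ k) :
    ∃ T : (Matrix κ κ k)ˣ, ∀ X, f X * (T : Matrix κ κ k) = T * X := by
  let e : Matrix κ κ k ≃ₐ[k] Module.End k (κ → k) := Matrix.toLinAlgEquiv'
  obtain ⟨T, hT⟩ := AlgEquiv.eq_linearEquivConjAlgEquiv ((e.symm.trans f).trans e)
  have hT1 : (T.toLinearMap : Module.End k (κ → k)) * T.symm.toLinearMap = 1 :=
    LinearMap.ext fun x => T.apply_symm_apply x
  have hT2 : (T.symm.toLinearMap : Module.End k (κ → k)) * T.toLinearMap = 1 :=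
    LinearMap.ext fun x => T.symm_apply_apply x
  obtain ⟨U, hU⟩ : ∃ U : (Matrix κ κ k)ˣ, e (U : Matrix κ κ k) = T.toLinearMap :=
    ⟨⟨e.symm T.toLinearMap, e.symm T.symm.toLinearMap, by rw [← map_mul, hT1, map_one],
      by rw [← map_mul, hT2, map_one]⟩, e.apply_symm_apply _⟩
  refine ⟨U, fun X => ?_⟩
  have h1 := DFunLike.congr_fun hT (e X)
  apply e.injective
  have h2 : e (f X) = (T.toLinearMap : Module.End k (κ → k)) * (e X * T.symm.toLinearMap) := by
    have h3 : ((e.symm.trans f).trans e) (e X) = e (f X) := by simp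
    rw [← h3, h1]
    rfl
  rw [map_mul, map_mul, hU, h2, mul_assoc, mul_assoc, hT2, mul_one]

private theorem b4_conj (hs : IsSlash u Q u' b) (a : (Matrix ι ι k)ˣ)
    (h1 : ∀ x ∈ Q, ∃ y ∈ Q, u x * (a : Matrix ι ι k) = a * u y)
    (h2 : ∀ x ∈ Q, ∃ y ∈ Q, (a : Matrix ι ι k) * u x = u y * a) :
    ∃ T : (Matrix κ κ k)ˣ, ∀ φ, Cent u Q φ →
      b ((a : Matrix ι ι k) * φ * (a⁻¹ : (Matrix ι ι k)ˣ)) * (T : Matrix κ κ k) = T * b φ := by
  obtain ⟨A, hA⟩ : ∃ A : Matrix ι ι k, A = (a : Matrix ι ι k) := ⟨_, rfl⟩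
  obtain ⟨A', hA'⟩ : ∃ A' : Matrix ι ι k, A' = ((a⁻¹ : (Matrix ι ι k)ˣ) : Matrix ι ι k) := ⟨_, rfl⟩
  have hAA : A * A' = 1 := by rw [hA, hA']; exact a.mul_inv
  have hAA' : A' * A = 1 := by rw [hA, hA']; exact a.inv_mul
  rw [← hA] at h1 h2
  rw [← hA, ← hA']
  have cent1 : ∀ φ, Cent u Q φ → Cent u Q (A * φ * A') := by
    intro φ hφ x hx
    obtain ⟨y, hy, e⟩ := h1 x hx
    have e' : A' * u x = u y * A' := by
      calc A' * u x = A' * (u x * A) * A' := by rw [mul_assoc, mul_assoc, hAA, mul_one]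
        _ = u y * A' := by rw [e, ← mul_assoc, hAA', one_mul]
    calc u x * (A * φ * A') = (u x * A) * φ * A' := by simp only [mul_assoc]
      _ = A * (u y * φ) * A' := by rw [e]; simp only [mul_assoc]
      _ = A * φ * (u y * A') := by rw [hφ y hy]; simp only [mul_assoc]
      _ = A * φ * A' * u x := by rw [← e']; simp only [mul_assoc]
  have cent2 : ∀ φ, Cent u Q φ → Cent u Q (A' * φ * A) := by
    intro φ hφ x hx
    obtain ⟨y, hy, e⟩ := h2 x hx
    have e' : u x * A' = A' * u y := by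
      calc u x * A' = A' * (A * u x) * A' := by rw [← mul_assoc A', hAA', one_mul]
        _ = A' * u y := by rw [e, mul_assoc, mul_assoc, hAA, mul_one]
    calc u x * (A' * φ * A) = (u x * A') * φ * A := by simp only [mul_assoc]
      _ = A' * (u y * φ) * A := by rw [e']; simp only [mul_assoc]
      _ = A' * φ * (u y * A) := by rw [hφ y hy]; simp only [mul_assoc]
      _ = A' * φ * A * u x := by rw [← e]; simp only [mul_assoc]
  have ker1 : ∀ φ, Cent u Q φ → b φ = 0 → b (A * φ * A') = 0 := by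
    intro φ hφ h0
    refine (hs.ker_tr (cent1 φ hφ)).2 fun ψ hψ => ?_
    have h3 := (hs.ker_tr hφ).1 h0 _ (cent2 ψ hψ)
    rw [← h3]
    calc Matrix.trace (A * φ * A' * ψ) = Matrix.trace (A * (φ * (A' * ψ))) := by
          simp only [mul_assoc]
      _ = Matrix.trace (φ * (A' * ψ) * A) := Matrix.trace_mul_comm _ _
      _ = Matrix.trace (φ * (A' * ψ * A)) := by simp only [mul_assoc]
  have ker2 : ∀ φ, Cent u Q φ → b (A * φ * A') = 0 → b φ = 0 := by
    intro φ hφ h0
    refine (hs.ker_tr hφ).2 fun ψ hψ => ?_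
    have h3 := (hs.ker_tr (cent1 φ hφ)).1 h0 _ (cent1 ψ hψ)
    rw [← h3]
    calc Matrix.trace (φ * ψ) = Matrix.trace (φ * ψ * (A' * A)) := by rw [hAA', mul_one]
      _ = Matrix.trace (φ * ψ * A' * A) := by simp only [mul_assoc]
      _ = Matrix.trace (A * (φ * ψ * A')) := Matrix.trace_mul_comm _ _
      _ = Matrix.trace (A * φ * (A' * A) * ψ * A') := by rw [hAA', mul_one]; simp only [mul_assoc]
      _ = Matrix.trace (A * φ * A' * (A * ψ * A')) := by simp only [mul_assoc]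
  choose s hs1 hs2 using hs.surj
  have key : ∀ φ, Cent u Q φ → b (A * s (b φ) * A') = b (A * φ * A') := by
    intro φ hφ
    have h3 : Cent u Q (s (b φ) - φ) := by
      intro x hx
      rw [mul_sub, sub_mul, hs1 (b φ) x hx, hφ x hx]
    have h4 : b (s (b φ) - φ) = 0 := by rw [map_sub, hs2, sub_self]
    have h5 := ker1 _ h3 h4
    rw [mul_sub, sub_mul, map_sub, sub_eq_zero] at h5
    exact h5
  have centadd : ∀ φ ψ, Cent u Q φ → Cent u Q ψ → Cent u Q (φ + ψ) := by
    intro φ ψ hφ hψ x hx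
    rw [mul_add, add_mul, hφ x hx, hψ x hx]
  have centsmul : ∀ (c : k) φ, Cent u Q φ → Cent u Q (c • φ) := by
    intro c φ hφ x hx
    rw [Matrix.mul_smul, Matrix.smul_mul, hφ x hx]
  have centone : Cent u Q (1 : Matrix ι ι k) := fun x _ => by rw [mul_one, one_mul]
  let f0 : Matrix κ κ k →ₗ[k] Matrix κ κ k :=
    { toFun := fun χ => b (A * s χ * A')
      map_add' := fun χ χ' => by
        have h3 := key (s χ + s χ') (centadd _ _ (hs1 χ) (hs1 χ'))
        rw [map_add, hs2, hs2, mul_add, add_mul, map_add] at h3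
        exact h3
      map_smul' := fun c χ => by
        have h3 := key (c • s χ) (centsmul c _ (hs1 χ))
        rw [map_smul, hs2, Matrix.mul_smul, Matrix.smul_mul, map_smul] at h3
        exact h3 }
  have hf0 : ∀ φ, Cent u Q φ → f0 (b φ) = b (A * φ * A') := key
  let f1 : Matrix κ κ k →ₐ[k] Matrix κ κ k := AlgHom.ofLinearMap f0 (by
      have h3 := hf0 1 centone
      rw [hs.one, mul_one, hAA, hs.one] at h3
      exact h3) (by
      intro χ χ'
      have h3 := hf0 (s χ * s χ') (cent_mul (hs1 χ) (hs1 χ'))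
      rw [hs.mul _ _ (hs1 χ) (hs1 χ'), hs2, hs2] at h3
      rw [h3]
      have h4 : A * (s χ * s χ') * A' = (A * s χ * A') * (A * s χ' * A') := by
        calc A * (s χ * s χ') * A' = A * s χ * 1 * s χ' * A' := by
              rw [mul_one]; simp only [mul_assoc]
          _ = A * s χ * (A' * A) * s χ' * A' := by rw [hAA']
          _ = (A * s χ * A') * (A * s χ' * A') := by simp only [mul_assoc]
      rw [h4, hs.mul _ _ (cent1 _ (hs1 χ)) (cent1 _ (hs1 χ'))]
      rfl)
  have hinj : Function.Injective f1 := by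
    rw [injective_iff_map_eq_zero]
    intro χ hχ
    have h3 := ker2 (s χ) (hs1 χ) hχ
    rwa [hs2] at h3
  have hsurj : Function.Surjective f1 := by
    intro χ
    refine ⟨b (A' * s χ * A), ?_⟩
    have h3 := hf0 (A' * s χ * A) (cent2 _ (hs1 χ))
    have h4 : A * (A' * s χ * A) * A' = s χ := by
      calc A * (A' * s χ * A) * A' = (A * A') * s χ * (A * A') := by simp only [mul_assoc]
        _ = s χ := by rw [hAA, one_mul, mul_one]
    rw [h4, hs2] at h3
    exact h3
  obtain ⟨T, hT⟩ := b4_sn (AlgEquiv.ofBijective f1 ⟨hinj, hsurj⟩)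
  refine ⟨T, fun φ hφ => ?_⟩
  have h3 := hT (b φ)
  have h4 : (AlgEquiv.ofBijective f1 ⟨hinj, hsurj⟩) (b φ) = b (A * φ * A') := hf0 φ hφ
  rw [h4] at h3
  exact h3

/-- A projective representation of `Γ` compatible with `u` induces one of a subgroup `Γ0` that normalises `Q` on the slash at `Q`. For `g ∈ Γ0`, `φ ↦ α g * φ * (α g)⁻¹` preserves `Cent u Q` and traces, so by `IsSlash.ker_tr` it preserves the kernel of `b` on `Cent u Q` and induces an algebra automorphism of all matrices of size `κ`;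
Skolem-Noether (Mathlib: `AlgEquiv.eq_linearEquivConjAlgEquiv` for `Module.End`, transport by `Matrix.toLinAlgEquiv'`) gives `β g` invertible with `b (α g * φ * (α g)⁻¹) * β g = β g * b φ` for `φ ∈ Cent u Q`. Take `φ = u x`: `Comp`. `β g * β h * (β (g h))⁻¹` commutes with all `b φ`, that is with all matrices, so it is a scalar: `IsProj`. -/
theorem slash_proj (hs : IsSlash u Q u' b) {Γ : Type} [Group Γ] (act : Γ →* MulAut P) (Γ0 : Subgroup Γ) (hQ : ∀ g ∈ Γ0, ∀ x ∈ Q, act g x ∈ Q)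
    (α : Γ → (Matrix ι ι k)ˣ) (hα : IsProj α) (hc : Comp act u α) :
    ∃ β : Γ0 → (Matrix κ κ k)ˣ, IsProj β ∧ Comp (act.comp Γ0.subtype) u' β := by
  rcases isEmpty_or_nonempty κ with hκ | hκ
  · refine ⟨fun _ => 1, fun g h => ⟨1, Subsingleton.elim _ _⟩, fun g x => Subsingleton.elim _ _⟩
  have hex : ∀ g : Γ0, ∃ T : (Matrix κ κ k)ˣ, ∀ φ, Cent u Q φ →
      b ((α g : Matrix ι ι k) * φ * ((α g)⁻¹ : (Matrix ι ι k)ˣ)) * (T : Matrix κ κ k) = T * b φ := by
    intro g
    refine b4_conj hs (α g) (fun x hx => ?_) (fun x hx => ?_)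
    · refine ⟨act (g : Γ)⁻¹ x, hQ _ (Γ0.inv_mem g.2) x hx, ?_⟩
      rw [hc, ← MulAut.mul_apply, ← map_mul, mul_inv_cancel, map_one, MulAut.one_apply]
    · exact ⟨act g x, hQ _ g.2 x hx, hc g x⟩
  choose β hβ using hex
  refine ⟨β, fun g h => ?_, fun g x => ?_⟩
  · -- the cocycle
    obtain ⟨c, hcc⟩ := hα g h
    obtain ⟨D, hD⟩ : ∃ D : (Matrix κ κ k)ˣ, D = (β (g * h))⁻¹ * (β g * β h) := ⟨_, rfl⟩
    have hcomm : ∀ χ : Matrix κ κ k, Commute χ (D : Matrix κ κ k) := by
      intro χ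
      obtain ⟨φ, hφ, rfl⟩ := hs.surj χ
      have e1 := hβ (g * h) φ hφ
      have e2 := hβ h φ hφ
      have hφh : Cent u Q ((α h : Matrix ι ι k) * φ * ((α h)⁻¹ : (Matrix ι ι k)ˣ)) := by
        intro x hx
        have hy : act (h : Γ)⁻¹ x ∈ Q := hQ _ (Γ0.inv_mem h.2) x hx
        have e3 : u x * (α h : Matrix ι ι k) = α h * u (act (h : Γ)⁻¹ x) := by
          rw [hc, ← MulAut.mul_apply, ← map_mul, mul_inv_cancel, map_one, MulAut.one_apply]
        have e4 : ((α h)⁻¹ : (Matrix ι ι k)ˣ) * u x =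
            u (act (h : Γ)⁻¹ x) * ((α h)⁻¹ : (Matrix ι ι k)ˣ) := by
          rw [Units.inv_mul_eq_iff_eq_mul, ← mul_assoc, ← e3, mul_assoc, Units.mul_inv, mul_one]
        rw [← mul_assoc, ← mul_assoc, e3, mul_assoc (α h : Matrix ι ι k), hφ _ hy,
          mul_assoc _ _ (u x), e4]
        simp only [mul_assoc]
      have e3 := hβ g _ hφh
      have e4 : (α (g * h : Γ) : Matrix ι ι k) * φ * ((α (g * h : Γ))⁻¹ : (Matrix ι ι k)ˣ) =
          (α g : Matrix ι ι k) * ((α h : Matrix ι ι k) * φ * ((α h)⁻¹ : (Matrix ι ι k)ˣ)) *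
            ((α g)⁻¹ : (Matrix ι ι k)ˣ) := by
        rw [Units.eq_mul_inv_iff_mul_eq, ← mul_assoc (α g : Matrix ι ι k), Units.eq_mul_inv_iff_mul_eq,
          mul_assoc _ (α g : Matrix ι ι k), hcc, Matrix.mul_smul, mul_assoc, Units.inv_mul, mul_one,
          ← mul_assoc, hcc, Matrix.smul_mul]
      have e1' : b ((α g : Matrix ι ι k) * ((α h : Matrix ι ι k) * φ * ((α h)⁻¹ : (Matrix ι ι k)ˣ)) *
          ((α g)⁻¹ : (Matrix ι ι k)ˣ)) * (β (g * h) : Matrix κ κ k) = β (g * h) * b φ := by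
        rw [← e4]
        exact e1
      generalize b ((α g : Matrix ι ι k) * ((α h : Matrix ι ι k) * φ * ((α h)⁻¹ : (Matrix ι ι k)ˣ)) *
          ((α g)⁻¹ : (Matrix ι ι k)ˣ)) = Z at e1' e3
      generalize b ((α h : Matrix ι ι k) * φ * ((α h)⁻¹ : (Matrix ι ι k)ˣ)) = V at e2 e3
      have e5 : ((β (g * h))⁻¹ : (Matrix κ κ k)ˣ) * Z = b φ * ((β (g * h))⁻¹ : (Matrix κ κ k)ˣ) := by
        rw [Units.inv_mul_eq_iff_eq_mul, ← mul_assoc, ← e1', mul_assoc, Units.mul_inv, mul_one]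
      have e6 : (D : Matrix κ κ k) = ((β (g * h))⁻¹ : (Matrix κ κ k)ˣ) * ((β g : Matrix κ κ k) * β h) := by
        rw [hD, Units.val_mul, Units.val_mul]
      have e7 : (β g : Matrix κ κ k) * β h * b φ = Z * (β g * β h) := by
        rw [mul_assoc, ← e2, ← mul_assoc, ← e3, mul_assoc]
      change b φ * (D : Matrix κ κ k) = D * b φ
      rw [e6, ← mul_assoc (b φ), ← e5, mul_assoc, ← e7]
      simp only [mul_assoc]
    obtain ⟨c', hc'⟩ := Matrix.mem_range_scalar_of_commute_single (M := (D : Matrix κ κ k))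
      fun i j _ => hcomm (Matrix.single i j 1)
    have hne : c' ≠ 0 := by
      rintro rfl
      rw [map_zero] at hc'
      have h0 : (1 : Matrix κ κ k) = 0 := by
        rw [← D.mul_inv, ← hc', zero_mul]
      exact one_ne_zero h0
    refine ⟨Units.mk0 c' hne, ?_⟩
    have h1 : (β g : Matrix κ κ k) * β h = β (g * h) * (D : Matrix κ κ k) := by
      rw [hD, Units.val_mul, Units.mul_inv_cancel_left, Units.val_mul]
    rw [h1, ← hc', Matrix.scalar_apply, ← Matrix.smul_one_eq_diagonal, Matrix.mul_smul, mul_one, Units.val_mk0]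
  · have h1 := hβ g (u x) (cent_u u Q x)
    rw [hc, mul_assoc, Units.mul_inv, mul_one, hs.act, hs.act] at h1
    exact h1.symm

end Pool.Agent.Lib.H77S
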