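import Pool.Agent.Lib.H77S.A11
import Pool.Agent.Lib.H77S.A5

/-! H77S, B5: the square of the dimension. -/

open scoped BigOperators

noncomputable section

namespace Pool.Agent.Lib.H77S

variable {p : ℕ} [Fact p.Prime] {k : Type} [Field k] [IsAlgClosed k] [CharP k p] {P : Type} [CommGroup P] [Finite P]
variable {ι κ : Type} [Fintype ι] [DecidableEq ι] [Fintype κ] [DecidableEq κ] {u : P →* Matrix ι ι k} {v : P →* Matrix κ κ k}

/-- The square of the dimension is `1` in `k` if the slash at `P` is one-dimensional. With a frame `F`: `n ^ 2 = trace of the identity of the space of matrices = ∑ β, c β (a β)`, the summand is `P`-invariant, so `n ^ 2 = ∑_{β fixed by P} c β (a β)` (`sum_fixed`).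
Slash `(u', b)` at `⊤` (`exists_slash`), `card κ = 1` (`oneAt_iff`); write `b φ = s φ • 1`. For `β` fixed: `c β (φ) = s φ * c β 1` for `φ ∈ Cent u ⊤` (`φ - s φ • 1` is in the kernel, `IsSlash.ker`). So `n ^ 2 = ∑_{β fixed} s (a β) * c β 1 = s (∑_{β fixed} c β 1 • a β) = s 1 = 1` (`Frame.in_red`, `ker`). -/
theorem card_sq (hP : ∀ x : P, ∃ a : ℕ, x ^ (p ^ a) = 1) (hF : Framed u) (hn : (Fintype.card ι : k) ≠ 0) (h1 : OneAt u ⊤) : (Fintype.card ι : k) ^ 2 = 1 := by
  classical
  obtain ⟨m, u', b, hs⟩ := exists_slash hP hF hn (⊤ : Subgroup P)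
  have hm : Fintype.card (Fin m) = 1 := (oneAt_iff hn hs).1 h1
  obtain ⟨B, fB, mB, ⟨F⟩⟩ := hF
  have hone : Cent u (⊤ : Subgroup P) (1 : Matrix ι ι k) := fun x _ => by rw [mul_one, one_mul]
  have hsub : Subsingleton (Fin m) := Fintype.card_le_one_iff_subsingleton.1 hm.le
  have htr1 : Matrix.trace (1 : Matrix (Fin m) (Fin m) k) = 1 := by
    rw [Matrix.trace_one, hm, Nat.cast_one]
  -- a matrix of size one is its trace
  have hsc : ∀ X : Matrix (Fin m) (Fin m) k, X = Matrix.trace X • (1 : Matrix (Fin m) (Fin m) k) := by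
    intro X
    ext i j
    have hij : i = j := Subsingleton.elim i j
    subst hij
    have : Matrix.trace X = X i i := by
      rw [Matrix.trace]
      rw [Finset.sum_eq_single i]
      · rfl
      · intro l _ hl
        exact absurd (Subsingleton.elim l i) hl
      · intro h
        exact absurd (Finset.mem_univ i) h
    rw [Matrix.smul_apply, Matrix.one_apply_eq, smul_eq_mul, mul_one, this]
  -- coefficients at the fixed points
  have hcoef : ∀ φ, Cent u (⊤ : Subgroup P) φ → ∀ β, Fixd (⊤ : Subgroup P) β →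
      F.c β φ = Matrix.trace (b φ) * F.c β 1 := by
    intro φ hφ β hβ
    have hc : Cent u (⊤ : Subgroup P) (φ - Matrix.trace (b φ) • (1 : Matrix ι ι k)) := by
      intro x hx
      rw [mul_sub, sub_mul, hφ x hx, mul_smul_comm, smul_mul_assoc, mul_one, one_mul]
    have h0 : b (φ - Matrix.trace (b φ) • (1 : Matrix ι ι k)) = 0 := by
      rw [map_sub, map_smul, hs.one, ← hsc (b φ), sub_self]
    have h2 := ((hs.ker hP hn F hc).1 h0).2 β hβ
    rw [map_sub, map_smul, smul_eq_mul, sub_eq_zero] at h2
    exact h2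
  -- the trace of the identity
  have htrace : ∑ β, F.c β (F.a β) = (Fintype.card ι : k) ^ 2 := by
    have e1 : ∀ β, F.c β (F.a β) = ∑ i, ∑ j, F.a β i j * F.c β (Matrix.single i j 1) := by
      intro β
      conv_lhs => rw [Matrix.matrix_eq_sum_single (F.a β)]
      rw [map_sum]
      refine Finset.sum_congr rfl fun i _ => ?_
      rw [map_sum]
      refine Finset.sum_congr rfl fun j _ => ?_
      have : Matrix.single i j (F.a β i j) = F.a β i j • Matrix.single i j (1 : k) := by
        rw [Matrix.smul_single, smul_eq_mul, mul_one]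
      rw [this, map_smul, smul_eq_mul]
    have e2 : ∀ i j, ∑ β, F.a β i j * F.c β (Matrix.single i j 1) = 1 := by
      intro i j
      have h2 := congrFun (congrFun (F.sum (Matrix.single i j (1 : k))) i) j
      rw [Matrix.sum_apply, Matrix.single_apply_same] at h2
      refine Eq.trans (Finset.sum_congr rfl fun β _ => ?_) h2
      rw [Matrix.smul_apply, smul_eq_mul, mul_comm]
    rw [Finset.sum_congr rfl fun β _ => e1 β, Finset.sum_comm]
    have e3 : ∀ i, ∑ β, ∑ j, F.a β i j * F.c β (Matrix.single i j 1) = (Fintype.card ι : k) := by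
      intro i
      rw [Finset.sum_comm, Finset.sum_congr rfl fun j _ => e2 i j, Finset.sum_const, Finset.card_univ,
        nsmul_eq_mul, mul_one]
    rw [Finset.sum_congr rfl fun i _ => e3 i, Finset.sum_const, Finset.card_univ, nsmul_eq_mul, sq]
  -- the fixed points
  have hfx : ∀ (x : P) (β : B), Fixd (⊤ : Subgroup P) (x • β) ↔ Fixd (⊤ : Subgroup P) β := by
    intro x β
    constructor
    · intro h y hy
      have h2 := h y hy
      rw [smul_smul, mul_comm, ← smul_smul] at h2
      exact MulAction.injective x h2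
    · intro h y hy
      rw [h x (Subgroup.mem_top x), h y hy]
  have hinv : ∀ (x : P) (β : B), F.c (x • β) (F.a (x • β)) = F.c β (F.a β) := fun x β =>
    F.hc x β (F.a β) (F.a (x • β)) (F.ha x β)
  have hfix := sum_fixed hP (⊤ : Subgroup P)
    (fun β => F.c β (F.a β) - if Fixd (⊤ : Subgroup P) β then F.c β (F.a β) else 0)
    (by
      intro x _ β
      show F.c (x • β) (F.a (x • β)) - (if Fixd (⊤ : Subgroup P) (x • β) then F.c (x • β) (F.a (x • β)) else 0) =
        F.c β (F.a β) - if Fixd (⊤ : Subgroup P) β then F.c β (F.a β) else 0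
      rw [hinv x β]
      by_cases hβ : Fixd (⊤ : Subgroup P) β
      · rw [if_pos hβ, if_pos ((hfx x β).2 hβ)]
      · rw [if_neg hβ, if_neg fun h => hβ ((hfx x β).1 h)])
    (by
      intro β hβ
      show F.c β (F.a β) - (if Fixd (⊤ : Subgroup P) β then F.c β (F.a β) else 0) = 0
      rw [if_pos hβ, sub_self])
  rw [Finset.sum_sub_distrib, sub_eq_zero, htrace] at hfix
  rw [hfix]
  -- the reduction of the identity
  have hred := (hs.ker hP hn F (F.in_red hP hone).1).2 (F.in_red hP hone)
  rw [map_sub, sub_eq_zero, hs.one, map_sum] at hred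
  have h3 := congrArg Matrix.trace hred
  rw [htr1, Matrix.trace_sum] at h3
  rw [h3]
  refine Finset.sum_congr rfl fun β _ => ?_
  split_ifs with hβ
  · rw [hcoef (F.a β) (F.cent_a hβ) β hβ, map_smul, Matrix.trace_smul, smul_eq_mul, mul_comm]
  · rw [map_zero, Matrix.trace_zero]

end Pool.Agent.Lib.H77S
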