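import Pool.Agent.Lib.H77S.Defs

/-! H77S, B6: from a corner to the whole. -/

open scoped BigOperators Kronecker

noncomputable section

namespace Pool.Agent.Lib.H77S

variable {k : Type} [Field k] {P : Type} [CommGroup P]
variable {ι κ : Type} [Fintype ι] [DecidableEq ι] [Fintype κ] [DecidableEq κ] {u : P →* Matrix ι ι k}

/-- From the corner to the whole. `π' g = c g • β g` gives `π g = c g • α g`: a homomorphism because `α` and `β` have the same factors (`β g * β h = j * α g * α h * i`, `β (g h) ≠ 0`; `κ` is not empty as `trace e ≠ 0`). Trace: for `s` fixing `z ∈ Z`: `π s` and `e` commute with `u z`,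
`trace (π s * e) * n = trace (π s) * trace e` by `OneAt`, `trace (π s * e) = trace (j * π s * i) = trace (π' s) = card κ = trace e`. -/
theorem tt_of_corner {Γ : Type} [Group Γ] (act : Γ →* MulAut P) {e : Matrix ι ι k} (he : Cent u ⊤ e) (hte : Matrix.trace e ≠ 0) {i : Matrix ι κ k} {j : Matrix κ ι k} (hji : j * i = 1) (hij : i * j = e)
    (α : Γ → (Matrix ι ι k)ˣ) (hα : IsProj α) (hc : Comp act u α) (hae : ∀ g, (α g : Matrix ι ι k) * e = e * α g) (β : Γ → (Matrix κ κ k)ˣ) (hβ : ∀ g, (β g : Matrix κ κ k) = j * (α g : Matrix ι ι k) * i)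
    (Z : Set P) (hone : ∀ z ∈ Z, OneAt u (Subgroup.zpowers z)) (h : TT act β Z) : TT act α Z := by
  classical
  obtain ⟨π', hπ', htr⟩ := h
  choose c hcβ using hπ'
  have htre : Matrix.trace e = (Fintype.card κ : k) := by
    rw [← hij, Matrix.trace_mul_comm, hji, Matrix.trace_one]
  have hκ : Nonempty κ := by
    rw [← not_isEmpty_iff]
    intro hemp
    exact hte (by rw [htre, Fintype.card_eq_zero, Nat.cast_zero])
  have hje : j * e = j := by rw [← hij, ← Matrix.mul_assoc, hji, Matrix.one_mul]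
  have hββ : ∀ g h (a : k), (α g : Matrix ι ι k) * α h = a • (α (g * h) : Matrix ι ι k) →
      (β g : Matrix κ κ k) * β h = a • (β (g * h) : Matrix κ κ k) := by
    intro g h a hgh
    rw [hβ, hβ, hβ]
    calc j * (α g : Matrix ι ι k) * i * (j * (α h : Matrix ι ι k) * i)
        = j * ((α g : Matrix ι ι k) * (i * j)) * (α h : Matrix ι ι k) * i := by
          simp only [Matrix.mul_assoc]
      _ = j * (e * (α g : Matrix ι ι k)) * (α h : Matrix ι ι k) * i := by rw [hij, hae]
      _ = (j * e) * ((α g : Matrix ι ι k) * (α h : Matrix ι ι k)) * i := by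
          simp only [Matrix.mul_assoc]
      _ = a • (j * (α (g * h) : Matrix ι ι k) * i) := by
          rw [hje, hgh, Matrix.mul_smul, Matrix.smul_mul]
  have hcc : ∀ g h (a : k), (α g : Matrix ι ι k) * α h = a • (α (g * h) : Matrix ι ι k) →
      (c g : k) * c h * a = c (g * h) := by
    intro g h a hgh
    have h1 : (π' (g * h) : Matrix κ κ k) = (π' g : Matrix κ κ k) * π' h := by
      rw [map_mul, Units.val_mul]
    rw [hcβ, hcβ, hcβ, smul_mul_smul_comm, hββ g h a hgh, smul_smul] at h1
    have h2 : (β (g * h) : Matrix κ κ k) ≠ 0 := (β (g * h)).ne_zero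
    exact (smul_left_injective k h2 h1).symm
  let f : Γ → (Matrix ι ι k)ˣ := fun g =>
    Units.map ((algebraMap k (Matrix ι ι k) : k →+* Matrix ι ι k) : k →* Matrix ι ι k) (c g) * α g
  have hf : ∀ g, (f g : Matrix ι ι k) = (c g : k) • (α g : Matrix ι ι k) := by
    intro g
    rw [Algebra.smul_def]
    rfl
  let π : Γ →* (Matrix ι ι k)ˣ := MonoidHom.mk' f (by
    intro g h
    apply Units.ext
    obtain ⟨a, ha⟩ := hα g h
    refine (hf (g * h)).trans ?_
    rw [Units.val_mul, hf, hf, smul_mul_smul_comm, ha, smul_smul, hcc g h a ha])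
  have hπ : ∀ g, (π g : Matrix ι ι k) = (c g : k) • (α g : Matrix ι ι k) := hf
  refine ⟨π, fun g => ⟨c g, hπ g⟩, fun z hz s hs => ?_⟩
  have hcs : Cent u (Subgroup.zpowers z) (π s : Matrix ι ι k) := by
    intro x hx
    obtain ⟨n, rfl⟩ := Subgroup.mem_zpowers_iff.1 hx
    have h1 : act s (z ^ n) = z ^ n := by rw [map_zpow, hs]
    have h2 := hc s (z ^ n)
    rw [h1] at h2
    rw [hπ, Matrix.mul_smul, Matrix.smul_mul, h2]
  have h1 := hone z hz (π s : Matrix ι ι k) e hcs (fun x _ => he x (Subgroup.mem_top x))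
  have h2 : Matrix.trace ((π s : Matrix ι ι k) * e) = Matrix.trace e := by
    have h3 := htr z hz s hs
    rw [hcβ, hβ] at h3
    rw [htre, ← h3, ← hij, hπ, ← Matrix.mul_assoc, Matrix.trace_mul_comm, Matrix.smul_mul,
      Matrix.mul_smul, Matrix.mul_assoc]
  rw [h2] at h1
  have h4 : Matrix.trace e * ((Fintype.card ι : k) - Matrix.trace (π s : Matrix ι ι k)) = 0 := by
    rw [mul_sub, h1, mul_comm, sub_self]
  rcases mul_eq_zero.1 h4 with h5 | h5
  · exact absurd h5 hte
  · exact (sub_eq_zero.1 h5).symm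

end Pool.Agent.Lib.H77S
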