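import Pool.Agent.Lib.H77S.Defs

/-! H77S, B7: projective representations and tensor products. -/

open scoped BigOperators Kronecker

noncomputable section

namespace Pool.Agent.Lib.H77S

variable {k : Type} [Field k] {P : Type} [CommGroup P]
variable {ι κ : Type} [Fintype ι] [DecidableEq ι] [Fintype κ] [DecidableEq κ] {u : P →* Matrix ι ι k}

private theorem B7_cancel {X Y : Matrix ι ι k} {N : (Matrix κ κ k)ˣ} [Nonempty κ]
    (h : X ⊗ₖ (N : Matrix κ κ k) = Y ⊗ₖ (N : Matrix κ κ k)) : X = Y := by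
  have h1 : X ⊗ₖ (1 : Matrix κ κ k) = Y ⊗ₖ (1 : Matrix κ κ k) := by
    have h2 := congrArg (fun M => M * ((1 : Matrix ι ι k) ⊗ₖ ((N⁻¹ : (Matrix κ κ k)ˣ) : Matrix κ κ k))) h
    simp only [← Matrix.mul_kronecker_mul, mul_one, Units.mul_inv] at h2
    exact h2
  ext i j
  obtain ⟨a⟩ := (inferInstance : Nonempty κ)
  have h3 := congrFun (congrFun h1 (i, a)) (j, a)
  simpa [Matrix.kroneckerMap_apply] using h3

/-- From `α ⊗ πN` to `α`: `π' g = c g • (α g ⊗ₖ πN g)` is a homomorphism, so `c g • α g` is one (`πN g ⊗`-factors cancel: `X ⊗ₖ N = Y ⊗ₖ N`, `N` invertible, `κ` not empty, gives `X = Y`); traces multiply (`Matrix.trace_kronecker`). -/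
theorem tt_of_kron {Γ : Type} [Group Γ] (act : Γ →* MulAut P) (α : Γ → (Matrix ι ι k)ˣ) (πN : Γ →* (Matrix κ κ k)ˣ) (hk : (Fintype.card κ : k) ≠ 0)
    (γ : Γ → (Matrix (ι × κ) (ι × κ) k)ˣ) (hγ : ∀ g, (γ g : Matrix (ι × κ) (ι × κ) k) = (α g : Matrix ι ι k) ⊗ₖ (πN g : Matrix κ κ k))
    (Z : Set P) (htr : ∀ z ∈ Z, ∀ s, act s z = z → Matrix.trace (πN s : Matrix κ κ k) = (Fintype.card κ : k)) (h : TT act γ Z) : TT act α Z := by
  classical
  have : Nonempty κ := by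
    by_contra hne
    rw [not_nonempty_iff] at hne
    exact hk (by simp)
  obtain ⟨π, hπ, htrπ⟩ := h
  choose c hc using hπ
  have key : ∀ g h : Γ, (c (g * h) • α (g * h) : (Matrix ι ι k)ˣ) = (c g • α g) * (c h • α h) := by
    intro g h
    apply Units.ext
    have e1 : ((c (g * h) : k) • (α (g * h) : Matrix ι ι k)) ⊗ₖ ((πN (g * h) : (Matrix κ κ k)ˣ) : Matrix κ κ k)
        = (((c g : k) • (α g : Matrix ι ι k)) * ((c h : k) • (α h : Matrix ι ι k))) ⊗ₖ ((πN (g * h) : (Matrix κ κ k)ˣ) : Matrix κ κ k) := by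
      have e2 : (π (g * h) : Matrix (ι × κ) (ι × κ) k) = (π g : Matrix (ι × κ) (ι × κ) k) * (π h : Matrix (ι × κ) (ι × κ) k) := by
        rw [map_mul, Units.val_mul]
      rw [hc, hc, hc, hγ, hγ, hγ] at e2
      rw [Matrix.smul_kronecker, e2, map_mul, Units.val_mul, Matrix.mul_kronecker_mul,
        Matrix.smul_kronecker, Matrix.smul_kronecker]
    have e3 := B7_cancel e1
    simpa [Units.smul_def] using e3
  refine ⟨MonoidHom.mk' (fun g => c g • α g) key, fun g => ⟨c g, ?_⟩, fun z hz s hs => ?_⟩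
  · simp [Units.smul_def]
  · have e1 := htrπ z hz s hs
    rw [hc, hγ, ← Matrix.smul_kronecker, Matrix.trace_kronecker, htr z hz s hs, Fintype.card_prod, Nat.cast_mul] at e1
    have e2 := mul_right_cancel₀ hk e1
    simpa [Units.smul_def] using e2

/-- `α ⊗ πN` as a projective representation. -/
theorem kron_proj {Γ : Type} [Group Γ] (act : Γ →* MulAut P) {v : P →* Matrix κ κ k} (α : Γ → (Matrix ι ι k)ˣ) (hα : IsProj α) (hc : Comp act u α)
    (πN : Γ →* (Matrix κ κ k)ˣ) (hN : ∀ g x, (πN g : Matrix κ κ k) * v x = v (act g x) * πN g) :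
    ∃ γ : Γ → (Matrix (ι × κ) (ι × κ) k)ˣ, (∀ g, (γ g : Matrix (ι × κ) (ι × κ) k) = (α g : Matrix ι ι k) ⊗ₖ (πN g : Matrix κ κ k)) ∧ IsProj γ ∧ Comp act (kr u v) γ := by
  let γ : Γ → (Matrix (ι × κ) (ι × κ) k)ˣ := fun g =>
    { val := (α g : Matrix ι ι k) ⊗ₖ (πN g : Matrix κ κ k)
      inv := ((α g)⁻¹ : (Matrix ι ι k)ˣ) ⊗ₖ ((πN g)⁻¹ : (Matrix κ κ k)ˣ)
      val_inv := by
        rw [← Matrix.mul_kronecker_mul, Units.mul_inv, Units.mul_inv, Matrix.one_kronecker_one]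
      inv_val := by
        rw [← Matrix.mul_kronecker_mul, Units.inv_mul, Units.inv_mul, Matrix.one_kronecker_one] }
  have hγ : ∀ g, (γ g : Matrix (ι × κ) (ι × κ) k) = (α g : Matrix ι ι k) ⊗ₖ (πN g : Matrix κ κ k) := fun g => rfl
  refine ⟨γ, hγ, fun g h => ?_, fun g x => ?_⟩
  · obtain ⟨c, hc'⟩ := hα g h
    refine ⟨c, ?_⟩
    rw [hγ, hγ, hγ, ← Matrix.mul_kronecker_mul, hc', Matrix.smul_kronecker, map_mul, Units.val_mul]
  · have e1 : (kr u v : P →* Matrix (ι × κ) (ι × κ) k) x = u x ⊗ₖ v x := rfl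
    have e2 : (kr u v : P →* Matrix (ι × κ) (ι × κ) k) (act g x) = u (act g x) ⊗ₖ v (act g x) := rfl
    rw [hγ, e1, e2, ← Matrix.mul_kronecker_mul, ← Matrix.mul_kronecker_mul, hc, hN]

end Pool.Agent.Lib.H77S
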