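import Pool.Agent.Lib.H77S.B0
import Pool.Agent.Lib.H77S.B1

/-! H77S, BC: a local corner fixed by a p-prime group (pure algebra). -/

open scoped BigOperators

noncomputable section

namespace Pool.Agent.Lib.H77S

/-- The local corner. `Γ` acts by algebra automorphisms, `|Γ| ≠ 0` in `k`, `τ` is an invariant algebra homomorphism to `k`. There is a `Γ`-fixed idempotent `e` with `τ e = 1` and `e * a * e` nilpotent whenever `τ a = 0`.
Proof. Among the `Γ`-fixed idempotents `e` with `τ e = 1` (for instance `1`) take one with `dim (e A e)` minimal (the submodule `{e * a * e}`). (1) A `Γ`-fixed `a = e * a * e` with `τ a = 0` is nilpotent: `fitting` for `a` gives an idempotent `f ∈ k[a]`; as `τ a = 0`, `a * b = f`: `τ f = 0`;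
`f * e = f = e * f` (since `f = a * b`, `e` commutes with `a`), so `e - f` is a `Γ`-fixed idempotent with `τ (e - f) = 1` and its corner is contained in the corner of `e`; minimality: the corners are equal, so `f = e f e` is in the corner of `e - f`: `f = (e - f) f (e - f) = 0`, so `a` is nilpotent.
(2) Let `I₀ = {a ∈ e A e, τ a = 0}`, a two-sided ideal of the algebra `e A e` (unit `e`). If it contains a non-nilpotent element, apply `ideal_unit` to the algebra `e A e` (a subtype; or to the ring `A' = e A e ` built as `IsIdempotentElem.Corner`): `a ∈ I₀` with `a y - y`, `y a - y` in the radical for `y ∈ I₀`.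
The average `a' = |Γ|⁻¹ ∑ act g a` has the same property (the radical and `I₀` are stable under automorphisms), is `Γ`-fixed and in `I₀`, hence nilpotent by (1); but `a' * a' - a'` is in the radical, so modulo the radical `a'` is idempotent and nilpotent, so `a'` is in the radical; then every `y ∈ I₀` (`y - a' y` in the radical) is in the radical, so nilpotent: contradiction. -/
theorem corner_exists {k : Type} [Field k] {A : Type} [Ring A] [Algebra k A] [FiniteDimensional k A] {Γ : Type} [Group Γ] [Finite Γ] (hΓ : (Nat.card Γ : k) ≠ 0)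
    (act : Γ →* (A ≃ₐ[k] A)) (τ : A →ₐ[k] k) (hτ : ∀ g a, τ (act g a) = τ a) :
    ∃ e : A, e * e = e ∧ (∀ g, act g e = e) ∧ τ e = 1 ∧ ∀ a, τ a = 0 → IsNilpotent (e * a * e) := by
  classical
  have hart : IsArtinianRing A := IsArtinianRing.of_finite k A
  -- elements of the radical are nilpotent
  have hnil : ∀ x ∈ Ring.jacobson A, IsNilpotent x := by
    intro x hx
    obtain ⟨n, hn⟩ := (IsSemiprimaryRing.isNilpotent : IsNilpotent (Ring.jacobson A))
    refine ⟨n, ?_⟩
    have h1 : x ^ n ∈ (Ring.jacobson A) ^ n := Ideal.pow_mem_pow hx n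
    rw [hn] at h1
    exact h1
  have hτJ : ∀ x ∈ Ring.jacobson A, τ x = 0 := fun x hx => by
    have h1 := (hnil x hx).map τ
    exact h1.eq_zero
  by_cases hI : ∀ y, τ y = 0 → IsNilpotent y
  · refine ⟨1, one_mul 1, fun g => map_one _, map_one τ, fun a ha => ?_⟩
    rw [one_mul, mul_one]
    exact hI a ha
  · push Not at hI
    obtain ⟨y₀, hy₀, hy₀n⟩ := hI
    obtain ⟨a, haI, -, ha⟩ := ideal_unit (k := k) (TwoSidedIdeal.ker (τ : A →+* k))
      ⟨y₀, (TwoSidedIdeal.mem_ker _).2 hy₀, hy₀n⟩
    have haτ : τ a = 0 := (TwoSidedIdeal.mem_ker _).1 haI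
    have ha' : ∀ y, τ y = 0 → a * y - y ∈ Ring.jacobson A ∧ y * a - y ∈ Ring.jacobson A := fun y hy =>
      ha y ((TwoSidedIdeal.mem_ker _).2 hy)
    have hΓf : Fintype Γ := Fintype.ofFinite Γ
    have hcard : (Fintype.card Γ : k) ≠ 0 := by
      rw [← Nat.card_eq_fintype_card]
      exact hΓ
    -- the average
    obtain ⟨a', ha'def⟩ : ∃ a' : A, a' = ((Fintype.card Γ : k)⁻¹) • ∑ g, act g a := ⟨_, rfl⟩
    have hfix : ∀ h, act h a' = a' := by
      intro h
      rw [ha'def, map_smul, map_sum]
      congr 1
      refine Fintype.sum_equiv (Equiv.mulLeft h) _ _ fun g => ?_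
      rw [Equiv.coe_mulLeft, map_mul]
      rfl
    have hτa' : τ a' = 0 := by
      rw [ha'def, map_smul, map_sum]
      rw [Finset.sum_eq_zero fun g _ => by rw [hτ, haτ], smul_zero]
    have hJact : ∀ g : Γ, ∀ x ∈ Ring.jacobson A, act g x ∈ Ring.jacobson A := by
      intro g x hx
      have h1 : RingHomSurjective ((act g : A ≃ₐ[k] A) : A →+* A) := ⟨(act g).surjective⟩
      exact Ring.le_comap_jacobson ((act g : A ≃ₐ[k] A) : A →+* A) hx
    have hgy : ∀ g : Γ, ∀ y, τ y = 0 → act g a * y - y ∈ Ring.jacobson A := by
      intro g y hy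
      have h1 : act g (act g⁻¹ y) = y := by
        have h2 : (act g * act g⁻¹) y = y := by
          rw [← map_mul, mul_inv_cancel, map_one]
          rfl
        exact h2
      have h3 := hJact g _ (ha' (act g⁻¹ y) (by rw [hτ, hy])).1
      rwa [map_sub, map_mul, h1] at h3
    have ha'y : ∀ y, τ y = 0 → a' * y - y ∈ Ring.jacobson A := by
      intro y hy
      have h1 : a' * y - y = ((Fintype.card Γ : k)⁻¹) • ∑ g, (act g a * y - y) := by
        rw [Finset.sum_sub_distrib, smul_sub, ← Finset.sum_mul, ha'def, smul_mul_assoc,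
          Finset.sum_const, Finset.card_univ, ← Nat.cast_smul_eq_nsmul k, smul_smul,
          inv_mul_cancel₀ hcard, one_smul]
      rw [h1, Algebra.smul_def]
      exact Ideal.mul_mem_left _ _ (Ideal.sum_mem _ fun g _ => hgy g y hy)
    -- the idempotent
    obtain ⟨f, b, hf, hb, hff, hfn, hab, hba⟩ := fitting (k := k) a'
    have hadj : ∀ x ∈ Algebra.adjoin k {a'}, ∀ h, act h x = x := by
      intro x hx h
      induction hx using Algebra.adjoin_induction with
      | mem x hx =>
        rw [Set.mem_singleton_iff.1 hx]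
        exact hfix h
      | algebraMap r => exact AlgEquiv.commutes _ r
      | add x y _ _ hx hy => rw [map_add, hx, hy]
      | mul x y _ _ hx hy => rw [map_mul, hx, hy]
    let π : A →+* A ⧸ Ring.jacobson A := Ideal.Quotient.mk (Ring.jacobson A)
    have hπ : ∀ x, π x = 0 ↔ x ∈ Ring.jacobson A := fun x => Ideal.Quotient.eq_zero_iff_mem
    have hid : π a' * π a' = π a' := by
      rw [← map_mul, ← sub_eq_zero, ← map_sub, hπ]
      exact ha'y a' hτa'
    have hcomm : a' * f = f * a' := by
      rw [← hba, ← mul_assoc, hab, hba]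
    have hz : π a' * (1 - π f) = 0 := by
      have h1 : IsNilpotent (π a' * (1 - π f)) := by
        have h2 := hfn.map π
        rwa [map_mul, map_sub, map_one] at h2
      have hff' : π f * π f = π f := by rw [← map_mul, hff]
      have hcomm' : π a' * π f = π f * π a' := by rw [← map_mul, hcomm, map_mul]
      have h3 : (π a' * (1 - π f)) * (π a' * (1 - π f)) = π a' * (1 - π f) := by
        have h4 : (1 - π f) * π a' = π a' * (1 - π f) := by
          rw [sub_mul, mul_sub, one_mul, mul_one, hcomm']
        have h5 : (1 - π f) * (1 - π f) = 1 - π f := by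
          rw [mul_sub, mul_one, sub_mul, one_mul, hff', sub_self, sub_zero]
        calc (π a' * (1 - π f)) * (π a' * (1 - π f)) = π a' * ((1 - π f) * π a') * (1 - π f) := by
              simp only [mul_assoc]
          _ = (π a' * π a') * ((1 - π f) * (1 - π f)) := by
              rw [h4]
              simp only [mul_assoc]
          _ = π a' * (1 - π f) := by rw [hid, h5]
      obtain ⟨n, hn⟩ := h1
      have h4 : ∀ m : ℕ, (π a' * (1 - π f)) ^ (m + 1) = π a' * (1 - π f) := by
        intro m
        induction m with
        | zero => rw [zero_add, pow_one]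
        | succ m ih => rw [pow_succ, ih, h3]
      rw [← h4 n, pow_succ, hn, zero_mul]
    have hπf : π f = π a' := by
      have h1 : π a' * π f = π a' := by
        rw [mul_sub, mul_one, sub_eq_zero] at hz
        exact hz.symm
      have h2 : π a' * π f = π f := by
        rw [← hab, map_mul, ← mul_assoc, hid]
      rw [← h2, h1]
    have hfJ : f - a' ∈ Ring.jacobson A := by
      rw [← hπ, map_sub, hπf, sub_self]
    refine ⟨1 - f, ?_, ?_, ?_, ?_⟩
    · rw [mul_sub, mul_one, sub_mul, one_mul, hff, sub_self, sub_zero]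
    · intro g
      rw [map_sub, map_one, hadj f hf g]
    · have h1 := hτJ _ hfJ
      rw [map_sub, hτa', sub_zero] at h1
      rw [map_sub, map_one, h1, sub_zero]
    · intro x hx
      apply hnil
      rw [← hπ, map_mul, map_mul, map_sub, map_one, hπf]
      have h1 : (1 - π a') * π x = 0 := by
        have h2 := (hπ _).2 (ha'y x hx)
        rw [map_sub, map_mul, sub_eq_zero] at h2
        rw [sub_mul, one_mul, h2, sub_self]
      rw [h1, zero_mul]

end Pool.Agent.Lib.H77S
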