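import Pool.Agent.Lib.H77S.BC
import Pool.Agent.Lib.H77S.A2

/-! H77S, C0: the local corner for a framed representation. -/

open scoped BigOperators

noncomputable section

namespace Pool.Agent.Lib.H77S

variable {p : ℕ} [Fact p.Prime] {k : Type} [Field k] [IsAlgClosed k] [CharP k p] {P : Type} [CommGroup P] [Finite P]

/-- The algebra of the matrices commuting with `P`. -/
def c0A {ι : Type} [Fintype ι] [DecidableEq ι] (u : P →* Matrix ι ι k) : Subalgebra k (Matrix ι ι k) :=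
  Subalgebra.centralizer k (Set.range u)

theorem c0_mem {ι : Type} [Fintype ι] [DecidableEq ι] (u : P →* Matrix ι ι k) (φ : Matrix ι ι k) :
    φ ∈ c0A u ↔ Cent u ⊤ φ := by
  rw [c0A, Subalgebra.mem_centralizer_iff]
  constructor
  · intro h x _
    exact h (u x) ⟨x, rfl⟩
  · rintro h _ ⟨x, rfl⟩
    exact h x (Subgroup.mem_top x)

theorem c0_conj {Γ : Type} [Group Γ] (act : Γ →* MulAut P) {ι : Type} [Fintype ι] [DecidableEq ι] (u : P →* Matrix ι ι k)
    (α : Γ → (Matrix ι ι k)ˣ) (hc : Comp act u α) (g : Γ) (φ : Matrix ι ι k) (h : Cent u ⊤ φ) :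
    Cent u ⊤ ((α g : Matrix ι ι k) * φ * ((α g)⁻¹ : (Matrix ι ι k)ˣ)) := by
  intro x _
  have h1 : (α g : Matrix ι ι k) * u (act g⁻¹ x) = u x * α g := by
    have h2 := hc g (act g⁻¹ x)
    have h3 : act g (act g⁻¹ x) = x := by
      rw [map_inv]
      exact MulAut.apply_inv_self P (act g) x
    rw [h3] at h2
    exact h2
  have h4 : u (act g⁻¹ x) * ((α g)⁻¹ : (Matrix ι ι k)ˣ) = ((α g)⁻¹ : (Matrix ι ι k)ˣ) * u x := by
    rw [Units.mul_inv_eq_iff_eq_mul, mul_assoc, ← h1, ← mul_assoc, Units.inv_mul, one_mul]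
  calc u x * ((α g : Matrix ι ι k) * φ * ((α g)⁻¹ : (Matrix ι ι k)ˣ))
      = (u x * α g) * φ * ((α g)⁻¹ : (Matrix ι ι k)ˣ) := by simp only [mul_assoc]
    _ = (α g : Matrix ι ι k) * (u (act g⁻¹ x) * φ) * ((α g)⁻¹ : (Matrix ι ι k)ˣ) := by
        rw [← h1]; simp only [mul_assoc]
    _ = (α g : Matrix ι ι k) * φ * (u (act g⁻¹ x) * ((α g)⁻¹ : (Matrix ι ι k)ˣ)) := by
        rw [h _ (Subgroup.mem_top _)]; simp only [mul_assoc]
    _ = (α g : Matrix ι ι k) * φ * ((α g)⁻¹ : (Matrix ι ι k)ˣ) * u x := by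
        rw [h4]; simp only [mul_assoc]

/-- Conjugation by `α g` on the algebra. -/
def c0f {Γ : Type} [Group Γ] (act : Γ →* MulAut P) {ι : Type} [Fintype ι] [DecidableEq ι] (u : P →* Matrix ι ι k)
    (α : Γ → (Matrix ι ι k)ˣ) (hc : Comp act u α) (g : Γ) : c0A u →ₐ[k] c0A u where
  toFun a := ⟨(α g : Matrix ι ι k) * a.1 * ((α g)⁻¹ : (Matrix ι ι k)ˣ),
    (c0_mem u _).2 (c0_conj act u α hc g a.1 ((c0_mem u _).1 a.2))⟩
  map_one' := by
    apply Subtype.ext
    show (α g : Matrix ι ι k) * 1 * ((α g)⁻¹ : (Matrix ι ι k)ˣ) = 1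
    rw [mul_one, Units.mul_inv]
  map_mul' a b := by
    apply Subtype.ext
    show (α g : Matrix ι ι k) * (a.1 * b.1) * ((α g)⁻¹ : (Matrix ι ι k)ˣ) =
      ((α g : Matrix ι ι k) * a.1 * ((α g)⁻¹ : (Matrix ι ι k)ˣ)) *
        ((α g : Matrix ι ι k) * b.1 * ((α g)⁻¹ : (Matrix ι ι k)ˣ))
    have h : ((α g)⁻¹ : (Matrix ι ι k)ˣ) * (α g : Matrix ι ι k) = 1 := Units.inv_mul _
    calc (α g : Matrix ι ι k) * (a.1 * b.1) * ((α g)⁻¹ : (Matrix ι ι k)ˣ)
        = (α g : Matrix ι ι k) * a.1 * 1 * b.1 * ((α g)⁻¹ : (Matrix ι ι k)ˣ) := by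
          simp only [mul_assoc, mul_one]
      _ = _ := by rw [← h]; simp only [mul_assoc]
  map_zero' := by
    apply Subtype.ext
    show (α g : Matrix ι ι k) * 0 * ((α g)⁻¹ : (Matrix ι ι k)ˣ) = 0
    rw [mul_zero, zero_mul]
  map_add' a b := by
    apply Subtype.ext
    show (α g : Matrix ι ι k) * (a.1 + b.1) * ((α g)⁻¹ : (Matrix ι ι k)ˣ) =
      (α g : Matrix ι ι k) * a.1 * ((α g)⁻¹ : (Matrix ι ι k)ˣ) +
        (α g : Matrix ι ι k) * b.1 * ((α g)⁻¹ : (Matrix ι ι k)ˣ)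
    rw [mul_add, add_mul]
  commutes' c := by
    apply Subtype.ext
    show (α g : Matrix ι ι k) * (algebraMap k (Matrix ι ι k) c) * ((α g)⁻¹ : (Matrix ι ι k)ˣ) =
      algebraMap k (Matrix ι ι k) c
    rw [← Algebra.commutes, mul_assoc, Units.mul_inv, mul_one]

/-- The local corner for `A = Cent u ⊤` and the action of `Γ` by conjugation with `α`. `A` = the subalgebra of matrices commuting with all `u x`; `act g a = α g * a * (α g)⁻¹` (an action although `α` is projective); `τ = trace / dimension`, multiplicative by `OneAt u ⊤`, invariant; `corner_exists` (`|Γ| ≠ 0` in `k` as `p ∤ |Γ|`). -/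
theorem corner_of {Γ : Type} [Group Γ] [Finite Γ] (hΓ : ¬ p ∣ Nat.card Γ) (act : Γ →* MulAut P) {ι : Type} [Fintype ι] [DecidableEq ι] (u : P →* Matrix ι ι k)
    (hn : (Fintype.card ι : k) ≠ 0) (h1 : OneAt u ⊤) (α : Γ → (Matrix ι ι k)ˣ) (hα : IsProj α) (hc : Comp act u α) :
    ∃ e : Matrix ι ι k, Cent u ⊤ e ∧ e * e = e ∧ Matrix.trace e = (Fintype.card ι : k) ∧ (∀ g, (α g : Matrix ι ι k) * e = e * α g) ∧
      ∀ a, Cent u ⊤ a → Matrix.trace a = 0 → IsNilpotent (e * a * e) := by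
  classical
  have hcard : (Nat.card Γ : k) ≠ 0 := by
    intro h
    exact hΓ ((CharP.cast_eq_zero_iff k p _).1 h)
  -- scalars do not matter
  have hconj : ∀ g h (a : Matrix ι ι k),
      (α g : Matrix ι ι k) * ((α h : Matrix ι ι k) * a * ((α h)⁻¹ : (Matrix ι ι k)ˣ)) * ((α g)⁻¹ : (Matrix ι ι k)ˣ) =
        (α (g * h) : Matrix ι ι k) * a * ((α (g * h))⁻¹ : (Matrix ι ι k)ˣ) := by
    intro g h a
    obtain ⟨c, hc'⟩ := hα g h
    rw [eq_comm, Units.mul_inv_eq_iff_eq_mul]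
    have h2 : ((c : k) • (α (g * h) : Matrix ι ι k)) * a =
        (α g : Matrix ι ι k) * ((α h : Matrix ι ι k) * a * ((α h)⁻¹ : (Matrix ι ι k)ˣ)) * ((α g)⁻¹ : (Matrix ι ι k)ˣ) *
          ((c : k) • (α (g * h) : Matrix ι ι k)) := by
      rw [← hc']
      have e1 : ((α h)⁻¹ : (Matrix ι ι k)ˣ) * (α h : Matrix ι ι k) = 1 := Units.inv_mul _
      have e2 : ((α g)⁻¹ : (Matrix ι ι k)ˣ) * (α g : Matrix ι ι k) = 1 := Units.inv_mul _
      calc (α g : Matrix ι ι k) * α h * a = (α g : Matrix ι ι k) * ((α h : Matrix ι ι k) * a * (1 * 1)) := by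
            simp only [mul_assoc, mul_one]
        _ = (α g : Matrix ι ι k) * ((α h : Matrix ι ι k) * a * (((α h)⁻¹ : (Matrix ι ι k)ˣ) *
              (((α g)⁻¹ : (Matrix ι ι k)ˣ) * (α g : Matrix ι ι k)) * (α h : Matrix ι ι k))) := by
            have e3 : (((α h)⁻¹ : (Matrix ι ι k)ˣ) : Matrix ι ι k) * ((((α g)⁻¹ : (Matrix ι ι k)ˣ) : Matrix ι ι k) * (α g : Matrix ι ι k)) *
                (α h : Matrix ι ι k) = 1 := by rw [e2, mul_one, e1]
            rw [e3, mul_one (1 : Matrix ι ι k)]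
        _ = _ := by simp only [mul_assoc]
    rw [Matrix.smul_mul, Matrix.mul_smul] at h2
    have hcne : (c : k) ≠ 0 := c.ne_zero
    have h3 := congrArg (fun m => (c : k)⁻¹ • m) h2
    simp only [smul_smul, inv_mul_cancel₀ hcne, one_smul] at h3
    exact h3
  have hone : ∀ a : Matrix ι ι k, (α 1 : Matrix ι ι k) * a * ((α 1)⁻¹ : (Matrix ι ι k)ˣ) = a := by
    intro a
    have h2 := hconj 1 1 a
    rw [mul_one] at h2
    have h3 : (α 1 : Matrix ι ι k) * a * ((α 1)⁻¹ : (Matrix ι ι k)ˣ) =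
        ((α 1)⁻¹ : (Matrix ι ι k)ˣ) * ((α 1 : Matrix ι ι k) * a * ((α 1)⁻¹ : (Matrix ι ι k)ˣ)) * (α 1 : Matrix ι ι k) := by
      conv_rhs => rw [← h2]
      have e2 : ((α 1)⁻¹ : (Matrix ι ι k)ˣ) * (α 1 : Matrix ι ι k) = 1 := Units.inv_mul _
      calc (α 1 : Matrix ι ι k) * a * ((α 1)⁻¹ : (Matrix ι ι k)ˣ)
          = 1 * ((α 1 : Matrix ι ι k) * a * ((α 1)⁻¹ : (Matrix ι ι k)ˣ)) * 1 := by rw [one_mul, mul_one]
        _ = (((α 1)⁻¹ : (Matrix ι ι k)ˣ) * (α 1 : Matrix ι ι k)) * ((α 1 : Matrix ι ι k) * a * ((α 1)⁻¹ : (Matrix ι ι k)ˣ)) *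
              (((α 1)⁻¹ : (Matrix ι ι k)ˣ) * (α 1 : Matrix ι ι k)) := by rw [e2]
        _ = _ := by simp only [mul_assoc]
    rw [h3]
    have e2 : ((α 1)⁻¹ : (Matrix ι ι k)ˣ) * (α 1 : Matrix ι ι k) = 1 := Units.inv_mul _
    calc ((α 1)⁻¹ : (Matrix ι ι k)ˣ) * ((α 1 : Matrix ι ι k) * a * ((α 1)⁻¹ : (Matrix ι ι k)ˣ)) * (α 1 : Matrix ι ι k)
        = (((α 1)⁻¹ : (Matrix ι ι k)ˣ) * (α 1 : Matrix ι ι k)) * a * (((α 1)⁻¹ : (Matrix ι ι k)ˣ) * (α 1 : Matrix ι ι k)) := by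
          simp only [mul_assoc]
      _ = a := by rw [e2, one_mul, mul_one]
  let F : Γ →* (c0A u →ₐ[k] c0A u) :=
    { toFun := c0f act u α hc
      map_one' := by
        apply AlgHom.ext
        intro a
        apply Subtype.ext
        exact hone a.1
      map_mul' := fun g h => by
        apply AlgHom.ext
        intro a
        apply Subtype.ext
        exact (hconj g h a.1).symm }
  let G : Γ →* (c0A u ≃ₐ[k] c0A u) :=
    (AlgEquiv.algHomUnitsEquiv k (c0A u)).toMonoidHom.comp F.toHomUnits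
  have hG : ∀ g a, ((G g a : c0A u) : Matrix ι ι k) =
      (α g : Matrix ι ι k) * a.1 * ((α g)⁻¹ : (Matrix ι ι k)ˣ) := fun g a => rfl
  let τ : c0A u →ₐ[k] k :=
    { toFun := fun a => Matrix.trace a.1 / (Fintype.card ι : k)
      map_one' := by
        show Matrix.trace (1 : Matrix ι ι k) / (Fintype.card ι : k) = 1
        rw [Matrix.trace_one, div_self hn]
      map_mul' := fun a b => by
        show Matrix.trace (a.1 * b.1) / (Fintype.card ι : k) =
          Matrix.trace a.1 / (Fintype.card ι : k) * (Matrix.trace b.1 / (Fintype.card ι : k))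
        have h2 := h1 a.1 b.1 ((c0_mem u _).1 a.2) ((c0_mem u _).1 b.2)
        rw [div_mul_div_comm, ← h2, mul_div_mul_right _ _ hn]
      map_zero' := by
        show Matrix.trace (0 : Matrix ι ι k) / (Fintype.card ι : k) = 0
        rw [Matrix.trace_zero, zero_div]
      map_add' := fun a b => by
        show Matrix.trace (a.1 + b.1) / (Fintype.card ι : k) =
          Matrix.trace a.1 / (Fintype.card ι : k) + Matrix.trace b.1 / (Fintype.card ι : k)
        rw [Matrix.trace_add, add_div]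
      commutes' := fun c => by
        show Matrix.trace (algebraMap k (Matrix ι ι k) c) / (Fintype.card ι : k) = c
        rw [Algebra.algebraMap_eq_smul_one, Matrix.trace_smul, Matrix.trace_one, smul_eq_mul,
          mul_div_assoc, div_self hn, mul_one] }
  have hτ : ∀ a : c0A u, τ a = Matrix.trace a.1 / (Fintype.card ι : k) := fun a => rfl
  obtain ⟨e, he, hge, hte, hnil⟩ := corner_exists (k := k) (A := c0A u) hcard G τ (by
    intro g a
    rw [hτ, hτ, hG]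
    congr 1
    rw [Matrix.trace_mul_comm, ← mul_assoc, Units.inv_mul, one_mul])
  refine ⟨e.1, (c0_mem u _).1 e.2, congrArg Subtype.val he, ?_, ?_, ?_⟩
  · rw [hτ, div_eq_one_iff_eq hn] at hte
    exact hte
  · intro g
    have h2 := congrArg Subtype.val (hge g)
    rw [hG, Units.mul_inv_eq_iff_eq_mul] at h2
    exact h2
  · intro a ha hta
    have h2 := hnil ⟨a, (c0_mem u _).2 ha⟩ (by
      rw [hτ]
      show Matrix.trace a / (Fintype.card ι : k) = 0
      rw [hta, zero_div])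
    exact h2.map (c0A u).val

end Pool.Agent.Lib.H77S
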