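import Pool.Agent.Lib.H90S.S4

/-! H77S, CXa: the local structure of a nilpotent operator `N`, `N ^ p = 0`, when the form `trace (a * b)` on the operators commuting with `N` has rank one. -/

open scoped BigOperators

noncomputable section

namespace Pool.Agent.Lib.H77S

variable {k V : Type*} [Field k] [AddCommGroup V] [Module k V] [FiniteDimensional k V]

/-- `b = ∑ s < h, (lam ∘ N ^ s).smulRight ((N ^ (h - 1 - s)) w)`. -/
theorem cx_endo (N : Module.End k V) {h : ℕ} (hh : 1 ≤ h) (lam : V →ₗ[k] k) (hlam : ∀ v, lam ((N ^ h) v) = 0) {w : V} (hw : (N ^ h) w = 0) :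
    ∃ b : Module.End k V, b * N = N * b ∧ (∀ v, N v = 0 → b v = lam v • (N ^ (h - 1)) w) ∧
      ∀ a : Module.End k V, a * N = N * a → LinearMap.trace k V (a * b) = (h : k) * lam (a ((N ^ (h - 1)) w)) := by
  obtain ⟨m, rfl⟩ : ∃ m, h = m + 1 := ⟨h - 1, by omega⟩
  have key : ∀ v : V, ∀ s : ℕ, s ≤ m → N ((N ^ (m - s)) w) = (N ^ (m + 1 - s)) w := by
    intro v s hs
    have e : m + 1 - s = (m - s) + 1 := by omega
    rw [e, pow_succ', Module.End.mul_apply]
  refine ⟨∑ s ∈ Finset.range (m + 1), (lam ∘ₗ (N ^ s)).smulRight ((N ^ (m - s)) w), ?_, ?_, ?_⟩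
  · refine LinearMap.ext fun v => ?_
    rw [Module.End.mul_apply, Module.End.mul_apply, LinearMap.sum_apply, LinearMap.sum_apply, map_sum]
    obtain ⟨F, hF⟩ : ∃ F : ℕ → V, ∀ t, F t = lam ((N ^ t) v) • (N ^ (m + 1 - t)) w := ⟨_, fun _ => rfl⟩
    have hL : ∑ s ∈ Finset.range (m + 1), ((lam ∘ₗ (N ^ s)).smulRight ((N ^ (m - s)) w)) (N v) =
        ∑ s ∈ Finset.range (m + 1), F (s + 1) := by
      refine Finset.sum_congr rfl fun s _ => ?_
      rw [LinearMap.smulRight_apply, LinearMap.comp_apply, hF]
      have e1 : (N ^ s) (N v) = (N ^ (s + 1)) v := by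
        rw [pow_succ, Module.End.mul_apply]
      have e2 : m + 1 - (s + 1) = m - s := by omega
      rw [e1, e2]
    have hR : ∑ s ∈ Finset.range (m + 1), N (((lam ∘ₗ (N ^ s)).smulRight ((N ^ (m - s)) w)) v) =
        ∑ s ∈ Finset.range (m + 1), F s := by
      refine Finset.sum_congr rfl fun s hs => ?_
      have hsm : s ≤ m := by
        have := Finset.mem_range.1 hs
        omega
      rw [LinearMap.smulRight_apply, LinearMap.comp_apply, map_smul, key v s hsm, hF]
    rw [hL, hR, Finset.sum_range_succ, Finset.sum_range_succ']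
    have z1 : F (m + 1) = 0 := by
      rw [hF, hlam, zero_smul]
    have z2 : F 0 = 0 := by
      rw [hF, Nat.sub_zero, hw, smul_zero]
    rw [z1, z2]
  · intro v hv
    rw [LinearMap.sum_apply, Finset.sum_range_succ', Finset.sum_eq_zero, zero_add]
    · rw [LinearMap.smulRight_apply, LinearMap.comp_apply, pow_zero, Module.End.one_apply, Nat.sub_zero,
        Nat.add_sub_cancel]
    · intro s _
      rw [LinearMap.smulRight_apply, LinearMap.comp_apply, pow_succ, Module.End.mul_apply, hv, map_zero, map_zero,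
        zero_smul]
  · intro a ha
    have hac : ∀ (j : ℕ) (x : V), a ((N ^ j) x) = (N ^ j) (a x) := by
      intro j x
      have h1 : Commute a (N ^ j) := Commute.pow_right ha j
      have h2 := LinearMap.congr_fun h1.eq x
      rw [Module.End.mul_apply, Module.End.mul_apply] at h2
      exact h2
    rw [Finset.mul_sum, map_sum]
    have h1 : ∀ s ∈ Finset.range (m + 1), LinearMap.trace k V (a * (lam ∘ₗ (N ^ s)).smulRight ((N ^ (m - s)) w)) =
        lam (a ((N ^ m) w)) := by
      intro s hs
      have hsm : s ≤ m := by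
        have := Finset.mem_range.1 hs
        omega
      have h2 : a * (lam ∘ₗ (N ^ s)).smulRight ((N ^ (m - s)) w) = (lam ∘ₗ (N ^ s)).smulRight (a ((N ^ (m - s)) w)) := by
        refine LinearMap.ext fun v => ?_
        rw [Module.End.mul_apply, LinearMap.smulRight_apply, LinearMap.smulRight_apply, map_smul]
      rw [h2, LinearMap.trace_smulRight, LinearMap.comp_apply, hac, ← Module.End.mul_apply, ← pow_add]
      have e : s + (m - s) = m := by omega
      rw [e, ← hac]
    rw [Finset.sum_congr rfl h1, Finset.sum_const, Finset.card_range, nsmul_eq_mul, Nat.add_sub_cancel]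

omit [FiniteDimensional k V] in
/-- A vector outside a subspace is seen by a functional. -/
private theorem cx_dual (U : Submodule k V) {x : V} (hx : x ∉ U) : ∃ lam : V →ₗ[k] k, (∀ v ∈ U, lam v = 0) ∧ lam x ≠ 0 := by
  obtain ⟨lam, h1, h2⟩ := Submodule.exists_le_ker_of_notMem hx
  exact ⟨lam, fun v hv => h2 hv, h1⟩

omit [FiniteDimensional k V] in
private theorem cx_mono (N : Module.End k V) {a b : ℕ} (hab : a ≤ b) : LinearMap.range (N ^ b) ≤ LinearMap.range (N ^ a) := by
  obtain ⟨c, rfl⟩ := Nat.exists_eq_add_of_le hab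
  rw [pow_add, Module.End.mul_eq_comp]
  exact LinearMap.range_comp_le_range _ _

/-- If `ker N ≤ range (N ^ (p - 1))` the dimension is zero in `k`. -/
private theorem cx_free {p : ℕ} [Fact p.Prime] [CharP k p] (N : Module.End k V) (hN : N ^ p = 0) (h : LinearMap.ker N ≤ LinearMap.range (N ^ (p - 1))) :
    (Module.finrank k V : k) = 0 := by
  have h1 := Pool.Agent.Lib.H90S.S4_sum N hN (D := Unit) (1 : Unit →* Module.End k V) (by rw [Nat.card_eq_fintype_card, Fintype.card_unit, Nat.cast_one]; exact one_ne_zero)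
    (fun d => by rw [MonoidHom.one_apply, one_mul, mul_one]) ()
  have h2 : ∀ j ∈ Finset.range p, Pool.Agent.Lib.H90S.trOn ((1 : Unit →* Module.End k V) ()) (LinearMap.ker N ⊓ LinearMap.range (N ^ j)) =
      Pool.Agent.Lib.H90S.trOn ((1 : Unit →* Module.End k V) ()) (LinearMap.ker N) := by
    intro j hj
    have hj' : j ≤ p - 1 := by
      have := Finset.mem_range.1 hj
      omega
    rw [inf_eq_left.2 (h.trans (cx_mono N hj'))]
  rw [Finset.sum_congr rfl h2, Finset.sum_const, Finset.card_range, nsmul_eq_mul, CharP.cast_eq_zero, zero_mul, MonoidHom.one_apply,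
    LinearMap.trace_one] at h1
  exact h1

/-- On `ker N ⊓ range (N ^ (h - 1))` an operator commuting with `N` is `trace / dim` modulo `range (N ^ h)`. -/
private theorem cx_act {p : ℕ} [Fact p.Prime] [CharP k p] (N : Module.End k V) (hd : (Module.finrank k V : k) ≠ 0)
    (h1 : ∀ a b : Module.End k V, a * N = N * a → b * N = N * b →
      LinearMap.trace k V (a * b) * (Module.finrank k V : k) = LinearMap.trace k V a * LinearMap.trace k V b)
    {h : ℕ} (hh : 1 ≤ h) (hhp : h < p) {v : V} (hv : N v = 0) (hvr : v ∈ LinearMap.range (N ^ (h - 1))) {a : Module.End k V} (ha : a * N = N * a) :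
    a v - (LinearMap.trace k V a * (Module.finrank k V : k)⁻¹) • v ∈ LinearMap.range (N ^ h) := by
  by_contra hcon
  obtain ⟨w, rfl⟩ := hvr
  obtain ⟨lam, hl1, hl2⟩ := cx_dual _ hcon
  have hw : (N ^ h) w = 0 := by
    have e : h = (h - 1) + 1 := by omega
    rw [e, pow_succ', Module.End.mul_apply, hv]
  obtain ⟨b, hb, -, hbt⟩ := cx_endo N hh lam (fun v => hl1 _ ⟨v, rfl⟩) hw
  have hhk : (h : k) ≠ 0 := by
    intro h0
    have := (CharP.cast_eq_zero_iff k p h).1 h0
    exact absurd (Nat.le_of_dvd (by omega) this) (by omega)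
  have h2 := h1 a b ha hb
  have h3 := hbt 1 (by rw [one_mul, mul_one])
  rw [one_mul, Module.End.one_apply] at h3
  rw [hbt a ha, h3] at h2
  apply hl2
  rw [map_sub, map_smul, smul_eq_mul]
  have h4 : lam (a ((N ^ (h - 1)) w)) * (Module.finrank k V : k) = LinearMap.trace k V a * lam ((N ^ (h - 1)) w) := by
    apply mul_left_cancel₀ hhk
    rw [← mul_assoc, h2]
    ring
  have h5 : lam (a ((N ^ (h - 1)) w)) = LinearMap.trace k V a * (Module.finrank k V : k)⁻¹ * lam ((N ^ (h - 1)) w) := by
    rw [eq_comm, mul_right_comm, ← h4, mul_inv_cancel_right₀ hd]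
  rw [h5, sub_self]

/-- The local structure. -/
theorem cx_local {p : ℕ} [Fact p.Prime] [CharP k p] (N : Module.End k V) (hN : N ^ p = 0) (hd : (Module.finrank k V : k) ≠ 0)
    (h1 : ∀ a b : Module.End k V, a * N = N * a → b * N = N * b →
      LinearMap.trace k V (a * b) * (Module.finrank k V : k) = LinearMap.trace k V a * LinearMap.trace k V b) :
    Module.finrank k (LinearMap.ker N) = Module.finrank k (LinearMap.range (N ^ (p - 1))) + 1 ∧
      ∃ v, N v = 0 ∧ v ∉ LinearMap.range (N ^ (p - 1)) ∧ ∀ a : Module.End k V, a * N = N * a →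
        a v - (LinearMap.trace k V a * (Module.finrank k V : k)⁻¹) • v ∈ LinearMap.range (N ^ (p - 1)) := by
  have hp : p.Prime := Fact.out
  have hp2 := hp.two_le
  -- existence of a jump
  have hex : ∃ h, 1 ≤ h ∧ h < p ∧ ∃ v, N v = 0 ∧ v ∈ LinearMap.range (N ^ (h - 1)) ∧ v ∉ LinearMap.range (N ^ h) := by
    by_contra hcon
    apply hd
    apply cx_free N hN
    intro v hv
    rw [LinearMap.mem_ker] at hv
    have h2 : ∀ j, j ≤ p - 1 → v ∈ LinearMap.range (N ^ j) := by
      intro j
      induction j with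
      | zero =>
        intro _
        exact ⟨v, by rw [pow_zero, Module.End.one_apply]⟩
      | succ j ih =>
        intro hj
        by_contra hv2
        exact hcon ⟨j + 1, by omega, by omega, v, hv, by rw [Nat.add_sub_cancel]; exact ih (by omega), hv2⟩
    exact h2 _ le_rfl
  obtain ⟨h, hh1, hhp, v, hv, hvr, hvn⟩ := hex
  obtain ⟨w, hw⟩ := hvr
  have hwh : (N ^ h) w = 0 := by
    have e : h = (h - 1) + 1 := by omega
    rw [e, pow_succ', Module.End.mul_apply, hw, hv]
  obtain ⟨lam, hl1, hl2⟩ := cx_dual _ hvn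
  obtain ⟨b0, hb0, hb0v, hb0t⟩ := cx_endo N hh1 lam (fun v => hl1 _ ⟨v, rfl⟩) hwh
  have hhk : (h : k) ≠ 0 := by
    intro h0
    have := (CharP.cast_eq_zero_iff k p h).1 h0
    exact absurd (Nat.le_of_dvd (by omega) this) (by omega)
  have hb0tr : LinearMap.trace k V b0 ≠ 0 := by
    have h3 := hb0t 1 (by rw [one_mul, mul_one])
    rw [one_mul, Module.End.one_apply, hw] at h3
    rw [h3]
    exact mul_ne_zero hhk hl2
  rw [hw] at hb0v
  -- no other jump
  have hone : ∀ h', 1 ≤ h' → h' < p → h' ≠ h → ∀ v', N v' = 0 → v' ∈ LinearMap.range (N ^ (h' - 1)) → v' ∈ LinearMap.range (N ^ h') := by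
    intro h' h1' hp' hne v' hv' hvr'
    by_contra hvn'
    rcases lt_or_gt_of_ne hne with hlt | hlt
    · -- `h' < h`: use the operator of `h'`
      obtain ⟨w', hw'⟩ := hvr'
      have hwh' : (N ^ h') w' = 0 := by
        have e : h' = (h' - 1) + 1 := by omega
        rw [e, pow_succ', Module.End.mul_apply, hw', hv']
      obtain ⟨lam', hl1', hl2'⟩ := cx_dual _ hvn'
      obtain ⟨b, hb, hbv, hbt⟩ := cx_endo N h1' lam' (fun v => hl1' _ ⟨v, rfl⟩) hwh'
      have h3 := hbt 1 (by rw [one_mul, mul_one])
      rw [one_mul, Module.End.one_apply, hw'] at h3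
      have hhk' : (h' : k) ≠ 0 := by
        intro h0
        have := (CharP.cast_eq_zero_iff k p h').1 h0
        exact absurd (Nat.le_of_dvd (by omega) this) (by omega)
      have h4 : b v = 0 := by
        rw [hbv v hv, hl1' v (cx_mono N (by omega : h' ≤ h - 1) ⟨w, hw⟩), zero_smul]
      have h5 := cx_act N hd h1 hh1 hhp hv ⟨w, hw⟩ hb
      rw [h4, zero_sub, neg_mem_iff] at h5
      apply hvn
      have h6 := Submodule.smul_mem _ (LinearMap.trace k V b * (Module.finrank k V : k)⁻¹)⁻¹ h5
      rw [smul_smul, inv_mul_cancel₀ (mul_ne_zero (by rw [h3]; exact mul_ne_zero hhk' hl2') (inv_ne_zero hd)), one_smul] at h6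
      exact h6
    · -- `h < h'`
      have h4 : b0 v' = 0 := by
        rw [hb0v v' hv', hl1 v' (cx_mono N (by omega : h ≤ h' - 1) hvr'), zero_smul]
      have h5 := cx_act N hd h1 h1' hp' hv' hvr' hb0
      rw [h4, zero_sub, neg_mem_iff] at h5
      apply hvn'
      have h6 := Submodule.smul_mem _ (LinearMap.trace k V b0 * (Module.finrank k V : k)⁻¹)⁻¹ h5
      rw [smul_smul, inv_mul_cancel₀ (mul_ne_zero hb0tr (inv_ne_zero hd)), one_smul] at h6
      exact h6
  -- the kernel lies in `range (N ^ (h - 1))`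
  have hlow : ∀ v', N v' = 0 → v' ∈ LinearMap.range (N ^ (h - 1)) := by
    intro v' hv'
    have h2 : ∀ j, j ≤ h - 1 → v' ∈ LinearMap.range (N ^ j) := by
      intro j
      induction j with
      | zero =>
        intro _
        exact ⟨v', by rw [pow_zero, Module.End.one_apply]⟩
      | succ j ih =>
        intro hj
        exact hone (j + 1) (by omega) (by omega) (by omega) v' hv' (by rw [Nat.add_sub_cancel]; exact ih (by omega))
    exact h2 _ le_rfl
  -- above `h`
  have hhigh : ∀ v', N v' = 0 → v' ∈ LinearMap.range (N ^ h) → v' ∈ LinearMap.range (N ^ (p - 1)) := by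
    intro v' hv' hvr'
    have h2 : ∀ j, h ≤ j → j ≤ p - 1 → v' ∈ LinearMap.range (N ^ j) := by
      intro j
      induction j with
      | zero =>
        intro h3 _
        omega
      | succ j ih =>
        intro h3 h4
        rcases Nat.eq_or_lt_of_le h3 with h5 | h5
        · rw [← h5]
          exact hvr'
        · exact hone (j + 1) (by omega) (by omega) (by omega) v' hv' (by rw [Nat.add_sub_cancel]; exact ih (by omega) (by omega))
    exact h2 _ (by omega) le_rfl
  have hker : ∀ a : Module.End k V, a * N = N * a → N (a v) = 0 := by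
    intro a ha
    have h2 := LinearMap.congr_fun ha v
    rw [Module.End.mul_apply, Module.End.mul_apply, hv, map_zero] at h2
    exact h2.symm
  refine ⟨?_, v, hv, fun hc => hvn (cx_mono N (by omega) hc), fun a ha => ?_⟩
  · -- dimension
    have hsup : LinearMap.ker N = LinearMap.range (N ^ (p - 1)) ⊔ Submodule.span k {v} := by
      apply le_antisymm
      · intro v' hv'
        rw [LinearMap.mem_ker] at hv'
        obtain ⟨w', hw'⟩ := hlow v' hv'
        have hwh' : (N ^ h) w' = 0 := by
          have e : h = (h - 1) + 1 := by omega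
          rw [e, pow_succ', Module.End.mul_apply, hw', hv']
        obtain ⟨b, hb, hbv, -⟩ := cx_endo N hh1 lam (fun v => hl1 _ ⟨v, rfl⟩) hwh'
        have h5 := cx_act N hd h1 hh1 hhp hv ⟨w, hw⟩ hb
        rw [hbv v hv, hw'] at h5
        have h6 := Submodule.smul_mem _ (lam v)⁻¹ h5
        rw [smul_sub, smul_smul, inv_mul_cancel₀ hl2, one_smul, smul_smul] at h6
        have h7 := hhigh _ (by rw [map_sub, map_smul, hv, hv', smul_zero, sub_zero]) h6
        rw [Submodule.mem_sup]
        exact ⟨_, h7, _, Submodule.smul_mem _ ((lam v)⁻¹ * (LinearMap.trace k V b * (Module.finrank k V : k)⁻¹)) (Submodule.mem_span_singleton_self v),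
          sub_add_cancel _ _⟩
      · rw [sup_le_iff]
        refine ⟨?_, ?_⟩
        · rintro _ ⟨x, rfl⟩
          rw [LinearMap.mem_ker, ← Module.End.mul_apply, ← pow_succ', Nat.sub_add_cancel hp.one_le, hN, LinearMap.zero_apply]
        · rw [Submodule.span_singleton_le_iff_mem, LinearMap.mem_ker]
          exact hv
    have hv0 : v ≠ 0 := by
      rintro rfl
      exact hvn (Submodule.zero_mem _)
    have hdis : LinearMap.range (N ^ (p - 1)) ⊓ Submodule.span k {v} = ⊥ := by
      rw [eq_bot_iff]
      rintro x ⟨hx1, hx2⟩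
      obtain ⟨c, rfl⟩ := Submodule.mem_span_singleton.1 hx2
      rw [Submodule.mem_bot]
      by_contra hc
      have hc0 : c ≠ 0 := by
        rintro rfl
        exact hc (zero_smul _ _)
      have h6 := Submodule.smul_mem _ c⁻¹ hx1
      rw [smul_smul, inv_mul_cancel₀ hc0, one_smul] at h6
      exact hvn (cx_mono N (by omega) h6)
    have h8 := Submodule.finrank_sup_add_finrank_inf_eq (LinearMap.range (N ^ (p - 1))) (Submodule.span k {v})
    rw [hdis, finrank_bot, add_zero, finrank_span_singleton hv0] at h8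
    rw [hsup, h8]
  · refine hhigh _ ?_ (cx_act N hd h1 hh1 hhp hv ⟨w, hw⟩ ha)
    rw [map_sub, map_smul, hv, smul_zero, sub_zero]
    exact hker a ha

end Pool.Agent.Lib.H77S
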