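import Pool.Agent.Lib.H77S.Defs

/-! H77S, CXb: the finite central extension of `Γ` attached to a projective representation, and the descent of a representation. -/

open scoped BigOperators

noncomputable section

namespace Pool.Agent.Lib.H77S

variable {k : Type} [Field k] {ι : Type} [Fintype ι] [DecidableEq ι] {Γ : Type} [Group Γ]

/-- `α 1` is a scalar. -/
theorem isProj_one {α : Γ → (Matrix ι ι k)ˣ} (hα : IsProj α) : ∃ c : kˣ, (α 1 : Matrix ι ι k) = (c : k) • 1 := by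
  obtain ⟨c, hc⟩ := hα 1 1
  rw [mul_one] at hc
  refine ⟨c, ?_⟩
  have h := congrArg (fun X => X * ((α 1)⁻¹ : (Matrix ι ι k)ˣ).val) hc
  simp only [mul_assoc, smul_mul_assoc, Units.mul_inv, mul_one] at h
  exact h

/-- The pairs `(g, A)`, `A` a multiple of `α g` of determinant `1`. -/
def Gh (α : Γ → (Matrix ι ι k)ˣ) (hα : IsProj α) : Subgroup (Γ × (Matrix ι ι k)ˣ) where
  carrier := {e | (∃ c : kˣ, (e.2 : Matrix ι ι k) = (c : k) • (α e.1 : Matrix ι ι k)) ∧ (e.2 : Matrix ι ι k).det = 1}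
  one_mem' := by
    obtain ⟨c, hc⟩ := isProj_one hα
    refine ⟨⟨c⁻¹, ?_⟩, ?_⟩
    · show (1 : Matrix ι ι k) = ((c⁻¹ : kˣ) : k) • (α 1 : Matrix ι ι k)
      rw [hc, smul_smul, Units.inv_mul, one_smul]
    · show (1 : Matrix ι ι k).det = 1
      exact Matrix.det_one
  mul_mem' := by
    rintro ⟨g, A⟩ ⟨g', A'⟩ ⟨⟨c, hc⟩, hd⟩ ⟨⟨c', hc'⟩, hd'⟩
    simp only at hc hd hc' hd'
    obtain ⟨e, he⟩ := hα g g'
    refine ⟨⟨c * c' * e, ?_⟩, ?_⟩
    · show (A : Matrix ι ι k) * A' = ((c * c' * e : kˣ) : k) • (α (g * g') : Matrix ι ι k)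
      rw [hc, hc', smul_mul_smul_comm, he, smul_smul, Units.val_mul, Units.val_mul]
    · show ((A : Matrix ι ι k) * A').det = 1
      rw [Matrix.det_mul, hd, hd', one_mul]
  inv_mem' := by
    rintro ⟨g, A⟩ ⟨⟨c, hc⟩, hd⟩
    simp only at hc hd
    obtain ⟨e, he⟩ := hα g g⁻¹
    obtain ⟨c1, hc1⟩ := isProj_one hα
    rw [mul_inv_cancel, hc1, smul_smul] at he
    refine ⟨⟨c⁻¹ * (e * c1)⁻¹, ?_⟩, ?_⟩
    · show ((A⁻¹ : (Matrix ι ι k)ˣ) : Matrix ι ι k) = ((c⁻¹ * (e * c1)⁻¹ : kˣ) : k) • (α g⁻¹ : Matrix ι ι k)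
      have h : (A : Matrix ι ι k) * (((c⁻¹ * (e * c1)⁻¹ : kˣ) : k) • (α g⁻¹ : Matrix ι ι k)) = 1 := by
        rw [hc, smul_mul_smul_comm, he, smul_smul, ← Units.val_mul, ← Units.val_mul, ← Units.val_mul]
        have e1 : c * (c⁻¹ * (e * c1)⁻¹) * (e * c1) = 1 := by group
        rw [e1, Units.val_one, one_smul]
      have h2 := congrArg (fun X => ((A⁻¹ : (Matrix ι ι k)ˣ) : Matrix ι ι k) * X) h
      simp only [← mul_assoc, Units.inv_mul, one_mul, mul_one] at h2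
      exact h2.symm
    · show ((A⁻¹ : (Matrix ι ι k)ˣ) : Matrix ι ι k).det = 1
      have h : (A : Matrix ι ι k).det * ((A⁻¹ : (Matrix ι ι k)ˣ) : Matrix ι ι k).det = 1 := by
        rw [← Matrix.det_mul, Units.mul_inv, Matrix.det_one]
      rw [hd, one_mul] at h
      exact h

/-- Over an algebraically closed field there is an element over every `g`. -/
theorem Gh_surj [IsAlgClosed k] (hι : 0 < Fintype.card ι) (α : Γ → (Matrix ι ι k)ˣ) (hα : IsProj α) (g : Γ) :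
    ∃ e : Gh α hα, (e : Γ × (Matrix ι ι k)ˣ).1 = g := by
  have hd : (α g : Matrix ι ι k).det ≠ 0 := by
    have h := ((Matrix.isUnit_iff_isUnit_det (α g : Matrix ι ι k)).1 (α g).isUnit)
    exact h.ne_zero
  obtain ⟨z, hz⟩ := IsAlgClosed.exists_pow_nat_eq ((α g : Matrix ι ι k).det)⁻¹ hι
  have hz0 : z ≠ 0 := by
    rintro rfl
    rw [zero_pow hι.ne'] at hz
    exact inv_ne_zero hd hz.symm
  have hdet : (z • (α g : Matrix ι ι k)).det = 1 := by
    rw [Matrix.det_smul, hz, inv_mul_cancel₀ hd]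
  obtain ⟨A, hA⟩ : IsUnit (z • (α g : Matrix ι ι k)) := (Matrix.isUnit_iff_isUnit_det _).2 (by rw [hdet]; exact isUnit_one)
  exact ⟨⟨(g, A), ⟨Units.mk0 z hz0, hA⟩, by rw [hA]; exact hdet⟩, rfl⟩

/-- The group `Gh` is finite. -/
theorem Gh_finite [IsAlgClosed k] [Finite Γ] (hι : 0 < Fintype.card ι) (α : Γ → (Matrix ι ι k)ˣ) (hα : IsProj α) : Finite (Gh α hα) := by
  classical
  choose s hs using Gh_surj hι α hα
  have h1 : Set.Finite {a : k | a ^ Fintype.card ι = 1} := by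
    refine Set.Finite.subset (Multiset.toFinset (Polynomial.nthRoots (Fintype.card ι) (1 : k))).finite_toSet ?_
    intro a ha
    rw [Finset.mem_coe, Multiset.mem_toFinset, Polynomial.mem_nthRoots hι]
    exact ha
  have h2 : Set.Finite ((fun x : Γ × k => (x.1, x.2 • ((s x.1 : Γ × (Matrix ι ι k)ˣ).2 : Matrix ι ι k))) '' (Set.univ ×ˢ {a : k | a ^ Fintype.card ι = 1})) :=
    (Set.Finite.prod Set.finite_univ h1).image _
  have h3 : Set.Finite (Set.univ : Set (Gh α hα)) := by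
    refine Set.Finite.of_finite_image (f := fun e : Gh α hα => ((e : Γ × (Matrix ι ι k)ˣ).1, ((e : Γ × (Matrix ι ι k)ˣ).2 : Matrix ι ι k))) (h2.subset ?_) ?_
    · rintro _ ⟨⟨⟨g, A⟩, ⟨c, hc⟩, hd⟩, -, rfl⟩
      obtain ⟨⟨c', hc'⟩, hd'⟩ := (s g).2
      rw [hs] at hc'
      simp only at hc hd
      have h4 : (A : Matrix ι ι k) = ((c : k) * ((c'⁻¹ : kˣ) : k)) • ((s g : Γ × (Matrix ι ι k)ˣ).2 : Matrix ι ι k) := by
        rw [hc, hc', smul_smul, mul_assoc, Units.inv_mul, mul_one]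
      refine ⟨(g, (c : k) * ((c'⁻¹ : kˣ) : k)), ⟨Set.mem_univ _, ?_⟩, ?_⟩
      · rw [h4, Matrix.det_smul, hd', mul_one] at hd
        exact hd
      · show (g, ((c : k) * ((c'⁻¹ : kˣ) : k)) • ((s g : Γ × (Matrix ι ι k)ˣ).2 : Matrix ι ι k)) = (g, (A : Matrix ι ι k))
        rw [h4]
    · rintro e - e' - h
      have h5 := (Prod.mk.injEq _ _ _ _).mp h
      exact Subtype.ext (Prod.ext h5.1 (Units.ext h5.2))
  exact Set.finite_univ_iff.1 h3

/-- The descent: `f` is the scalar on the elements over `1`. -/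
theorem Gh_descent [IsAlgClosed k] (hι : 0 < Fintype.card ι) (α : Γ → (Matrix ι ι k)ˣ) (hα : IsProj α) (f : Gh α hα →* kˣ)
    (hf : ∀ e : Gh α hα, (e : Γ × (Matrix ι ι k)ˣ).1 = 1 → ((e : Γ × (Matrix ι ι k)ˣ).2 : Matrix ι ι k) = (f e : k) • 1) :
    ∃ π : Γ →* (Matrix ι ι k)ˣ, ∀ e : Gh α hα, ((e : Γ × (Matrix ι ι k)ˣ).2 : Matrix ι ι k) = (f e : k) • (π (e : Γ × (Matrix ι ι k)ˣ).1 : Matrix ι ι k) := by
  let s : kˣ →* (Matrix ι ι k)ˣ := Units.map (algebraMap k (Matrix ι ι k) : k →* Matrix ι ι k)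
  have hs : ∀ c : kˣ, (s c : Matrix ι ι k) = (c : k) • 1 := fun c => Algebra.algebraMap_eq_smul_one (c : k)
  have hsc : ∀ (c : kˣ) (A : (Matrix ι ι k)ˣ), s c * A = A * s c := by
    intro c A
    apply Units.ext
    rw [Units.val_mul, Units.val_mul, hs, smul_mul_assoc, mul_smul_comm, one_mul, mul_one]
  let fst : Gh α hα →* Γ := (MonoidHom.fst Γ (Matrix ι ι k)ˣ).comp (Gh α hα).subtype
  have hfst : ∀ e : Gh α hα, fst e = (e : Γ × (Matrix ι ι k)ˣ).1 := fun e => rfl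
  have hsurj : Function.Surjective fst := fun g => Gh_surj hι α hα g
  let φ : Gh α hα →* (Matrix ι ι k)ˣ :=
    { toFun := fun e => s (f e)⁻¹ * (e : Γ × (Matrix ι ι k)ˣ).2
      map_one' := by
        rw [map_one, inv_one, map_one, one_mul]
        rfl
      map_mul' := by
        intro e e'
        show s (f (e * e'))⁻¹ * ((e : Γ × (Matrix ι ι k)ˣ).2 * (e' : Γ × (Matrix ι ι k)ˣ).2) = (s (f e)⁻¹ * (e : Γ × (Matrix ι ι k)ˣ).2) * (s (f e')⁻¹ * (e' : Γ × (Matrix ι ι k)ˣ).2)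
        have h1 : s (f (e * e'))⁻¹ = s (f e)⁻¹ * s (f e')⁻¹ := by rw [map_mul, mul_inv, map_mul]
        rw [h1]
        generalize s (f e)⁻¹ = a
        have h2 := hsc (f e')⁻¹ (e : Γ × (Matrix ι ι k)ˣ).2
        generalize s (f e')⁻¹ = b at h2 ⊢
        rw [mul_assoc a b, ← mul_assoc b, h2, mul_assoc a, mul_assoc _ b] }
  have hφ : ∀ e : Gh α hα, φ e = s (f e)⁻¹ * (e : Γ × (Matrix ι ι k)ˣ).2 := fun e => rfl
  have hker : fst.ker ≤ φ.ker := by
    intro e he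
    rw [MonoidHom.mem_ker] at he ⊢
    rw [hfst] at he
    rw [hφ]
    apply Units.ext
    rw [Units.val_mul, hs, hf e he, smul_mul_smul_comm, one_mul, Units.inv_mul, one_smul, Units.val_one]
  refine ⟨fst.liftOfSurjective hsurj ⟨φ, hker⟩, fun e => ?_⟩
  have h1 := fst.liftOfRightInverse_comp_apply (Function.surjInv hsurj) (Function.rightInverse_surjInv hsurj) ⟨φ, hker⟩ e
  have h2 : (fst.liftOfSurjective hsurj ⟨φ, hker⟩) (e : Γ × (Matrix ι ι k)ˣ).1 = φ e := h1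
  rw [h2, hφ, Units.val_mul, hs, smul_mul_assoc, one_mul, smul_smul, Units.mul_inv, one_smul]

end Pool.Agent.Lib.H77S
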