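import Pool.Agent.Lib.H77S.Defs
import Pool.Agent.Lib.H77S.CXa
import Pool.Agent.Lib.H77S.CXb
import Pool.Agent.Lib.H90S.X9

/-! H77S, CX (interface, design helper88): one-dimensional slashes at the elements of order `p` modulo `K`; Lemma X of H90S. -/

open scoped BigOperators

noncomputable section

namespace Pool.Agent.Lib.H77S

private theorem cx_cent {k : Type} [Field k] {P : Type} [CommGroup P] {ι : Type} [Fintype ι] [DecidableEq ι] (u : P →* Matrix ι ι k) {z : P} {φ : Matrix ι ι k}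
    (h : u z * φ = φ * u z) : Cent u (Subgroup.zpowers z) φ := by
  let H : Subgroup P :=
    { carrier := {x | u x * φ = φ * u x}
      one_mem' := by
        show u 1 * φ = φ * u 1
        rw [map_one, one_mul, mul_one]
      mul_mem' := by
        intro a b ha hb
        show u (a * b) * φ = φ * u (a * b)
        have ha' : u a * φ = φ * u a := ha
        have hb' : u b * φ = φ * u b := hb
        rw [map_mul, mul_assoc, hb', ← mul_assoc, ha', mul_assoc]
      inv_mem' := by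
        intro a ha
        show u a⁻¹ * φ = φ * u a⁻¹
        have ha' : u a * φ = φ * u a := ha
        have h1 : u a * u a⁻¹ = 1 := by rw [← map_mul, mul_inv_cancel, map_one]
        have h2 : u a⁻¹ * u a = 1 := by rw [← map_mul, inv_mul_cancel, map_one]
        calc u a⁻¹ * φ = u a⁻¹ * φ * (u a * u a⁻¹) := by rw [h1, mul_one]
          _ = u a⁻¹ * (φ * u a) * u a⁻¹ := by simp only [mul_assoc]
          _ = u a⁻¹ * (u a * φ) * u a⁻¹ := by rw [ha']
          _ = (u a⁻¹ * u a) * φ * u a⁻¹ := by simp only [mul_assoc]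
          _ = φ * u a⁻¹ := by rw [h2, one_mul] }
  have hz : Subgroup.zpowers z ≤ H := by
    rw [Subgroup.zpowers_le]
    exact h
  intro x hx
  exact hz hx

/-- `K` acts trivially, the slash at every `x ∉ K` with `x ^ p ∈ K` is one-dimensional, there is such an `x`: the projective representation `α` lifts to a homomorphism with trace = dimension at all `s` that fix such an `x`. -/
theorem caseX {p : ℕ} [Fact p.Prime] {k : Type} [Field k] [IsAlgClosed k] [CharP k p] {P : Type} [CommGroup P] [Finite P] (hP : ∀ x : P, ∃ a : ℕ, x ^ (p ^ a) = 1)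
    {Γ : Type} [Group Γ] [Finite Γ] (hΓ : ¬ p ∣ Nat.card Γ) (act : Γ →* MulAut P) {ι : Type} [Fintype ι] [DecidableEq ι] (u : P →* Matrix ι ι k) (hn : (Fintype.card ι : k) ≠ 0)
    (K : Subgroup P) (hKΓ : ∀ g, ∀ x ∈ K, act g x ∈ K) (hK : ∀ x ∈ K, u x = 1) (hone : ∀ x, x ∉ K → x ^ p ∈ K → OneAt u (Subgroup.zpowers x))
    (hex : ∃ x, x ∉ K ∧ x ^ p ∈ K) (α : Γ → (Matrix ι ι k)ˣ) (hα : IsProj α) (hc : Comp act u α) :
    TT act α {x | x ∉ K ∧ x ^ p ∈ K} := by
  have hp : p.Prime := Fact.out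
  have hι : 0 < Fintype.card ι := by
    rcases Nat.eq_zero_or_pos (Fintype.card ι) with h | h
    · exact absurd (by rw [h, Nat.cast_zero]) hn
    · exact h
  haveI := Gh_finite hι α hα
  -- the group `P1 = {x | x ^ p ∈ K}`
  obtain ⟨P1, hP1⟩ : ∃ P1 : Subgroup P, ∀ x, x ∈ P1 ↔ x ^ p ∈ K := ⟨K.comap (powMonoidHom p), fun x => Iff.rfl⟩
  have hactK : ∀ g x, act g x ∈ K ↔ x ∈ K := by
    intro g x
    refine ⟨fun h => ?_, hKΓ g x⟩
    have h2 := hKΓ g⁻¹ _ h
    rw [map_inv, MulAut.inv_apply_self] at h2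
    exact h2
  have hactP : ∀ g x, act g x ∈ P1 ↔ x ∈ P1 := by
    intro g x
    rw [hP1, hP1, ← map_pow, hactK]
  -- the action of `Gh` on `P1`
  obtain ⟨π1, hπ1⟩ : ∃ π1 : Gh α hα →* MulAut P1, ∀ (e : Gh α hα) (x : P1), ((π1 e x : P1) : P) = act (e : Γ × (Matrix ι ι k)ˣ).1 x := by
    refine ⟨{ toFun := fun e =>
                { toFun := fun x => ⟨act (e : Γ × (Matrix ι ι k)ˣ).1 x, (hactP _ _).2 x.2⟩
                  invFun := fun x => ⟨(act (e : Γ × (Matrix ι ι k)ˣ).1)⁻¹ x, by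
                    rw [← map_inv]
                    exact (hactP _ _).2 x.2⟩
                  left_inv := ?_
                  right_inv := ?_
                  map_mul' := ?_ }
              map_one' := ?_
              map_mul' := ?_ }, fun e x => rfl⟩
    · intro x
      apply Subtype.ext
      show (act (e : Γ × (Matrix ι ι k)ˣ).1)⁻¹ (act (e : Γ × (Matrix ι ι k)ˣ).1 x) = x
      rw [MulAut.inv_apply_self]
    · intro x
      apply Subtype.ext
      show act (e : Γ × (Matrix ι ι k)ˣ).1 ((act (e : Γ × (Matrix ι ι k)ˣ).1)⁻¹ x) = x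
      rw [MulAut.apply_inv_self]
    · intro x y
      apply Subtype.ext
      show act (e : Γ × (Matrix ι ι k)ˣ).1 ((x : P) * y) = act (e : Γ × (Matrix ι ι k)ˣ).1 x * act (e : Γ × (Matrix ι ι k)ˣ).1 y
      rw [map_mul]
    · apply MulEquiv.ext
      intro x
      apply Subtype.ext
      show act 1 (x : P) = x
      rw [map_one, MulAut.one_apply]
    · intro e e'
      apply MulEquiv.ext
      intro x
      apply Subtype.ext
      show act ((e : Γ × (Matrix ι ι k)ˣ).1 * (e' : Γ × (Matrix ι ι k)ˣ).1) x = act (e : Γ × (Matrix ι ι k)ˣ).1 (act (e' : Γ × (Matrix ι ι k)ˣ).1 x)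
      rw [map_mul, MulAut.mul_apply]
  -- the representations
  let E : Matrix ι ι k ≃ₐ[k] Module.End k (ι → k) := Matrix.toLinAlgEquiv'
  have hE : ∀ A : Matrix ι ι k, LinearMap.trace k (ι → k) (E A) = Matrix.trace A := fun A => Matrix.trace_toLin'_eq A
  have hfin : Module.finrank k (ι → k) = Fintype.card ι := Module.finrank_fintype_fun_eq_card k
  let ρ : P1 →* Module.End k (ι → k) := (E : Matrix ι ι k →* Module.End k (ι → k)).comp (u.comp P1.subtype)
  let σ : Gh α hα →* Module.End k (ι → k) :=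
    (E : Matrix ι ι k →* Module.End k (ι → k)).comp ((Units.coeHom (Matrix ι ι k)).comp ((MonoidHom.snd Γ (Matrix ι ι k)ˣ).comp (Gh α hα).subtype))
  have hρ : ∀ x : P1, ρ x = E (u x) := fun x => rfl
  have hσ : ∀ e : Gh α hα, σ e = E ((e : Γ × (Matrix ι ι k)ˣ).2 : Matrix ι ι k) := fun e => rfl
  have hρp : ∀ x : P1, ρ x ^ p = 1 := by
    intro x
    rw [hρ, ← map_pow, ← map_pow, hK _ ((hP1 _).1 x.2), map_one]
  have hcomm : ∀ (e : Gh α hα) (x : P1), σ e * ρ x = ρ (π1 e x) * σ e := by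
    intro e x
    rw [hσ, hρ, hρ, ← map_mul, ← map_mul, hπ1]
    refine congrArg E ?_
    obtain ⟨c, hc1⟩ := e.2.1
    rw [hc1, smul_mul_assoc, mul_smul_comm, hc]
  have hNp : ∀ x : P1, (ρ x - 1) ^ p = 0 := by
    intro x
    haveI : Nonempty ι := Fintype.card_pos_iff.1 hι
    haveI : CharP (Module.End k (ι → k)) p := charP_of_injective_algebraMap (algebraMap k (Module.End k (ι → k))).injective p
    rw [sub_pow_char_of_commute p (Commute.one_right _), hρp, one_pow, sub_self]
  have hloc : ∀ x : P1, (x : P) ∉ K → _ := fun x hx => cx_local (p := p) (ρ x - 1) (hNp x) (by rw [hfin]; exact hn) (by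
    intro a b ha hb
    obtain ⟨A, rfl⟩ := E.surjective a
    obtain ⟨B, rfl⟩ := E.surjective b
    have hA : ∀ A : Matrix ι ι k, E A * (ρ x - 1) = (ρ x - 1) * E A → Cent u (Subgroup.zpowers (x : P)) A := by
      intro A hA
      apply cx_cent
      apply E.injective
      rw [map_mul, map_mul, ← hρ]
      rw [mul_sub, sub_mul, one_mul, mul_one, sub_left_inj] at hA
      exact hA.symm
    rw [← map_mul, hE, hE, hE, hfin]
    exact hone x hx ((hP1 _).1 x.2) A B (hA A ha) (hA B hb))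
  obtain ⟨f, hf⟩ := Pool.Agent.Lib.H90S.lemmaX (p := p) π1 ρ hρp σ hcomm {x : P1 | (x : P) ∉ K}
    (fun x hx e => by
      show ((π1 e x : P1) : P) ∉ K
      rw [hπ1, hactK]
      exact hx) (fun x hx => (hloc x hx).1)
  -- the trace
  have htr : ∀ (x : P1), (x : P) ∉ K → ∀ e : Gh α hα, act (e : Γ × (Matrix ι ι k)ˣ).1 x = x →
      Matrix.trace ((e : Γ × (Matrix ι ι k)ˣ).2 : Matrix ι ι k) = (f e : k) * (Fintype.card ι : k) := by
    intro x hx e he
    obtain ⟨v, hv, hvn, hva⟩ := (hloc x hx).2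
    have hπe : π1 e x = x := Subtype.ext (by rw [hπ1, he])
    have h1 := hf x hx e hπe v (by
      rw [LinearMap.sub_apply, Module.End.one_apply, sub_eq_zero] at hv
      exact hv)
    have h2 := hva (σ e) (by
      rw [mul_sub, sub_mul, one_mul, mul_one, hcomm, hπe])
    rw [hσ, hE, hfin, ← hσ] at h2
    have h3 := Submodule.sub_mem _ h1 h2
    rw [sub_sub_sub_cancel_left, ← sub_smul] at h3
    have h4 : Matrix.trace ((e : Γ × (Matrix ι ι k)ˣ).2 : Matrix ι ι k) * (Fintype.card ι : k)⁻¹ - (f e : k) = 0 := by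
      by_contra hne
      apply hvn
      have h5 := Submodule.smul_mem _ (Matrix.trace ((e : Γ × (Matrix ι ι k)ˣ).2 : Matrix ι ι k) * (Fintype.card ι : k)⁻¹ - (f e : k))⁻¹ h3
      rw [smul_smul, inv_mul_cancel₀ hne, one_smul] at h5
      exact h5
    rw [← sub_eq_zero.1 h4, inv_mul_cancel_right₀ hn]
  obtain ⟨x0, hx0, hx0p⟩ := hex
  obtain ⟨π, hπ⟩ := Gh_descent hι α hα f (by
    intro e he
    obtain ⟨⟨c, hc1⟩, hd⟩ := e.2
    rw [he] at hc1
    obtain ⟨c', hc'⟩ := isProj_one hα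
    rw [hc', smul_smul] at hc1
    have h1 := htr ⟨x0, (hP1 _).2 hx0p⟩ hx0 e (by rw [he, map_one, MulAut.one_apply])
    rw [hc1, Matrix.trace_smul, Matrix.trace_one, smul_eq_mul] at h1
    rw [hc1, mul_right_cancel₀ hn h1])
  refine ⟨π, fun g => ?_, fun z hz s hs => ?_⟩
  · obtain ⟨e, he⟩ := Gh_surj hι α hα g
    have h1 := hπ e
    obtain ⟨⟨c, hc1⟩, -⟩ := e.2
    rw [hc1, he] at h1
    refine ⟨(f e)⁻¹ * c, ?_⟩
    rw [Units.val_mul, mul_smul, h1, smul_smul, Units.inv_mul, one_smul]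
  · obtain ⟨hz1, hz2⟩ := hz
    obtain ⟨e, he⟩ := Gh_surj hι α hα s
    have h1 := htr ⟨z, (hP1 _).2 hz2⟩ hz1 e (by rw [he]; exact hs)
    rw [hπ e, he, Matrix.trace_smul, smul_eq_mul] at h1
    exact mul_left_cancel₀ (f e).ne_zero h1

end Pool.Agent.Lib.H77S
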