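import Pool.Agent.Lib.H77S.C0
import Pool.Agent.Lib.H77S.B2
import Pool.Agent.Lib.H77S.B3
import Pool.Agent.Lib.H77S.B6
import Pool.Agent.Lib.H77S.CX
import Pool.Agent.Lib.H77S.A8

/-! H77S, CA: the case without bad subgroups above K. -/

open scoped BigOperators

noncomputable section

namespace Pool.Agent.Lib.H77S

private theorem CA_pow {P : Type} [CommGroup P] {p : ℕ} {K : Subgroup P} {z : P} (hz : z ∉ K) {b : ℕ} (hb : z ^ (p ^ b) = 1) :
    ∃ a : ℕ, z ^ (p ^ a) ∉ K ∧ (z ^ (p ^ a)) ^ p ∈ K := by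
  classical
  have hex : ∃ b : ℕ, z ^ (p ^ b) ∈ K := ⟨b, by rw [hb]; exact K.one_mem⟩
  have h0 : Nat.find hex ≠ 0 := by
    intro h
    have h1 := Nat.find_spec hex
    rw [h, pow_zero, pow_one] at h1
    exact hz h1
  obtain ⟨a, ha⟩ := Nat.exists_eq_succ_of_ne_zero h0
  refine ⟨a, Nat.find_min hex (by rw [ha]; exact Nat.lt_succ_self a), ?_⟩
  have h1 := Nat.find_spec hex
  rw [ha] at h1
  rw [← pow_mul, ← pow_succ]
  exact h1

private theorem CA_scal {k : Type} [Field k] {ι : Type} [Fintype ι] [DecidableEq ι] (h : Fintype.card ι = 1) (g : (Matrix ι ι k)ˣ) :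
    ∃ c : kˣ, (1 : Matrix ι ι k) = (c : k) • (g : Matrix ι ι k) := by
  obtain ⟨i₀, hi₀⟩ := Fintype.card_eq_one_iff.1 h
  have h1 : ∀ M : Matrix ι ι k, M = M i₀ i₀ • (1 : Matrix ι ι k) := by
    intro M
    ext i j
    rw [hi₀ i, hi₀ j, Matrix.smul_apply, Matrix.one_apply_eq, smul_eq_mul, mul_one]
  have h2 : (g : Matrix ι ι k) i₀ i₀ * ((g⁻¹ : (Matrix ι ι k)ˣ) : Matrix ι ι k) i₀ i₀ = 1 := by
    have h3 : (g : Matrix ι ι k) * ((g⁻¹ : (Matrix ι ι k)ˣ) : Matrix ι ι k) = 1 := g.mul_inv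
    have h4 := congrFun (congrFun h3 i₀) i₀
    rw [Matrix.mul_apply, Matrix.one_apply_eq, Finset.sum_eq_single i₀ (fun b _ hb => absurd (hi₀ b) hb)
      (fun hb => absurd (Finset.mem_univ i₀) hb)] at h4
    exact h4
  have h3 : (g : Matrix ι ι k) i₀ i₀ ≠ 0 := left_ne_zero_of_mul (h2 ▸ one_ne_zero)
  refine ⟨(Units.mk0 _ h3)⁻¹, ?_⟩
  rw [Units.val_inv_eq_inv_val, Units.val_mk0]
  have h4 : ((g : Matrix ι ι k) i₀ i₀)⁻¹ • (g : Matrix ι ι k) = ((g : Matrix ι ι k) i₀ i₀)⁻¹ • ((g : Matrix ι ι k) i₀ i₀ • (1 : Matrix ι ι k)) :=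
    congrArg (fun M => ((g : Matrix ι ι k) i₀ i₀)⁻¹ • M) (h1 (g : Matrix ι ι k))
  rw [smul_smul, inv_mul_cancel₀ h3, one_smul] at h4
  exact h4.symm

variable {p : ℕ} [Fact p.Prime] {k : Type} [Field k] [IsAlgClosed k] [CharP k p] {P : Type} [CommGroup P] [Finite P]

/-- CASE A. `K` is `Γ`-stable and acts trivially, every `R > K` is good. If some `z ∈ Z` lies in `K` then `OneAt` at `z` (where everything commutes with `u z = 1`) gives `card ι = 1` (rank one idempotents, as in `oneAt_iff`; or `oneAt_iff` for the slash `isSlash_self` at `K`), all `α g` are scalars, take `π = 1`.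
Otherwise: corner `e` (`corner_of`), `i`, `j` (`idem_factor`), `v`, `β` (`corner_rep`). For `x ∉ K`, `x ^ p ∈ K` put `R = K ⊔ zpowers x > K`: `OneAt v R` (`oneAt_corner`), and `Cent v (zpowers x) φ → Cent v R φ` because `v` is trivial on `K`, so `OneAt v (zpowers x)`. Some such `x` exists: a power `z ^ (p ^ a)` of any `z ∈ Z` (`z ∉ K`, `z ^ (p ^ b) = 1 ∈ K`, take the last power outside `K`).
`caseX` gives `TT act β {x | x ∉ K ∧ x ^ p ∈ K}`, hence `TT act β Z` (if `s` fixes `z ∈ Z` it fixes the power `z ^ (p ^ a)` outside `K` with `p`-th power in `K`), and `tt_of_corner` gives `TT act α Z`. -/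
theorem caseA (hP : ∀ x : P, ∃ a : ℕ, x ^ (p ^ a) = 1)
    {Γ : Type} [Group Γ] [Finite Γ] (hΓ : ¬ p ∣ Nat.card Γ) (act : Γ →* MulAut P) {ι : Type} [Fintype ι] [DecidableEq ι] (u : P →* Matrix ι ι k) (hF : Framed u) (hn : (Fintype.card ι : k) ≠ 0)
    (K : Subgroup P) (hKΓ : ∀ g, ∀ x ∈ K, act g x ∈ K) (hK : ∀ x ∈ K, u x = 1) (hgood : ∀ R, K < R → Good u R)
    (Z : Set P) (hZ0 : Z.Nonempty) (hone : ∀ z ∈ Z, OneAt u (Subgroup.zpowers z))
    (α : Γ → (Matrix ι ι k)ˣ) (hα : IsProj α) (hc : Comp act u α) : TT act α Z := by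
  by_cases hZK : ∃ z ∈ Z, z ∈ K
  · obtain ⟨z, hz, hzK⟩ := hZK
    have htriv : ∀ x ∈ Subgroup.zpowers z, u x = 1 := fun x hx =>
      hK x ((Subgroup.zpowers_le.2 hzK) hx)
    have hcard : Fintype.card ι = 1 := (oneAt_iff hn (isSlash_self u htriv)).1 (hone z hz)
    refine ⟨1, fun g => CA_scal hcard (α g), fun _ _ _ _ => ?_⟩
    show Matrix.trace (1 : Matrix ι ι k) = _
    rw [Matrix.trace_one]
  · have hZK' : ∀ z ∈ Z, z ∉ K := fun z hz hzK => hZK ⟨z, hz, hzK⟩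
    obtain ⟨z₀, hz₀⟩ := hZ0
    have h1 : OneAt u ⊤ := oneAt_mono le_top (hone z₀ hz₀)
    obtain ⟨e, he, hee, hte, hae, hloc⟩ := corner_of hΓ act u hn h1 α hα hc
    obtain ⟨m, i, j, hji, hij⟩ := idem_factor hee
    obtain ⟨v, β, hv, hβ, hβp, hβc⟩ := corner_rep act he hji hij α hα hc hae
    have hcard : (Fintype.card (Fin m) : k) = (Fintype.card ι : k) := by
      rw [← hte, ← hij, Matrix.trace_mul_comm, hji, Matrix.trace_one]
    have hnm : (Fintype.card (Fin m) : k) ≠ 0 := by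
      rw [hcard]
      exact hn
    have hvK : ∀ x ∈ K, v x = 1 := by
      intro x hx
      rw [hv, hK x hx, Matrix.mul_one, hji]
    have hvone : ∀ x, x ∉ K → x ^ p ∈ K → OneAt v (Subgroup.zpowers x) := by
      intro x hx _
      have hlt : K < K ⊔ Subgroup.zpowers x := by
        refine lt_of_le_of_ne le_sup_left fun h => hx ?_
        rw [h]
        exact (le_sup_right : Subgroup.zpowers x ≤ _) (Subgroup.mem_zpowers x)
      have h2 : OneAt v (K ⊔ Subgroup.zpowers x) := oneAt_corner hP hF hn h1 he hee hte hloc hji hij hv (hgood _ hlt)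
      have h3 : ∀ φ, Cent v (Subgroup.zpowers x) φ → Cent v (K ⊔ Subgroup.zpowers x) φ := by
        intro φ hφ y hy
        obtain ⟨q, hq, r, hr, rfl⟩ := Subgroup.mem_sup.1 hy
        rw [map_mul, hvK q hq, one_mul]
        exact hφ r hr
      intro φ ψ hφ hψ
      exact h2 φ ψ (h3 φ hφ) (h3 ψ hψ)
    have hpow : ∀ z ∈ Z, ∃ a : ℕ, z ^ (p ^ a) ∉ K ∧ (z ^ (p ^ a)) ^ p ∈ K := by
      intro z hz
      obtain ⟨b, hb⟩ := hP z
      exact CA_pow (hZK' z hz) hb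
    obtain ⟨a₀, ha₀⟩ := hpow z₀ hz₀
    obtain ⟨π, hπ, hπt⟩ := caseX hP hΓ act v hnm K hKΓ hvK hvone ⟨_, ha₀⟩ β hβp hβc
    have hTT : TT act β Z := by
      refine ⟨π, hπ, fun z hz s hs => ?_⟩
      obtain ⟨a, ha⟩ := hpow z hz
      refine hπt (z ^ (p ^ a)) ha s ?_
      rw [map_pow, hs]
    exact tt_of_corner act he (by rw [hte]; exact hn) hji hij α hα hc hae β hβ Z hone hTT

end Pool.Agent.Lib.H77S
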