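import Mathlib

/-!
H77S: representations of an abelian `p`-group `P` by matrices whose matrix algebra has a permutation frame
(endo-permutation modules), slashes, and the gluing problem (MP_a8e959_al, all `p`-solvable groups).
Everything is written with matrices: a representation of `P` is `u : P →* Matrix ι ι k`.
-/

open scoped BigOperators Kronecker

noncomputable section

namespace Pool.Agent.Lib.H77S

variable {k : Type} [Field k] {P : Type} [CommGroup P]
variable {ι κ : Type} [Fintype ι] [DecidableEq ι] [Fintype κ] [DecidableEq κ]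

/-- `φ` commutes with the operators of `Q`. -/
def Cent (u : P →* Matrix ι ι k) (Q : Subgroup P) (φ : Matrix ι ι k) : Prop :=
  ∀ x ∈ Q, u x * φ = φ * u x

/-- `β` is fixed by `Q`. -/
def Fixd {B : Type} [MulAction P B] (Q : Subgroup P) (β : B) : Prop := ∀ x ∈ Q, x • β = β

/-- A permutation frame: the matrix algebra, with `P` acting by conjugation, is a direct summand of the permutation module on `B`. -/
structure Frame (u : P →* Matrix ι ι k) (B : Type) [Fintype B] [MulAction P B] where
  a : B → Matrix ι ι k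
  c : B → (Matrix ι ι k →ₗ[k] k)
  ha : ∀ x β, u x * a β = a (x • β) * u x
  hc : ∀ x β φ ψ, u x * φ = ψ * u x → c (x • β) ψ = c β φ
  sum : ∀ φ, ∑ β, c β φ • a β = φ

/-- `u` has a permutation frame. -/
def Framed (u : P →* Matrix ι ι k) : Prop :=
  ∃ (B : Type) (_ : Fintype B) (_ : MulAction P B), Nonempty (Frame u B)

/-- The ideal of `Cent u Q` of the elements whose coefficients at the fixed points of `Q` are zero. -/
def Frame.In {u : P →* Matrix ι ι k} {B : Type} [Fintype B] [MulAction P B] (F : Frame u B) (Q : Subgroup P) (φ : Matrix ι ι k) : Prop :=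
  Cent u Q φ ∧ ∀ β, Fixd Q β → F.c β φ = 0

/-- `u'` is the slash of `u` at `Q`: `b` is an algebra homomorphism of `Cent u Q` onto all matrices, the traces are proportional, `b (u x) = u' x`. -/
structure IsSlash (u : P →* Matrix ι ι k) (Q : Subgroup P) (u' : P →* Matrix κ κ k) (b : Matrix ι ι k →ₗ[k] Matrix κ κ k) : Prop where
  one : b 1 = 1
  mul : ∀ φ ψ, Cent u Q φ → Cent u Q ψ → b (φ * ψ) = b φ * b ψ
  surj : ∀ ψ, ∃ φ, Cent u Q φ ∧ b φ = ψ
  tr : ∃ e : k, e ≠ 0 ∧ ∀ φ, Cent u Q φ → Matrix.trace φ = e * Matrix.trace (b φ)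
  act : ∀ x, b (u x) = u' x

/-- The slash at `Q` is one-dimensional (written with traces). -/
def OneAt (u : P →* Matrix ι ι k) (Q : Subgroup P) : Prop :=
  ∀ φ ψ, Cent u Q φ → Cent u Q ψ → Matrix.trace (φ * ψ) * (Fintype.card ι : k) = Matrix.trace φ * Matrix.trace ψ

/-- The slash at `R` has a trivial `P`-summand (written with traces). -/
def Good (u : P →* Matrix ι ι k) (R : Subgroup P) : Prop :=
  ∃ j, Cent u ⊤ j ∧ Matrix.trace j ≠ 0 ∧
    ∀ φ, Cent u R φ → ∃ c : k, ∀ ψ, Cent u R ψ → Matrix.trace (j * φ * j * ψ) = c * Matrix.trace (j * ψ)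

/-- `u` has a trivial direct summand. -/
def HasTriv (u : P →* Matrix ι ι k) : Prop :=
  ∃ v l : ι → k, (∀ x, (u x).mulVec v = v) ∧ (∀ x, Matrix.vecMul l (u x) = l) ∧ l ⬝ᵥ v = 1

/-- The dual representation. -/
def du (u : P →* Matrix ι ι k) : P →* Matrix ι ι k where
  toFun x := (u x⁻¹).transpose
  map_one' := by simp
  map_mul' x y := by
    rw [mul_inv_rev, map_mul, Matrix.transpose_mul]

/-- The tensor product of two representations. -/
def kr (u : P →* Matrix ι ι k) (v : P →* Matrix κ κ k) : P →* Matrix (ι × κ) (ι × κ) k where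
  toFun x := u x ⊗ₖ v x
  map_one' := by simp
  map_mul' x y := by
    rw [map_mul, map_mul, Matrix.mul_kronecker_mul]

/-- The tensor product of a family of matrices. -/
def piMat {O : Type} [Fintype O] {ι : O → Type} (h : ∀ o, Matrix (ι o) (ι o) k) : Matrix (∀ o, ι o) (∀ o, ι o) k :=
  Matrix.of fun i j => ∏ o, h o (i o) (j o)

/-- The operator `⊗ e_o ↦ ⊗ h_o e_o`, the factor `o` moved to the place `s o`. -/
def twMat {O : Type} [Fintype O] (s : Equiv.Perm O) (h : O → Matrix ι ι k) : Matrix (O → ι) (O → ι) k :=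
  Matrix.of fun i j => ∏ o, h o (i (s o)) (j o)

theorem piMat_one {O : Type} [Fintype O] [DecidableEq O] {ι : O → Type} [∀ o, Fintype (ι o)] [∀ o, DecidableEq (ι o)] :
    piMat (fun o => (1 : Matrix (ι o) (ι o) k)) = 1 := by
  ext i j
  simp only [piMat, Matrix.of_apply, Matrix.one_apply]
  by_cases h : i = j
  · subst h
    simp
  · rw [if_neg h]
    obtain ⟨o, ho⟩ := Function.ne_iff.1 h
    exact Finset.prod_eq_zero (Finset.mem_univ o) (by rw [if_neg ho])

theorem piMat_mul {O : Type} [Fintype O] [DecidableEq O] {ι : O → Type} [∀ o, Fintype (ι o)] (h h' : ∀ o, Matrix (ι o) (ι o) k) :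
    piMat (fun o => h o * h' o) = piMat h * piMat h' := by
  ext i j
  simp only [piMat, Matrix.of_apply, Matrix.mul_apply]
  rw [Finset.prod_univ_sum]
  simp only [Finset.prod_mul_distrib, Fintype.piFinset_univ]

/-- The tensor product of a family of representations. -/
def piRep {O : Type} [Fintype O] [DecidableEq O] {ι : O → Type} [∀ o, Fintype (ι o)] [∀ o, DecidableEq (ι o)] (u : ∀ o, P →* Matrix (ι o) (ι o) k) :
    P →* Matrix (∀ o, ι o) (∀ o, ι o) k where
  toFun x := piMat fun o => u o x
  map_one' := by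
    simp only [map_one]
    exact piMat_one
  map_mul' x y := by
    simp only [map_mul]
    exact piMat_mul _ _

/-- `α` is a projective representation. -/
def IsProj {Γ : Type} [Group Γ] (α : Γ → (Matrix ι ι k)ˣ) : Prop :=
  ∀ g h, ∃ c : kˣ, (α g : Matrix ι ι k) * α h = (c : k) • (α (g * h) : Matrix ι ι k)

/-- `α` is compatible with the action of `Γ` on `P`. -/
def Comp {Γ : Type} [Group Γ] (act : Γ →* MulAut P) (u : P →* Matrix ι ι k) (α : Γ → (Matrix ι ι k)ˣ) : Prop :=
  ∀ g x, (α g : Matrix ι ι k) * u x = u (act g x) * α g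

/-- The conclusion of the gluing theorem: a homomorphism `π` that lifts the projective representation `α`, with trace = dimension
at all `s` that fix some `z ∈ Z`. -/
def TT {Γ : Type} [Group Γ] (act : Γ →* MulAut P) (α : Γ → (Matrix ι ι k)ˣ) (Z : Set P) : Prop :=
  ∃ π : Γ →* (Matrix ι ι k)ˣ, (∀ g, ∃ c : kˣ, (π g : Matrix ι ι k) = (c : k) • (α g : Matrix ι ι k)) ∧
    ∀ z ∈ Z, ∀ s, act s z = z → Matrix.trace (π s : Matrix ι ι k) = (Fintype.card ι : k)

/-- The same representation, twisted by an automorphism of `P`. -/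
def tws (u : P →* Matrix ι ι k) (f : MulAut P) : P →* Matrix ι ι k := u.comp (f⁻¹ : MulAut P).toMonoidHom

end Pool.Agent.Lib.H77S
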