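import Pool.Agent.Lib.H90S.S6
import Pool.Agent.Lib.H90S.S1

/-!
H77S, F0: the operators `m ↦ (card C)⁻¹ ∑ τ c ∘ a ∘ m ∘ b ∘ σ c⁻¹` of `Hom_C(W, V)`.
-/

open scoped Classical BigOperators

noncomputable section

namespace Pool.Agent.Lib.H77S

open Pool.Agent.Lib.H90Q Pool.Agent.Lib.H90S

variable {k V W : Type*} [Field k] [AddCommGroup V] [Module k V] [FiniteDimensional k V] [AddCommGroup W] [Module k W] [FiniteDimensional k W]
variable {C : Type*} [Group C] [Fintype C]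

/-- The average of `h`. -/
def avH (τ : C →* Module.End k V) (σ : C →* Module.End k W) : (W →ₗ[k] V) →ₗ[k] (W →ₗ[k] V) :=
  (Nat.card C : k)⁻¹ • ∑ c : C, LinearMap.lcomp k V (σ c⁻¹) ∘ₗ LinearMap.compRight k (τ c)

theorem avH_apply (τ : C →* Module.End k V) (σ : C →* Module.End k W) (h : W →ₗ[k] V) (w : W) :
    avH τ σ h w = (Nat.card C : k)⁻¹ • ∑ c : C, τ c (h (σ c⁻¹ w)) := by
  unfold avH
  rw [LinearMap.smul_apply, LinearMap.smul_apply, LinearMap.sum_apply, LinearMap.sum_apply]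
  rfl

theorem avH_mem (τ : C →* Module.End k V) (σ : C →* Module.End k W) (h : W →ₗ[k] V) : avH τ σ h ∈ homC τ σ := by
  intro d w
  rw [avH_apply, avH_apply, map_smul, map_sum]
  congr 1
  refine Fintype.sum_equiv (Equiv.mulLeft d⁻¹) _ _ fun c => ?_
  show τ c (h (σ c⁻¹ (σ d w))) = τ d (τ (d⁻¹ * c) (h (σ (d⁻¹ * c)⁻¹ w)))
  rw [← Module.End.mul_apply (τ d), ← map_mul τ, mul_inv_cancel_left, mul_inv_rev, inv_inv, map_mul σ c⁻¹ d]
  rfl

theorem avH_of_mem (τ : C →* Module.End k V) (σ : C →* Module.End k W) (hC : (Nat.card C : k) ≠ 0) {h : W →ₗ[k] V} (hh : h ∈ homC τ σ) :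
    avH τ σ h = h := by
  apply LinearMap.ext
  intro w
  rw [avH_apply]
  have h1 : ∀ c : C, τ c (h (σ c⁻¹ w)) = h w := by
    intro c
    rw [← mem_homC.1 hh, ← Module.End.mul_apply, ← map_mul, mul_inv_cancel, map_one, Module.End.one_apply]
  rw [Finset.sum_congr rfl fun c _ => h1 c, Finset.sum_const, Finset.card_univ, ← Nat.card_eq_fintype_card, ← Nat.cast_smul_eq_nsmul k, smul_smul,
    inv_mul_cancel₀ hC, one_smul]

/-- The operator `m ↦ average of a ∘ m ∘ b` of `Hom_C(W, V)`. -/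
def av (τ : C →* Module.End k V) (σ : C →* Module.End k W) (a : Module.End k V) (b : Module.End k W) : Module.End k (homC τ σ) :=
  LinearMap.codRestrict (homC τ σ) (avH τ σ ∘ₗ LinearMap.lcomp k V b ∘ₗ LinearMap.compRight k a ∘ₗ (homC τ σ).subtype) fun _ => avH_mem τ σ _

theorem av_apply (τ : C →* Module.End k V) (σ : C →* Module.End k W) (a : Module.End k V) (b : Module.End k W) (m : homC τ σ) (w : W) :
    ((av τ σ a b m : homC τ σ) : W →ₗ[k] V) w = (Nat.card C : k)⁻¹ • ∑ c : C, τ c (a ((m : W →ₗ[k] V) (b (σ c⁻¹ w)))) :=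
  avH_apply τ σ _ w

/-- If `m ↦ a ∘ m ∘ b` preserves `Hom_C(W, V)` it is `av`. -/
theorem av_eq (τ : C →* Module.End k V) (σ : C →* Module.End k W) (hC : (Nat.card C : k) ≠ 0) (a : Module.End k V) (b : Module.End k W)
    (φ : Module.End k (homC τ σ)) (hφ : ∀ (m : homC τ σ) (w : W), ((φ m : homC τ σ) : W →ₗ[k] V) w = a ((m : W →ₗ[k] V) (b w))) : φ = av τ σ a b := by
  apply LinearMap.ext
  intro m
  apply Subtype.ext
  have h1 := avH_of_mem τ σ hC (φ m).2
  rw [← h1]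
  apply LinearMap.ext
  intro w
  rw [avH_apply, av_apply]
  simp only [hφ]

end Pool.Agent.Lib.H77S
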