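import Pool.Agent.Lib.H77S.MA

/-!
H77S, F1: the gluing theorem `main` for endomorphisms of a vector space, all universes.
-/

open scoped Classical BigOperators

noncomputable section

namespace Pool.Agent.Lib.H77S

private theorem main_End0 {p : ℕ} [Fact p.Prime] {k : Type} [Field k] [IsAlgClosed k] [CharP k p] {P Γ B : Type} {M : Type*}
    [CommGroup P] [Finite P]
    (hP : ∀ x : P, ∃ a : ℕ, x ^ (p ^ a) = 1) [Group Γ] [Finite Γ] (hΓ : ¬ p ∣ Nat.card Γ) (act : Γ →* MulAut P)
    (Z : Set P) (hZ0 : Z.Nonempty) (hZ : ∀ z ∈ Z, ∀ g, act g z ∈ Z)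
    [AddCommGroup M] [Module k M] [FiniteDimensional k M] (hn : (Module.finrank k M : k) ≠ 0)
    (U : P →* Module.End k M) (A : Γ →* Module.End k M) (hc : ∀ g x, A g * U x = U (act g x) * A g)
    [Fintype B] [MulAction P B] (a : B → Module.End k M) (c : B → (Module.End k M →ₗ[k] k))
    (ha : ∀ x β, U x * a β = a (x • β) * U x) (hcc : ∀ x β φ ψ, U x * φ = ψ * U x → c (x • β) ψ = c β φ)
    (hsum : ∀ φ, ∑ β, c β φ • a β = φ)
    (hone : ∀ z ∈ Z, ∀ φ ψ : Module.End k M, U z * φ = φ * U z → U z * ψ = ψ * U z →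
      LinearMap.trace k M (φ * ψ) * (Module.finrank k M : k) = LinearMap.trace k M φ * LinearMap.trace k M ψ) :
    ∃ f : Γ →* kˣ, ∀ z ∈ Z, ∀ s, act s z = z → LinearMap.trace k M (A s) = (f s : k) * (Module.finrank k M : k) := by
  obtain ⟨b, hb⟩ : ∃ b : Module.Basis (Fin (Module.finrank k M)) k M, b = Module.finBasis k M := ⟨_, rfl⟩
  obtain ⟨E, hE⟩ : ∃ E : Module.End k M ≃ₐ[k] Matrix (Fin (Module.finrank k M)) (Fin (Module.finrank k M)) k,
      E = LinearMap.toMatrixAlgEquiv b := ⟨_, rfl⟩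
  have htr : ∀ φ, Matrix.trace (E φ) = LinearMap.trace k M φ := by
    intro φ
    rw [hE]
    exact (LinearMap.trace_eq_matrix_trace k b φ).symm
  have htr' : ∀ φ, LinearMap.trace k M (E.symm φ) = Matrix.trace φ := by
    intro φ
    rw [← htr, AlgEquiv.apply_symm_apply]
  obtain ⟨u, hu⟩ : ∃ u : P →* Matrix (Fin (Module.finrank k M)) (Fin (Module.finrank k M)) k,
      ∀ x, u x = E (U x) := ⟨⟨⟨fun x => E (U x), by rw [map_one, map_one]⟩,
        fun x y => by simp only [map_mul]⟩, fun x => rfl⟩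
  have hF : Framed u := by
    refine ⟨B, inferInstance, inferInstance, ⟨⟨fun β => E (a β),
      fun β => (c β).comp E.symm.toLinearMap, ?_, ?_, ?_⟩⟩⟩
    · intro x β
      rw [hu, ← map_mul, ha, map_mul]
    · intro x β φ ψ h
      refine hcc x β _ _ ?_
      apply E.injective
      rw [map_mul, map_mul]
      simp only [AlgEquiv.toLinearMap_apply, AlgEquiv.apply_symm_apply]
      rw [← hu]
      exact h
    · intro φ
      have h1 := congrArg E (hsum (E.symm φ))
      rw [map_sum, AlgEquiv.apply_symm_apply] at h1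
      refine Eq.trans ?_ h1
      refine Finset.sum_congr rfl fun β _ => ?_
      rw [map_smul]
      rfl
  obtain ⟨α, hα⟩ : ∃ α : Γ → (Matrix (Fin (Module.finrank k M)) (Fin (Module.finrank k M)) k)ˣ,
      ∀ g, (α g : Matrix _ _ k) = E (A g) := by
    refine ⟨fun g => ⟨E (A g), E (A g⁻¹), ?_, ?_⟩, fun g => rfl⟩
    · rw [← map_mul, ← map_mul, mul_inv_cancel, map_one, map_one]
    · rw [← map_mul, ← map_mul, inv_mul_cancel, map_one, map_one]
  have hmulα : ∀ g h, (α g : Matrix (Fin (Module.finrank k M)) (Fin (Module.finrank k M)) k) * α h = α (g * h) := by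
    intro g h
    rw [hα, hα, hα, ← map_mul, ← map_mul]
  have hproj : IsProj α := fun g h => ⟨1, by rw [hmulα, Units.val_one, one_smul]⟩
  have hcomp : Comp act u α := by
    intro g x
    rw [hα, hu, hu, ← map_mul, hc, map_mul]
  have hn' : (Fintype.card (Fin (Module.finrank k M)) : k) ≠ 0 := by
    rw [Fintype.card_fin]
    exact hn
  have hone' : ∀ z ∈ Z, OneAt u (Subgroup.zpowers z) := by
    intro z hz φ ψ hφ hψ
    have h1 : ∀ φ, Cent u (Subgroup.zpowers z) φ → U z * E.symm φ = E.symm φ * U z := by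
      intro φ hφ
      apply E.injective
      have h2 := hφ z (Subgroup.mem_zpowers z)
      rw [hu] at h2
      rw [map_mul, map_mul, AlgEquiv.apply_symm_apply]
      exact h2
    have h2 := hone z hz (E.symm φ) (E.symm ψ) (h1 φ hφ) (h1 ψ hψ)
    rw [← map_mul, htr', htr', htr'] at h2
    rw [Fintype.card_fin]
    exact h2
  obtain ⟨π, hπ1, hπ2⟩ := main hP hΓ act Z hZ0 hZ u hF hn' hone' α hproj hcomp
  choose d hd using hπ1
  have hne : Nonempty (Fin (Module.finrank k M)) := by
    rw [← Fintype.card_pos_iff]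
    refine Nat.pos_of_ne_zero fun h0 => hn' ?_
    rw [h0, Nat.cast_zero]
  have hαne : ∀ g, (α g : Matrix (Fin (Module.finrank k M)) (Fin (Module.finrank k M)) k) ≠ 0 := fun g => (α g).ne_zero
  have huniq : ∀ (x y : k) (g : Γ), x • (α g : Matrix (Fin (Module.finrank k M)) (Fin (Module.finrank k M)) k) =
      y • (α g : Matrix (Fin (Module.finrank k M)) (Fin (Module.finrank k M)) k) → x = y := fun x y g h =>
    smul_left_injective k (hαne g) h
  have hd1 : d 1 = 1 := by
    apply Units.ext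
    apply huniq _ _ 1
    rw [← hd 1, map_one, Units.val_one, Units.val_one, one_smul, hα, map_one, map_one]
  have hdm : ∀ g h, d (g * h) = d g * d h := by
    intro g h
    apply Units.ext
    apply huniq _ _ (g * h)
    rw [← hd, map_mul, Units.val_mul, hd, hd, smul_mul_smul_comm, hmulα, Units.val_mul]
  refine ⟨⟨⟨fun g => (d g)⁻¹, by rw [hd1, inv_one]⟩, fun g h => by
    simp only [hdm, mul_inv]⟩, fun z hz s hs => ?_⟩
  have h1 := hπ2 z hz s hs
  rw [hd, Matrix.trace_smul, hα, htr, Fintype.card_fin, smul_eq_mul] at h1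
  rw [← h1, ← mul_assoc]
  have h2 : ((d s)⁻¹ : kˣ) * (d s : k) = 1 := Units.inv_mul (d s)
  change _ = ((d s)⁻¹ : kˣ) * (d s : k) * _
  rw [h2, one_mul]

/-- PROOF. Transport to `Type`: `P' = Shrink.{0} P`, `Γ' = Shrink.{0} Γ`, `B' = Shrink.{0} B` (finite types are small; `Shrink.mulEquiv`, make `P'` a `CommGroup` with `hab`; `B'` gets the action transported along the equivalences, or use `Fin n` instead of `Shrink`), everything composed with the equivalences.
`b = Module.finBasis k M`, `ι = Fin (finrank k M)`, `E = LinearMap.toMatrixAlgEquiv b : Module.End k M ≃ₐ[k] Matrix ι ι k`; `Matrix.trace (E φ) = LinearMap.trace k M φ` (`LinearMap.trace_eq_matrix_trace`). `u = E ∘ U`, `α g` = the unit with value `E (A g)` (inverse `E (A g⁻¹)`; `Units.map`/`MonoidHom.toHomUnits`), `IsProj α` with `c = 1`,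
frame `E (a β)`, `(c β) ∘ E.symm`. `OneAt u (zpowers z)`: a matrix that commutes with `u z` gives via `E.symm` an endomorphism that commutes with `U z` (use `Cent` at `x = z ∈ zpowers z`). `main` gives `π`, with `π g = c g • α g`; `card ι ≠ 0` in `k`, so `ι` is non-empty and the matrices `α g` are not `0`: `c g` is unique, `c (g h) = c g c h`. Put `f g = (c g)⁻¹`:
`card ι = trace (π s) = c s * trace (α s)`, so `trace (A s) = f s * finrank`. -/
theorem main_End {p : ℕ} [Fact p.Prime] {k : Type} [Field k] [IsAlgClosed k] [CharP k p] {P Γ M B : Type*} [Group P] [Finite P]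
    (hab : ∀ x y : P, x * y = y * x) (hP : ∀ x : P, ∃ a : ℕ, x ^ (p ^ a) = 1) [Group Γ] [Finite Γ] (hΓ : ¬ p ∣ Nat.card Γ) (act : Γ →* MulAut P)
    (Z : Set P) (hZ0 : Z.Nonempty) (hZ : ∀ z ∈ Z, ∀ g, act g z ∈ Z)
    [AddCommGroup M] [Module k M] [FiniteDimensional k M] (hn : (Module.finrank k M : k) ≠ 0)
    (U : P →* Module.End k M) (A : Γ →* Module.End k M) (hc : ∀ g x, A g * U x = U (act g x) * A g)
    [Fintype B] [MulAction P B] (a : B → Module.End k M) (c : B → (Module.End k M →ₗ[k] k))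
    (ha : ∀ x β, U x * a β = a (x • β) * U x) (hcc : ∀ x β φ ψ, U x * φ = ψ * U x → c (x • β) ψ = c β φ)
    (hsum : ∀ φ, ∑ β, c β φ • a β = φ)
    (hone : ∀ z ∈ Z, ∀ φ ψ : Module.End k M, U z * φ = φ * U z → U z * ψ = ψ * U z →
      LinearMap.trace k M (φ * ψ) * (Module.finrank k M : k) = LinearMap.trace k M φ * LinearMap.trace k M ψ) :
    ∃ f : Γ →* kˣ, ∀ z ∈ Z, ∀ s, act s z = z → LinearMap.trace k M (A s) = (f s : k) * (Module.finrank k M : k) := by
  let iP : CommGroup P := { (inferInstance : Group P) with mul_comm := hab }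
  let eP : Shrink.{0} P ≃* P := Shrink.mulEquiv
  let eΓ : Shrink.{0} Γ ≃* Γ := Shrink.mulEquiv
  let eB : Shrink.{0} B ≃ B := (equivShrink.{0} B).symm
  have : Finite (Shrink.{0} P) := Finite.of_equiv P (equivShrink.{0} P)
  have : Finite (Shrink.{0} Γ) := Finite.of_equiv Γ (equivShrink.{0} Γ)
  let _ : Fintype (Shrink.{0} B) := Fintype.ofEquiv B (equivShrink.{0} B)
  let _ : MulAction (Shrink.{0} P) (Shrink.{0} B) :=
    { smul := fun x β => eB.symm (eP x • eB β)
      one_smul := fun β => by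
        change eB.symm (eP 1 • eB β) = β
        rw [map_one, one_smul, Equiv.symm_apply_apply]
      mul_smul := fun x y β => by
        change eB.symm (eP (x * y) • eB β) = eB.symm (eP x • eB (eB.symm (eP y • eB β)))
        rw [map_mul, mul_smul, Equiv.apply_symm_apply] }
  have hsm : ∀ (x : Shrink.{0} P) (β : Shrink.{0} B), eB (x • β) = eP x • eB β := fun x β => by
    change eB (eB.symm (eP x • eB β)) = _
    rw [Equiv.apply_symm_apply]
  obtain ⟨act', hact⟩ : ∃ act' : Shrink.{0} Γ →* MulAut (Shrink.{0} P),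
      ∀ g x, eP (act' g x) = act (eΓ g) (eP x) :=
    ⟨((MulAut.congr eP.symm).toMonoidHom.comp act).comp eΓ.toMonoidHom, fun g x => by
      change eP (eP.symm (act (eΓ g) (eP.symm.symm x))) = _
      rw [MulEquiv.apply_symm_apply]
      rfl⟩
  have hcard : Nat.card (Shrink.{0} Γ) = Nat.card Γ := Nat.card_congr eΓ.toEquiv
  obtain ⟨f, hf⟩ := main_End0 (p := p) (k := k) (P := Shrink.{0} P) (Γ := Shrink.{0} Γ)
    (B := Shrink.{0} B) (M := M) (fun x => by
      obtain ⟨n, hn⟩ := hP (eP x)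
      exact ⟨n, eP.injective (by rw [map_pow, hn, map_one])⟩) (by rw [hcard]; exact hΓ) act'
    (eP ⁻¹' Z) (by
      obtain ⟨z, hz⟩ := hZ0
      exact ⟨eP.symm z, by rw [Set.mem_preimage, MulEquiv.apply_symm_apply]; exact hz⟩)
    (fun z hz g => by
      rw [Set.mem_preimage] at hz ⊢
      rw [hact]
      exact hZ _ hz _) hn (U.comp eP.toMonoidHom) (A.comp eΓ.toMonoidHom)
    (fun g x => by
      have h1 := hc (eΓ g) (eP x)
      rw [← hact] at h1
      exact h1)
    (fun β => a (eB β)) (fun β => c (eB β))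
    (fun x β => by
      have h1 := ha (eP x) (eB β)
      rw [← hsm] at h1
      exact h1)
    (fun x β φ ψ h => by
      have h1 := hcc (eP x) (eB β) φ ψ h
      rw [← hsm] at h1
      exact h1)
    (fun φ => (Equiv.sum_comp eB (fun β => c β φ • a β)).trans (hsum φ))
    (fun z hz φ ψ h1 h2 => hone (eP z) hz φ ψ h1 h2)
  refine ⟨f.comp eΓ.symm.toMonoidHom, fun z hz s hs => ?_⟩
  have h1 := hf (eP.symm z) (by rw [Set.mem_preimage, MulEquiv.apply_symm_apply]; exact hz)
    (eΓ.symm s) (by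
      apply eP.injective
      rw [hact, MulEquiv.apply_symm_apply, MulEquiv.apply_symm_apply]
      exact hs)
  have h2 : (A.comp eΓ.toMonoidHom) (eΓ.symm s) = A s := by
    change A (eΓ (eΓ.symm s)) = A s
    rw [MulEquiv.apply_symm_apply]
  rw [h2] at h1
  exact h1

end Pool.Agent.Lib.H77S
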