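import Pool.Agent.Lib.H77S.F0

/-!
H77S, F2: the trace of `av τ σ a b`.
-/

open scoped Classical BigOperators

noncomputable section

namespace Pool.Agent.Lib.H77S

open Pool.Agent.Lib.H90Q Pool.Agent.Lib.H90S

variable {k V W : Type*} [Field k] [AddCommGroup V] [Module k V] [FiniteDimensional k V] [AddCommGroup W] [Module k W] [FiniteDimensional k W]
variable {C : Type*} [Group C] [Fintype C]

open TensorProduct in
private theorem F2_lr (x : Module.End k V) (y : Module.End k W) :
    LinearMap.trace k (W →ₗ[k] V) (LinearMap.lcomp k V y ∘ₗ LinearMap.compRight k x) =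
      LinearMap.trace k V x * LinearMap.trace k W y := by
  have hx : ∀ (x x' : Module.End k V) (y : Module.End k W),
      (LinearMap.lcomp k V y ∘ₗ LinearMap.compRight k (x + x') : Module.End k (W →ₗ[k] V)) =
        LinearMap.lcomp k V y ∘ₗ LinearMap.compRight k x + LinearMap.lcomp k V y ∘ₗ LinearMap.compRight k x' :=
    fun x x' y => LinearMap.ext fun h => LinearMap.ext fun w => rfl
  have hy : ∀ (x : Module.End k V) (y y' : Module.End k W),
      (LinearMap.lcomp k V (y + y') ∘ₗ LinearMap.compRight k x : Module.End k (W →ₗ[k] V)) =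
        LinearMap.lcomp k V y ∘ₗ LinearMap.compRight k x + LinearMap.lcomp k V y' ∘ₗ LinearMap.compRight k x :=
    fun x y y' => LinearMap.ext fun h => LinearMap.ext fun w => by
      show x (h (y w + y' w)) = x (h (y w)) + x (h (y' w))
      rw [map_add, map_add]
  obtain ⟨t, rfl⟩ := (dualTensorHomEquiv k V V).surjective x
  obtain ⟨s, rfl⟩ := (dualTensorHomEquiv k W W).surjective y
  induction t using TensorProduct.induction_on with
  | zero =>
    rw [map_zero, map_zero, zero_mul]
    have h0 : (LinearMap.lcomp k V ((dualTensorHomEquiv k W W) s) ∘ₗ LinearMap.compRight k (0 : Module.End k V) :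
        Module.End k (W →ₗ[k] V)) = 0 := LinearMap.ext fun h => LinearMap.ext fun w => rfl
    rw [h0, map_zero]
  | add a b ha hb => rw [map_add, hx, map_add, map_add, ha, hb, add_mul]
  | tmul f v =>
    induction s using TensorProduct.induction_on with
    | zero =>
      rw [map_zero, map_zero, mul_zero]
      have h0 : (LinearMap.lcomp k V (0 : Module.End k W) ∘ₗ LinearMap.compRight k ((dualTensorHomEquiv k V V) (f ⊗ₜ[k] v)) :
          Module.End k (W →ₗ[k] V)) = 0 := LinearMap.ext fun h => LinearMap.ext fun w => by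
        show ((dualTensorHomEquiv k V V) (f ⊗ₜ[k] v)) (h 0) = 0
        rw [map_zero, map_zero]
      rw [h0, map_zero]
    | add a b ha hb => rw [map_add, hy, map_add, map_add, ha, hb, mul_add]
    | tmul g w =>
      have e1 : (dualTensorHomEquiv k V V) (f ⊗ₜ[k] v) = f.smulRight v := LinearMap.ext fun u => by simp [dualTensorHomEquiv]
      have e2 : (dualTensorHomEquiv k W W) (g ⊗ₜ[k] w) = g.smulRight w := LinearMap.ext fun u => by simp [dualTensorHomEquiv]
      have e3 : (LinearMap.lcomp k V (g.smulRight w) ∘ₗ LinearMap.compRight k (f.smulRight v) : Module.End k (W →ₗ[k] V)) =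
          (f ∘ₗ LinearMap.applyₗ w).smulRight (g.smulRight v) := LinearMap.ext fun h => LinearMap.ext fun u => by
        show f (h (g u • w)) • v = f (h w) • (g u • v)
        rw [map_smul, map_smul, smul_smul, smul_eq_mul, mul_comm]
      rw [e1, e2, e3, LinearMap.trace_smulRight, LinearMap.trace_smulRight, LinearMap.trace_smulRight]
      show f (g w • v) = f v * g w
      rw [map_smul, smul_eq_mul, mul_comm]

/-- PROOF. Let `H = W →ₗ[k] V`, `M = homC τ σ`, `i = M.subtype : M → H`, `q : H → M` the map `avH τ σ` with codomain `M` (`avH_mem`), `X : H → H`, `X h = a ∘ h ∘ b`. Then `av τ σ a b = q ∘ X ∘ i`, so by `LinearMap.trace_comp_comm'` its trace is the trace of `X ∘ i ∘ q = X ∘ avH τ σ`, that is of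
`h ↦ (card C)⁻¹ • ∑ c, (a * τ c) ∘ h ∘ (σ c⁻¹ * b)`. The trace of `h ↦ x ∘ h ∘ y` on `H` is `trace x * trace y` (in bases: `h ↦ x ∘ h ∘ y` in the basis of the maps `w_j* ⊗ v_i`, diagonal entries `x_ii y_jj`; or `LinearMap.trace_tensorProduct'` with `dualTensorHomEquiv`; or reduce by linearity in `x` and `y` to operators of rank one: `h ↦ λ(h(w) ) ...` has rank one,
trace by `LinearMap.trace_smulRight`). -/
theorem trace_av (τ : C →* Module.End k V) (σ : C →* Module.End k W) (hC : (Nat.card C : k) ≠ 0) (a : Module.End k V) (b : Module.End k W) :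
    (Nat.card C : k) * LinearMap.trace k (homC τ σ) (av τ σ a b) = ∑ c : C, LinearMap.trace k V (a * τ c) * LinearMap.trace k W (σ c⁻¹ * b) := by
  let q : (W →ₗ[k] V) →ₗ[k] homC τ σ := LinearMap.codRestrict (homC τ σ) (avH τ σ) fun h => avH_mem τ σ h
  have h1 : av τ σ a b = q ∘ₗ (LinearMap.lcomp k V b ∘ₗ LinearMap.compRight k a ∘ₗ (homC τ σ).subtype) := rfl
  have h2 : LinearMap.trace k (homC τ σ) (av τ σ a b) =
      LinearMap.trace k (W →ₗ[k] V) ((LinearMap.lcomp k V b ∘ₗ LinearMap.compRight k a) ∘ₗ avH τ σ) := by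
    rw [h1, LinearMap.trace_comp_comm']
    rfl
  have h3 : (LinearMap.lcomp k V b ∘ₗ LinearMap.compRight k a) ∘ₗ avH τ σ =
      (Nat.card C : k)⁻¹ • ∑ c : C, (LinearMap.lcomp k V (σ c⁻¹ * b) ∘ₗ LinearMap.compRight k (a * τ c) : Module.End k (W →ₗ[k] V)) := by
    apply LinearMap.ext
    intro h
    apply LinearMap.ext
    intro w
    rw [LinearMap.smul_apply, LinearMap.smul_apply, LinearMap.sum_apply, LinearMap.sum_apply]
    show a (avH τ σ h (b w)) = _
    rw [avH_apply, map_smul, map_sum]
    rfl
  rw [h2, h3, map_smul, map_sum, smul_eq_mul, mul_inv_cancel_left₀ hC]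
  exact Finset.sum_congr rfl fun c _ => F2_lr _ _

end Pool.Agent.Lib.H77S
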