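import Pool.Agent.Lib.H77S.F0

/-!
H77S, F3: the operators `av (ρ l) 1` of `Hom_C(W, V)` are a frame.
-/

open scoped Classical BigOperators

noncomputable section

namespace Pool.Agent.Lib.H77S

open Pool.Agent.Lib.H90Q Pool.Agent.Lib.H90S

variable {k V W : Type*} [Field k] [AddCommGroup V] [Module k V] [FiniteDimensional k V] [AddCommGroup W] [Module k W] [FiniteDimensional k W]
variable {C : Type*} [Group C] [Fintype C]

/-- a rank one map -/
private theorem F3_rankone {G : Type*} [Group G] [Fintype G] (ρ : G →* Module.End k V) (L : Subgroup G)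
    (hL : Full ρ (L : Set G)) (hd : (Module.finrank k V : k) ≠ 0) (lam : Module.Dual k V) (v w : V) :
    (∑ l : L, lam (ρ (l : G)⁻¹ w) • ρ (l : G) v) =
      ((Nat.card L : k) * lam v * (Module.finrank k V : k)⁻¹) • w := by
  have h := congrArg (fun f : Module.End k V => f w) (S1_average ρ L hL hd (lam.smulRight v))
  simp only [LinearMap.trace_smulRight, LinearMap.smul_apply, Module.End.one_apply] at h
  rw [← h, LinearMap.sum_apply]
  have h1 : ∀ l : G, (if l ∈ L then ρ l * (lam.smulRight v : Module.End k V) * ρ l⁻¹ else 0 : Module.End k V) w =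
      if l ∈ L then lam (ρ l⁻¹ w) • ρ l v else 0 := by
    intro l
    by_cases hl : l ∈ L
    · simp only [hl, if_true, Module.End.mul_apply, LinearMap.smulRight_apply, map_smul]
    · simp only [hl, if_false, LinearMap.zero_apply]
  rw [Finset.sum_congr rfl fun l _ => h1 l, ← Finset.sum_filter]
  exact (Finset.sum_subtype (Finset.univ.filter fun l : G => l ∈ L) (by intro x; simp) fun l : G => lam (ρ l⁻¹ w) • ρ l v).symm

private theorem F3_core {G : Type*} [Group G] [Fintype G] (ρ : G →* Module.End k V) (L : Subgroup G) (hL : Full ρ (L : Set G))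
    (hdV : (Module.finrank k V : k) ≠ 0) (τ : C →* Module.End k V) (σ : C →* Module.End k W) (hσ : Full σ Set.univ)
    (hC : (Nat.card C : k) ≠ 0) (hdW : (Module.finrank k W : k) ≠ 0) (μ : Module.Dual k (homC τ σ)) (m₀ m : homC τ σ) :
    ∑ l : L, μ (av τ σ (ρ (l : G)⁻¹) 1 m₀) • av τ σ (ρ (l : G)) 1 m =
      ((Nat.card L : k) * μ m * (Module.finrank k V : k)⁻¹ * (Module.finrank k W : k)⁻¹) • m₀ := by
  obtain ⟨μ', hμ'⟩ : ∃ μ' : Module.Dual k (W →ₗ[k] V), ∀ h : W →ₗ[k] V, μ' h = μ ⟨avH τ σ h, avH_mem τ σ h⟩ :=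
    ⟨μ ∘ₗ LinearMap.codRestrict (homC τ σ) (avH τ σ) (fun _ => avH_mem τ σ _), fun _ => rfl⟩
  have h1 : ∀ x : homC τ σ, μ' x = μ x := by
    intro x
    rw [hμ']
    congr 1
    exact Subtype.ext (avH_of_mem τ σ hC x.2)
  have h2 : ∀ (d : C) (h : W →ₗ[k] V), μ' ((τ d : V →ₗ[k] V) ∘ₗ h ∘ₗ (σ d⁻¹ : W →ₗ[k] W)) = μ' h := by
    intro d h
    rw [hμ', hμ']
    congr 1
    apply Subtype.ext
    apply LinearMap.ext
    intro w
    show avH τ σ _ w = avH τ σ h w
    rw [avH_apply, avH_apply]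
    congr 1
    refine Fintype.sum_equiv (Equiv.mulRight d) _ _ fun c => ?_
    show τ c (τ d (h (σ d⁻¹ (σ c⁻¹ w)))) = τ (c * d) (h (σ (c * d)⁻¹ w))
    rw [← Module.End.mul_apply (τ c), ← map_mul τ, mul_inv_rev, map_mul σ d⁻¹ c⁻¹]
    rfl
  have h3 : ∀ (a : Module.End k V) (x : homC τ σ), μ (av τ σ a 1 x) = μ' ((a : V →ₗ[k] V) ∘ₗ (x : W →ₗ[k] V)) := by
    intro a x
    rw [hμ']
    rfl
  let b := Module.finBasis k W
  -- the decomposition of a map
  have h4 : ∀ h : W →ₗ[k] V, h = ∑ i, (b.coord i).smulRight (h (b i)) := by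
    intro h
    refine b.ext fun i => ?_
    rw [LinearMap.sum_apply, Finset.sum_eq_single i]
    · simp
    · intro j _ hij
      simp [Ne.symm hij]
    · intro h
      exact absurd (Finset.mem_univ i) h
  obtain ⟨Λ, hΛ⟩ : ∃ Λ : Module.Dual k W → Module.Dual k V, ∀ ν v, Λ ν v = μ' (ν.smulRight v) :=
    ⟨fun ν => μ' ∘ₗ (LinearMap.smulRightₗ ν), fun ν v => rfl⟩
  have h5 : ∀ h : W →ₗ[k] V, μ' h = ∑ i, Λ (b.coord i) (h (b i)) := by
    intro h
    conv_lhs => rw [h4 h]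
    rw [map_sum]
    exact Finset.sum_congr rfl fun i _ => (hΛ _ _).symm
  obtain ⟨g, hg⟩ : ∃ g : V →ₗ[k] W, ∀ v, g v = ∑ i, Λ (b.coord i) v • b i :=
    ⟨∑ i, (Λ (b.coord i)).smulRight (b i), fun v => by rw [LinearMap.sum_apply]; rfl⟩
  have hgν : ∀ (ν : Module.Dual k W) (v : V), ν (g v) = μ' (ν.smulRight v) := by
    intro ν v
    rw [hg, map_sum, h5]
    refine Finset.sum_congr rfl fun i _ => ?_
    rw [map_smul, LinearMap.smulRight_apply, map_smul, smul_eq_mul, smul_eq_mul, mul_comm]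
  have hgC : ∀ (d : C) (v : V), g (τ d v) = σ d (g v) := by
    intro d v
    rw [← sub_eq_zero, ← Module.forall_dual_apply_eq_zero_iff k]
    intro ν
    rw [map_sub, sub_eq_zero, hgν]
    have h6 : ν (σ d (g v)) = (ν ∘ₗ (σ d : W →ₗ[k] W)) (g v) := rfl
    rw [h6, hgν, ← h2 d ((ν ∘ₗ (σ d : W →ₗ[k] W)).smulRight v)]
    congr 1
    apply LinearMap.ext
    intro w
    show ν w • τ d v = τ d (ν (σ d (σ d⁻¹ w)) • v)
    rw [← Module.End.mul_apply (σ d), ← map_mul σ, mul_inv_cancel, map_one, Module.End.one_apply, map_smul]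
  obtain ⟨c, hc⟩ := S1_scalar σ hσ (y := g ∘ₗ (m : W →ₗ[k] V)) (by
    intro d _
    apply LinearMap.ext
    intro w
    show g ((m : W →ₗ[k] V) (σ d w)) = σ d (g ((m : W →ₗ[k] V) w))
    rw [mem_homC.1 m.2, hgC])
  have hcμ : c = μ m * (Module.finrank k W : k)⁻¹ := by
    have h6 : μ m = c * (Module.finrank k W : k) := by
      rw [← h1, h5]
      have h7 : ∀ i, Λ (b.coord i) ((m : W →ₗ[k] V) (b i)) = c := by
        intro i
        rw [hΛ, ← hgν]
        have h8 : g ((m : W →ₗ[k] V) (b i)) = c • b i := LinearMap.congr_fun hc (b i)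
        rw [h8, map_smul, Module.Basis.coord_apply, Module.Basis.repr_self, Finsupp.single_eq_same, smul_eq_mul, mul_one]
      rw [Finset.sum_congr rfl fun i _ => h7 i, Finset.sum_const, Finset.card_univ, Fintype.card_fin, nsmul_eq_mul, mul_comm]
    rw [h6, mul_assoc, mul_inv_cancel₀ hdW, mul_one]
  -- before averaging
  have h9 : ∑ l : L, μ' ((ρ (l : G)⁻¹ : V →ₗ[k] V) ∘ₗ (m₀ : W →ₗ[k] V)) • ((ρ (l : G) : V →ₗ[k] V) ∘ₗ (m : W →ₗ[k] V)) =
      ((Nat.card L : k) * μ m * (Module.finrank k V : k)⁻¹ * (Module.finrank k W : k)⁻¹) • (m₀ : W →ₗ[k] V) := by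
    apply LinearMap.ext
    intro w
    rw [LinearMap.sum_apply]
    have h10 : ∀ l : L, (μ' ((ρ (l : G)⁻¹ : V →ₗ[k] V) ∘ₗ (m₀ : W →ₗ[k] V)) • ((ρ (l : G) : V →ₗ[k] V) ∘ₗ (m : W →ₗ[k] V))) w =
        ∑ i, Λ (b.coord i) (ρ (l : G)⁻¹ ((m₀ : W →ₗ[k] V) (b i))) • ρ (l : G) ((m : W →ₗ[k] V) w) := by
      intro l
      rw [LinearMap.smul_apply, h5, Finset.sum_smul]
      rfl
    rw [Finset.sum_congr rfl fun l _ => h10 l, Finset.sum_comm, Finset.sum_congr rfl fun i _ => F3_rankone ρ L hL hdV (Λ (b.coord i)) ((m : W →ₗ[k] V) w) ((m₀ : W →ₗ[k] V) (b i))]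
    have h11 : ∀ i, ((Nat.card L : k) * Λ (b.coord i) ((m : W →ₗ[k] V) w) * (Module.finrank k V : k)⁻¹) • ((m₀ : W →ₗ[k] V) (b i)) =
        ((Nat.card L : k) * (Module.finrank k V : k)⁻¹) • (m₀ : W →ₗ[k] V) (Λ (b.coord i) ((m : W →ₗ[k] V) w) • b i) := by
      intro i
      rw [map_smul, smul_smul]
      congr 1
      ring
    rw [Finset.sum_congr rfl fun i _ => h11 i, ← Finset.smul_sum, ← map_sum, ← hg]
    have h12 : g ((m : W →ₗ[k] V) w) = c • w := LinearMap.congr_fun hc w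
    rw [h12, map_smul, smul_smul, LinearMap.smul_apply, hcμ]
    congr 1
    ring
  apply Subtype.ext
  have h13 : ((∑ l : L, μ (av τ σ (ρ (l : G)⁻¹) 1 m₀) • av τ σ (ρ (l : G)) 1 m : homC τ σ) : W →ₗ[k] V) =
      avH τ σ (∑ l : L, μ' ((ρ (l : G)⁻¹ : V →ₗ[k] V) ∘ₗ (m₀ : W →ₗ[k] V)) • ((ρ (l : G) : V →ₗ[k] V) ∘ₗ (m : W →ₗ[k] V))) := by
    rw [map_sum, Submodule.coe_sum]
    refine Finset.sum_congr rfl fun l _ => ?_
    rw [Submodule.coe_smul, map_smul, h3]
    rfl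
  rw [h13, h9, map_smul, avH_of_mem τ σ hC m₀.2]
  rfl

/-- PROOF. Write `M = homC (ρ.comp j) σ`, `τ = ρ.comp j`, `T l = av τ σ (ρ l) 1`, `n = finrank V`, `w = finrank W`. Both sides are linear in `φ` and the rank one operators `μ.smulRight m₀` (`μ : Module.Dual k M`, `m₀ ∈ M`) span `Module.End k M` (as in the proof of `H90S.S1_formula`, which reduces to rank one operators in the same way). For `φ = μ.smulRight m₀`: `trace (φ * T l⁻¹) = μ (T l⁻¹ m₀)`
(`LinearMap.trace_smulRight` after moving), and for `m ∈ M` we need `∑ l, μ (T l⁻¹ m₀) • T l m = (card L / (n w)) μ m • m₀`. The functional `μ' = μ ∘ avH` on `W →ₗ V` is `h ↦ trace (g ∘ h)` for a `g : V →ₗ W` (finite dimension), and `g` is a `C`-map: `g (τ c v) = σ c (g v)` (because `μ' (τ c ∘ h ∘ σ c⁻¹) = μ' h`, non-degeneracy of the trace).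
So `μ (T l⁻¹ m₀) = trace_W (g ∘ ρ l⁻¹ ∘ m₀) = ∑ i, (w_i*) (g (ρ l⁻¹ (m₀ w_i)))` with a basis `w_i` of `W`. For fixed `w' ∈ W` and `i`: by `H90S.S1_average` for the rank one operator `y ↦ (w_i*)(g y) • m w'` of `V`, `∑ l, (w_i*)(g (ρ l⁻¹ x)) • ρ l (m w') = (card L / n) (w_i*)(g (m w')) • x`, here `x = m₀ w_i`.
Sum over `i`: `∑ l, trace_W (g ρ l⁻¹ m₀) • ρ l (m w') = (card L / n) • m₀ (g (m w'))` (as `∑ i, (w_i*)(g (m w')) • w_i = g (m w')`). `g ∘ m : W → W` commutes with `σ`, so it is a scalar (`H90S.S1_scalar`), the scalar is `trace_W (g ∘ m) / w = μ' m / w = μ m / w` (`avH_of_mem`). So `∑ l, μ (T l⁻¹ m₀) • (ρ l ∘ m) = (card L / (n w)) μ m • m₀` as maps `W → V`; apply `avH` to both sides. -/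
theorem frame_id {G : Type*} [Group G] [Fintype G] (ρ : G →* Module.End k V) (L : Subgroup G) (hL : Full ρ (L : Set G)) (hLp : (Nat.card L : k) ≠ 0)
    (hdV : (Module.finrank k V : k) ≠ 0) (j : C →* G) (σ : C →* Module.End k W) (hσ : Full σ Set.univ) (hC : (Nat.card C : k) ≠ 0) (hdW : (Module.finrank k W : k) ≠ 0)
    (φ : Module.End k (homC (ρ.comp j) σ)) :
    ∑ l : L, ((Module.finrank k V : k) * (Module.finrank k W : k) * (Nat.card L : k)⁻¹ *
      LinearMap.trace k (homC (ρ.comp j) σ) (φ * av (ρ.comp j) σ (ρ (l : G)⁻¹) 1)) • av (ρ.comp j) σ (ρ (l : G)) 1 = φ := by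
  obtain ⟨F, hF⟩ : ∃ F : Module.End k (homC (ρ.comp j) σ) →ₗ[k] Module.End k (homC (ρ.comp j) σ), ∀ ψ, F ψ =
      ∑ l : L, ((Module.finrank k V : k) * (Module.finrank k W : k) * (Nat.card L : k)⁻¹ *
        LinearMap.trace k (homC (ρ.comp j) σ) (ψ * av (ρ.comp j) σ (ρ (l : G)⁻¹) 1)) • av (ρ.comp j) σ (ρ (l : G)) 1 := by
    refine ⟨∑ l : L, (((Module.finrank k V : k) * (Module.finrank k W : k) * (Nat.card L : k)⁻¹) •
      (LinearMap.trace k (homC (ρ.comp j) σ) ∘ₗ LinearMap.mulRight k (av (ρ.comp j) σ (ρ (l : G)⁻¹) 1))).smulRight (av (ρ.comp j) σ (ρ (l : G)) 1), fun ψ => ?_⟩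
    rw [LinearMap.sum_apply]
    rfl
  rw [← hF]
  have h1 : ∀ (μ : Module.Dual k (homC (ρ.comp j) σ)) (m₀ : homC (ρ.comp j) σ), F (μ.smulRight m₀ : Module.End k (homC (ρ.comp j) σ)) = μ.smulRight m₀ := by
    intro μ m₀
    rw [hF]
    apply LinearMap.ext
    intro m
    rw [LinearMap.sum_apply, LinearMap.smulRight_apply]
    have h2 : ∀ l : L, (((Module.finrank k V : k) * (Module.finrank k W : k) * (Nat.card L : k)⁻¹ *
        LinearMap.trace k (homC (ρ.comp j) σ) ((μ.smulRight m₀ : Module.End k (homC (ρ.comp j) σ)) * av (ρ.comp j) σ (ρ (l : G)⁻¹) 1)) •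
          av (ρ.comp j) σ (ρ (l : G)) 1) m =
        ((Module.finrank k V : k) * (Module.finrank k W : k) * (Nat.card L : k)⁻¹) •
          (μ (av (ρ.comp j) σ (ρ (l : G)⁻¹) 1 m₀) • av (ρ.comp j) σ (ρ (l : G)) 1 m) := by
      intro l
      have h3 : ((μ.smulRight m₀ : Module.End k (homC (ρ.comp j) σ)) * av (ρ.comp j) σ (ρ (l : G)⁻¹) 1) =
          ((μ ∘ₗ (av (ρ.comp j) σ (ρ (l : G)⁻¹) 1 : homC (ρ.comp j) σ →ₗ[k] homC (ρ.comp j) σ)).smulRight m₀ : Module.End k (homC (ρ.comp j) σ)) := by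
        apply LinearMap.ext
        intro u
        rfl
      rw [h3, LinearMap.trace_smulRight, LinearMap.smul_apply, mul_smul]
      rfl
    rw [Finset.sum_congr rfl fun l _ => h2 l, ← Finset.smul_sum, F3_core ρ L hL hdV (ρ.comp j) σ hσ hC hdW μ m₀ m, smul_smul]
    congr 1
    field_simp
  let b := Module.finBasis k (homC (ρ.comp j) σ)
  have h4 : φ = ∑ i, ((b.coord i).smulRight (φ (b i)) : Module.End k (homC (ρ.comp j) σ)) := by
    refine b.ext fun i => ?_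
    rw [LinearMap.sum_apply, Finset.sum_eq_single i]
    · simp
    · intro j _ hij
      simp [Ne.symm hij]
    · intro h
      exact absurd (Finset.mem_univ i) h
  conv_lhs => rw [h4]
  conv_rhs => rw [h4]
  rw [map_sum]
  exact Finset.sum_congr rfl fun i _ => h1 _ _

end Pool.Agent.Lib.H77S
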