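import Pool.Agent.Lib.H77S.F3

/-!
H77S, F4: the slash of `Hom_C(W, V)` at `z` is one-dimensional.
-/

open scoped Classical BigOperators

noncomputable section

namespace Pool.Agent.Lib.H77S

open Pool.Agent.Lib.H90Q Pool.Agent.Lib.H90S

variable {k V W : Type*} [Field k] [AddCommGroup V] [Module k V] [FiniteDimensional k V] [AddCommGroup W] [Module k W] [FiniteDimensional k W]
variable {C : Type*} [Group C] [Fintype C]

/-- Sums over a set with an action of a `p`-group. -/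
private theorem f4_sum {p : ℕ} [Fact p.Prime] {k : Type*} [Field k] [CharP k p] {Q B : Type*} [Group Q] [MulAction Q B] [Fintype B] (hpg : IsPGroup p Q)
    (F : B → k) (hF : ∀ (q : Q) (β : B), F (q • β) = F β) (h0 : ∀ β : B, (∀ q : Q, q • β = β) → F β = 0) : ∑ β, F β = 0 := by
  refine Finset.sum_cancels_of_partition_cancels (MulAction.orbitRel Q B) ?_
  intro x _
  have hconst : ∀ a ∈ Finset.univ.filter (fun a => (MulAction.orbitRel Q B) a x), F a = F x := by
    intro a ha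
    have h := (Finset.mem_filter.1 ha).2
    rw [MulAction.orbitRel_apply] at h
    obtain ⟨q, hq⟩ := h
    rw [← hF q x]
    exact congrArg F hq.symm
  rw [Finset.sum_congr rfl hconst, Finset.sum_const]
  obtain ⟨n, hn⟩ := hpg.card_orbit x
  have hcard : (Finset.univ.filter (fun a => (MulAction.orbitRel Q B) a x)).card = p ^ n := by
    rw [← hn, Nat.card_eq_card_toFinset (MulAction.orbit Q x)]
    congr 1
    ext a
    rw [Finset.mem_filter, Set.mem_toFinset, MulAction.orbitRel_apply]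
    exact ⟨fun h => h.2, fun h => ⟨Finset.mem_univ _, h⟩⟩
  rw [hcard, nsmul_eq_mul]
  rcases Nat.eq_zero_or_pos n with h | h
  · have hfix : ∀ q : Q, q • x = x := by
      intro q
      rw [h, pow_zero] at hn
      have hs : Subsingleton (MulAction.orbit Q x) := (Nat.card_eq_one_iff_unique.1 hn).1
      have h1 : (⟨q • x, ⟨q, rfl⟩⟩ : MulAction.orbit Q x) = ⟨x, MulAction.mem_orbit_self x⟩ := Subsingleton.elim _ _
      exact congrArg Subtype.val h1
    rw [h0 x hfix, mul_zero]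
  · have h2 : ((p ^ n : ℕ) : k) = 0 := by
      rw [Nat.cast_pow, CharP.cast_eq_zero, zero_pow (Nat.pos_iff_ne_zero.1 h)]
    rw [h2, zero_mul]

/-- Sums over `L` of functions that are invariant under conjugation by `z` (of `p`-power order) and zero on the centraliser of `z` vanish in characteristic `p`. PROOF: `⟨z⟩` (`Subgroup.zpowers z`, a `p`-group) acts on `L` by conjugation; as `H77S.sum_fixed` (A1; its proof can be copied, universes): the orbits of the non-fixed points have length divisible by `p`. -/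
theorem sum_conj {p : ℕ} [Fact p.Prime] [CharP k p] {G : Type*} [Group G] [Finite G] {L : Subgroup G} [Fintype L] {z : G} {a : ℕ} (hz : z ^ (p ^ a) = 1) (hzL : Nz z L)
    (F : G → k) (hF : ∀ l ∈ L, F (z * l * z⁻¹) = F l) (h0 : ∀ l ∈ L, l * z = z * l → F l = 0) : ∑ l : L, F l = 0 := by
  obtain ⟨S, hS⟩ : ∃ S : Subgroup G, ∀ x, x ∈ S ↔ (∀ g, g ∈ L ↔ x * g * x⁻¹ ∈ L) ∧ ∀ l ∈ L, F (x * l * x⁻¹) = F l := by
    refine ⟨{ carrier := {x | (∀ g, g ∈ L ↔ x * g * x⁻¹ ∈ L) ∧ ∀ l ∈ L, F (x * l * x⁻¹) = F l}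
              mul_mem' := ?_
              one_mem' := ?_
              inv_mem' := ?_ }, fun x => Iff.rfl⟩
    · rintro x y ⟨hx1, hx2⟩ ⟨hy1, hy2⟩
      have e : ∀ g, x * y * g * (x * y)⁻¹ = x * (y * g * y⁻¹) * x⁻¹ := by
        intro g
        rw [mul_inv_rev]
        simp only [mul_assoc]
      refine ⟨fun g => ?_, fun l hl => ?_⟩
      · rw [e, ← hx1, ← hy1]
      · rw [e, hx2 _ ((hy1 l).1 hl), hy2 l hl]
    · refine ⟨fun g => ?_, fun l hl => ?_⟩
      · rw [one_mul, inv_one, mul_one]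
      · rw [one_mul, inv_one, mul_one]
    · rintro x ⟨hx1, hx2⟩
      have e : ∀ g, x * (x⁻¹ * g * x⁻¹⁻¹) * x⁻¹ = g := by
        intro g
        rw [inv_inv]
        simp only [mul_assoc, mul_inv_cancel, mul_one, mul_inv_cancel_left]
      have h1 : ∀ g, g ∈ L ↔ x⁻¹ * g * x⁻¹⁻¹ ∈ L := by
        intro g
        rw [hx1 (x⁻¹ * g * x⁻¹⁻¹), e]
      refine ⟨h1, fun l hl => ?_⟩
      have h2 := hx2 _ ((h1 l).1 hl)
      rw [e] at h2
      exact h2.symm
  have hzS : Subgroup.zpowers z ≤ S := by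
    rw [Subgroup.zpowers_le, hS]
    exact ⟨hzL, hF⟩
  have hQ : ∀ x : Subgroup.zpowers z, (∀ g, g ∈ L ↔ (x : G) * g * (x : G)⁻¹ ∈ L) ∧ ∀ l ∈ L, F ((x : G) * l * (x : G)⁻¹) = F l :=
    fun x => (hS _).1 (hzS x.2)
  letI : MulAction (Subgroup.zpowers z) L :=
    { smul := fun x l => ⟨(x : G) * l * (x : G)⁻¹, ((hQ x).1 l).1 l.2⟩
      one_smul := fun l => Subtype.ext (by
        show ((1 : Subgroup.zpowers z) : G) * l * ((1 : Subgroup.zpowers z) : G)⁻¹ = l
        rw [Subgroup.coe_one, one_mul, inv_one, mul_one])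
      mul_smul := fun x y l => Subtype.ext (by
        show ((x * y : Subgroup.zpowers z) : G) * l * ((x * y : Subgroup.zpowers z) : G)⁻¹ = x * (y * l * (y : G)⁻¹) * (x : G)⁻¹
        rw [Subgroup.coe_mul, mul_inv_rev]
        simp only [mul_assoc]) }
  have hpg : IsPGroup p (Subgroup.zpowers z) := by
    rintro ⟨x, hx⟩
    obtain ⟨i, rfl⟩ := Subgroup.mem_zpowers_iff.1 hx
    refine ⟨a, Subtype.ext ?_⟩
    show (z ^ i) ^ (p ^ a) = 1
    rw [← zpow_natCast, ← zpow_mul, mul_comm, zpow_mul, zpow_natCast, hz, one_zpow]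
  refine f4_sum hpg (fun l : L => F l) (fun x l => (hQ x).2 l l.2) fun l hl => ?_
  have h1 := congrArg Subtype.val (hl ⟨z, Subgroup.mem_zpowers z⟩)
  have h2 : z * (l : G) * z⁻¹ = l := h1
  refine h0 l l.2 ?_
  calc (l : G) * z = z * l * z⁻¹ * z := by rw [h2]
    _ = z * l := by rw [inv_mul_cancel_right]

/-- PROOF. `T l = av (ρ.comp j) σ (ρ l) 1`, `κ = n w / card L`, `c l φ = κ trace (φ * T l⁻¹)`, so `φ = ∑ l : L, c l φ • T l` (`frame_id`). `U * T l = T (z l z⁻¹) * U` (`z` commutes with `j c`). Let `φ`, `ψ` commute with `U` (`U` is invertible with inverse: `U ^ (p ^ a) = 1`). Then `c (z l z⁻¹) φ = c l φ` and `trace (T (z l z⁻¹) * ψ) = trace (T l * ψ)`. For `l ∈ L` commuting with `z`, `l = j d`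
(`hD`), and `T (j d) = t l • 1` on `Hom_C(W, V)` with `w * t l = trace (σ d)`: `(T (j d) m) x = (card C)⁻¹ ∑ c, ρ (j c) ρ (j d) m (σ c⁻¹ x) = m ((card C)⁻¹ ∑ c, σ (c d c⁻¹) x)` and `∑ c, σ (c d c⁻¹)` is a scalar (`S1_average` for `⊤`, or `S1_scalar` and the trace). So `trace (φ * ψ) = ∑ l : L, c l φ * trace (T l * ψ) = ∑ l : L, (if l * z = z * l then c l φ * t l * trace ψ else 0)` (difference by `sum_conj`)
`= K * trace ψ`, where `K` does not depend on `ψ`. `ψ = 1`: `trace φ = K * finrank`. So `trace (φ * ψ) * finrank = K * trace ψ * finrank = trace φ * trace ψ`. -/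
theorem oneAt_av {p : ℕ} [Fact p.Prime] [CharP k p] {G : Type*} [Group G] [Fintype G] (ρ : G →* Module.End k V) (L : Subgroup G) (hL : Full ρ (L : Set G)) (hLp : (Nat.card L : k) ≠ 0)
    (hdV : (Module.finrank k V : k) ≠ 0) (j : C →* G) (σ : C →* Module.End k W) (hσ : Full σ Set.univ) (hC : (Nat.card C : k) ≠ 0) (hdW : (Module.finrank k W : k) ≠ 0)
    {z : G} {a : ℕ} (hz : z ^ (p ^ a) = 1) (hzL : Nz z L) (hzC : ∀ c, j c * z = z * j c) (hD : ∀ l ∈ L, l * z = z * l → ∃ d, j d = l)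
    (U : Module.End k (homC (ρ.comp j) σ)) (hU : ∀ (m : homC (ρ.comp j) σ) (w : W), ((U m : homC (ρ.comp j) σ) : W →ₗ[k] V) w = ρ z ((m : W →ₗ[k] V) w))
    (φ ψ : Module.End k (homC (ρ.comp j) σ)) (hφ : U * φ = φ * U) (hψ : U * ψ = ψ * U) :
    LinearMap.trace k (homC (ρ.comp j) σ) (φ * ψ) * (Module.finrank k (homC (ρ.comp j) σ) : k) = LinearMap.trace k (homC (ρ.comp j) σ) φ * LinearMap.trace k (homC (ρ.comp j) σ) ψ := by
  have hpa : 0 < p ^ a := pow_pos (Fact.out : p.Prime).pos a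
  obtain ⟨T, hT⟩ : ∃ T : G → Module.End k (homC (ρ.comp j) σ), ∀ g, T g = av (ρ.comp j) σ (ρ g) 1 := ⟨_, fun _ => rfl⟩
  have hTa : ∀ g (m : homC (ρ.comp j) σ) (w : W), ((T g m : homC (ρ.comp j) σ) : W →ₗ[k] V) w =
      (Nat.card C : k)⁻¹ • ∑ c : C, ρ (j c) (ρ g ((m : W →ₗ[k] V) (σ c⁻¹ w))) := by
    intro g m w
    rw [hT, av_apply]
    rfl
  have hUT : ∀ g, U * T g = T (z * g * z⁻¹) * U := by
    intro g
    apply LinearMap.ext
    intro m
    apply Subtype.ext
    apply LinearMap.ext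
    intro w
    rw [Module.End.mul_apply, Module.End.mul_apply, hU, hTa, hTa, map_smul, map_sum]
    congr 1
    refine Finset.sum_congr rfl fun c _ => ?_
    rw [hU]
    simp only [← Module.End.mul_apply, ← map_mul]
    rw [inv_mul_cancel_right, ← mul_assoc, ← mul_assoc, hzC]
  have hUpow : ∀ (i : ℕ) (m : homC (ρ.comp j) σ) (w : W), (((U ^ i) m : homC (ρ.comp j) σ) : W →ₗ[k] V) w = ρ (z ^ i) ((m : W →ₗ[k] V) w) := by
    intro i
    induction i with
    | zero =>
      intro m w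
      rw [pow_zero, pow_zero, map_one]
      rfl
    | succ i ih =>
      intro m w
      rw [pow_succ', Module.End.mul_apply, hU, ih, ← Module.End.mul_apply, ← map_mul, ← pow_succ']
  have hU1 : U ^ (p ^ a) = 1 := by
    apply LinearMap.ext
    intro m
    apply Subtype.ext
    apply LinearMap.ext
    intro w
    rw [hUpow, hz, map_one]
    rfl
  obtain ⟨Ui, hUi1, hUi2⟩ : ∃ Ui : Module.End k (homC (ρ.comp j) σ), U * Ui = 1 ∧ Ui * U = 1 := by
    refine ⟨U ^ (p ^ a - 1), ?_, ?_⟩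
    · rw [← pow_succ', Nat.sub_add_cancel hpa, hU1]
    · rw [← pow_succ, Nat.sub_add_cancel hpa, hU1]
  have hTz : ∀ g, T (z * g * z⁻¹) = U * T g * Ui := by
    intro g
    rw [hUT, mul_assoc (T (z * g * z⁻¹)), hUi1, mul_one]
  have hinv : ∀ χ : Module.End k (homC (ρ.comp j) σ), U * χ = χ * U → ∀ g,
      LinearMap.trace k (homC (ρ.comp j) σ) (χ * T (z * g * z⁻¹)) = LinearMap.trace k (homC (ρ.comp j) σ) (χ * T g) := by
    intro χ hχ g
    have h1 : Ui * χ * U = χ := by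
      rw [mul_assoc, ← hχ, ← mul_assoc, hUi2, one_mul]
    rw [hTz, ← mul_assoc, LinearMap.trace_mul_comm, ← mul_assoc, ← mul_assoc, h1]
  have hinv' : ∀ χ : Module.End k (homC (ρ.comp j) σ), U * χ = χ * U → ∀ g,
      LinearMap.trace k (homC (ρ.comp j) σ) (T (z * g * z⁻¹) * χ) = LinearMap.trace k (homC (ρ.comp j) σ) (T g * χ) := by
    intro χ hχ g
    rw [LinearMap.trace_mul_comm, hinv χ hχ, LinearMap.trace_mul_comm]
  have hscal : ∀ l ∈ L, l * z = z * l → ∃ t : k, T l = t • (1 : Module.End k (homC (ρ.comp j) σ)) := by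
    intro l hl hlz
    obtain ⟨d, rfl⟩ := hD l hl hlz
    have hav := S1_average σ ⊤ (by rw [Subgroup.coe_top]; exact hσ) hdW (σ d)
    simp only [Subgroup.mem_top, if_true] at hav
    obtain ⟨s, hs⟩ : ∃ s : k, ∑ c : C, σ c * σ d * σ c⁻¹ = s • (1 : Module.End k W) := ⟨_, hav⟩
    refine ⟨(Nat.card C : k)⁻¹ * s, ?_⟩
    apply LinearMap.ext
    intro m
    apply Subtype.ext
    apply LinearMap.ext
    intro w
    rw [hTa]
    have h1 : ∀ c : C, ρ (j c) (ρ (j d) ((m : W →ₗ[k] V) (σ c⁻¹ w))) = (m : W →ₗ[k] V) ((σ c * σ d * σ c⁻¹) w) := by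
      intro c
      have h2 := mem_homC.1 m.2
      have h3 : (m : W →ₗ[k] V) (σ c (σ d (σ c⁻¹ w))) = ρ (j c) (ρ (j d) ((m : W →ₗ[k] V) (σ c⁻¹ w))) := by
        rw [h2, h2]
        rfl
      rw [← h3]
      rfl
    rw [Finset.sum_congr rfl fun c _ => h1 c, ← map_sum, ← LinearMap.sum_apply, hs, LinearMap.smul_apply, Module.End.one_apply, map_smul, smul_smul]
    rfl
  obtain ⟨κ, hκ⟩ : ∃ κ : k, κ = (Module.finrank k V : k) * (Module.finrank k W : k) * (Nat.card L : k)⁻¹ := ⟨_, rfl⟩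
  have hfr := frame_id ρ L hL hLp hdV j σ hσ hC hdW φ
  simp only [← hT, ← hκ] at hfr
  have hmain := sum_conj (L := L) hz hzL (fun l => κ * LinearMap.trace k (homC (ρ.comp j) σ) (φ * T l⁻¹) *
    (LinearMap.trace k (homC (ρ.comp j) σ) (T l * ψ) * (Module.finrank k (homC (ρ.comp j) σ) : k) -
      LinearMap.trace k (homC (ρ.comp j) σ) (T l) * LinearMap.trace k (homC (ρ.comp j) σ) ψ)) ?_ ?_
  · have h1 : LinearMap.trace k (homC (ρ.comp j) σ) (φ * ψ) =
        ∑ l : L, κ * LinearMap.trace k (homC (ρ.comp j) σ) (φ * T (l : G)⁻¹) * LinearMap.trace k (homC (ρ.comp j) σ) (T l * ψ) := by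
      conv_lhs => rw [← hfr]
      rw [Finset.sum_mul, map_sum]
      refine Finset.sum_congr rfl fun l _ => ?_
      rw [smul_mul_assoc, map_smul, smul_eq_mul]
    have h2 : LinearMap.trace k (homC (ρ.comp j) σ) φ =
        ∑ l : L, κ * LinearMap.trace k (homC (ρ.comp j) σ) (φ * T (l : G)⁻¹) * LinearMap.trace k (homC (ρ.comp j) σ) (T l) := by
      conv_lhs => rw [← hfr]
      rw [map_sum]
      refine Finset.sum_congr rfl fun l _ => ?_
      rw [map_smul, smul_eq_mul]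
    rw [← sub_eq_zero, ← hmain, h1]
    rw [h2]
    rw [Finset.sum_mul, Finset.sum_mul, ← Finset.sum_sub_distrib]
    refine Finset.sum_congr rfl fun l _ => ?_
    ring
  · intro l _
    have e : (z * l * z⁻¹)⁻¹ = z * l⁻¹ * z⁻¹ := by
      rw [mul_inv_rev, mul_inv_rev, inv_inv, mul_assoc]
    have h3 := hinv' 1 (by rw [mul_one, one_mul]) l
    rw [mul_one, mul_one] at h3
    show κ * _ * _ = κ * _ * _
    rw [e, hinv φ hφ, hinv' ψ hψ, h3]
  · intro l hl hlz
    obtain ⟨t, ht⟩ := hscal l hl hlz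
    show κ * _ * _ = 0
    rw [ht, smul_mul_assoc, one_mul, map_smul, map_smul, LinearMap.trace_one, smul_eq_mul, smul_eq_mul]
    ring

end Pool.Agent.Lib.H77S
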