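import Pool.Agent.Lib.H77S.F4

/-!
H77S, F5: the local scalar at `z`.
-/

open scoped Classical BigOperators

noncomputable section

namespace Pool.Agent.Lib.H77S

open Pool.Agent.Lib.H90Q Pool.Agent.Lib.H90S

variable {k V W : Type*} [Field k] [AddCommGroup V] [Module k V] [FiniteDimensional k V] [AddCommGroup W] [Module k W] [FiniteDimensional k W]

omit [FiniteDimensional k V] in
private theorem f5_nondeg [FiniteDimensional k V] {X : Module.End k V} (h : ∀ φ : Module.End k V, LinearMap.trace k V (φ * X) = 0) : X = 0 := by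
  apply LinearMap.ext
  intro w
  rw [LinearMap.zero_apply]
  refine (Module.forall_dual_apply_eq_zero_iff k (X w)).1 fun f => ?_
  have h1 := h (f.smulRight w)
  have h2 : (f.smulRight w : Module.End k V) * X = (f ∘ₗ X).smulRight w := by
    apply LinearMap.ext
    intro v
    rfl
  rw [h2, LinearMap.trace_smulRight] at h1
  exact h1

/-- PROOF. `n = finrank V`. By `S1_formula`, `ρ s = ∑ l : L, b l • ρ l` with `b l = (n / card L) trace (ρ s * ρ l⁻¹)`; since `s` commutes with `z`, `b (z l z⁻¹) = b l`. For `c ∈ L ⊓ S` the function `l ↦ b l * trace (ρ c * ρ l)` is invariant under conjugation by `z` (`c` commutes with `z`), so by `sum_conj` and `hD` (both directions: `l ∈ L ⊓ S` commutes with `z`)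
`trace (ρ (c s)) = ∑ l : (L ⊓ S), b l * trace (ρ (c l)) = e ∑ l, b l trace (σ (c l)) = e * trace (σ c * β)` with `β = ∑ l : (L ⊓ S), b l • σ l`. Claim: `β * σ s⁻¹` commutes with `σ c`, `c ∈ L ⊓ S`, i.e. `β * σ (s⁻¹ c s) = σ c * β`: by non-degeneracy of the trace form on `End W` and fullness it is enough that `trace (σ d * β * σ (s⁻¹ c s)) = trace (σ d * σ c * β)` for `d ∈ L ⊓ S`;
times `e` the left side is `trace (ρ (s⁻¹ c s d) ρ s) = trace (ρ (s * (s⁻¹ c s) * d)) = trace (ρ (c s d)) = trace (ρ (d c s))` (`s⁻¹ c s ∈ L ⊓ S`), the right side is `trace (ρ (d c s))`. So `β = t • σ s` (`S1_scalar`), and `trace (ρ (c s)) = e * t * trace (σ (c s))`. -/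
theorem local_scalar {p : ℕ} [Fact p.Prime] [CharP k p] {G : Type*} [Group G] [Fintype G] {L S : Subgroup G} (hLS : ∀ s ∈ S, Nz s L)
    (ρ : G →* Module.End k V) (σ : S →* Module.End k W) (hρ : Full ρ (L : Set G)) (hσ : Full σ {s : S | (s : G) ∈ L}) (hLp : (Nat.card L : k) ≠ 0)
    (hdV : (Module.finrank k V : k) ≠ 0) {e : k} (he : e ≠ 0) (htr : ∀ s : S, (s : G) ∈ L → LinearMap.trace k V (ρ s) = e * LinearMap.trace k W (σ s))
    {z : G} {a : ℕ} (hz : z ^ (p ^ a) = 1) (hzL : Nz z L) (hzC : ∀ c ∈ L ⊓ S, c * z = z * c) (hD : ∀ l ∈ L, l * z = z * l → l ∈ S) (s : S) (hs : (s : G) * z = z * s) :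
    ∃ t : k, ∀ c : S, (c : G) ∈ L → LinearMap.trace k V (ρ (c * s : S)) = e * t * LinearMap.trace k W (σ (c * s)) := by
  obtain ⟨b, hb⟩ : ∃ b : G → k, b = fun l => ((Module.finrank k V : k) * (Nat.card L : k)⁻¹) * LinearMap.trace k V (ρ s * ρ l⁻¹) := ⟨_, rfl⟩
  have hρs : ρ s = ∑ l : L, b l • ρ l := by
    have h1 := S1_formula ρ L hρ hLp hdV (ρ s)
    have h2 : ∑ l ∈ Finset.univ.filter (fun l : G => l ∈ L), b l • ρ l = ∑ l : L, b l • ρ l :=
      Finset.sum_subtype (Finset.univ.filter fun l : G => l ∈ L) (fun x => by simp) (fun l => b l • ρ l)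
    rw [← h2, Finset.sum_filter]
    refine h1.trans ?_
    rw [Finset.smul_sum]
    refine Finset.sum_congr rfl fun l _ => ?_
    by_cases hl : l ∈ L
    · rw [if_pos hl, if_pos hl, hb, smul_smul]
    · rw [if_neg hl, if_neg hl, smul_zero]
  have hbz : ∀ l, b (z * l * z⁻¹) = b l := by
    intro l
    rw [hb]
    dsimp only
    congr 1
    have h1 : ρ s * ρ (z * l * z⁻¹)⁻¹ = ρ z * (ρ s * ρ l⁻¹ * ρ z⁻¹) := by
      rw [← map_mul, ← map_mul, ← map_mul, ← map_mul]
      congr 1
      have h2 : (s : G) * z = z * s := hs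
      calc (s : G) * (z * l * z⁻¹)⁻¹ = (s * z) * l⁻¹ * z⁻¹ := by group
        _ = z * (s * l⁻¹ * z⁻¹) := by rw [h2]; group
    have h3 : ρ z⁻¹ * ρ z = 1 := by rw [← map_mul, inv_mul_cancel, map_one]
    rw [h1, LinearMap.trace_mul_comm, mul_assoc (ρ s * ρ l⁻¹), h3, mul_one]
  obtain ⟨β, hβ⟩ : ∃ β : Module.End k W, β = ∑ l : L, if h : (l : G) ∈ S then b l • σ ⟨l, h⟩ else 0 := ⟨_, rfl⟩
  have hkey : ∀ c : S, (c : G) ∈ L → LinearMap.trace k V (ρ (c * s : S)) = e * LinearMap.trace k W (σ c * β) := by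
    intro c hc
    have hcz : (c : G) * z = z * c := hzC c ⟨hc, c.2⟩
    have h1 : LinearMap.trace k V (ρ (c * s : S)) = ∑ l : L, b l * LinearMap.trace k V (ρ (c * l)) := by
      rw [Subgroup.coe_mul, map_mul, hρs, Finset.mul_sum, map_sum]
      refine Finset.sum_congr rfl fun l _ => ?_
      rw [mul_smul_comm, map_smul, smul_eq_mul, ← map_mul]
    have hmem : ∀ l ∈ L, (z * l * z⁻¹ ∈ S ↔ l ∈ S) := by
      intro l hl
      constructor
      · intro h
        have h2 : z * l * z⁻¹ ∈ L := (hzL l).1 hl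
        have h3 := hzC _ ⟨h2, h⟩
        have h4 : l = z * l * z⁻¹ := by
          have h5 : z * l = z * (z * l * z⁻¹) := by
            rw [← h3]; group
          exact mul_left_cancel h5
        rw [h4]
        exact h
      · intro h
        have h3 := hzC _ ⟨hl, h⟩
        have h4 : z * l * z⁻¹ = l := by
          rw [← h3]; group
        rw [h4]
        exact h
    have h2 := sum_conj (k := k) hz hzL (fun l => b l * LinearMap.trace k V (ρ (c * l)) - if l ∈ S then b l * LinearMap.trace k V (ρ (c * l)) else 0) (by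
      intro l hl
      have h3 : LinearMap.trace k V (ρ (c * (z * l * z⁻¹))) = LinearMap.trace k V (ρ (c * l)) := by
        have h4 : (c : G) * (z * l * z⁻¹) = z * (c * l * z⁻¹) := by
          calc (c : G) * (z * l * z⁻¹) = (c * z) * l * z⁻¹ := by group
            _ = z * (c * l * z⁻¹) := by rw [hcz]; group
        rw [h4, map_mul, LinearMap.trace_mul_comm, ← map_mul]
        congr 2
        group
      rw [hbz, h3]
      by_cases h5 : l ∈ S
      · rw [if_pos h5, if_pos ((hmem l hl).2 h5)]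
      · rw [if_neg h5, if_neg fun h6 => h5 ((hmem l hl).1 h6)]) (by
      intro l hl hlz
      rw [if_pos (hD l hl hlz), sub_self])
    rw [Finset.sum_sub_distrib, sub_eq_zero] at h2
    rw [h1, h2, hβ, Finset.mul_sum, map_sum, Finset.mul_sum]
    refine Finset.sum_congr rfl fun l _ => ?_
    by_cases h5 : (l : G) ∈ S
    · rw [if_pos h5, dif_pos h5, mul_smul_comm, map_smul, smul_eq_mul, ← map_mul]
      have h6 := htr (c * ⟨l, h5⟩) (by
        rw [Subgroup.coe_mul]
        exact L.mul_mem hc l.2)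
      rw [Subgroup.coe_mul] at h6
      dsimp only at h6
      rw [h6]
      ring
    · rw [if_neg h5, dif_neg h5, mul_zero, map_zero, mul_zero]
  have hconj : ∀ c : S, (c : G) ∈ L → ((s⁻¹ * c * s : S) : G) ∈ L := by
    intro c hc
    have h1 := hLS (s : G)⁻¹ (S.inv_mem s.2) c
    have h2 := h1.1 hc
    rw [inv_inv] at h2
    exact h2
  have hcomm : ∀ c : S, (c : G) ∈ L → β * σ (s⁻¹ * c * s) = σ c * β := by
    intro c hc
    rw [← sub_eq_zero]
    refine f5_nondeg fun φ => ?_
    have hφ : φ ∈ Submodule.span k (σ '' {s : S | (s : G) ∈ L}) := by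
      have h1 : Submodule.span k (σ '' {s : S | (s : G) ∈ L}) = ⊤ := hσ
      rw [h1]
      exact Submodule.mem_top
    induction hφ using Submodule.span_induction with
    | mem x hx =>
      obtain ⟨d, hd, rfl⟩ := hx
      have hd' : (d : G) ∈ L := hd
      rw [mul_sub, map_sub, sub_eq_zero]
      have h1 : LinearMap.trace k W (σ d * (β * σ (s⁻¹ * c * s))) = LinearMap.trace k W (σ (s⁻¹ * c * s * d) * β) := by
        rw [← mul_assoc, LinearMap.trace_mul_comm, ← mul_assoc, ← map_mul]
      have h2 : LinearMap.trace k W (σ d * (σ c * β)) = LinearMap.trace k W (σ (d * c) * β) := by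
        rw [← mul_assoc, ← map_mul]
      rw [h1, h2]
      refine mul_left_cancel₀ he ?_
      rw [← hkey _ (by
        rw [Subgroup.coe_mul]
        exact L.mul_mem (hconj c hc) hd'), ← hkey _ (by
        rw [Subgroup.coe_mul]
        exact L.mul_mem hd' hc)]
      have h3 : ((s⁻¹ * c * s * d * s : S) : G) = (s : G)⁻¹ * ((c : G) * s * d * s) := by
        push_cast
        group
      rw [h3, map_mul, LinearMap.trace_mul_comm, ← map_mul]
      have h4 : ((c : G) * s * d * s) * (s : G)⁻¹ = (c * s) * d := by group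
      rw [h4, map_mul, LinearMap.trace_mul_comm, ← map_mul]
      congr 2
      push_cast
      group
    | zero => rw [zero_mul, map_zero]
    | add x y _ _ h2 h3 => rw [add_mul, map_add, h2, h3, add_zero]
    | smul r x _ h2 => rw [smul_mul_assoc, map_smul, h2, smul_zero]
  obtain ⟨t, ht⟩ := S1_scalar σ hσ (y := β * σ s⁻¹) (by
    intro c hc
    have h1 := hcomm c hc
    have h2 : σ (s⁻¹ * c * s) = σ s⁻¹ * σ c * σ s := by rw [map_mul, map_mul]
    rw [h2] at h1
    calc β * σ s⁻¹ * σ c = β * (σ s⁻¹ * σ c * σ s) * σ s⁻¹ := by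
          rw [mul_assoc, mul_assoc, mul_assoc (σ s⁻¹ * σ c), ← map_mul σ s, mul_inv_cancel, map_one, mul_one]
      _ = σ c * (β * σ s⁻¹) := by rw [h1, mul_assoc])
  refine ⟨t, fun c hc => ?_⟩
  have hβs : β = t • σ s := by
    calc β = (β * σ s⁻¹) * σ s := by rw [mul_assoc, ← map_mul, inv_mul_cancel, map_one, mul_one]
      _ = t • σ s := by rw [ht, smul_mul_assoc, one_mul]
  rw [hkey c hc, hβs, mul_smul_comm, map_smul, smul_eq_mul, ← map_mul, mul_assoc]

end Pool.Agent.Lib.H77S
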