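import Pool.Agent.Lib.H90S.S9
import Pool.Agent.Lib.H77S.F1
import Pool.Agent.Lib.H77S.F2
import Pool.Agent.Lib.H77S.F5

/-!
H77S: the key theorem over a field of characteristic `p` (interface).
-/

open scoped Classical BigOperators

noncomputable section

namespace Pool.Agent.Lib.H77S

open Pool.Agent.Lib.H90Q Pool.Agent.Lib.H90S

variable {k : Type} {V W : Type*} [Field k] [IsAlgClosed k] [AddCommGroup V] [Module k V] [FiniteDimensional k V] [AddCommGroup W] [Module k W] [FiniteDimensional k W]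

/-- Conjugation. -/
private theorem KT_conj {G : Type*} [Group G] {P1 S : Subgroup G} (hPS : ∀ s ∈ S, Nz s P1) :
    ∃ π : S →* MulAut P1, ∀ (s : S) (u : P1), ((π s u : P1) : G) = s * u * (s : G)⁻¹ := by
  have hm : ∀ (s : S) (u : P1), (s : G) * u * (s : G)⁻¹ ∈ P1 := fun s u => (hPS s s.2 u).1 u.2
  have hm' : ∀ (s : S) (u : P1), (s : G)⁻¹ * u * (s : G) ∈ P1 := by
    intro s u
    refine (hPS s s.2 _).2 ?_
    have e : (s : G) * ((s : G)⁻¹ * u * (s : G)) * (s : G)⁻¹ = u := by group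
    rw [e]
    exact u.2
  refine ⟨{ toFun := fun s =>
              { toFun := fun u => ⟨_, hm s u⟩
                invFun := fun u => ⟨_, hm' s u⟩
                left_inv := ?_
                right_inv := ?_
                map_mul' := ?_ }
            map_one' := ?_
            map_mul' := ?_ }, fun s u => rfl⟩
  · intro u
    apply Subtype.ext
    show (s : G)⁻¹ * ((s : G) * u * (s : G)⁻¹) * (s : G) = u
    group
  · intro u
    apply Subtype.ext
    show (s : G) * ((s : G)⁻¹ * u * (s : G)) * (s : G)⁻¹ = u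
    group
  · intro u v
    apply Subtype.ext
    show (s : G) * (u * v) * (s : G)⁻¹ = ((s : G) * u * (s : G)⁻¹) * ((s : G) * v * (s : G)⁻¹)
    group
  · apply MulEquiv.ext
    intro u
    apply Subtype.ext
    show (1 : G) * u * (1 : G)⁻¹ = u
    group
  · intro s t
    apply MulEquiv.ext
    intro u
    apply Subtype.ext
    show ((s : G) * t) * u * ((s : G) * t)⁻¹ = (s : G) * ((t : G) * u * (t : G)⁻¹) * (s : G)⁻¹
    group

/-- The action of `P` on `L` by conjugation. -/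
private def KT_act {G : Type*} [Group G] {L P : Subgroup G} (h : ∀ g, Nz g L) : MulAction P L where
  smul x l := ⟨(x : G) * l * (x : G)⁻¹, (h x l).1 l.2⟩
  one_smul l := by
    apply Subtype.ext
    show (1 : G) * l * (1 : G)⁻¹ = l
    group
  mul_smul x y l := by
    apply Subtype.ext
    show ((x : G) * y) * l * ((x : G) * y)⁻¹ = (x : G) * ((y : G) * l * (y : G)⁻¹) * (x : G)⁻¹
    group

private theorem KT_ring {R : Type*} [Monoid R] {X X' φ ψ T T' : R} (h2 : X * X' = 1) (h1 : X * T = T' * X) (h : X * φ = ψ * X) : ψ * T' = X * (φ * T * X') := by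
  calc ψ * T' = ψ * (T' * X) * X' := by rw [mul_assoc, mul_assoc, h2, mul_one]
    _ = (ψ * X) * T * X' := by rw [← h1, ← mul_assoc]
    _ = X * (φ * T * X') := by rw [← h]; simp only [mul_assoc]

/-- Orthogonality on a coset. -/
private theorem KT_orth {S : Type*} [Group S] [Fintype S] (σ : S →* Module.End k W) (C : Subgroup S) (hC : Full σ (C : Set S)) (hCp : (Nat.card C : k) ≠ 0)
    (hdW : (Module.finrank k W : k) ≠ 0) (s : S) :
    ∑ c : S, (if c ∈ C then LinearMap.trace k W (σ (s * c⁻¹)) * LinearMap.trace k W (σ (c * s⁻¹)) else 0) = (Nat.card C : k) := by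
  have h1 := S1_formula σ C hC hCp hdW (σ s)
  have h2 := congrArg (fun y => LinearMap.trace k W (y * σ s⁻¹)) h1
  simp only [← map_mul, mul_inv_cancel, map_one, LinearMap.trace_one] at h2
  rw [smul_mul_assoc, map_smul, smul_eq_mul, Finset.sum_mul, map_sum] at h2
  have h3 : ∀ c : S, LinearMap.trace k W ((if c ∈ C then LinearMap.trace k W (σ (s * c⁻¹)) • σ c else 0) * σ s⁻¹) =
      if c ∈ C then LinearMap.trace k W (σ (s * c⁻¹)) * LinearMap.trace k W (σ (c * s⁻¹)) else 0 := by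
    intro c
    split_ifs
    · rw [smul_mul_assoc, map_smul, smul_eq_mul, ← map_mul σ c s⁻¹]
    · rw [zero_mul, map_zero]
  rw [Finset.sum_congr rfl fun c _ => h3 c] at h2
  have h4 := congrArg (fun y => (Module.finrank k W : k)⁻¹ * ((Nat.card C : k) * y)) h2
  rw [mul_comm (Nat.card C : k) (Module.finrank k W : k), inv_mul_cancel_left₀ hdW, mul_assoc (Module.finrank k W : k), mul_left_comm (Nat.card C : k),
    inv_mul_cancel_left₀ hdW, mul_inv_cancel_left₀ hCp] at h4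
  exact h4.symm

/-- `key_kT` for `T = G`. -/
private theorem KT_key_k {p : ℕ} [Fact p.Prime] [CharP k p] {G : Type*} [Group G] [Finite G] {L P S : Subgroup G} (hLn : ∀ g, Nz g L) (hPS : ∀ s ∈ S, Nz s P)
    (hab : ∀ b ∈ P, ∀ c ∈ P, b * c = c * b) (hpp : ∀ u ∈ P, ∃ a : ℕ, u ^ (p ^ a) = 1)
    (hCP : ∀ c ∈ L ⊓ S, ∀ u ∈ P, c * u = u * c) (hLp : ¬ p ∣ Nat.card L) (hSp : ¬ p ∣ Nat.card S)
    (ρ : G →* Module.End k V) (σ : S →* Module.End k W) (hρ : Full ρ (L : Set G)) (hσ : Full σ {s : S | (s : G) ∈ L})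
    (hdV : (Module.finrank k V : k) ≠ 0) (hdW : (Module.finrank k W : k) ≠ 0) {e : k} (he : e ≠ 0)
    (htr : ∀ s : S, (s : G) ∈ L → LinearMap.trace k V (ρ s) = e * LinearMap.trace k W (σ s))
    (Z : Set G) (hZP : ∀ z ∈ Z, z ∈ P) (hZS : ∀ s ∈ S, ∀ z ∈ Z, s * z * s⁻¹ ∈ Z) (hZC : ∀ z ∈ Z, ∀ l ∈ L, l * z = z * l → l ∈ S) :
    ∃ fb : S →* kˣ, (∀ s : S, (s : G) ∈ L → fb s = 1) ∧
      ∀ z ∈ Z, ∀ s : S, (s : G) * z = z * s → LinearMap.trace k V (ρ s) = e * (fb s : k) * LinearMap.trace k W (σ s) := by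
  by_cases hZe : ∃ z, z ∈ Z
  swap
  · exact ⟨1, fun s _ => rfl, fun z hz => absurd ⟨z, hz⟩ hZe⟩
  obtain ⟨z0, hz0⟩ := hZe
  have hp : p.Prime := Fact.out
  have cast_ne : ∀ n : ℕ, ¬ p ∣ n → (n : k) ≠ 0 := fun n hn h0 => hn ((CharP.cast_eq_zero_iff k p n).1 h0)
  have hCp : (Nat.card (L ⊓ S : Subgroup G) : k) ≠ 0 :=
    cast_ne _ fun h => hSp (h.trans (Subgroup.card_dvd_of_le inf_le_right))
  have : Fintype G := Fintype.ofFinite G
  have hfσ : Full (σ.comp (Subgroup.inclusion (inf_le_right : L ⊓ S ≤ S))) Set.univ := by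
    unfold Full at hσ ⊢
    rw [← hσ]
    congr 1
    ext T
    constructor
    · rintro ⟨c, -, rfl⟩
      exact ⟨Subgroup.inclusion inf_le_right c, c.2.1, rfl⟩
    · rintro ⟨s, hs, rfl⟩
      exact ⟨⟨(s : G), hs, s.2⟩, Set.mem_univ _, rfl⟩
  obtain ⟨ρM, σM, hρM, hσM⟩ := S7_acts (fun s _ => hLn s) hCP ρ σ
  obtain ⟨π, hπ⟩ := KT_conj hPS
  -- the trace on `M`
  have hσav : ∀ s : S, σM s = av (ρ.comp (L ⊓ S).subtype) (σ.comp (Subgroup.inclusion (inf_le_right : L ⊓ S ≤ S))) (ρ s) (σ s⁻¹) := fun s => av_eq _ _ hCp _ _ _ fun m w => hσM s m w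
  have horth : ∀ s : S, ∑ c : (L ⊓ S : Subgroup G), LinearMap.trace k W (σ ((⟨c, c.2.2⟩ : S) * s)) * LinearMap.trace k W (σ (((⟨c, c.2.2⟩ : S) * s)⁻¹)) =
      (Nat.card (L ⊓ S : Subgroup G) : k) := by
    intro s
    have hcard : Nat.card ((L ⊓ S).subgroupOf S) = Nat.card (L ⊓ S : Subgroup G) :=
      Nat.card_congr (Subgroup.subgroupOfEquivOfLe (inf_le_right : L ⊓ S ≤ S)).toEquiv
    have hfull : Full σ (((L ⊓ S).subgroupOf S : Subgroup S) : Set S) := by
      have h1 : (((L ⊓ S).subgroupOf S : Subgroup S) : Set S) = {s : S | (s : G) ∈ L} := by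
        ext t
        exact ⟨fun h => h.1, fun h => ⟨h, t.2⟩⟩
      rw [h1]
      exact hσ
    have h1 := KT_orth σ ((L ⊓ S).subgroupOf S) hfull (by rw [hcard]; exact hCp) hdW s
    rw [hcard] at h1
    rw [← h1, ← Finset.sum_filter]
    refine Finset.sum_bij (fun (c : (L ⊓ S : Subgroup G)) _ => (⟨c, c.2.2⟩ : S)⁻¹) ?_ ?_ ?_ ?_
    · intro c _
      rw [Finset.mem_filter]
      exact ⟨Finset.mem_univ _, ((L ⊓ S).subgroupOf S).inv_mem c.2⟩
    · intro c _ d _ h
      have h2 := congrArg Subtype.val (inv_injective h)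
      exact Subtype.ext h2
    · intro d hd
      rw [Finset.mem_filter] at hd
      refine ⟨⟨(d : G)⁻¹, (L ⊓ S).inv_mem hd.2⟩, Finset.mem_univ _, ?_⟩
      apply Subtype.ext
      show ((d : G)⁻¹)⁻¹ = d
      rw [inv_inv]
    · intro c _
      rw [inv_inv, map_mul σ, map_mul σ, LinearMap.trace_mul_comm, mul_inv_rev, map_mul σ, map_mul σ, LinearMap.trace_mul_comm k (σ s⁻¹)]
  have hM : ∀ (s : S) (t : k), (∀ c : S, (c : G) ∈ L → LinearMap.trace k V (ρ (c * s : S)) = e * t * LinearMap.trace k W (σ (c * s))) →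
      LinearMap.trace k _ (σM s) = e * t := by
    intro s t ht
    have h1 := trace_av (ρ.comp (L ⊓ S).subtype) (σ.comp (Subgroup.inclusion (inf_le_right : L ⊓ S ≤ S))) hCp (ρ s) (σ s⁻¹)
    rw [← hσav] at h1
    have h2 : ∀ c : (L ⊓ S : Subgroup G), LinearMap.trace k V (ρ (s : G) * (ρ.comp (L ⊓ S).subtype) c) * LinearMap.trace k W ((σ.comp (Subgroup.inclusion (inf_le_right : L ⊓ S ≤ S))) c⁻¹ * σ s⁻¹) =
        e * t * (LinearMap.trace k W (σ ((⟨c, c.2.2⟩ : S) * s)) * LinearMap.trace k W (σ (((⟨c, c.2.2⟩ : S) * s)⁻¹))) := by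
      intro c
      have h3 := ht ⟨c, c.2.2⟩ c.2.1
      have h4 : LinearMap.trace k V (ρ (s : G) * (ρ.comp (L ⊓ S).subtype) c) = LinearMap.trace k V (ρ ((⟨c, c.2.2⟩ : S) * s : S)) := by
        rw [LinearMap.trace_mul_comm]
        show LinearMap.trace k V (ρ (c : G) * ρ (s : G)) = _
        rw [← map_mul]
        rfl
      have h5 : LinearMap.trace k W ((σ.comp (Subgroup.inclusion (inf_le_right : L ⊓ S ≤ S))) c⁻¹ * σ s⁻¹) = LinearMap.trace k W (σ (((⟨c, c.2.2⟩ : S) * s)⁻¹)) := by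
        rw [LinearMap.trace_mul_comm, mul_inv_rev, map_mul σ]
        rfl
      rw [h4, h5, h3]
      ring
    rw [Finset.sum_congr rfl fun c _ => h2 c, ← Finset.mul_sum, horth s, mul_comm] at h1
    exact mul_right_cancel₀ hCp h1
  have hdM : (Module.finrank k (homC (ρ.comp (L ⊓ S).subtype) (σ.comp (Subgroup.inclusion (inf_le_right : L ⊓ S ≤ S)))) : k) = e := by
    have h1 := hM 1 1 fun c hc => by rw [mul_one c, mul_one e]; exact htr c hc
    rw [map_one σM, LinearMap.trace_one, mul_one] at h1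
    exact h1
  -- the frame
  letI : MulAction P L := KT_act hLn
  have hsm : ∀ (x : P) (l : L), ((x • l : L) : G) = (x : G) * l * (x : G)⁻¹ := fun x l => rfl
  have hT : ∀ (x : P) (l : G), ρM x * av (ρ.comp (L ⊓ S).subtype) (σ.comp (Subgroup.inclusion (inf_le_right : L ⊓ S ≤ S))) (ρ l) 1 = av (ρ.comp (L ⊓ S).subtype) (σ.comp (Subgroup.inclusion (inf_le_right : L ⊓ S ≤ S))) (ρ ((x : G) * l * (x : G)⁻¹)) 1 * ρM x := by
    intro x l
    apply LinearMap.ext
    intro m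
    apply Subtype.ext
    apply LinearMap.ext
    intro w
    rw [Module.End.mul_apply, Module.End.mul_apply, hρM, av_apply, av_apply, map_smul, map_sum]
    congr 1
    refine Finset.sum_congr rfl fun c _ => ?_
    rw [hρM]
    have hv : ∀ v : V, ρ (x : G) (ρ (c : G) (ρ l v)) = ρ (c : G) (ρ ((x : G) * l * (x : G)⁻¹) (ρ (x : G) v)) := by
      intro v
      rw [← Module.End.mul_apply, ← Module.End.mul_apply, ← Module.End.mul_apply, ← Module.End.mul_apply, ← map_mul, ← map_mul, ← map_mul, ← map_mul]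
      have h1 : (x : G) * (c : G) * l = (c : G) * ((x : G) * l * (x : G)⁻¹) * (x : G) := by
        rw [← hCP c c.2 x x.2]
        group
      rw [h1]
    exact hv _
  obtain ⟨κ, hκ⟩ : ∃ κ : k, κ = (Module.finrank k V : k) * (Module.finrank k W : k) * (Nat.card L : k)⁻¹ := ⟨_, rfl⟩
  obtain ⟨f, hf⟩ := main_End (p := p) (P := P) (Γ := S) (M := homC (ρ.comp (L ⊓ S).subtype) (σ.comp (Subgroup.inclusion (inf_le_right : L ⊓ S ≤ S)))) (B := L) (fun x y => Subtype.ext (hab x x.2 y y.2))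
    (fun x => by
      obtain ⟨a, ha⟩ := hpp x x.2
      exact ⟨a, Subtype.ext (by simpa using ha)⟩) hSp π {z : P | (z : G) ∈ Z} ⟨⟨z0, hZP z0 hz0⟩, hz0⟩
    (fun z hz s => by
      show ((π s z : P) : G) ∈ Z
      rw [hπ]
      exact hZS s s.2 z hz)
    (by rw [hdM]; exact he) ρM σM
    (fun s u => by
      apply LinearMap.ext
      intro m
      apply Subtype.ext
      apply LinearMap.ext
      intro w
      rw [Module.End.mul_apply, Module.End.mul_apply, hσM, hρM, hρM, hσM, hπ]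
      rw [← Module.End.mul_apply, ← Module.End.mul_apply, ← map_mul, ← map_mul, inv_mul_cancel_right])
    (fun l => av (ρ.comp (L ⊓ S).subtype) (σ.comp (Subgroup.inclusion (inf_le_right : L ⊓ S ≤ S))) (ρ (l : G)) 1) (fun l => κ • (LinearMap.trace k (homC (ρ.comp (L ⊓ S).subtype) (σ.comp (Subgroup.inclusion (inf_le_right : L ⊓ S ≤ S)))) ∘ₗ LinearMap.mulRight k (av (ρ.comp (L ⊓ S).subtype) (σ.comp (Subgroup.inclusion (inf_le_right : L ⊓ S ≤ S))) (ρ (l : G)⁻¹) 1)))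
    (fun x l => hT x l)
    (fun x l φ ψ h => by
      have h1 := hT x (l : G)⁻¹
      have h2 : ρM x * ρM x⁻¹ = 1 := by rw [← map_mul, mul_inv_cancel, map_one]
      have h2' : ρM x⁻¹ * ρM x = 1 := by rw [← map_mul, inv_mul_cancel, map_one]
      have h3 : ((x • l : L) : G)⁻¹ = (x : G) * (l : G)⁻¹ * (x : G)⁻¹ := by
        rw [hsm]
        group
      have h4 : ψ * av (ρ.comp (L ⊓ S).subtype) (σ.comp (Subgroup.inclusion (inf_le_right : L ⊓ S ≤ S))) (ρ ((x : G) * (l : G)⁻¹ * (x : G)⁻¹)) 1 = ρM x * (φ * av (ρ.comp (L ⊓ S).subtype) (σ.comp (Subgroup.inclusion (inf_le_right : L ⊓ S ≤ S))) (ρ (l : G)⁻¹) 1 * ρM x⁻¹) := KT_ring (R := Module.End k (homC (ρ.comp (L ⊓ S).subtype) (σ.comp (Subgroup.inclusion (inf_le_right : L ⊓ S ≤ S))))) h2 h1 h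
      show κ * LinearMap.trace k _ (ψ * av (ρ.comp (L ⊓ S).subtype) (σ.comp (Subgroup.inclusion (inf_le_right : L ⊓ S ≤ S))) (ρ ((x • l : L) : G)⁻¹) 1) = κ * LinearMap.trace k _ (φ * av (ρ.comp (L ⊓ S).subtype) (σ.comp (Subgroup.inclusion (inf_le_right : L ⊓ S ≤ S))) (ρ (l : G)⁻¹) 1)
      rw [h3, h4, LinearMap.trace_mul_comm, mul_assoc, h2', mul_one])
    (fun φ => by
      have h1 := frame_id ρ L hρ (cast_ne _ hLp) hdV (L ⊓ S).subtype (σ.comp (Subgroup.inclusion (inf_le_right : L ⊓ S ≤ S))) hfσ hCp hdW φ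
      rw [← hκ] at h1
      exact h1)
    (fun z hz φ ψ hφ hψ => by
      obtain ⟨a, ha⟩ := hpp z z.2
      exact oneAt_av (p := p) ρ L hρ (cast_ne _ hLp) hdV (L ⊓ S).subtype (σ.comp (Subgroup.inclusion (inf_le_right : L ⊓ S ≤ S))) hfσ hCp hdW ha (hLn z) (fun c => hCP c c.2 z z.2)
        (fun l hl hlz => ⟨⟨l, hl, hZC z hz l hl hlz⟩, rfl⟩) (ρM z) (fun m w => hρM z m w) φ ψ hφ hψ)
  have hfix : ∀ z ∈ Z, ∀ s : S, (s : G) * z = z * s → LinearMap.trace k _ (σM s) = (f s : k) * e := by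
    intro z hz s hs
    have h1 := hf ⟨z, hZP z hz⟩ hz s (by
      apply Subtype.ext
      rw [hπ]
      show (s : G) * z * (s : G)⁻¹ = z
      rw [hs, mul_inv_cancel_right])
    rw [hdM] at h1
    exact h1
  refine ⟨f, ?_, ?_⟩
  · intro s hs
    have h1 := hfix z0 hz0 s (hCP s ⟨hs, s.2⟩ z0 (hZP z0 hz0))
    have h2 : σM s = 1 := by
      apply LinearMap.ext
      intro m
      apply Subtype.ext
      apply LinearMap.ext
      intro w
      rw [hσM]
      have h3 := mem_homC.1 m.2 ⟨s, hs, s.2⟩ (σ s⁻¹ w)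
      have h4 : (σ.comp (Subgroup.inclusion (inf_le_right : L ⊓ S ≤ S))) ⟨(s : G), hs, s.2⟩ (σ s⁻¹ w) = w := by
        show σ s (σ s⁻¹ w) = w
        rw [← Module.End.mul_apply, ← map_mul, mul_inv_cancel, map_one, Module.End.one_apply]
      rw [h4] at h3
      exact h3.symm
    rw [h2, LinearMap.trace_one, hdM] at h1
    apply Units.ext
    rw [Units.val_one]
    exact (mul_right_cancel₀ he (by rw [one_mul]; exact h1)).symm
  · intro z hz s hs
    obtain ⟨a, ha⟩ := hpp z (hZP z hz)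
    obtain ⟨t, ht⟩ := local_scalar (p := p) (fun s _ => hLn s) ρ σ hρ hσ (cast_ne _ hLp) hdV he htr ha (hLn z) (fun c hc => hCP c hc z (hZP z hz)) (hZC z hz) s hs
    have h1 := hM s t ht
    rw [hfix z hz s hs, mul_comm] at h1
    have h2 := mul_left_cancel₀ he h1
    have h3 := ht 1 L.one_mem
    rw [one_mul, ← h2] at h3
    exact h3

/-- `H90S.key_kT` without the hypothesis that `u ^ p` centralises `L` for `u ∈ P`. -/
theorem key_kT {p : ℕ} [Fact p.Prime] [CharP k p] {G : Type*} [Group G] [Finite G] {T L P S : Subgroup G} (hLT : L ≤ T) (hPT : P ≤ T) (hST : S ≤ T)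
    (hLn : ∀ g ∈ T, Nz g L) (hPS : ∀ s ∈ S, Nz s P)
    (hab : ∀ b ∈ P, ∀ c ∈ P, b * c = c * b) (hpp : ∀ u ∈ P, ∃ a : ℕ, u ^ (p ^ a) = 1)
    (hCP : ∀ c ∈ L ⊓ S, ∀ u ∈ P, c * u = u * c) (hLp : ¬ p ∣ Nat.card L) (hSp : ¬ p ∣ Nat.card S)
    (ρ : T →* Module.End k V) (σ : S →* Module.End k W) (hρ : Full ρ {t : T | (t : G) ∈ L}) (hσ : Full σ {s : S | (s : G) ∈ L})
    (hdV : (Module.finrank k V : k) ≠ 0) (hdW : (Module.finrank k W : k) ≠ 0) {e : k} (he : e ≠ 0)
    (htr : ∀ (s : G) (hs : s ∈ S), s ∈ L → LinearMap.trace k V (ρ ⟨s, hST hs⟩) = e * LinearMap.trace k W (σ ⟨s, hs⟩))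
    (Z : Set G) (hZP : ∀ z ∈ Z, z ∈ P) (hZS : ∀ s ∈ S, ∀ z ∈ Z, s * z * s⁻¹ ∈ Z) (hZC : ∀ z ∈ Z, ∀ l ∈ L, l * z = z * l → l ∈ S) :
    ∃ fb : S →* kˣ, (∀ s : S, (s : G) ∈ L → fb s = 1) ∧
      ∀ z ∈ Z, ∀ (s : G) (hs : s ∈ S), s * z = z * s →
        LinearMap.trace k V (ρ ⟨s, hST hs⟩) = e * (fb ⟨s, hs⟩ : k) * LinearMap.trace k W (σ ⟨s, hs⟩) := by
  let E : S.subgroupOf T ≃* S := Subgroup.subgroupOfEquivOfLe hST
  have hE : ∀ s : S.subgroupOf T, ((E s : S) : G) = ((s : T) : G) := fun s => rfl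
  have cardL : Nat.card (L.subgroupOf T) = Nat.card L :=
    Nat.card_congr (Subgroup.subgroupOfEquivOfLe hLT).toEquiv
  have cardS : Nat.card (S.subgroupOf T) = Nat.card S := Nat.card_congr E.toEquiv
  have nz : ∀ (K : Subgroup G) (t : T), Nz (t : G) K → Nz t (K.subgroupOf T) :=
    fun K t h x => h x
  obtain ⟨fb, h1, h2⟩ := KT_key_k (p := p) (G := T) (L := L.subgroupOf T) (P := P.subgroupOf T)
    (S := S.subgroupOf T) (k := k) (V := V) (W := W)
    (fun g => nz L g (hLn g g.2))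
    (fun s hs => nz P s (hPS s hs))
    (fun b hb c hc => Subtype.ext (hab b hb c hc))
    (fun u hu => by
      obtain ⟨a, ha⟩ := hpp u hu
      exact ⟨a, Subtype.ext (by simpa using ha)⟩)
    (fun c hc u hu => Subtype.ext (hCP c ⟨hc.1, hc.2⟩ u hu))
    (by rw [cardL]; exact hLp) (by rw [cardS]; exact hSp)
    ρ (σ.comp E.toMonoidHom) hρ
    (by
      unfold Full at hσ ⊢
      rw [← hσ]
      refine congrArg _ ?_
      ext T'
      constructor
      · rintro ⟨s, hs, rfl⟩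
        exact ⟨E s, hs, rfl⟩
      · rintro ⟨s, hs, rfl⟩
        exact ⟨E.symm s, hs, by simp⟩)
    hdV hdW he
    (fun s hs => htr ((s : T) : G) s.2 hs)
    {t : T | (t : G) ∈ Z} (fun z hz => hZP z hz)
    (fun s hs z hz => hZS s hs z hz)
    (fun z hz l hl h => hZC z hz l hl (congrArg Subtype.val h))
  refine ⟨fb.comp E.symm.toMonoidHom, fun s hs => ?_, fun z hz s hs hsz => ?_⟩
  · exact h1 (E.symm s) hs
  · exact h2 ⟨z, hPT (hZP z hz)⟩ hz ⟨⟨s, hST hs⟩, hs⟩ (Subtype.ext hsz)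

end Pool.Agent.Lib.H77S
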