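import Pool.Agent.Lib.H90S.Key
import Pool.Agent.Lib.H77S.KT

/-!
H77S: the key theorem for every `x ∈ P` with `C_L(x) = C_L(P)` (interface to Lib/H88C), from `key_kT`.
-/

open scoped Classical ComplexConjugate BigOperators

noncomputable section

namespace Pool.Agent.Lib.H77S

/-- The residue field of a valuation ring of `ℂ` is algebraically closed. -/
theorem residue_isAlgClosed (O : ValuationSubring ℂ) : IsAlgClosed (IsLocalRing.ResidueField O) := by
  apply IsAlgClosed.of_exists_root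
  intro q hq hirr
  obtain ⟨g, hg, hgd, hgm⟩ := Polynomial.lifts_and_natDegree_eq_and_monic (f := IsLocalRing.residue O) (p := q)
    ((Polynomial.lifts_iff_coeff_lifts _).2 fun n => IsLocalRing.residue_surjective _) hq
  have hd : (g.map (algebraMap O ℂ)).degree ≠ 0 := by
    rw [hgm.degree_map, Polynomial.degree_eq_natDegree hgm.ne_zero, hgd]
    have h1 := hirr.natDegree_pos
    intro h2
    rw [Nat.cast_eq_zero.1 h2] at h1
    exact lt_irrefl _ h1
  obtain ⟨z, hz⟩ := IsAlgClosed.exists_root (g.map (algebraMap O ℂ)) hd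
  have hint : IsIntegral O z := ⟨g, hgm, by rwa [Polynomial.IsRoot.def, Polynomial.eval_map] at hz⟩
  obtain ⟨y, rfl⟩ := IsIntegrallyClosed.isIntegral_iff.1 hint
  refine ⟨IsLocalRing.residue O y, ?_⟩
  have h3 : g.eval y = 0 := by
    have h4 : algebraMap O ℂ (g.eval y) = 0 := by
      rw [Polynomial.IsRoot.def, Polynomial.eval_map, Polynomial.eval₂_at_apply] at hz
      exact hz
    exact (IsFractionRing.injective O ℂ) (by rw [h4, map_zero])
  rw [← hg, Polynomial.eval_map, Polynomial.eval₂_at_apply, h3, map_zero]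

open Pool.Agent.Lib.H90Q Pool.Agent.Lib.H90S

/-- values of characters are in the valuation ring -/
private theorem key_int {G : Type*} [Group G] [Fintype G] {p : ℕ} (D : RedData p) {H : Subgroup G} {f : G → ℂ} (hf : f ∈ CharS H) (g : G) :
    f g ∈ D.O := by
  by_cases hg : g ∈ H
  · exact D.int _ (isIntegral_char hf.2 ⟨g, hg⟩)
  · rw [hf.1 g hg]
    exact D.O.zero_mem

private theorem key_Nz {G : Type*} [Group G] [Fintype G] {L T : Subgroup G} {A B C : Subgroup G} (hT : T = A ⊔ B ⊔ C)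
    (hA : ∀ g ∈ A, Nz g L) (hB : ∀ g ∈ B, Nz g L) (hC : ∀ g ∈ C, Nz g L) : ∀ g ∈ T, Nz g L := by
  let N : Subgroup G :=
    { carrier := {g | Nz g L}
      mul_mem' := fun ha hb => nz_mul ha hb
      one_mem' := nz_mem L.one_mem
      inv_mem' := fun ha => nz_inv ha }
  have h : T ≤ N := by
    rw [hT]
    exact sup_le (sup_le hA hB) hC
  exact fun g hg => h hg

/-- The set `Z` of the `z ∈ P` with `C_L(z) = C_L(P)`. -/
private theorem keyA_Z {G : Type*} [Group G] {L P S : Subgroup G} (hLS : ∀ s ∈ S, Nz s L) (hPS : ∀ s ∈ S, Nz s P) (hC : L ⊓ S = CM L (P : Set G)) :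
    ∃ Z : Set G, (∀ z, z ∈ Z ↔ z ∈ P ∧ CM L {z} = CM L (P : Set G)) ∧ (∀ s ∈ S, ∀ z ∈ Z, s * z * s⁻¹ ∈ Z) ∧
      (∀ z ∈ Z, ∀ l ∈ L, l * z = z * l → l ∈ S) ∧ ∀ c ∈ L ⊓ S, ∀ u ∈ P, c * u = u * c := by
  have hmCM : ∀ {z d : G}, d ∈ CM L {z} ↔ d ∈ L ∧ d * z = z * d := by
    intro z d
    unfold CM
    rw [Subgroup.mem_inf, Subgroup.mem_centralizer_singleton_iff]
  have hmCP : ∀ {d : G}, d ∈ CM L (P : Set G) ↔ d ∈ L ∧ ∀ z ∈ P, z * d = d * z := by
    intro d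
    unfold CM
    rw [Subgroup.mem_inf, Subgroup.mem_centralizer_iff]
    rfl
  have hcomm : ∀ c ∈ L ⊓ S, ∀ u ∈ P, c * u = u * c := by
    intro c hc u hu
    rw [hC, hmCP] at hc
    exact (hc.2 u hu).symm
  have hconjL : ∀ s ∈ S, ∀ l ∈ L, s⁻¹ * l * s ∈ L := by
    intro s hs l hl
    have h1 := (hLS s⁻¹ (S.inv_mem hs) l).1 hl
    rwa [inv_inv] at h1
  refine ⟨{z | z ∈ P ∧ CM L {z} = CM L (P : Set G)}, fun z => Iff.rfl, ?_, ?_, hcomm⟩
  · rintro s hs z ⟨hz, hzC⟩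
    have hsz : s * z * s⁻¹ ∈ P := (hPS s hs z).1 hz
    refine ⟨hsz, le_antisymm ?_ ?_⟩
    · intro d hd
      rw [hmCM] at hd
      have h1 : s⁻¹ * d * s ∈ CM L {z} := by
        rw [hmCM]
        refine ⟨hconjL s hs d hd.1, ?_⟩
        have h3 := hd.2
        calc s⁻¹ * d * s * z = s⁻¹ * (d * (s * z * s⁻¹)) * s := by group
          _ = s⁻¹ * ((s * z * s⁻¹) * d) * s := by rw [h3]
          _ = z * (s⁻¹ * d * s) := by group
      rw [hzC, ← hC] at h1
      have h2 : d ∈ L ⊓ S := by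
        refine ⟨hd.1, ?_⟩
        have h4 := S.mul_mem (S.mul_mem hs h1.2) (S.inv_mem hs)
        have e : s * (s⁻¹ * d * s) * s⁻¹ = d := by group
        rwa [e] at h4
      rw [← hC]
      exact h2
    · intro d hd
      rw [hmCP] at hd
      rw [hmCM]
      exact ⟨hd.1, (hd.2 _ hsz).symm⟩
  · rintro z ⟨hz, hzC⟩ l hl hlz
    have h1 : l ∈ CM L {z} := hmCM.2 ⟨hl, hlz⟩
    rw [hzC, ← hC] at h1
    exact h1.2

/-- As `S5_trace`, for an element `z` of order `p ^ a`. -/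
private theorem keyA_trace {k V : Type*} [Field k] [AddCommGroup V] [Module k V] [FiniteDimensional k V] {p : ℕ} [Fact p.Prime] [CharP k p]
    {B : Type*} [Group B] (ρ : B →* Module.End k V) {z g : B} {a : ℕ} (hz : z ^ (p ^ a) = 1) (hg : g * z = z * g) :
    LinearMap.trace k V (ρ (z * g)) = LinearMap.trace k V (ρ g) := by
  rcases subsingleton_or_nontrivial V with hV | hV
  · rw [show ρ (z * g) = ρ g from Subsingleton.elim _ _]
  haveI : CharP (Module.End k V) p := charP_of_injective_algebraMap (algebraMap k (Module.End k V)).injective p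
  have hNp : (ρ z - 1) ^ (p ^ a) = 0 := by
    rw [sub_pow_char_pow_of_commute _ _ (Commute.one_right _), one_pow, ← map_pow, hz, map_one, sub_self]
  have hc : Commute (ρ z - 1) (ρ g) := by
    show (ρ z - 1) * ρ g = ρ g * (ρ z - 1)
    rw [sub_mul, mul_sub, one_mul, mul_one, ← map_mul, ← map_mul, hg]
  have hnil : IsNilpotent ((ρ z - 1) * ρ g) := ⟨p ^ a, by rw [hc.mul_pow, hNp, zero_mul]⟩
  have h1 := (LinearMap.isNilpotent_trace_of_isNilpotent hnil).eq_zero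
  have h2 : ρ (z * g) = (ρ z - 1) * ρ g + ρ g := by
    rw [sub_mul, one_mul, map_mul, sub_add_cancel]
  rw [h2, map_add, h1, zero_add]

/-- KEY without a condition on the powers of `x`: `H90S.key` for all `x ∈ P` with `C_L(x) = C_L(P)`. -/
theorem key {G : Type*} [Group G] [Fintype G] {p : ℕ} [Fact p.Prime] {L P S : Subgroup G} (hLP : ∀ z ∈ P, Nz z L) (hLS : ∀ s ∈ S, Nz s L)
    (hPS : ∀ s ∈ S, Nz s P) (hL : ¬ p ∣ Nat.card L) (hS : ¬ p ∣ Nat.card S) (hPp : ∀ z ∈ P, ∃ a : ℕ, z ^ (p ^ a) = 1) (hab : ∀ b ∈ P, ∀ c ∈ P, b * c = c * b)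
    (hC : L ⊓ S = CM L (P : Set G)) {θ θs Θ Φ Ψ : G → ℂ} (hθ : θ ∈ IrrS L) (hinv : InvS P θ) (hGC : GC p L (P : Set G) θ θs) (hcan : CanP p L P θ Θ)
    (hΦ : Φ ∈ IrrS (L ⊔ P ⊔ S)) (hΦe : ∀ g ∈ L ⊔ P, Φ g = Θ g) (hΨ : Ψ ∈ IrrS S) (hΨe : ∀ g ∈ L ⊓ S, Ψ g = θs g) :
    ∃ ε : ℂ, (ε = 1 ∨ ε = -1) ∧ ∃ f ∈ LinS S (L ⊓ S), ∀ x ∈ P,
      CM L {x} = CM L (P : Set G) →
        ∀ u ∈ S, u * x = x * u → Φ (x * u) = ε * f u * Ψ u := by
  have hp : p.Prime := Fact.out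
  obtain ⟨T, hT⟩ : ∃ T : Subgroup G, T = L ⊔ P ⊔ S := ⟨_, rfl⟩
  have hLT : L ≤ T := by rw [hT]; exact le_sup_left.trans le_sup_left
  have hPT : P ≤ T := by rw [hT]; exact le_sup_right.trans le_sup_left
  have hST : S ≤ T := by rw [hT]; exact le_sup_right
  have hLn : ∀ g ∈ T, Nz g L := key_Nz hT (fun g hg => nz_mem hg) hLP hLS
  obtain ⟨Z, hZ, hZS, hZC, hCP⟩ := keyA_Z hLS hPS hC
  by_cases hne : Z.Nonempty
  · obtain ⟨ε₀, hε₀, -, hv⟩ := canP_val hL hLP hPp hab hθ hcan hGC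
    have hε : (ε₀ : ℂ) = 1 ∨ (ε₀ : ℂ) = -1 := by
      rcases hε₀ with rfl | rfl
      · left
        norm_num
      · right
        norm_num
    obtain ⟨D⟩ := redData_exists p hp
    haveI : CharP D.k p := D.char
    haveI : IsAlgClosed D.k := residue_isAlgClosed D.O
    have hεO : (ε₀ : ℂ) ∈ D.O := D.int _ isIntegral_algebraMap
    have hred : D.red (ε₀ : ℂ) = (ε₀ : D.k) := red_intCast D ε₀
    have he2 : (ε₀ : D.k) * (ε₀ : D.k) = 1 := by
      rcases hε₀ with rfl | rfl <;> norm_num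
    have he0 : (ε₀ : D.k) ≠ 0 := left_ne_zero_of_mul (he2 ▸ one_ne_zero)
    have hθs : θs ∈ IrrS (L ⊓ S) := by
      rw [hC]
      exact hGC.2.1
    rw [← hT] at hΦ
    obtain ⟨n, ρ, hn0, hn, htrρ, hfull⟩ := W2_rep hp D hLT hL hθ hΦ fun l hl => by
      rw [hΦe l (Subgroup.mem_sup_left hl), hcan.1.ext l hl]
    obtain ⟨m, σ, hm0, hm, htrσ, hfullσ⟩ := W2_rep_S hp D hS hθs hΨ hΨe
    have hCMz : ∀ z ∈ P, CM L {z} = CM L (P : Set G) → ∀ c ∈ L ⊓ S, c ∈ CM L {z} := by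
      intro z _ h1 c hc
      rw [h1, ← hC]
      exact hc
    have htrz : ∀ z (hz : z ∈ Z), ∀ d (hd : d ∈ T), d * z = z * d →
        LinearMap.trace D.k (Fin n → D.k) (ρ ⟨d, hd⟩) = D.red (Φ (z * d)) := by
      intro z hz d hd hdz
      obtain ⟨a, ha⟩ := hPp z ((hZ z).1 hz).1
      have h1 := keyA_trace (p := p) ρ (z := ⟨z, hPT ((hZ z).1 hz).1⟩) (g := ⟨d, hd⟩) (a := a)
        (by
          apply Subtype.ext
          show z ^ (p ^ a) = 1
          exact ha)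
        (by
          apply Subtype.ext
          show d * z = z * d
          exact hdz)
      rw [← h1, htrρ]
      rfl
    have htr : ∀ (s : G) (hs : s ∈ S), s ∈ L →
        LinearMap.trace D.k (Fin n → D.k) (ρ ⟨s, hST hs⟩) = (ε₀ : D.k) * LinearMap.trace D.k (Fin m → D.k) (σ ⟨s, hs⟩) := by
      intro s hs hsL
      obtain ⟨z, hz⟩ := hne
      have hz1 := (hZ z).1 hz
      have hzP : z ∈ P := hz1.1
      have hsc : s ∈ L ⊓ S := ⟨hsL, hs⟩
      rw [htrz z hz s (hST hs) (hCP s hsc z hzP), htrσ,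
        hΦe _ ((L ⊔ P).mul_mem (Subgroup.mem_sup_right hzP) (Subgroup.mem_sup_left hsL)),
        hv z hzP hz1.2 s (hCMz z hzP hz1.2 s hsc), red_mul D hεO (key_int D (charS_of_irrS hθs) s), hred, ← hΨe s hsc]
    obtain ⟨fb, hfb1, hfb⟩ := H77S.key_kT (k := D.k) (V := Fin n → D.k) (W := Fin m → D.k) hLT hPT hST hLn hPS
      hab hPp hCP hL hS ρ σ hfull hfullσ
      (by rw [Module.finrank_fin_fun]; exact hn) (by rw [Module.finrank_fin_fun]; exact hm) he0 htr Z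
      (fun z hz => ((hZ z).1 hz).1) hZS hZC
    obtain ⟨f, hf, hfr⟩ := W2_lift hp D hS fb hfb1
    refine ⟨(ε₀ : ℂ), hε, f, hf, ?_⟩
    intro x hx hxC u hu hux
    have hzZ : x ∈ Z := (hZ x).2 ⟨hx, hxC⟩
    rw [hT] at hΦ
    obtain ⟨ψ, hψ, hψC, hψv⟩ := W1_values hLP hLS hL hS hPp hab hC hθ hGC hcan hΦ hΦe hε hx hxC
      (fun c hc => hv x hx hxC c (hCMz x hx hxC c hc))
    have hCΔ : L ⊓ S ≤ S ⊓ Subgroup.centralizer {x} := by
      intro c hc
      exact ⟨hc.2, Subgroup.mem_centralizer_singleton_iff.2 (hCP c hc x hx)⟩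
    have heq := W2_eq hp D hS (Δ := S ⊓ Subgroup.centralizer {x}) inf_le_left hCΔ hθs hΨ hΨe hf hψ (by
      intro d hd
      have hdS : d ∈ S := hd.1
      have hdx : d * x = x * d := Subgroup.mem_centralizer_singleton_iff.1 hd.2
      have h1 := hfb x hzZ d hdS hdx
      have hv1 := hψv 1 (by rw [pow_one]; exact hxC) d hd
      rw [pow_one x] at hv1
      rw [htrz x hzZ d (hST hdS) hdx, htrσ, hv1, red_mul D hεO (key_int D (charS_of_irrS hψ) d), hred] at h1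
      have h2 : D.red (ψ d) = (fb ⟨d, hdS⟩ : D.k) * D.red (Ψ d) := by
        have h3 := congrArg (fun y => (ε₀ : D.k) * y) h1
        simp only [← mul_assoc, he2, one_mul] at h3
        exact h3
      rw [h2, red_mul D (hfr ⟨d, hdS⟩).2 (key_int D (charS_of_irrS hΨ) d), (hfr ⟨d, hdS⟩).1])
    have hu' : u ∈ S ⊓ Subgroup.centralizer {x} := ⟨hu, Subgroup.mem_centralizer_singleton_iff.2 hux⟩
    have h1 := hψv 1 (by rw [pow_one]; exact hxC) u hu'
    rw [pow_one x] at h1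
    rw [h1, heq u hu', mul_assoc]
  · refine ⟨1, Or.inl rfl, fun x => if x ∈ S then (1 : ℂ) else 0, lin_triv inf_le_right, ?_⟩
    intro x hx hxC
    exact absurd ⟨_, (hZ x).2 ⟨hx, hxC⟩⟩ hne

end Pool.Agent.Lib.H77S
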