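import Pool.Agent.Lib.H77S.MB
import Pool.Agent.Lib.H77S.B7

/-! H77S, MA: the gluing theorem. -/

open scoped BigOperators

noncomputable section

namespace Pool.Agent.Lib.H77S

variable {p : ℕ} [Fact p.Prime] {k : Type} [Field k] [IsAlgClosed k] [CharP k p] {P : Type} [CommGroup P] [Finite P]

/-- The case without bad subgroups. -/
private theorem MA_good (hP : ∀ x : P, ∃ a : ℕ, x ^ (p ^ a) = 1)
    {Γ : Type} [Group Γ] [Finite Γ] (hΓ : ¬ p ∣ Nat.card Γ) (act : Γ →* MulAut P) (Z : Set P) (hZ0 : Z.Nonempty)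
    {ι : Type} [Fintype ι] [DecidableEq ι] (u : P →* Matrix ι ι k) (hF : Framed u) (hn : (Fintype.card ι : k) ≠ 0) (hone : ∀ z ∈ Z, OneAt u (Subgroup.zpowers z))
    (α : Γ → (Matrix ι ι k)ˣ) (hα : IsProj α) (hc : Comp act u α) (hg : ∀ R : Subgroup P, R ≠ ⊥ → Good u R) : TT act α Z := by
  refine caseA hP hΓ act u hF hn ⊥ (fun g x hx => ?_) (fun x hx => ?_) (fun R hR => hg R hR.ne') Z hZ0 hone α hα hc
  · rw [Subgroup.mem_bot] at hx ⊢
    rw [hx, map_one]
  · rw [Subgroup.mem_bot] at hx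
    rw [hx, map_one]

/-- MAIN. `u` framed, of dimension not `0` in `k`, `Z` a non-empty `Γ`-stable set of elements of `P` with one-dimensional slash, `α` a projective representation of the `p'`-group `Γ` compatible with `u`. Then `α` lifts to a homomorphism `π` with `trace (π s) = dimension` for all `s` that fix some `z ∈ Z`.
Proof: strong induction on the number of the subgroups `R ≠ ⊥` of `P` that are not good (for all `ι`, `u`, `α`). None: `caseA` with `K = ⊥`. Otherwise let `Q₀ ≠ ⊥` be maximal among the bad ones (finite set of subgroups); every `R > Q₀` is good (`R ≠ ⊥`). `twist_step`, `kron_proj`, the induction hypothesis for `kr u v` (fewer bad subgroups), `tt_of_kron`. -/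
theorem main (hP : ∀ x : P, ∃ a : ℕ, x ^ (p ^ a) = 1)
    {Γ : Type} [Group Γ] [Finite Γ] (hΓ : ¬ p ∣ Nat.card Γ) (act : Γ →* MulAut P) (Z : Set P) (hZ0 : Z.Nonempty) (hZ : ∀ z ∈ Z, ∀ g, act g z ∈ Z)
    {ι : Type} [Fintype ι] [DecidableEq ι] (u : P →* Matrix ι ι k) (hF : Framed u) (hn : (Fintype.card ι : k) ≠ 0) (hone : ∀ z ∈ Z, OneAt u (Subgroup.zpowers z))
    (α : Γ → (Matrix ι ι k)ˣ) (hα : IsProj α) (hc : Comp act u α) : TT act α Z := by
  classical
  have H : ∀ (N : ℕ) {ι : Type} [Fintype ι] [DecidableEq ι] (u : P →* Matrix ι ι k) (_ : Framed u) (_ : (Fintype.card ι : k) ≠ 0)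
      (_ : ∀ z ∈ Z, OneAt u (Subgroup.zpowers z)) (α : Γ → (Matrix ι ι k)ˣ) (_ : IsProj α) (_ : Comp act u α),
      {R : Subgroup P | R ≠ ⊥ ∧ ¬ Good u R}.ncard ≤ N → TT act α Z := by
    intro N
    induction N with
    | zero =>
      intro ι _ _ u hF hn hone α hα hc hN
      have hfin : {R : Subgroup P | R ≠ ⊥ ∧ ¬ Good u R}.Finite := Set.toFinite _
      have hempty : {R : Subgroup P | R ≠ ⊥ ∧ ¬ Good u R} = ∅ := (Set.ncard_eq_zero hfin).1 (Nat.le_zero.1 hN)
      exact MA_good hP hΓ act Z hZ0 u hF hn hone α hα hc fun R hR => by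
        by_contra hb
        have : R ∈ {R : Subgroup P | R ≠ ⊥ ∧ ¬ Good u R} := ⟨hR, hb⟩
        rw [hempty] at this
        exact this
    | succ N ih =>
      intro ι _ _ u hF hn hone α hα hc hN
      have hfin : {R : Subgroup P | R ≠ ⊥ ∧ ¬ Good u R}.Finite := Set.toFinite _
      by_cases hne : {R : Subgroup P | R ≠ ⊥ ∧ ¬ Good u R}.Nonempty
      · obtain ⟨Q₀, hQ₀⟩ := hfin.exists_maximal hne
        have hQmem : Q₀ ≠ ⊥ ∧ ¬ Good u Q₀ := hQ₀.prop
        have hgood : ∀ R, Q₀ < R → Good u R := by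
          intro R hR
          by_contra hb
          have hRb : R ≠ ⊥ := fun h => by
            rw [h] at hR
            exact not_lt_bot hR
          exact absurd (hQ₀.le_of_ge (show R ∈ {R : Subgroup P | R ≠ ⊥ ∧ ¬ Good u R} from ⟨hRb, hb⟩) hR.le) (not_le_of_gt hR)
        obtain ⟨κ, _, _, v, πN, hk, hN1, hN2, hFr, h1, hG, hGQ⟩ := twist_step hP hΓ act Z hZ0 hZ u hF hn hone α hα hc Q₀ hgood
        obtain ⟨γ, hγ, hγp, hγc⟩ := kron_proj (v := v) act α hα hc πN hN1
        have hcard : (Fintype.card (ι × κ) : k) ≠ 0 := by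
          rw [Fintype.card_prod, Nat.cast_mul]
          exact mul_ne_zero hn hk
        have hlt : {R : Subgroup P | R ≠ ⊥ ∧ ¬ Good (kr u v) R}.ncard < {R : Subgroup P | R ≠ ⊥ ∧ ¬ Good u R}.ncard := by
          refine Set.ncard_lt_ncard ?_ hfin
          refine ⟨fun R hR => ⟨hR.1, fun h => hR.2 (hG R h)⟩, fun h => ?_⟩
          exact (h (show Q₀ ∈ {R : Subgroup P | R ≠ ⊥ ∧ ¬ Good u R} from hQmem)).2 hGQ
        have hTT : TT act γ Z := ih (kr u v) hFr hcard h1 γ hγp hγc (by omega)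
        exact tt_of_kron act α πN hk γ hγ Z hN2 hTT
      · exact MA_good hP hΓ act Z hZ0 u hF hn hone α hα hc fun R hR => by
          by_contra hb
          exact hne ⟨R, hR, hb⟩
  exact H _ u hF hn hone α hα hc le_rfl

end Pool.Agent.Lib.H77S
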