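import Pool.Agent.Lib.H77S.A10
import Pool.Agent.Lib.H77S.A11
import Pool.Agent.Lib.H77S.A5

/-! H77S, PG1: `HasTriv`, `Framed`, `OneAt`, `Good` for tensor products of two factors and for duals. -/

open scoped BigOperators Kronecker

noncomputable section

namespace Pool.Agent.Lib.H77S

section Any

variable {k : Type} [Field k] {P : Type} [CommGroup P]
variable {ι κ : Type} [Fintype ι] [DecidableEq ι] [Fintype κ] [DecidableEq κ]

/-- Frame of a tensor product. -/
theorem framed_kr {u : P →* Matrix ι ι k} {v : P →* Matrix κ κ k} (hF : Framed u) (hG : Framed v) : Framed (kr u v) := by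
  obtain ⟨B, _, _, ⟨F⟩⟩ := hF
  obtain ⟨B', _, _, ⟨F'⟩⟩ := hG
  obtain ⟨G, -, -⟩ := frame_kron F F'
  exact ⟨B × B', inferInstance, inferInstance, ⟨G⟩⟩

/-- Trivial summands of a tensor product. -/
theorem hasTriv_kr {u : P →* Matrix ι ι k} {v : P →* Matrix κ κ k} (h : HasTriv u) (h' : HasTriv v) : HasTriv (kr u v) := by
  obtain ⟨a, l, h1, h2, h3⟩ := h
  obtain ⟨a', l', h1', h2', h3'⟩ := h'
  refine ⟨fun x => a x.1 * a' x.2, fun x => l x.1 * l' x.2, ?_, ?_, ?_⟩
  · intro x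
    ext ⟨i, i'⟩
    have e1 := congrFun (h1 x) i
    have e2 := congrFun (h1' x) i'
    show ∑ y : ι × κ, (u x ⊗ₖ v x) (i, i') y * (a y.1 * a' y.2) = a i * a' i'
    rw [← e1, ← e2, Fintype.sum_prod_type]
    show _ = (∑ y, u x i y * a y) * ∑ y', v x i' y' * a' y'
    rw [Finset.sum_mul_sum]
    refine Finset.sum_congr rfl fun y _ => Finset.sum_congr rfl fun y' _ => ?_
    rw [Matrix.kroneckerMap_apply]
    ring
  · intro x
    ext ⟨i, i'⟩
    have e1 := congrFun (h2 x) i
    have e2 := congrFun (h2' x) i'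
    show ∑ y : ι × κ, (l y.1 * l' y.2) * (u x ⊗ₖ v x) y (i, i') = l i * l' i'
    rw [← e1, ← e2, Fintype.sum_prod_type]
    show _ = (∑ y, l y * u x y i) * ∑ y', l' y' * v x y' i'
    rw [Finset.sum_mul_sum]
    refine Finset.sum_congr rfl fun y _ => Finset.sum_congr rfl fun y' _ => ?_
    rw [Matrix.kroneckerMap_apply]
    ring
  · show ∑ y : ι × κ, (l y.1 * l' y.2) * (a y.1 * a' y.2) = 1
    have e : (∑ y, l y * a y) * ∑ y', l' y' * a' y' = 1 := by
      have e1 : (∑ y, l y * a y) = 1 := h3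
      have e2 : (∑ y', l' y' * a' y') = 1 := h3'
      rw [e1, e2, one_mul]
    rw [← e, Fintype.sum_prod_type, Finset.sum_mul_sum]
    refine Finset.sum_congr rfl fun y _ => Finset.sum_congr rfl fun y' _ => ?_
    ring

/-- Trivial summands of the dual. -/
theorem hasTriv_du {u : P →* Matrix ι ι k} (h : HasTriv u) : HasTriv (du u) := by
  obtain ⟨a, l, h1, h2, h3⟩ := h
  refine ⟨l, a, ?_, ?_, ?_⟩
  · intro x
    show ((u x⁻¹).transpose).mulVec l = l
    rw [Matrix.mulVec_transpose, h2]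
  · intro x
    show Matrix.vecMul a ((u x⁻¹).transpose) = a
    rw [Matrix.vecMul_transpose, h1]
  · rw [dotProduct_comm, h3]

/-- `u ⊗ u*` has a trivial summand if the dimension of `u` is not `0` in `k`. -/
theorem hasTriv_kr_du {u : P →* Matrix ι ι k} (hn : (Fintype.card ι : k) ≠ 0) : HasTriv (kr u (du u)) := by
  have hinv : ∀ x, u x * u x⁻¹ = 1 := fun x => by rw [← map_mul, mul_inv_cancel, map_one]
  have hinv' : ∀ x, u x⁻¹ * u x = 1 := fun x => by rw [← map_mul, inv_mul_cancel, map_one]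
  refine ⟨fun y => if y.1 = y.2 then 1 else 0, fun y => if y.1 = y.2 then (Fintype.card ι : k)⁻¹ else 0, ?_, ?_, ?_⟩
  · intro x
    ext ⟨i, i'⟩
    show ∑ y : ι × ι, (u x ⊗ₖ (u x⁻¹).transpose) (i, i') y * (if y.1 = y.2 then 1 else 0) = if i = i' then 1 else 0
    rw [Fintype.sum_prod_type]
    have e : ∀ y : ι, ∑ y' : ι, (u x ⊗ₖ (u x⁻¹).transpose) (i, i') (y, y') * (if y = y' then (1 : k) else 0) = u x i y * u x⁻¹ y i' := by
      intro y
      rw [Finset.sum_eq_single y]
      · rw [if_pos rfl, mul_one, Matrix.kroneckerMap_apply, Matrix.transpose_apply]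
      · intro y' _ hy'
        rw [if_neg (Ne.symm hy'), mul_zero]
      · intro hy
        exact absurd (Finset.mem_univ y) hy
    simp only [e]
    rw [← Matrix.mul_apply, hinv, Matrix.one_apply]
  · intro x
    ext ⟨i, i'⟩
    show ∑ y : ι × ι, (if y.1 = y.2 then (Fintype.card ι : k)⁻¹ else 0) * (u x ⊗ₖ (u x⁻¹).transpose) y (i, i') = if i = i' then (Fintype.card ι : k)⁻¹ else 0
    rw [Fintype.sum_prod_type]
    have e : ∀ y : ι, ∑ y' : ι, (if y = y' then (Fintype.card ι : k)⁻¹ else 0) * (u x ⊗ₖ (u x⁻¹).transpose) (y, y') (i, i') = (Fintype.card ι : k)⁻¹ * (u x⁻¹ i' y * u x y i) := by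
      intro y
      rw [Finset.sum_eq_single y]
      · rw [if_pos rfl, Matrix.kroneckerMap_apply, Matrix.transpose_apply]
        ring
      · intro y' _ hy'
        rw [if_neg (Ne.symm hy'), zero_mul]
      · intro hy
        exact absurd (Finset.mem_univ y) hy
    simp only [e]
    rw [← Finset.mul_sum, ← Matrix.mul_apply, hinv', Matrix.one_apply]
    by_cases h : i = i'
    · rw [if_pos h, if_pos h.symm, mul_one]
    · rw [if_neg h, if_neg (Ne.symm h), mul_zero]
  · show ∑ y : ι × ι, (if y.1 = y.2 then (Fintype.card ι : k)⁻¹ else 0) * (if y.1 = y.2 then 1 else 0) = 1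
    rw [Fintype.sum_prod_type]
    have e : ∀ y : ι, ∑ y' : ι, (if y = y' then (Fintype.card ι : k)⁻¹ else 0) * (if y = y' then (1 : k) else 0) = (Fintype.card ι : k)⁻¹ := by
      intro y
      rw [Finset.sum_eq_single y]
      · rw [if_pos rfl, if_pos rfl, mul_one]
      · intro y' _ hy'
        rw [if_neg (Ne.symm hy'), zero_mul]
      · intro hy
        exact absurd (Finset.mem_univ y) hy
    simp only [e]
    rw [Finset.sum_const, Finset.card_univ, nsmul_eq_mul, mul_inv_cancel₀ hn]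

/-- Duals: `OneAt`. -/
theorem oneAt_du (u : P →* Matrix ι ι k) (Q : Subgroup P) (h : OneAt u Q) : OneAt (du u) Q := by
  have hc : ∀ φ, Cent (du u) Q φ → Cent u Q φ.transpose := by
    intro φ hφ x hx
    have h1 := congrArg Matrix.transpose (hφ x⁻¹ (Q.inv_mem hx))
    have h2 : (du u) x⁻¹ = (u x).transpose := by
      show (u (x⁻¹)⁻¹).transpose = _
      rw [inv_inv]
    rw [h2, Matrix.transpose_mul, Matrix.transpose_mul, Matrix.transpose_transpose] at h1
    exact h1.symm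
  intro φ ψ hφ hψ
  have h1 := h _ _ (hc ψ hψ) (hc φ hφ)
  rw [← Matrix.transpose_mul, Matrix.trace_transpose, Matrix.trace_transpose, Matrix.trace_transpose] at h1
  rw [h1, mul_comm]

end Any

variable {p : ℕ} [Fact p.Prime] {k : Type} [Field k] [IsAlgClosed k] [CharP k p] {P : Type} [CommGroup P] [Finite P]
variable {ι κ : Type} [Fintype ι] [DecidableEq ι] [Fintype κ] [DecidableEq κ]

theorem card_prod_ne (hn : (Fintype.card ι : k) ≠ 0) (hm : (Fintype.card κ : k) ≠ 0) : (Fintype.card (ι × κ) : k) ≠ 0 := by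
  rw [Fintype.card_prod, Nat.cast_mul]
  exact mul_ne_zero hn hm

/-- `Good` for a tensor product. -/
theorem good_kr (hP : ∀ x : P, ∃ a : ℕ, x ^ (p ^ a) = 1) {u : P →* Matrix ι ι k} {v : P →* Matrix κ κ k} (hF : Framed u) (hn : (Fintype.card ι : k) ≠ 0)
    (hG : Framed v) (hm : (Fintype.card κ : k) ≠ 0) (Q : Subgroup P) (h1 : Good u Q) (h2 : Good v Q) : Good (kr u v) Q := by
  obtain ⟨m, u', b, hs⟩ := exists_slash hP hF hn Q
  obtain ⟨m', v', c, ht⟩ := exists_slash hP hG hm Q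
  obtain ⟨d, hd⟩ := slash_kron hP hn hm hF hG hs ht
  rw [good_iff hP (card_prod_ne hn hm) (framed_kr hF hG) hd]
  exact hasTriv_kr ((good_iff hP hn hF hs).1 h1) ((good_iff hP hm hG ht).1 h2)

/-- `OneAt` for a tensor product. -/
theorem oneAt_kr (hP : ∀ x : P, ∃ a : ℕ, x ^ (p ^ a) = 1) {u : P →* Matrix ι ι k} {v : P →* Matrix κ κ k} (hF : Framed u) (hn : (Fintype.card ι : k) ≠ 0)
    (hG : Framed v) (hm : (Fintype.card κ : k) ≠ 0) (Q : Subgroup P) (h1 : OneAt u Q) (h2 : OneAt v Q) : OneAt (kr u v) Q := by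
  obtain ⟨m, u', b, hs⟩ := exists_slash hP hF hn Q
  obtain ⟨m', v', c, ht⟩ := exists_slash hP hG hm Q
  obtain ⟨d, hd⟩ := slash_kron hP hn hm hF hG hs ht
  rw [oneAt_iff (card_prod_ne hn hm) hd, Fintype.card_prod, (oneAt_iff hn hs).1 h1, (oneAt_iff hm ht).1 h2]

/-- Duals: `Good`. -/
theorem good_du (hP : ∀ x : P, ∃ a : ℕ, x ^ (p ^ a) = 1) (u : P →* Matrix ι ι k) (hF : Framed u) (hn : (Fintype.card ι : k) ≠ 0) (Q : Subgroup P) (h : Good u Q) : Good (du u) Q := by
  obtain ⟨m, u', b, hs⟩ := exists_slash hP hF hn Q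
  obtain ⟨d, hd⟩ := slash_dual hs
  rw [good_iff hP hn (framed_dual hF) hd]
  exact hasTriv_du ((good_iff hP hn hF hs).1 h)

/-- `u ⊗ (slash of u at Q)*` is good at `Q`. -/
theorem good_kr_du (hP : ∀ x : P, ∃ a : ℕ, x ^ (p ^ a) = 1) {u : P →* Matrix ι ι k} (hF : Framed u) (hn : (Fintype.card ι : k) ≠ 0) (Q : Subgroup P)
    {u' : P →* Matrix κ κ k} {b : Matrix ι ι k →ₗ[k] Matrix κ κ k} (hs : IsSlash u Q u' b) : Good (kr u (du u')) Q := by
  have hm : (Fintype.card κ : k) ≠ 0 := hs.card_ne hn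
  have hF' : Framed (du u') := framed_dual (hs.framed hP hn hF)
  have htriv : ∀ x ∈ Q, (du u') x = 1 := by
    intro x hx
    show (u' x⁻¹).transpose = 1
    rw [hs.triv hP (Q.inv_mem hx), Matrix.transpose_one]
  obtain ⟨d, hd⟩ := slash_kron hP hn hm hF hF' hs (isSlash_self (du u') htriv)
  rw [good_iff hP (card_prod_ne hn hm) (framed_kr hF hF') hd]
  exact hasTriv_kr_du hm

end Pool.Agent.Lib.H77S
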