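import Pool.Agent.Lib.H77S.PG1

/-! H77S, PG2: renumbering of the basis, an induction principle for `piRep`. -/

open scoped BigOperators Kronecker

noncomputable section

namespace Pool.Agent.Lib.H77S

variable {k : Type} [Field k] {P : Type} [CommGroup P]
variable {ι κ : Type} [Fintype ι] [DecidableEq ι] [Fintype κ] [DecidableEq κ]

/-- `Cent` after renumbering. -/
theorem cent_sub (e : ι ≃ κ) {u : P →* Matrix ι ι k} {v : P →* Matrix κ κ k} (h : ∀ x, v x = (u x).submatrix e.symm e.symm) {Q : Subgroup P} {φ : Matrix κ κ k}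
    (hφ : Cent v Q φ) : Cent u Q (φ.submatrix e e) := by
  intro x hx
  have h1 : (v x * φ).submatrix e e = (φ * v x).submatrix e e := congrArg (fun M : Matrix κ κ k => M.submatrix e e) (hφ x hx)
  rw [← Matrix.submatrix_mul_equiv _ _ e e e, ← Matrix.submatrix_mul_equiv _ _ e e e, h, Matrix.submatrix_submatrix] at h1
  have h2 : (u x).submatrix (e.symm ∘ e) (e.symm ∘ e) = u x := by
    rw [Equiv.symm_comp_self]
    rfl
  rw [h2] at h1
  exact h1

/-- The trace after renumbering. -/
theorem trace_sub (e : ι ≃ κ) (φ : Matrix κ κ k) : Matrix.trace (φ.submatrix e e) = Matrix.trace φ := by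
  show ∑ i, φ (e i) (e i) = ∑ j, φ j j
  exact Equiv.sum_comp e (fun j => φ j j)

/-- `Cent` before renumbering. -/
theorem cent_sub' (e : ι ≃ κ) {u : P →* Matrix ι ι k} {v : P →* Matrix κ κ k} (h : ∀ x, v x = (u x).submatrix e.symm e.symm) {Q : Subgroup P} {φ : Matrix ι ι k}
    (hφ : Cent u Q φ) : Cent v Q (φ.submatrix e.symm e.symm) := by
  intro x hx
  rw [h, Matrix.submatrix_mul_equiv, Matrix.submatrix_mul_equiv, hφ x hx]

/-- `Framed` does not depend on the numbering. -/
theorem framed_re (e : ι ≃ κ) {u : P →* Matrix ι ι k} {v : P →* Matrix κ κ k} (h : ∀ x, v x = (u x).submatrix e.symm e.symm) (hF : Framed u) : Framed v := by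
  refine framed_sub hF (i := (1 : Matrix ι ι k).submatrix id e.symm) (j := (1 : Matrix ι ι k).submatrix e.symm id) ?_ ?_ ?_
  · have e0 := Matrix.submatrix_mul_equiv (1 : Matrix ι ι k) 1 e.symm (Equiv.refl ι) e.symm
    rw [mul_one, Matrix.submatrix_one_equiv] at e0
    exact e0
  · intro x
    rw [h]
    have e1 : u x * (1 : Matrix ι ι k).submatrix id e.symm = (u x).submatrix id e.symm := by
      have := Matrix.submatrix_mul_equiv (u x) 1 id (Equiv.refl ι) e.symm
      rw [mul_one] at this
      exact this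
    have e2 : (1 : Matrix ι ι k).submatrix id e.symm * (u x).submatrix e.symm e.symm = (u x).submatrix id e.symm := by
      rw [Matrix.submatrix_mul_equiv, one_mul]
    rw [e1, e2]
  · intro x
    rw [h]
    have e1 : (1 : Matrix ι ι k).submatrix e.symm id * u x = (u x).submatrix e.symm id := by
      have := Matrix.submatrix_mul_equiv 1 (u x) e.symm (Equiv.refl ι) id
      rw [one_mul] at this
      exact this
    have e2 : (u x).submatrix e.symm e.symm * (1 : Matrix ι ι k).submatrix e.symm id = (u x).submatrix e.symm id := by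
      rw [Matrix.submatrix_mul_equiv, mul_one]
    rw [e1, e2]

/-- `OneAt` does not depend on the numbering. -/
theorem oneAt_re (e : ι ≃ κ) {u : P →* Matrix ι ι k} {v : P →* Matrix κ κ k} (h : ∀ x, v x = (u x).submatrix e.symm e.symm) {Q : Subgroup P} (h1 : OneAt u Q) : OneAt v Q := by
  intro φ ψ hφ hψ
  have h2 := h1 _ _ (cent_sub e h hφ) (cent_sub e h hψ)
  rw [Matrix.submatrix_mul_equiv, trace_sub, trace_sub, trace_sub, Fintype.card_congr e] at h2
  exact h2

/-- `Good` does not depend on the numbering. -/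
theorem good_re (e : ι ≃ κ) {u : P →* Matrix ι ι k} {v : P →* Matrix κ κ k} (h : ∀ x, v x = (u x).submatrix e.symm e.symm) {Q : Subgroup P} (h1 : Good u Q) : Good v Q := by
  obtain ⟨j, hj, hj0, hj1⟩ := h1
  refine ⟨j.submatrix e.symm e.symm, cent_sub' e h hj, ?_, ?_⟩
  · rw [trace_sub e.symm]
    exact hj0
  · intro φ hφ
    obtain ⟨c, hc⟩ := hj1 _ (cent_sub e h hφ)
    refine ⟨c, fun ψ hψ => ?_⟩
    have h2 := hc _ (cent_sub e h hψ)
    have e3 : ∀ χ : Matrix κ κ k, χ = (χ.submatrix e e).submatrix e.symm e.symm := by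
      intro χ
      rw [Matrix.submatrix_submatrix, Equiv.self_comp_symm]
      rfl
    rw [e3 φ, e3 ψ, Matrix.submatrix_mul_equiv, Matrix.submatrix_mul_equiv, Matrix.submatrix_mul_equiv, Matrix.submatrix_mul_equiv, trace_sub e.symm, trace_sub e.symm]
    exact h2

/-- Induction principle for `piRep`: a property that is invariant under renumbering and stable under tensor products and holds for the
one-dimensional trivial representation. -/
theorem pi_ind (C : ∀ (ι : Type) [Fintype ι] [DecidableEq ι], (P →* Matrix ι ι k) → Prop)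
    (hre : ∀ (ι κ : Type) [Fintype ι] [DecidableEq ι] [Fintype κ] [DecidableEq κ] (e : ι ≃ κ) (u : P →* Matrix ι ι k) (v : P →* Matrix κ κ k),
      (∀ x, v x = (u x).submatrix e.symm e.symm) → C ι u → C κ v)
    (hkr : ∀ (ι κ : Type) [Fintype ι] [DecidableEq ι] [Fintype κ] [DecidableEq κ] (u : P →* Matrix ι ι k) (v : P →* Matrix κ κ k), C ι u → C κ v → C (ι × κ) (kr u v))
    (h1 : ∀ u : P →* Matrix Unit Unit k, (∀ x, u x = 1) → C Unit u)
    {κ : Type} [Fintype κ] [DecidableEq κ] {O : Type} [Fintype O] [DecidableEq O] (E : O → P →* Matrix κ κ k) (hE : ∀ o, C κ (E o)) :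
    C (O → κ) (piRep E) := by
  have hfin : ∀ (n : ℕ) (E : Fin n → P →* Matrix κ κ k), (∀ o, C κ (E o)) → C (Fin n → κ) (piRep E) := by
    intro n
    induction n with
    | zero =>
      intro E _
      refine hre Unit (Fin 0 → κ) (Equiv.ofUnique Unit (Fin 0 → κ)) 1 (piRep E) ?_ (h1 1 fun x => rfl)
      intro x
      ext i j
      have hij : i = j := Subsingleton.elim i j
      subst hij
      show ∏ o : Fin 0, E o x (i o) (i o) = ((1 : P →* Matrix Unit Unit k) x).submatrix _ _ i i
      rw [Finset.univ_eq_empty, Finset.prod_empty, Matrix.submatrix_apply]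
      show (1 : k) = (1 : Matrix Unit Unit k) _ _
      rw [Matrix.one_apply_eq]
    | succ n ih =>
      intro E hE
      have hk := hkr κ (Fin n → κ) (E 0) (piRep fun o => E o.succ) (hE 0) (ih _ fun o => hE o.succ)
      refine hre (κ × (Fin n → κ)) (Fin (n + 1) → κ) (Fin.consEquiv fun _ => κ) _ (piRep E) ?_ hk
      intro x
      ext i j
      show ∏ o : Fin (n + 1), E o x (i o) (j o) = (E 0 x ⊗ₖ piMat fun o => E (Fin.succ o) x) (i 0, fun o => i o.succ) (j 0, fun o => j o.succ)
      rw [Fin.prod_univ_succ, Matrix.kroneckerMap_apply]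
      rfl
  let e := Fintype.equivFin O
  refine hre (Fin (Fintype.card O) → κ) (O → κ) (Equiv.arrowCongr e.symm (Equiv.refl κ)) (piRep fun o => E (e.symm o)) (piRep E) ?_ (hfin _ _ fun o => hE _)
  intro x
  ext i j
  show ∏ o : O, E o x (i o) (j o) = ∏ o : Fin (Fintype.card O), E (e.symm o) x (i (e.symm o)) (j (e.symm o))
  exact (Equiv.prod_comp e.symm (fun o => E o x (i o) (j o))).symm

/-- The trivial one-dimensional representation is framed. -/
theorem framed_unit (u : P →* Matrix Unit Unit k) (h : ∀ x, u x = 1) : Framed u := by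
  refine ⟨Unit, inferInstance, { smul := fun _ x => x, one_smul := fun _ => rfl, mul_smul := fun _ _ _ => rfl }, ⟨⟨fun _ => 1, fun _ => Matrix.traceLinearMap Unit k k, ?_, ?_, ?_⟩⟩⟩
  · intro x β
    rw [h, mul_one]
  · intro x β φ ψ hh
    rw [h, one_mul, mul_one] at hh
    rw [hh]
  · intro φ
    ext i j
    simp [Matrix.trace]

/-- `OneAt` for the trivial one-dimensional representation. -/
theorem oneAt_unit (u : P →* Matrix Unit Unit k) (Q : Subgroup P) : OneAt u Q := by
  intro φ ψ _ _
  simp [Matrix.trace, Matrix.mul_apply]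

/-- `Good` for the trivial one-dimensional representation. -/
theorem good_unit (u : P →* Matrix Unit Unit k) (Q : Subgroup P) : Good u Q := by
  refine ⟨1, ?_, ?_, ?_⟩
  · intro x _
    rw [one_mul, mul_one]
  · simp [Matrix.trace]
  · intro φ _
    refine ⟨φ () (), fun ψ _ => ?_⟩
    simp [Matrix.trace, Matrix.mul_apply]

/-- `piRep E` after one factor is split off. -/
theorem pi_split {O : Type} [Fintype O] [DecidableEq O] (E : O → P →* Matrix κ κ k) (o : O) (x : P) :
    piRep E x = (kr (E o) (piRep fun q : {q // q ≠ o} => E q) x).submatrix (Equiv.funSplitAt o κ).symm.symm (Equiv.funSplitAt o κ).symm.symm := by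
  ext i j
  show ∏ q : O, E q x (i q) (j q) = (E o x ⊗ₖ piMat fun q : {q // q ≠ o} => E q x) (i o, fun q => i q) (j o, fun q => j q)
  rw [Fintype.prod_eq_mul_prod_subtype_ne _ o, Matrix.kroneckerMap_apply]
  rfl

end Pool.Agent.Lib.H77S
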