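import Pool.Agent.Lib.H77S.A10
import Pool.Agent.Lib.H77S.A11
import Pool.Agent.Lib.H77S.A5
import Pool.Agent.Lib.H77S.PG1
import Pool.Agent.Lib.H77S.PG2

/-! H77S, PG (interface, design helper90): `Framed`, `OneAt`, `Good` for tensor products, duals, twists and families
(the statements on duals, `good_du` and `oneAt_du`, are in PG1). -/

open scoped BigOperators

noncomputable section

namespace Pool.Agent.Lib.H77S

variable {p : ℕ} [Fact p.Prime] {k : Type} [Field k] [IsAlgClosed k] [CharP k p] {P : Type} [CommGroup P] [Finite P]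
variable {ι κ : Type} [Fintype ι] [DecidableEq ι] [Fintype κ] [DecidableEq κ]

/-- `piRep E` is framed. -/
theorem framed_pi {O : Type} [Fintype O] [DecidableEq O] (E : O → P →* Matrix κ κ k) (hE : ∀ o, Framed (E o)) : Framed (piRep E) :=
  pi_ind (fun _ _ _ u => Framed u) (fun _ _ _ _ _ _ e _ _ h hF => framed_re e h hF) (fun _ _ _ _ _ _ _ _ h h' => framed_kr h h')
    (fun u h => framed_unit u h) E hE

/-- The dimension of `piRep E`. -/
theorem card_pi_ne {O : Type} [Fintype O] [DecidableEq O] (hm : (Fintype.card κ : k) ≠ 0) : (Fintype.card (O → κ) : k) ≠ 0 := by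
  rw [Fintype.card_fun, Nat.cast_pow]
  exact pow_ne_zero _ hm

/-- `OneAt` for `piRep E`. -/
theorem oneAt_pi (hP : ∀ x : P, ∃ a : ℕ, x ^ (p ^ a) = 1) {O : Type} [Fintype O] [DecidableEq O]
    (E : O → P →* Matrix κ κ k) (hE : ∀ o, Framed (E o)) (hm : (Fintype.card κ : k) ≠ 0) (Q : Subgroup P) (h2 : ∀ o, OneAt (E o) Q) :
    OneAt (piRep E) Q :=
  (pi_ind (fun ι _ _ u => Framed u ∧ (Fintype.card ι : k) ≠ 0 ∧ OneAt u Q)
    (fun _ _ _ _ _ _ e _ _ h hF => ⟨framed_re e h hF.1, by rw [← Fintype.card_congr e]; exact hF.2.1, oneAt_re e h hF.2.2⟩)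
    (fun _ _ _ _ _ _ _ _ h h' => ⟨framed_kr h.1 h'.1, card_prod_ne h.2.1 h'.2.1, oneAt_kr hP h.1 h.2.1 h'.1 h'.2.1 Q h.2.2 h'.2.2⟩)
    (fun u h => ⟨framed_unit u h, by simp, oneAt_unit u Q⟩) E fun o => ⟨hE o, hm, h2 o⟩).2.2

/-- `Good` for `piRep E`. -/
theorem good_pi (hP : ∀ x : P, ∃ a : ℕ, x ^ (p ^ a) = 1) {O : Type} [Fintype O] [DecidableEq O]
    (E : O → P →* Matrix κ κ k) (hE : ∀ o, Framed (E o)) (hm : (Fintype.card κ : k) ≠ 0) (Q : Subgroup P) (h2 : ∀ o, Good (E o) Q) :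
    Good (piRep E) Q :=
  (pi_ind (fun ι _ _ u => Framed u ∧ (Fintype.card ι : k) ≠ 0 ∧ Good u Q)
    (fun _ _ _ _ _ _ e _ _ h hF => ⟨framed_re e h hF.1, by rw [← Fintype.card_congr e]; exact hF.2.1, good_re e h hF.2.2⟩)
    (fun _ _ _ _ _ _ _ _ h h' => ⟨framed_kr h.1 h'.1, card_prod_ne h.2.1 h'.2.1, good_kr hP h.1 h.2.1 h'.1 h'.2.1 Q h.2.2 h'.2.2⟩)
    (fun u h => ⟨framed_unit u h, by simp, good_unit u Q⟩) E fun o => ⟨hE o, hm, h2 o⟩).2.2

/-- For a family `E` of framed representations (dimensions not `0` in `k`) and a framed `u`: `kr u (piRep E)` is framed. -/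
theorem framed_kr_pi {O : Type} [Fintype O] [DecidableEq O] (u : P →* Matrix ι ι k) (hF : Framed u) (E : O → P →* Matrix κ κ k) (hE : ∀ o, Framed (E o)) :
    Framed (kr u (piRep E)) :=
  framed_kr hF (framed_pi E hE)

/-- `OneAt` for `kr u (piRep E)`. -/
theorem oneAt_kr_pi (hP : ∀ x : P, ∃ a : ℕ, x ^ (p ^ a) = 1) {O : Type} [Fintype O] [DecidableEq O] (u : P →* Matrix ι ι k) (hF : Framed u) (hn : (Fintype.card ι : k) ≠ 0)
    (E : O → P →* Matrix κ κ k) (hE : ∀ o, Framed (E o)) (hm : (Fintype.card κ : k) ≠ 0) (Q : Subgroup P) (h1 : OneAt u Q) (h2 : ∀ o, OneAt (E o) Q) :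
    OneAt (kr u (piRep E)) Q :=
  oneAt_kr hP hF hn (framed_pi E hE) (card_pi_ne hm) Q h1 (oneAt_pi hP E hE hm Q h2)

/-- `Good` for `kr u (piRep E)`: all factors good. -/
theorem good_kr_pi (hP : ∀ x : P, ∃ a : ℕ, x ^ (p ^ a) = 1) {O : Type} [Fintype O] [DecidableEq O] (u : P →* Matrix ι ι k) (hF : Framed u) (hn : (Fintype.card ι : k) ≠ 0)
    (E : O → P →* Matrix κ κ k) (hE : ∀ o, Framed (E o)) (hm : (Fintype.card κ : k) ≠ 0) (Q : Subgroup P) (h1 : Good u Q) (h2 : ∀ o, Good (E o) Q) :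
    Good (kr u (piRep E)) Q :=
  good_kr hP hF hn (framed_pi E hE) (card_pi_ne hm) Q h1 (good_pi hP E hE hm Q h2)

/-- `Good` for `kr u (piRep E)` when `E o₀` is the dual of the slash `u'` of `u` at `Q` and the other factors are good at `Q`. -/
theorem good_kr_pi_dual (hP : ∀ x : P, ∃ a : ℕ, x ^ (p ^ a) = 1) {O : Type} [Fintype O] [DecidableEq O] (u : P →* Matrix ι ι k) (hF : Framed u) (hn : (Fintype.card ι : k) ≠ 0)
    (E : O → P →* Matrix κ κ k) (hE : ∀ o, Framed (E o)) (hm : (Fintype.card κ : k) ≠ 0) (Q : Subgroup P) (o₀ : O) {u' : P →* Matrix κ κ k} {b : Matrix ι ι k →ₗ[k] Matrix κ κ k}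
    (hs : IsSlash u Q u' b) (h0 : E o₀ = du u') (h2 : ∀ o, o ≠ o₀ → Good (E o) Q) :
    Good (kr u (piRep E)) Q := by
  have hg1 : Good (kr u (E o₀)) Q := by
    rw [h0]
    exact good_kr_du hP hF hn Q hs
  have hF1 : Framed (kr u (E o₀)) := framed_kr hF (hE o₀)
  have hg2 : Good (piRep fun q : {q // q ≠ o₀} => E q) Q := good_pi hP (fun q : {q // q ≠ o₀} => E q) (fun q => hE q) hm Q fun q => h2 q.1 q.2
  have hF2 : Framed (piRep fun q : {q // q ≠ o₀} => E q) := framed_pi (fun q : {q // q ≠ o₀} => E q) fun q => hE q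
  have hg3 := good_kr hP hF1 (card_prod_ne hn hm) hF2 (card_pi_ne hm) Q hg1 hg2
  refine good_re ((Equiv.prodAssoc ι κ ({q // q ≠ o₀} → κ)).trans ((Equiv.refl ι).prodCongr (Equiv.funSplitAt o₀ κ).symm)) (v := kr u (piRep E)) ?_ hg3
  intro x
  ext ⟨i, i'⟩ ⟨j, j'⟩
  have h4 := congrFun (congrFun (pi_split E o₀ x) i') j'
  show u x i j * piRep E x i' j' = _
  rw [h4, Matrix.submatrix_apply, Matrix.submatrix_apply]
  show u x i j * (E o₀ x (i' o₀) (j' o₀) * (piRep fun q : {q // q ≠ o₀} => E q) x (fun q => i' q) (fun q => j' q)) =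
    (u x i j * E o₀ x (i' o₀) (j' o₀)) * (piRep fun q : {q // q ≠ o₀} => E q) x (fun q => i' q) (fun q => j' q)
  ring

end Pool.Agent.Lib.H77S
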