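import Pool.Agent.Lib.H77S.TI2

/-! H77S, TI (interface, design helper90): tensor induction. -/

open scoped BigOperators

noncomputable section

namespace Pool.Agent.Lib.H77S

private theorem sg_one {k : Type} [Field k] {O : Type} [Fintype O] [DecidableEq O] (d : k) : sg d (1 : Equiv.Perm O) = 1 := by
  unfold sg
  split_ifs
  · rfl
  · simp

private theorem sg_mul {k : Type} [Field k] {O : Type} [Fintype O] [DecidableEq O] (d : k) (s s' : Equiv.Perm O) : sg d (s * s') = sg d s * sg d s' := by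
  unfold sg
  split_ifs
  · rw [one_mul]
  · rw [Equiv.Perm.sign_mul]
    push_cast
    rfl

private theorem sg_sq {k : Type} [Field k] {O : Type} [Fintype O] [DecidableEq O] (d : k) (s : Equiv.Perm O) : sg d s * sg d s = 1 := by
  unfold sg
  split_ifs
  · rw [one_mul]
  · rcases Int.units_eq_one_or (Equiv.Perm.sign s) with h | h
    · rw [h]
      simp
    · rw [h]
      simp

/-- Tensor induction from `Γ0` to `Γ`, with the sign of the permutation of `Γ ⧸ Γ0` if `card κ = -1` in `k`. -/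
theorem tensor_ind {k : Type} [Field k] {P : Type} [CommGroup P]
    {Γ : Type} [Group Γ] [Finite Γ] (act : Γ →* MulAut P) (Γ0 : Subgroup Γ) [Fintype (Γ ⧸ Γ0)] [DecidableEq (Γ ⧸ Γ0)] {κ : Type} [Fintype κ] [DecidableEq κ] (hk : (Fintype.card κ : k) ^ 2 = 1)
    (u0 : P →* Matrix κ κ k) (π0 : Γ0 →* (Matrix κ κ k)ˣ) (hc0 : ∀ (g : Γ0) (x : P), (π0 g : Matrix κ κ k) * u0 x = u0 (act g x) * π0 g)
    (Z : Set P) (hZ : ∀ z ∈ Z, ∀ g, act g z ∈ Z) (htr : ∀ z ∈ Z, ∀ s : Γ0, act s z = z → Matrix.trace (π0 s : Matrix κ κ k) = (Fintype.card κ : k))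
    (t : Γ ⧸ Γ0 → Γ) (ht : ∀ ω, (QuotientGroup.mk (t ω) : Γ ⧸ Γ0) = ω) :
    ∃ πN : Γ →* (Matrix (Γ ⧸ Γ0 → κ) (Γ ⧸ Γ0 → κ) k)ˣ,
      (∀ g x, (πN g : Matrix (Γ ⧸ Γ0 → κ) (Γ ⧸ Γ0 → κ) k) * piRep (fun ω => tws u0 (act (t ω))) x = piRep (fun ω => tws u0 (act (t ω))) (act g x) * πN g) ∧
      ∀ z ∈ Z, ∀ s, act s z = z → Matrix.trace (πN s : Matrix (Γ ⧸ Γ0 → κ) (Γ ⧸ Γ0 → κ) k) = (Fintype.card (Γ ⧸ Γ0 → κ) : k) := by
  have hmem : ∀ (g : Γ) (o : Γ ⧸ Γ0), (t (g • o))⁻¹ * g * t o ∈ Γ0 := by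
    intro g o
    have h1 : (QuotientGroup.mk (t (g • o)) : Γ ⧸ Γ0) = QuotientGroup.mk (g * t o) := by
      rw [ht]
      conv_lhs => rw [← ht o]
      rfl
    rw [mul_assoc]
    exact QuotientGroup.eq.1 h1
  let γ : Γ → Γ ⧸ Γ0 → Γ0 := fun g o => ⟨(t (g • o))⁻¹ * g * t o, hmem g o⟩
  have hγ : ∀ g o, ((γ g o : Γ0) : Γ) = (t (g • o))⁻¹ * g * t o := fun g o => rfl
  have hγ1 : ∀ o, γ 1 o = 1 := by
    intro o
    refine Subtype.ext ?_
    rw [hγ, one_smul, mul_one, inv_mul_cancel]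
    rfl
  have hγm : ∀ g g' o, γ (g * g') o = γ g (g' • o) * γ g' o := by
    intro g g' o
    refine Subtype.ext ?_
    rw [Subgroup.coe_mul, hγ, hγ, hγ, mul_smul]
    group
  let s0 : Γ →* Equiv.Perm (Γ ⧸ Γ0) := MulAction.toPermHom Γ (Γ ⧸ Γ0)
  have hs0 : ∀ g o, s0 g o = g • o := fun g o => rfl
  let h0 : Γ → Γ ⧸ Γ0 → Matrix κ κ k := fun g o => (π0 (γ g o) : Matrix κ κ k)
  have hh0 : ∀ g o, h0 g o = (π0 (γ g o) : Matrix κ κ k) := fun g o => rfl
  have hNmul : ∀ g g', twMat (s0 (g * g')) (h0 (g * g')) = twMat (s0 g) (h0 g) * twMat (s0 g') (h0 g') := by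
    intro g g'
    rw [twMat_mul, map_mul]
    congr 1
    funext o
    rw [hh0, hh0, hh0, hγm, map_mul, Units.val_mul, hs0]
  have hNone : twMat (s0 1) (h0 1) = 1 := by
    have h1 : h0 1 = fun _ => (1 : Matrix κ κ k) := by
      funext o
      rw [hh0, hγ1, map_one, Units.val_one]
    rw [h1, map_one, twMat_one]
  set d : k := (Fintype.card κ : k) with hd
  let N : Γ →* Matrix (Γ ⧸ Γ0 → κ) (Γ ⧸ Γ0 → κ) k :=
    { toFun := fun g => sg d (s0 g) • twMat (s0 g) (h0 g)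
      map_one' := by
        rw [hNone, map_one, sg_one, one_smul]
      map_mul' := by
        intro g g'
        rw [hNmul, map_mul, sg_mul, Matrix.smul_mul, Matrix.mul_smul, smul_smul] }
  have hN : ∀ g, N g = sg d (s0 g) • twMat (s0 g) (h0 g) := fun g => rfl
  refine ⟨N.toHomUnits, ?_, ?_⟩
  · intro g x
    rw [MonoidHom.coe_toHomUnits, hN, Matrix.smul_mul, Matrix.mul_smul]
    congr 1
    show twMat (s0 g) (h0 g) * piMat (fun ω => tws u0 (act (t ω)) x) = piMat (fun ω => tws u0 (act (t ω)) (act g x)) * twMat (s0 g) (h0 g)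
    rw [twMat_piMat, piMat_twMat]
    congr 1
    funext o
    show (π0 (γ g o) : Matrix κ κ k) * u0 ((act (t o))⁻¹ x) = u0 ((act (t (g • o)))⁻¹ (act g x)) * (π0 (γ g o) : Matrix κ κ k)
    rw [hc0]
    congr 2
    rw [hγ, ← map_inv, ← map_inv, ← MulAut.mul_apply, ← MulAut.mul_apply, ← map_mul, ← map_mul]
    congr 2
    group
  · intro z hz s hsz
    have hpow : ∀ r : ℕ, act (s ^ r) z = z := by
      intro r
      induction r with
      | zero => rw [pow_zero, map_one]; rfl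
      | succ r ih => rw [pow_succ, map_mul, MulAut.mul_apply, hsz, ih]
    have hloop : ∀ (r : ℕ) (o : Γ ⧸ Γ0), loopP (s0 s) (h0 s) r o = (π0 (γ (s ^ r) o) : Matrix κ κ k) := by
      intro r o
      induction r with
      | zero => rw [pow_zero, hγ1, map_one]; rfl
      | succ r ih =>
        rw [loopP, ih, hh0, pow_succ' s r, hγm, map_mul, Units.val_mul, ← map_pow, hs0]
    have hN2 := trace_twMat_loops (k := k) (ι := κ) (O := Γ ⧸ Γ0) (by rw [← pow_two]; exact hk) _ (s0 s) (h0 s) le_rfl (by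
      intro r o hro
      rw [hloop]
      have hro' : s ^ r • o = o := by
        rw [← map_pow] at hro
        exact hro
      refine htr (act (t o)⁻¹ z) (hZ z hz _) _ ?_
      rw [hγ, hro', ← MulAut.mul_apply, ← map_mul]
      have e : (t o)⁻¹ * s ^ r * t o * (t o)⁻¹ = (t o)⁻¹ * s ^ r := by group
      rw [e, map_mul, MulAut.mul_apply, hpow])
    rw [MonoidHom.coe_toHomUnits, hN, Matrix.trace_smul, hN2, smul_eq_mul, ← mul_assoc, sg_sq, one_mul, Fintype.card_fun]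
    push_cast
    rfl

end Pool.Agent.Lib.H77S
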