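import Pool.Agent.Lib.H77S.CA
import Pool.Agent.Lib.H77S.PG
import Pool.Agent.Lib.H77S.TI
import Pool.Agent.Lib.H77S.B4
import Pool.Agent.Lib.H77S.B5

/-! H77S, MB: the twisting step. -/

open scoped BigOperators

noncomputable section

namespace Pool.Agent.Lib.H77S

variable {p : ℕ} [Fact p.Prime] {k : Type} [Field k] [IsAlgClosed k] [CharP k p] {P : Type} [CommGroup P] [Finite P]

/-- The twisting step. `Q₀ ≠ ⊥` is bad, every `R > Q₀` is good. Then there are `κ`, `v`, a homomorphism `πN` compatible with `v`, with the right traces, such that `kr u v` is framed, of dimension not `0`, `OneAt` at all `z ∈ Z`, `Good` wherever `u` is good, and `Good` at `Q₀`.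
Proof. `Γ0 = {g | act g Q₀ = Q₀}`. Slash `(m, u0, b)` of `u` at `Q₀` (`exists_slash`): framed, `card ≠ 0`, `OneAt u0 (zpowers z)` (`oneAt_slash`), trivial on `Q₀` (`triv`), `Good u0 R` for `R > Q₀` (`good_slash`, `Q₀ ⊔ R = R`). `slash_proj` gives `β`; `caseA` for `Γ0`, `K = Q₀` gives `π0` with traces.
The dual: `π0' g = ((π0 g)⁻¹)ᵀ`, compatible with `du u0`, `trace (π0' s) = trace (π0 s⁻¹)`. `card_sq` for `u0` (`OneAt u0 ⊤` by `oneAt_mono`). `t = Quotient.out`, `E ω = tws (du u0) (act (t ω))`, `v = piRep E`, `tensor_ind` (with `du u0`, `π0'`).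
`tws u0 (act (t ω))` is the slash of `u` at `Q_ω = Q₀.map (act (t ω))` (`IsSlash.conj` with `g = α (t ω)`), `E ω` is its dual. So: framed (`framed_dual`, `framed_tws`, `framed_kr_pi`); `OneAt (E ω) (zpowers z)` (`oneAt_slash`, `oneAt_du`), `oneAt_kr_pi`;
if `Good u R` then `Good u (Q_ω ⊔ R)` (`good_mono`), so `Good` for the slash at `R` (`good_slash`), for `E ω` (`good_du`), and `good_kr_pi`. At `Q₀`: `ω₀ = 1` (the class of `Γ0`; `t ω₀ ∈ Γ0`, so `Q_{ω₀} = Q₀`): `good_kr_pi_dual` with the slash `tws u0 (act (t ω₀))` of `u` at `Q₀`; for `ω ≠ ω₀`: `Q_ω ≠ Q₀` (else `t ω ∈ Γ0`), of the same order, so `Q_ω ⊔ Q₀ > Q₀` is good, `good_slash`, `good_du`. -/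
theorem twist_step (hP : ∀ x : P, ∃ a : ℕ, x ^ (p ^ a) = 1)
    {Γ : Type} [Group Γ] [Finite Γ] (hΓ : ¬ p ∣ Nat.card Γ) (act : Γ →* MulAut P) (Z : Set P) (hZ0 : Z.Nonempty) (hZ : ∀ z ∈ Z, ∀ g, act g z ∈ Z)
    {ι : Type} [Fintype ι] [DecidableEq ι] (u : P →* Matrix ι ι k) (hF : Framed u) (hn : (Fintype.card ι : k) ≠ 0) (hone : ∀ z ∈ Z, OneAt u (Subgroup.zpowers z))
    (α : Γ → (Matrix ι ι k)ˣ) (hα : IsProj α) (hc : Comp act u α) (Q₀ : Subgroup P) (hgood : ∀ R, Q₀ < R → Good u R) :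
    ∃ (κ : Type) (_ : Fintype κ) (_ : DecidableEq κ) (v : P →* Matrix κ κ k) (πN : Γ →* (Matrix κ κ k)ˣ),
      (Fintype.card κ : k) ≠ 0 ∧ (∀ g x, (πN g : Matrix κ κ k) * v x = v (act g x) * πN g) ∧
      (∀ z ∈ Z, ∀ s, act s z = z → Matrix.trace (πN s : Matrix κ κ k) = (Fintype.card κ : k)) ∧
      Framed (kr u v) ∧ (∀ z ∈ Z, OneAt (kr u v) (Subgroup.zpowers z)) ∧ (∀ R, Good u R → Good (kr u v) R) ∧ Good (kr u v) Q₀ := by
  classical
  have hmap : ∀ (g h : Γ) (S : Subgroup P),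
      S.map (act (g * h)).toMonoidHom = (S.map (act h).toMonoidHom).map (act g).toMonoidHom := by
    intro g h S
    rw [Subgroup.map_map, map_mul]
    rfl
  have hmap1 : ∀ S : Subgroup P, S.map (act 1).toMonoidHom = S := by
    intro S
    rw [map_one]
    exact Subgroup.map_id S
  let Γ0 : Subgroup Γ :=
    { carrier := {g | Q₀.map (act g).toMonoidHom = Q₀}
      mul_mem' := by
        intro g h hg hh
        change Q₀.map (act g).toMonoidHom = Q₀ at hg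
        change Q₀.map (act h).toMonoidHom = Q₀ at hh
        change Q₀.map (act (g * h)).toMonoidHom = Q₀
        rw [hmap, hh, hg]
      one_mem' := hmap1 Q₀
      inv_mem' := by
        intro g hg
        change Q₀.map (act g).toMonoidHom = Q₀ at hg
        change Q₀.map (act g⁻¹).toMonoidHom = Q₀
        have h1 := hmap g⁻¹ g Q₀
        rw [inv_mul_cancel, hmap1, hg] at h1
        exact h1.symm }
  have hΓ0m : ∀ g, g ∈ Γ0 ↔ Q₀.map (act g).toMonoidHom = Q₀ := fun g => Iff.rfl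
  have hstab : ∀ g ∈ Γ0, ∀ x ∈ Q₀, act g x ∈ Q₀ := by
    intro g hg x hx
    have h1 : act g x ∈ Q₀.map (act g).toMonoidHom := Subgroup.mem_map_of_mem _ hx
    rwa [(hΓ0m g).1 hg] at h1
  obtain ⟨m, u0, b, hs⟩ := exists_slash hP hF hn Q₀
  have hF0 : Framed u0 := hs.framed hP hn hF
  have hm : (Fintype.card (Fin m) : k) ≠ 0 := hs.card_ne hn
  have hone0 : ∀ z ∈ Z, OneAt u0 (Subgroup.zpowers z) := fun z hz => oneAt_slash hP hn hF hs (hone z hz)
  have htriv0 : ∀ x ∈ Q₀, u0 x = 1 := fun x hx => hs.triv hP hx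
  have hgood0 : ∀ R, Q₀ < R → Good u0 R := by
    intro R hR
    refine good_slash hP hn hF hs ?_
    rw [sup_eq_right.2 hR.le]
    exact hgood R hR
  obtain ⟨β, hβ, hcβ⟩ := slash_proj hs act Γ0 hstab α hα hc
  have hΓ0 : ¬ p ∣ Nat.card Γ0 := fun h => hΓ (h.trans (Subgroup.card_subgroup_dvd_card Γ0))
  obtain ⟨π0, hπ0, htr0⟩ := caseA hP hΓ0 (act.comp Γ0.subtype) u0 hF0 hm Q₀ (fun g => hstab g g.2) htriv0 hgood0 Z hZ0 hone0 β hβ hcβ
  have hc0 : ∀ (g : Γ0) (x : P), (π0 g : Matrix (Fin m) (Fin m) k) * u0 x = u0 (act g x) * π0 g := by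
    intro g x
    obtain ⟨c, hcg⟩ := hπ0 g
    rw [hcg, Matrix.smul_mul, Matrix.mul_smul]
    congr 1
    exact hcβ g x
  -- the dual
  let π0' : Γ0 →* (Matrix (Fin m) (Fin m) k)ˣ :=
    { toFun := fun g => ⟨((π0 g)⁻¹ : (Matrix (Fin m) (Fin m) k)ˣ).val.transpose, (π0 g).val.transpose,
        by rw [← Matrix.transpose_mul, Units.mul_inv, Matrix.transpose_one],
        by rw [← Matrix.transpose_mul, Units.inv_mul, Matrix.transpose_one]⟩
      map_one' := by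
        refine Units.ext ?_
        simp
      map_mul' := by
        intro g h
        refine Units.ext ?_
        simp [Matrix.transpose_mul, mul_inv_rev] }
  have hπ' : ∀ g, (π0' g : Matrix (Fin m) (Fin m) k) = (((π0 g)⁻¹ : (Matrix (Fin m) (Fin m) k)ˣ) : Matrix (Fin m) (Fin m) k).transpose := fun g => rfl
  have hc0' : ∀ (g : Γ0) (x : P), (π0' g : Matrix (Fin m) (Fin m) k) * du u0 x = du u0 (act g x) * π0' g := by
    intro g x
    have h1 := hc0 g x⁻¹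
    have h2 : u0 x⁻¹ * (((π0 g)⁻¹ : (Matrix (Fin m) (Fin m) k)ˣ) : Matrix (Fin m) (Fin m) k) =
        (((π0 g)⁻¹ : (Matrix (Fin m) (Fin m) k)ˣ) : Matrix (Fin m) (Fin m) k) * u0 (act g x⁻¹) := by
      calc u0 x⁻¹ * (((π0 g)⁻¹ : (Matrix (Fin m) (Fin m) k)ˣ) : Matrix (Fin m) (Fin m) k)
          = (((π0 g)⁻¹ : (Matrix (Fin m) (Fin m) k)ˣ) : Matrix (Fin m) (Fin m) k) * ((π0 g : Matrix (Fin m) (Fin m) k) * u0 x⁻¹) *
            (((π0 g)⁻¹ : (Matrix (Fin m) (Fin m) k)ˣ) : Matrix (Fin m) (Fin m) k) := by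
            rw [← mul_assoc, Units.inv_mul, one_mul]
        _ = (((π0 g)⁻¹ : (Matrix (Fin m) (Fin m) k)ˣ) : Matrix (Fin m) (Fin m) k) * (u0 (act g x⁻¹) * (π0 g : Matrix (Fin m) (Fin m) k)) *
            (((π0 g)⁻¹ : (Matrix (Fin m) (Fin m) k)ˣ) : Matrix (Fin m) (Fin m) k) := by rw [h1]
        _ = (((π0 g)⁻¹ : (Matrix (Fin m) (Fin m) k)ˣ) : Matrix (Fin m) (Fin m) k) * u0 (act g x⁻¹) := by
            rw [mul_assoc, mul_assoc, Units.mul_inv, mul_one]
    rw [hπ']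
    change (((π0 g)⁻¹ : (Matrix (Fin m) (Fin m) k)ˣ) : Matrix (Fin m) (Fin m) k).transpose * (u0 x⁻¹).transpose =
      (u0 (act g x)⁻¹).transpose * (((π0 g)⁻¹ : (Matrix (Fin m) (Fin m) k)ˣ) : Matrix (Fin m) (Fin m) k).transpose
    rw [← Matrix.transpose_mul, ← Matrix.transpose_mul, h2, map_inv]
  have htr' : ∀ z ∈ Z, ∀ s : Γ0, act s z = z → Matrix.trace (π0' s : Matrix (Fin m) (Fin m) k) = (Fintype.card (Fin m) : k) := by
    intro z hz s hsz
    rw [hπ', Matrix.trace_transpose, ← map_inv]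
    refine htr0 z hz s⁻¹ ?_
    change act ((s⁻¹ : Γ0) : Γ) z = z
    rw [Subgroup.coe_inv, map_inv]
    conv_lhs => rw [← hsz]
    exact MulAut.inv_apply_self _ _ _
  obtain ⟨z₀, hz₀⟩ := hZ0
  have hk : (Fintype.card (Fin m) : k) ^ 2 = 1 := card_sq hP hF0 hm (oneAt_mono le_top (hone0 z₀ hz₀))
  have _ : Fintype (Γ ⧸ Γ0) := Fintype.ofFinite _
  let t : Γ ⧸ Γ0 → Γ := fun ω => Quotient.out ω
  have ht : ∀ ω, (QuotientGroup.mk (t ω) : Γ ⧸ Γ0) = ω := fun ω => Quotient.out_eq ω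
  obtain ⟨πN, hN1, hN2⟩ := tensor_ind act Γ0 hk (du u0) π0' hc0' Z hZ htr' t ht
  let E : Γ ⧸ Γ0 → P →* Matrix (Fin m) (Fin m) k := fun ω => tws (du u0) (act (t ω))
  have hE : ∀ ω, Framed (E ω) := fun ω => framed_tws (framed_dual hF0) _
  have hEd : ∀ ω, E ω = du (tws u0 (act (t ω))) := by
    intro ω
    refine MonoidHom.ext fun x => ?_
    change (u0 (((act (t ω))⁻¹ : MulAut P) x)⁻¹).transpose = (u0 (((act (t ω))⁻¹ : MulAut P) x⁻¹)).transpose
    rw [map_inv ((act (t ω))⁻¹ : MulAut P) x]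
  have hsω := fun ω : Γ ⧸ Γ0 => hs.conj (act (t ω)) (α (t ω)) (fun x => hc (t ω) x)
  have hgE : ∀ (ω : Γ ⧸ Γ0) (R : Subgroup P), Good u (Q₀.map (act (t ω)).toMonoidHom ⊔ R) → Good (E ω) R := by
    intro ω R hR
    rw [hEd]
    exact good_du hP _ ((hsω ω).framed hP hn hF) hm R (good_slash hP hn hF (hsω ω) hR)
  refine ⟨Γ ⧸ Γ0 → Fin m, inferInstance, inferInstance, piRep E, πN, ?_, hN1, hN2, framed_kr_pi u hF E hE, ?_, ?_, ?_⟩
  · rw [Fintype.card_fun, Nat.cast_pow]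
    exact pow_ne_zero _ hm
  · intro z hz
    refine oneAt_kr_pi hP u hF hn E hE hm _ (hone z hz) fun ω => ?_
    rw [hEd]
    exact oneAt_du _ _ (oneAt_slash hP hn hF (hsω ω) (hone z hz))
  · intro R hR
    exact good_kr_pi hP u hF hn E hE hm R hR fun ω => hgE ω R (good_mono le_sup_right hR)
  · set ω₀ : Γ ⧸ Γ0 := QuotientGroup.mk 1 with hω₀
    have hmem : ∀ ω, t ω ∈ Γ0 ↔ ω = ω₀ := by
      intro ω
      constructor
      · intro h
        rw [← ht ω, hω₀, QuotientGroup.eq, mul_one]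
        exact Γ0.inv_mem h
      · intro h
        have h1 := ht ω
        rw [h, hω₀, QuotientGroup.eq, mul_one] at h1
        rw [h]
        exact inv_mem_iff.1 h1
    have h0 : Q₀.map (act (t ω₀)).toMonoidHom = Q₀ := (hΓ0m _).1 ((hmem ω₀).2 rfl)
    have hs0 := hsω ω₀
    rw [h0] at hs0
    refine good_kr_pi_dual hP u hF hn E hE hm Q₀ ω₀ hs0 (hEd ω₀) fun ω hω => ?_
    refine hgE ω Q₀ (hgood _ ?_)
    refine lt_of_le_of_ne le_sup_right fun heq => ?_
    have hle : Q₀.map (act (t ω)).toMonoidHom ≤ Q₀ := by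
      conv_rhs => rw [heq]
      exact le_sup_left
    have hcard : Nat.card (Q₀.map (act (t ω)).toMonoidHom) = Nat.card Q₀ :=
      (Nat.card_congr (Q₀.equivMapOfInjective (act (t ω)).toMonoidHom (act (t ω)).injective).toEquiv).symm
    have h2 := Subgroup.eq_of_le_of_card_ge hle hcard.ge
    exact hω ((hmem ω).1 ((hΓ0m _).2 h2))

end Pool.Agent.Lib.H77S
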