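import Pool.Agent.Lib.H77S.Defs

/-! H77S, TI1: products of the operators `twMat` and `piMat`. -/

open scoped BigOperators Kronecker

noncomputable section

namespace Pool.Agent.Lib.H77S

variable {k : Type} [Field k] {ι : Type} [Fintype ι] [DecidableEq ι] {O : Type} [Fintype O] [DecidableEq O]

/-- `piMat` is `twMat` at the identity. -/
theorem twMat_one_eq (h : O → Matrix ι ι k) : twMat (1 : Equiv.Perm O) h = piMat (ι := fun _ => ι) h := rfl

/-- The product of two operators. -/
theorem twMat_mul (s s' : Equiv.Perm O) (h h' : O → Matrix ι ι k) :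
    twMat s h * twMat s' h' = twMat (s * s') (fun o => h (s' o) * h' o) := by
  ext i l
  simp only [twMat, Matrix.of_apply, Matrix.mul_apply, Equiv.Perm.mul_apply]
  have h1 : ∀ j : O → ι, (∏ o, h o (i (s o)) (j o)) * ∏ o, h' o (j (s' o)) (l o) =
      ∏ o, h (s' o) (i (s (s' o))) (j (s' o)) * h' o (j (s' o)) (l o) := by
    intro j
    rw [Finset.prod_mul_distrib]
    congr 1
    exact (Equiv.prod_comp s' (fun o => h o (i (s o)) (j o))).symm
  simp only [h1]
  have h2 : ∑ j : O → ι, ∏ o, h (s' o) (i (s (s' o))) (j (s' o)) * h' o (j (s' o)) (l o) =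
      ∑ m : O → ι, ∏ o, h (s' o) (i (s (s' o))) (m o) * h' o (m o) (l o) := by
    refine Fintype.sum_equiv (Equiv.arrowCongr s'.symm (Equiv.refl ι)) _ _ fun j => ?_
    rfl
  rw [h2, Finset.prod_univ_sum]
  simp only [Fintype.piFinset_univ]

/-- The identity operator. -/
theorem twMat_one : twMat (1 : Equiv.Perm O) (fun _ => (1 : Matrix ι ι k)) = 1 :=
  piMat_one (ι := fun _ : O => ι)

/-- `twMat` times `piMat`. -/
theorem twMat_piMat (s : Equiv.Perm O) (h m : O → Matrix ι ι k) :
    twMat s h * piMat (ι := fun _ => ι) m = twMat s (fun o => h o * m o) := by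
  rw [← twMat_one_eq, twMat_mul, mul_one]
  rfl

/-- `piMat` times `twMat`. -/
theorem piMat_twMat (s : Equiv.Perm O) (m h : O → Matrix ι ι k) :
    piMat (ι := fun _ => ι) m * twMat s h = twMat s (fun o => m (s o) * h o) := by
  rw [← twMat_one_eq, twMat_mul, one_mul]

end Pool.Agent.Lib.H77S
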