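import Pool.Agent.Lib.H77S.TI1

/-! H77S, TI2: the trace of `twMat` (tensor induction), by merging the factors along the cycles. -/

open scoped BigOperators Kronecker

noncomputable section

namespace Pool.Agent.Lib.H77S

variable {k : Type} [Field k] {ι : Type} [Fintype ι] [DecidableEq ι] {O : Type} [Fintype O] [DecidableEq O]

/-- Summation over a coordinate that the function does not see. -/
theorem sum_update (F : (O → ι) → k) (o : O) :
    ∑ i : O → ι, ∑ m : ι, F (Function.update i o m) = (Fintype.card ι : k) * ∑ i, F i := by
  have h1 : ∑ x : (O → ι) × ι, F (Function.update x.1 o x.2) = ∑ x : (O → ι) × ι, F x.1 := by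
    refine Fintype.sum_equiv
      (⟨fun x => (Function.update x.1 o x.2, x.1 o), fun x => (Function.update x.1 o x.2, x.1 o), ?_, ?_⟩ :
        (O → ι) × ι ≃ (O → ι) × ι) _ _ fun x => rfl
    · intro x
      simp
    · intro x
      simp
  rw [Fintype.sum_prod_type, Fintype.sum_prod_type] at h1
  rw [h1]
  simp only [Finset.sum_const, Finset.card_univ, nsmul_eq_mul]
  rw [Finset.mul_sum]

/-- The trace of `twMat`. -/
theorem trace_twMat (s : Equiv.Perm O) (h : O → Matrix ι ι k) :
    Matrix.trace (twMat s h) = ∑ i : O → ι, ∏ o, h o (i (s o)) (i o) := rfl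

/-- Product over all indices, two of them split off. -/
theorem prod_two {o q : O} (hoq : o ≠ q) (f : O → k) :
    ∏ x, f x = f o * (f q * ∏ x ∈ (Finset.univ.erase o).erase q, f x) := by
  rw [← Finset.mul_prod_erase Finset.univ f (Finset.mem_univ o)]
  rw [← Finset.mul_prod_erase (Finset.univ.erase o) f (Finset.mem_erase.2 ⟨hoq.symm, Finset.mem_univ q⟩)]

/-- The index `o` is removed from its cycle; the operators at `o` and at `q = s⁻¹ o` are multiplied. -/
theorem trace_merge (s : Equiv.Perm O) (h : O → Matrix ι ι k) {o q : O} (ho : s o ≠ o) (hq : s q = o) :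
    Matrix.trace (twMat (Equiv.swap o (s o) * s) (Function.update (Function.update h o 1) q (h o * h q))) =
      (Fintype.card ι : k) * Matrix.trace (twMat s h) := by
  have hoq : o ≠ q := by
    intro e
    rw [← e] at hq
    exact ho hq
  rw [trace_twMat, trace_twMat, ← sum_update _ o]
  refine Finset.sum_congr rfl fun i _ => ?_
  rw [prod_two hoq]
  have e1 : (Equiv.swap o (s o) * s) o = o := by
    rw [Equiv.Perm.mul_apply, Equiv.swap_apply_right]
  have e2 : (Equiv.swap o (s o) * s) q = s o := by
    rw [Equiv.Perm.mul_apply, hq, Equiv.swap_apply_left]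
  have e3 : ∀ x ∈ (Finset.univ.erase o).erase q, (Equiv.swap o (s o) * s) x = s x := by
    intro x hx
    obtain ⟨hxq, hx2⟩ := Finset.mem_erase.1 hx
    obtain ⟨hxo, _⟩ := Finset.mem_erase.1 hx2
    rw [Equiv.Perm.mul_apply]
    refine Equiv.swap_apply_of_ne_of_ne ?_ ?_
    · intro e
      exact hxq (s.injective (e.trans hq.symm))
    · intro e
      exact hxo (s.injective e)
  rw [e1, e2, Function.update_of_ne hoq, Function.update_self, Function.update_self, Matrix.one_apply_eq, one_mul,
    Matrix.mul_apply, Finset.sum_mul]
  refine Finset.sum_congr rfl fun m _ => ?_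
  rw [prod_two hoq]
  have hso : s o ≠ o := ho
  rw [Function.update_self, Function.update_of_ne hso, hq, Function.update_self, Function.update_of_ne hoq.symm, mul_assoc]
  congr 2
  refine Finset.prod_congr rfl fun x hx => ?_
  obtain ⟨hxq, hx2⟩ := Finset.mem_erase.1 hx
  obtain ⟨hxo, _⟩ := Finset.mem_erase.1 hx2
  have hsx : s x ≠ o := fun e => hxq (s.injective (e.trans hq.symm))
  rw [e3 x hx, Function.update_of_ne hxq, Function.update_of_ne hxo, Function.update_of_ne hsx, Function.update_of_ne hxo]

/-- The product of the operators along the orbit of `o`, `r` steps. -/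
def loopP (s : Equiv.Perm O) (h : O → Matrix ι ι k) : ℕ → O → Matrix ι ι k
  | 0, _ => 1
  | r + 1, o => h ((s ^ r) o) * loopP s h r o

/-- The sign that occurs in the trace of a tensor induced operator. -/
def sg (d : k) (s : Equiv.Perm O) : k := open Classical in if d = 1 then 1 else ((Equiv.Perm.sign s : ℤ) : k)

/-- If all loops have trace `d = card ι`, `d * d = 1`, then the trace of `twMat` is `± d ^ card O`. -/
theorem trace_twMat_loops (hd : (Fintype.card ι : k) * (Fintype.card ι : k) = 1) :
    ∀ (n : ℕ) (s : Equiv.Perm O) (h : O → Matrix ι ι k), s.support.card ≤ n →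
      (∀ r o, (s ^ r) o = o → Matrix.trace (loopP s h r o) = (Fintype.card ι : k)) →
      Matrix.trace (twMat s h) = sg (Fintype.card ι : k) s * (Fintype.card ι : k) ^ Fintype.card O := by
  intro n
  induction n with
  | zero =>
    intro s h hs H
    have h1 : s = 1 := by
      rw [← Equiv.Perm.support_eq_empty_iff, ← Finset.card_eq_zero]
      exact Nat.le_zero.1 hs
    subst h1
    have h2 : ∀ o, Matrix.trace (h o) = (Fintype.card ι : k) := by
      intro o
      have := H 1 o rfl
      simpa [loopP] using this
    have h3 : Matrix.trace (twMat (1 : Equiv.Perm O) h) = ∏ o, Matrix.trace (h o) := by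
      rw [trace_twMat]
      simp only [Equiv.Perm.coe_one, id_eq, Matrix.trace, Matrix.diag_apply]
      rw [Finset.prod_univ_sum]
      simp only [Fintype.piFinset_univ]
    rw [h3]
    simp only [h2, Finset.prod_const, Finset.card_univ]
    have h4 : sg (Fintype.card ι : k) (1 : Equiv.Perm O) = 1 := by
      unfold sg
      split_ifs
      · rfl
      · simp
    rw [h4, one_mul]
  | succ n ih =>
    intro s h hs H
    by_cases h1 : s = 1
    · refine ih s h ?_ H
      rw [h1, Equiv.Perm.support_one]
      simp
    · obtain ⟨o, ho⟩ : ∃ o, s o ≠ o := by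
        by_contra hne
        push Not at hne
        exact h1 (Equiv.ext hne)
      set q : O := s⁻¹ o with hqdef
      have hq : s q = o := by
        rw [hqdef]
        simp
      have hoq : o ≠ q := by
        intro e
        rw [← e] at hq
        exact ho hq
      have hm := trace_merge s h ho hq
      set s' : Equiv.Perm O := Equiv.swap o (s o) * s with hs'
      set h' : O → Matrix ι ι k := Function.update (Function.update h o 1) q (h o * h q) with hh'
      have e1 : s' o = o := by
        rw [hs', Equiv.Perm.mul_apply, Equiv.swap_apply_right]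
      have e2 : s' q = s o := by
        rw [hs', Equiv.Perm.mul_apply, hq, Equiv.swap_apply_left]
      have e3 : ∀ x, x ≠ o → x ≠ q → s' x = s x := by
        intro x hxo hxq
        rw [hs', Equiv.Perm.mul_apply]
        refine Equiv.swap_apply_of_ne_of_ne ?_ ?_
        · intro e
          exact hxq (s.injective (e.trans hq.symm))
        · intro e
          exact hxo (s.injective e)
      have g1 : h' o = 1 := by
        rw [hh', Function.update_of_ne hoq, Function.update_self]
      have g2 : h' q = h o * h q := by
        rw [hh', Function.update_self]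
      have g3 : ∀ x, x ≠ o → x ≠ q → h' x = h x := by
        intro x hxo hxq
        rw [hh', Function.update_of_ne hxq, Function.update_of_ne hxo]
      have hlt : s'.support.card < s.support.card := Equiv.Perm.card_support_swap_mul ho
      have H' : ∀ r x, (s' ^ r) x = x → Matrix.trace (loopP s' h' r x) = (Fintype.card ι : k) := by
        intro r x hx
        by_cases hxo : x = o
        · subst hxo
          have a1 : ∀ r : ℕ, (s' ^ r) x = x := by
            intro r
            induction r with
            | zero => rfl
            | succ r ihr => rw [pow_succ', Equiv.Perm.mul_apply, ihr, e1]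
          have a2 : ∀ r : ℕ, loopP s' h' r x = 1 := by
            intro r
            induction r with
            | zero => rfl
            | succ r ihr => rw [loopP, a1, g1, ihr, one_mul]
          rw [a2, Matrix.trace_one]
        · have a3 : ∀ r : ℕ, ∃ r₂ : ℕ, (s' ^ r) x = (s ^ r₂) x ∧ loopP s' h' r x = loopP s h r₂ x ∧ (s' ^ r) x ≠ o := by
            intro r
            induction r with
            | zero => exact ⟨0, rfl, rfl, hxo⟩
            | succ r ihr =>
              obtain ⟨r₂, b1, b2, b3⟩ := ihr
              by_cases hy : (s' ^ r) x = q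
              · refine ⟨r₂ + 2, ?_, ?_, ?_⟩
                · rw [pow_succ', Equiv.Perm.mul_apply, hy, e2]
                  rw [pow_succ', Equiv.Perm.mul_apply, pow_succ', Equiv.Perm.mul_apply, ← b1, hy, hq]
                · rw [loopP, hy, g2, b2]
                  rw [loopP, loopP, pow_succ', Equiv.Perm.mul_apply, ← b1, hy, hq, mul_assoc]
                · rw [pow_succ', Equiv.Perm.mul_apply, hy, e2]
                  exact ho
              · refine ⟨r₂ + 1, ?_, ?_, ?_⟩
                · rw [pow_succ', Equiv.Perm.mul_apply, e3 _ b3 hy, b1, pow_succ', Equiv.Perm.mul_apply]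
                · rw [loopP, loopP, g3 _ b3 hy, b1, b2]
                · rw [pow_succ', Equiv.Perm.mul_apply, e3 _ b3 hy]
                  intro e
                  exact hy (s.injective (e.trans hq.symm))
          obtain ⟨r₂, b1, b2, _⟩ := a3 r
          rw [b2]
          exact H r₂ x (by rw [← b1, hx])
      have ih' := ih s' h' (Nat.le_of_lt_succ (lt_of_lt_of_le hlt hs)) H'
      rw [ih'] at hm
      set d : k := (Fintype.card ι : k) with hddef
      have hfin : Matrix.trace (twMat s h) = d * (sg d s' * d ^ Fintype.card O) := by
        rw [hm, ← mul_assoc, hd, one_mul]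
      rw [hfin, ← mul_assoc]
      congr 1
      unfold sg
      split_ifs with hd1
      · rw [hd1, one_mul]
      · have hd2 : d = -1 := by
          have h5 : (d - 1) * (d + 1) = 0 := by
            have : (d - 1) * (d + 1) = d * d - 1 := by ring
            rw [this, hd, sub_self]
          rcases mul_eq_zero.1 h5 with h6 | h6
          · exact absurd (sub_eq_zero.1 h6) hd1
          · exact eq_neg_of_add_eq_zero_left h6
        rw [hd2, hs', Equiv.Perm.sign_mul, Equiv.Perm.sign_swap (Ne.symm ho)]
        push_cast
        ring

end Pool.Agent.Lib.H77S
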